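import Pool.Agent.Lib.MP_b07157_agQV.Nd
import Pool.Agent.Lib.MP_b07157_agQU.XE
import Pool.Agent.Lib.MP_b07157_agCS.N1

/-!
# Sums with powers of new variables: changes of coordinates
-/

noncomputable section

namespace MPb07157

open MvPolynomial

namespace QV

variable {n : ℕ}

/-- The extension of a polynomial map by a new first variable. -/
def ext0 (p : Fin n → MvPolynomial (Fin n) ℂ) : Fin (n + 1) → MvPolynomial (Fin (n + 1)) ℂ :=
  Fin.cons (X 0) fun i => rename Fin.succ (p i)

theorem aeval_ext0 (p : Fin n → MvPolynomial (Fin n) ℂ) (g : MvPolynomial (Fin n) ℂ) :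
    aeval (ext0 p) (rename Fin.succ g) = rename Fin.succ (aeval p g) := by
  have h : (aeval (ext0 p)).comp (rename Fin.succ : MvPolynomial (Fin n) ℂ →ₐ[ℂ] _) =
      (rename Fin.succ : MvPolynomial (Fin n) ℂ →ₐ[ℂ] _).comp (aeval p) := by
    apply MvPolynomial.algHom_ext
    intro i
    rw [AlgHom.comp_apply, AlgHom.comp_apply, rename_X, aeval_X, aeval_X]
    rfl
  exact congrArg (fun z => z g) h

theorem sus0_aeval (p : Fin n → MvPolynomial (Fin n) ℂ) (g : MvPolynomial (Fin n) ℂ) (e : ℕ) :
    sus0 (aeval p g) e = aeval (ext0 p) (sus0 g e) := by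
  unfold sus0
  rw [map_add, map_pow, aeval_X, aeval_ext0]
  rfl

/-- Polynomial changes of coordinates. -/
def Chg (p : Fin n → MvPolynomial (Fin n) ℂ) : Prop :=
  (∀ i, coeff 0 (p i) = 0) ∧ (Matrix.of fun i j => coeff (Finsupp.single j 1) (p i)).det ≠ 0

theorem Chg.ext0 {p : Fin n → MvPolynomial (Fin n) ℂ} (h : Chg p) : Chg (ext0 p) := by
  classical
  obtain ⟨h0, h1⟩ := h
  constructor
  · intro i
    refine Fin.cases ?_ (fun i => ?_) i
    · show coeff 0 (X 0) = 0
      rw [coeff_zero_X]
    · show coeff 0 (rename Fin.succ (p i)) = 0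
      have h2 := h0 i
      rw [← constantCoeff_eq] at h2 ⊢
      rw [constantCoeff_rename, h2]
  · have hrow : ∀ j, coeff (Finsupp.single j 1) (QV.ext0 p 0) = if j = 0 then 1 else 0 := by
      intro j
      show coeff (Finsupp.single j 1) (X 0) = _
      rw [coeff_X]
      by_cases hj : j = 0
      · rw [hj, if_pos rfl, if_pos rfl]
      · rw [if_neg hj, if_neg]
        intro h2
        exact hj (Finsupp.single_left_injective one_ne_zero h2).symm
    have hblk : ∀ i j, coeff (Finsupp.single (Fin.succ j) 1) (QV.ext0 p (Fin.succ i)) =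
        coeff (Finsupp.single j 1) (p i) := by
      intro i j
      show coeff (Finsupp.single (Fin.succ j) 1) (rename Fin.succ (p i)) = _
      rw [← coeff_rename_mapDomain _ (Fin.succ_injective n) (p i) (Finsupp.single j 1),
        Finsupp.mapDomain_single]
    rw [Matrix.det_succ_row_zero, Fin.sum_univ_succ, Finset.sum_eq_zero, add_zero]
    · rw [Matrix.of_apply, hrow, if_pos rfl, mul_one]
      have h2 : (Matrix.of fun i j => coeff (Finsupp.single j 1) (QV.ext0 p i)).submatrix
          Fin.succ (Fin.succAbove 0) = Matrix.of fun i j => coeff (Finsupp.single j 1) (p i) := by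
        ext i j
        rw [Matrix.submatrix_apply, Matrix.of_apply, Matrix.of_apply, Fin.succAbove_zero, hblk]
      rw [h2]
      simpa using h1
    · intro j _
      rw [Matrix.of_apply, hrow, if_neg (Fin.succ_ne_zero j), mul_zero, zero_mul]

theorem Sus.aeval {p : Fin n → MvPolynomial (Fin n) ℂ} (hp : Chg p) {g : MvPolynomial (Fin n) ℂ}
    {m : ℕ} {h : MvPolynomial (Fin m) ℂ} (hs : Sus (MvPolynomial.aeval p g) h) :
    ∃ (p' : Fin m → MvPolynomial (Fin m) ℂ) (h' : MvPolynomial (Fin m) ℂ), Chg p' ∧ Sus g h' ∧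
      h = MvPolynomial.aeval p' h' := by
  induction hs with
  | refl => exact ⟨p, g, hp, Sus.refl, rfl⟩
  | @step m h e he _ ih =>
    obtain ⟨p', h', hp', hs', rfl⟩ := ih
    exact ⟨QV.ext0 p', sus0 h' e, hp'.ext0, hs'.step he, sus0_aeval p' h' e⟩

theorem SuLoc.aeval {p : Fin n → MvPolynomial (Fin n) ℂ} (hp : Chg p)
    {g : MvPolynomial (Fin n) ℂ} (hg : SuLoc g) : SuLoc (MvPolynomial.aeval p g) := by
  intro m h hs
  obtain ⟨p', h', hp', hs', rfl⟩ := hs.aeval hp
  exact QU.smcLoc_aeval hp'.1 hp'.2 (hg m h' hs')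

/-- A linear change of coordinates. -/
theorem suLoc_of_linEq {F G : MvPolynomial (Fin n) ℂ} (h : CS.LinEq F G) (hG : SuLoc G) :
    SuLoc F := by
  classical
  obtain ⟨e, he⟩ := h
  set N : Matrix (Fin n) (Fin n) ℂ := LinearMap.toMatrix' (e.symm : (Fin n → ℂ) →ₗ[ℂ] (Fin n → ℂ))
    with hN
  have hNe : ∀ w, N.mulVec w = e.symm w := by
    intro w
    rw [← Matrix.toLin'_apply, hN, Matrix.toLin'_toMatrix']
    rfl
  have hdet : N.det ≠ 0 := by
    intro h0
    obtain ⟨v, hv, hv0⟩ := Matrix.exists_mulVec_eq_zero_iff.2 h0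
    rw [hNe] at hv0
    exact hv ((LinearEquiv.map_eq_zero_iff e.symm).1 hv0)
  set p : Fin n → MvPolynomial (Fin n) ℂ := fun i => ∑ j, C (N i j) * X j with hp
  have hco : ∀ i j, coeff (Finsupp.single j 1) (p i) = N i j := by
    intro i j
    rw [hp, coeff_sum, Finset.sum_eq_single j]
    · rw [coeff_C_mul, coeff_X, if_pos rfl, mul_one]
    · intro k _ hk
      rw [coeff_C_mul, coeff_X, if_neg, mul_zero]
      intro h1
      exact hk (Finsupp.single_left_injective one_ne_zero h1)
    · intro hk
      exact absurd (Finset.mem_univ j) hk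
  have hc0 : ∀ i, coeff 0 (p i) = 0 := by
    intro i
    rw [hp, coeff_sum]
    refine Finset.sum_eq_zero fun j _ => ?_
    rw [coeff_C_mul, coeff_zero_X, mul_zero]
  have hchg : Chg p := by
    refine ⟨hc0, ?_⟩
    have : (Matrix.of fun i j => coeff (Finsupp.single j 1) (p i)) = N := by
      ext i j
      rw [Matrix.of_apply, hco]
    rw [this]
    exact hdet
  have hF : F = MvPolynomial.aeval p G := by
    refine MvPolynomial.funext fun w => ?_
    have h2 : ∀ g : MvPolynomial (Fin n) ℂ,
        eval w (MvPolynomial.aeval p g) = eval (fun i => eval w (p i)) g := by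
      intro g
      induction g using MvPolynomial.induction_on with
      | C a => rw [aeval_C, algebraMap_eq, eval_C, eval_C]
      | add p q hp hq => rw [map_add, map_add, map_add, hp, hq]
      | mul_X p k hp => rw [map_mul, map_mul, map_mul, aeval_X, eval_X, hp]
    rw [h2]
    have h3 : (fun i => eval w (p i)) = e.symm w := by
      rw [← hNe]
      funext i
      rw [hp, map_sum, Matrix.mulVec, dotProduct]
      refine Finset.sum_congr rfl fun j _ => ?_
      rw [map_mul, eval_C, eval_X]
    rw [h3, ← he, LinearEquiv.apply_symm_apply]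
  rw [hF]
  exact hG.aeval hchg

theorem sus0_stab (g : MvPolynomial (Fin n) ℂ) (e : ℕ) : sus0 (stab g) e = stab (sus0 g e) := by
  unfold sus0 stab
  rw [map_add, map_add, map_mul, rename_X, rename_X, map_pow, rename_X, rename_rename, rename_rename]
  exact (add_assoc _ _ _).symm

theorem Sus.stab {g : MvPolynomial (Fin n) ℂ} {m : ℕ} {h : MvPolynomial (Fin m) ℂ} (hs : Sus g h) :
    Sus (stab g) (stab h) := by
  induction hs with
  | refl => exact Sus.refl
  | @step m h e he _ ih =>
    rw [← sus0_stab]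
    exact ih.step he

theorem Sus.ne_zero {g : MvPolynomial (Fin n) ℂ} {m : ℕ} {h : MvPolynomial (Fin m) ℂ}
    (hs : Sus g h) (hg : g ≠ 0) : h ≠ 0 := by
  induction hs with
  | refl => exact hg
  | step he _ ih => exact sus0_ne_zero _ (by omega)

theorem Sus.coeff_zero {g : MvPolynomial (Fin n) ℂ} {m : ℕ} {h : MvPolynomial (Fin m) ℂ}
    (hs : Sus g h) (hg : coeff 0 g = 0) : coeff 0 h = 0 := by
  induction hs with
  | refl => exact hg
  | step he _ ih => exact coeff_zero_sus0 (by omega) ih

theorem SuLoc.of_stab {g : MvPolynomial (Fin n) ℂ} (hg : g ≠ 0) (h0 : coeff 0 g = 0)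
    (h : SuLoc (MPb07157.stab g)) : SuLoc g :=
  fun _ _ hs => SmcLoc.of_stab (hs.ne_zero hg) (hs.coeff_zero h0) (h _ _ hs.stab)

end QV

end MPb07157
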