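import Pool.Agent.Lib.MP_b07157_agQV.Chg
import Pool.Agent.Lib.MP_b07157_agI.SqM

/-!
# Non-degenerate initial parts; semi-quasi-homogeneous germs
-/

noncomputable section

namespace MPb07157

open MvPolynomial

namespace QV

variable {n : ℕ}

theorem eval_initialPart {F : MvPolynomial (Fin n) ℂ} (w : Fin n → ℕ) {m : ℕ} (u : Fin n → ℂ)
    (hm : ∀ v ∈ F.support, m ≤ ∑ j, w j * v j) (hex : ∃ v ∈ F.support, ∑ j, w j * v j = m)
    (i : Fin n) : eval u (X i * pderiv i (initialPart F w)) = Lf (ph w m u i) F := by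
  classical
  obtain ⟨v0, hv0, hv0m⟩ := hex
  obtain ⟨S, hS1, hS2⟩ : ∃ S : Finset (Fin n →₀ ℕ),
      initialPart F w = ∑ v ∈ S, monomial v (coeff v F) ∧
      ∀ v, v ∈ S ↔ v ∈ F.support ∧ ∀ u ∈ F.support, ∑ j, w j * v j ≤ ∑ j, w j * u j :=
    ⟨_, rfl, fun v => Finset.mem_filter⟩
  have hS3 : S = F.support.filter fun v => ∑ j, w j * v j = m := by
    ext v
    rw [hS2, Finset.mem_filter]
    constructor
    · rintro ⟨h3, h4⟩
      exact ⟨h3, le_antisymm (hv0m ▸ h4 v0 hv0) (hm v h3)⟩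
    · rintro ⟨h3, h4⟩
      exact ⟨h3, fun x hx => by rw [h4]; exact hm x hx⟩
  rw [hS1, map_sum, Finset.mul_sum, map_sum, hS3, Finset.sum_filter]
  unfold Lf
  refine Finset.sum_congr rfl fun v _ => ?_
  unfold ph
  split_ifs with h6
  · rw [X_mul_pderiv_monomial, map_nsmul, nsmul_eq_mul, eval_monomial,
      Finsupp.prod_fintype _ _ (fun i => pow_zero _)]
    ring
  · rw [mul_zero]

/-- **Non-degenerate**: all initial parts have no critical points in the torus. -/
theorem ND.of_initialPart {F : MvPolynomial (Fin n) ℂ} (hF : F ≠ 0) (h0 : coeff 0 F = 0)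
    (h : ∀ w : Fin n → ℕ, (∀ i, 0 < w i) → ∀ u : Fin n → ℂ, (∀ i, u i ≠ 0) →
      ∃ i, eval u (pderiv i (initialPart F w)) ≠ 0) : ND F := by
  refine ⟨hF, h0, fun w m u hw hu hm hex => ?_⟩
  obtain ⟨i, hi⟩ := h w hw u hu
  refine ⟨i, ?_⟩
  rw [← eval_initialPart w u hm hex i, map_mul, eval_X]
  exact mul_ne_zero (hu i) hi

/-- It is enough to look at the zeros (the initial part is weighted homogeneous of positive weight). -/
theorem ND.of_isNondeg {F : MvPolynomial (Fin n) ℂ} (hF : F ≠ 0) (h0 : coeff 0 F = 0)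
    (h : ∀ w : Fin n → ℕ, (∀ i, 0 < w i) → IsNondeg (initialPart F w)) : ND F := by
  classical
  refine ND.of_initialPart hF h0 fun w hw u hu => ?_
  by_contra hcon
  push Not at hcon
  obtain ⟨v0, hv0, hmin⟩ := Finset.exists_min_image F.support (fun v => ∑ j, w j * v j)
    (support_nonempty.2 hF)
  have hpos : 0 < ∑ j, w j * v0 j := by
    have h1 : v0 ≠ 0 := by
      rintro rfl
      exact mem_support_iff.1 hv0 h0
    obtain ⟨j, hj⟩ : ∃ j, v0 j ≠ 0 := by
      by_contra hc
      push Not at hc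
      exact h1 (Finsupp.ext hc)
    exact lt_of_lt_of_le (Nat.mul_pos (hw j) (Nat.pos_of_ne_zero hj))
      (Finset.single_le_sum (f := fun j => w j * v0 j) (fun _ _ => Nat.zero_le _)
        (Finset.mem_univ j))
  have hE : ∑ i, (w i : ℂ) * eval u (X i * pderiv i (initialPart F w)) =
      ((∑ j, w j * v0 j : ℕ) : ℂ) * eval u (initialPart F w) := by
    obtain ⟨S, hS1, hS2⟩ : ∃ S : Finset (Fin n →₀ ℕ),
        initialPart F w = ∑ v ∈ S, monomial v (coeff v F) ∧
        ∀ v, v ∈ S ↔ v ∈ F.support ∧ ∀ u ∈ F.support, ∑ j, w j * v j ≤ ∑ j, w j * u j :=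
      ⟨_, rfl, fun v => Finset.mem_filter⟩
    rw [hS1]
    simp only [map_sum, Finset.mul_sum, X_mul_pderiv_monomial, nsmul_eq_mul]
    rw [Finset.sum_comm]
    refine Finset.sum_congr rfl fun v hv => ?_
    have h2 : ∑ j, w j * v j = ∑ j, w j * v0 j :=
      le_antisymm (((hS2 v).1 hv).2 v0 hv0) (hmin v ((hS2 v).1 hv).1)
    rw [← h2]
    push_cast
    rw [Finset.sum_mul]
    refine Finset.sum_congr rfl fun j _ => ?_
    rw [map_mul, map_natCast]
    ring
  have hz : eval u (initialPart F w) = 0 := by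
    have h3 : ((∑ j, w j * v0 j : ℕ) : ℂ) * eval u (initialPart F w) = 0 := by
      rw [← hE]
      refine Finset.sum_eq_zero fun i _ => ?_
      rw [map_mul, hcon i, mul_zero, mul_zero]
    exact (mul_eq_zero.1 h3).resolve_left (by exact_mod_cast hpos.ne')
  obtain ⟨j, hj⟩ := h w hw u hu hz
  exact hj (hcon j)

/-- Semi-quasi-homogeneous with an isolated singularity. -/
def SQ (F : MvPolynomial (Fin n) ℂ) : Prop :=
  F ≠ 0 ∧ coeff 0 F = 0 ∧ ∃ w : Fin n → ℕ, (∀ i, 0 < w i) ∧
    ∀ p : Fin n → ℂ, p ≠ 0 → ∃ i, eval p (pderiv i (initialPart F w)) ≠ 0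

/-- The terms of weight `m`. -/
def Pw (w : Fin n → ℕ) (m : ℕ) (F : MvPolynomial (Fin n) ℂ) : MvPolynomial (Fin n) ℂ :=
  ∑ v ∈ F.support, if ∑ j, w j * v j = m then monomial v (coeff v F) else 0

theorem initialPart_eq_Pw {F : MvPolynomial (Fin n) ℂ} (w : Fin n → ℕ) {m : ℕ}
    (hm : ∀ v ∈ F.support, m ≤ ∑ j, w j * v j) (hex : ∃ v ∈ F.support, ∑ j, w j * v j = m) :
    initialPart F w = Pw w m F := by
  classical
  obtain ⟨v0, hv0, hv0m⟩ := hex
  obtain ⟨S, hS1, hS2⟩ : ∃ S : Finset (Fin n →₀ ℕ),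
      initialPart F w = ∑ v ∈ S, monomial v (coeff v F) ∧
      ∀ v, v ∈ S ↔ v ∈ F.support ∧ ∀ u ∈ F.support, ∑ j, w j * v j ≤ ∑ j, w j * u j :=
    ⟨_, rfl, fun v => Finset.mem_filter⟩
  have hS3 : S = F.support.filter fun v => ∑ j, w j * v j = m := by
    ext v
    rw [hS2, Finset.mem_filter]
    constructor
    · rintro ⟨h3, h4⟩
      exact ⟨h3, le_antisymm (hv0m ▸ h4 v0 hv0) (hm v h3)⟩
    · rintro ⟨h3, h4⟩
      exact ⟨h3, fun x hx => by rw [h4]; exact hm x hx⟩
  rw [hS1, hS3, Finset.sum_filter]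
  rfl

theorem coeff_Pw (w : Fin n → ℕ) (m : ℕ) (F : MvPolynomial (Fin n) ℂ) (v : Fin n →₀ ℕ) :
    coeff v (Pw w m F) = if ∑ j, w j * v j = m then coeff v F else 0 := by
  classical
  unfold Pw
  rw [coeff_sum]
  by_cases hv : v ∈ F.support
  · rw [Finset.sum_eq_single v]
    · split_ifs
      · rw [coeff_monomial, if_pos rfl]
      · rw [coeff_zero]
    · intro v' _ hne
      split_ifs
      · rw [coeff_monomial, if_neg hne]
      · rw [coeff_zero]
    · intro h
      exact absurd hv h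
  · rw [Finset.sum_eq_zero]
    · rw [notMem_support_iff.1 hv, ite_self]
    · intro v' hv'
      have hne : v' ≠ v := fun h => hv (h ▸ hv')
      split_ifs
      · rw [coeff_monomial, if_neg hne]
      · rw [coeff_zero]

theorem Pw_add (w : Fin n → ℕ) (m : ℕ) (F G : MvPolynomial (Fin n) ℂ) :
    Pw w m (F + G) = Pw w m F + Pw w m G := by
  ext v
  rw [coeff_add, coeff_Pw, coeff_Pw, coeff_Pw, coeff_add]
  split_ifs
  · rfl
  · rw [add_zero]

theorem Pw_sus0 (w : Fin (n + 1) → ℕ) (m : ℕ) (g : MvPolynomial (Fin n) ℂ) {e : ℕ}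
    (he : w 0 * e = m) : Pw w m (sus0 g e) = sus0 (Pw (fun j => w j.succ) m g) e := by
  classical
  unfold sus0
  rw [Pw_add]
  congr 1
  · ext v
    rw [coeff_Pw, coeff_X_pow]
    by_cases h : Finsupp.single 0 e = v
    · rw [if_pos h, if_pos]
      rw [← h, Fin.sum_univ_succ, Finsupp.single_eq_same, Finset.sum_eq_zero, add_zero, he]
      intro j _
      rw [Finsupp.single_eq_of_ne (Fin.succ_ne_zero j), mul_zero]
    · rw [if_neg h, ite_self]
  · ext v
    rw [coeff_Pw]
    by_cases hv : ∃ v' : Fin n →₀ ℕ, Finsupp.mapDomain Fin.succ v' = v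
    · obtain ⟨v', rfl⟩ := hv
      rw [coeff_rename_mapDomain _ (Fin.succ_injective n),
        coeff_rename_mapDomain _ (Fin.succ_injective n), coeff_Pw, Fin.sum_univ_succ, md_zero,
        mul_zero, zero_add]
      simp only [md_succ]
    · rw [coeff_rename_eq_zero, coeff_rename_eq_zero, ite_self]
      · intro u hu
        exact absurd ⟨u, hu⟩ hv
      · intro u hu
        exact absurd ⟨u, hu⟩ hv

theorem eval_pderiv_sus0_zero (g : MvPolynomial (Fin n) ℂ) (e : ℕ) (p : Fin (n + 1) → ℂ) :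
    eval p (pderiv 0 (sus0 g e)) = e * p 0 ^ (e - 1) := by
  unfold sus0
  have h1 : pderiv 0 (rename Fin.succ g : MvPolynomial (Fin (n + 1)) ℂ) = 0 := by
    induction g using MvPolynomial.induction_on with
    | C a => rw [rename_C, pderiv_C]
    | add p q hp hq => rw [map_add, map_add, hp, hq, add_zero]
    | mul_X p k hp =>
      rw [map_mul, rename_X, pderiv_mul, hp, pderiv_X_of_ne (Fin.succ_ne_zero k), zero_mul,
        mul_zero, add_zero]
  rw [map_add, h1, add_zero, pderiv_pow, pderiv_X_self, mul_one, map_mul, map_pow, eval_X,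
    map_natCast]

theorem eval_pderiv_sus0_succ (g : MvPolynomial (Fin n) ℂ) (e : ℕ) (p : Fin (n + 1) → ℂ)
    (i : Fin n) : eval p (pderiv i.succ (sus0 g e)) = eval (fun j => p j.succ) (pderiv i g) := by
  classical
  unfold sus0
  have h1 : pderiv i.succ (rename Fin.succ g : MvPolynomial (Fin (n + 1)) ℂ) =
      rename Fin.succ (pderiv i g) := by
    induction g using MvPolynomial.induction_on with
    | C a => rw [rename_C, pderiv_C, pderiv_C, map_zero]
    | add p q hp hq => rw [map_add, map_add, hp, hq, map_add, map_add]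
    | mul_X p k hp =>
      rw [map_mul, rename_X, pderiv_mul, hp, pderiv_mul, map_add, map_mul, map_mul, rename_X]
      by_cases hk : k = i
      · subst hk
        rw [pderiv_X_self, pderiv_X_self, map_one]
      · rw [pderiv_X_of_ne hk, pderiv_X_of_ne fun h => hk (Fin.succ_injective n h), map_zero]
  rw [map_add, h1, pderiv_pow, pderiv_X_of_ne (Fin.succ_ne_zero i).symm, mul_zero, zero_add,
    eval_rename]
  rfl

theorem SQ.sus0 {g : MvPolynomial (Fin n) ℂ} (h : SQ g) {e : ℕ} (he : 2 ≤ e) :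
    SQ (QV.sus0 g e) := by
  classical
  obtain ⟨hg, h0, w, hw, H⟩ := h
  have he0 : 0 < e := by omega
  refine ⟨sus0_ne_zero g he0, coeff_zero_sus0 he0 h0, ?_⟩
  obtain ⟨v0, hv0, hmin⟩ := Finset.exists_min_image g.support (fun v => ∑ j, w j * v j)
    (support_nonempty.2 hg)
  obtain ⟨N, hN⟩ : ∃ N, N = ∑ j, w j * v0 j := ⟨_, rfl⟩
  have hpos : 0 < N := by
    have h1 : v0 ≠ 0 := by
      rintro rfl
      exact mem_support_iff.1 hv0 h0
    obtain ⟨j, hj⟩ : ∃ j, v0 j ≠ 0 := by
      by_contra hc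
      push Not at hc
      exact h1 (Finsupp.ext hc)
    rw [hN]
    exact lt_of_lt_of_le (Nat.mul_pos (hw j) (Nat.pos_of_ne_zero hj))
      (Finset.single_le_sum (f := fun j => w j * v0 j) (fun _ _ => Nat.zero_le _)
        (Finset.mem_univ j))
  obtain ⟨W, hW⟩ : ∃ W : Fin (n + 1) → ℕ, W = Fin.cons N fun j => e * w j := ⟨_, rfl⟩
  have hW0 : W 0 = N := by rw [hW, Fin.cons_zero]
  have hWs : ∀ j, W (Fin.succ j) = e * w j := fun j => by rw [hW, Fin.cons_succ]
  have hwt : ∀ v : Fin n →₀ ℕ, ∑ j, W j * Finsupp.mapDomain Fin.succ v j =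
      e * ∑ j, w j * v j := by
    intro v
    rw [Fin.sum_univ_succ, md_zero, mul_zero, zero_add, Finset.mul_sum]
    refine Finset.sum_congr rfl fun j _ => ?_
    rw [md_succ, hWs]
    ring
  have hwe : ∑ j, W j * (Finsupp.single 0 e : Fin (n + 1) →₀ ℕ) j = N * e := by
    rw [Fin.sum_univ_succ, Finsupp.single_eq_same, Finset.sum_eq_zero, add_zero, hW0]
    intro j _
    rw [Finsupp.single_eq_of_ne (Fin.succ_ne_zero j), mul_zero]
  have hI : initialPart (QV.sus0 g e) W = QV.sus0 (initialPart g w) e := by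
    rw [initialPart_eq_Pw W (m := N * e), Pw_sus0 W (N * e) g (by rw [hW0]),
      initialPart_eq_Pw w (m := N) (fun v hv => by rw [hN]; exact hmin v hv)
        ⟨v0, hv0, hN.symm⟩]
    · congr 1
      ext v
      rw [coeff_Pw, coeff_Pw]
      have h1 : ∑ j, W (Fin.succ j) * v j = e * ∑ j, w j * v j := by
        rw [Finset.mul_sum]
        refine Finset.sum_congr rfl fun j _ => ?_
        rw [hWs]
        ring
      have h2 : (∑ j, W (Fin.succ j) * v j = N * e) ↔ ∑ j, w j * v j = N := by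
        rw [h1, mul_comm N e]
        exact Nat.mul_right_inj he0.ne'
      simp only [h2]
    · intro v hv
      have h1 : v ∈ (X 0 ^ e : MvPolynomial (Fin (n + 1)) ℂ).support ∪
          (rename Fin.succ g).support := support_add hv
      rw [Finset.mem_union] at h1
      rcases h1 with h1 | h1
      · rw [X_pow_eq_monomial] at h1
        rw [Finset.mem_singleton.1 (support_monomial_subset h1), hwe]
      · rw [support_rename_of_injective (Fin.succ_injective n), Finset.mem_image] at h1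
        obtain ⟨v', hv', rfl⟩ := h1
        have h2 : ∑ j, W j * (Finsupp.mapDomain Fin.succ v') j = e * ∑ j, w j * v' j := hwt v'
        rw [h2, hN, mul_comm]
        exact Nat.mul_le_mul_left e (hmin v' hv')
    · refine ⟨Finsupp.single 0 e, ?_, hwe⟩
      rw [mem_support_iff, coeff_sus0_single g he0]
      exact one_ne_zero
  refine ⟨W, fun i => ?_, fun p hp => ?_⟩
  · refine Fin.cases ?_ (fun j => ?_) i
    · rw [hW0]
      exact hpos
    · rw [hWs]
      exact Nat.mul_pos he0 (hw j)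
  · rw [hI]
    by_cases hp0 : p 0 = 0
    · have hp' : (fun j => p (Fin.succ j)) ≠ 0 := by
        intro h1
        apply hp
        funext j
        refine Fin.cases hp0 (fun j => ?_) j
        exact congrFun h1 j
      obtain ⟨i, hi⟩ := H _ hp'
      exact ⟨i.succ, by rw [eval_pderiv_sus0_succ]; exact hi⟩
    · refine ⟨0, ?_⟩
      rw [eval_pderiv_sus0_zero]
      exact mul_ne_zero (by exact_mod_cast he0.ne') (pow_ne_zero _ hp0)

theorem Sus.sq {g : MvPolynomial (Fin n) ℂ} (hg : SQ g) {m : ℕ} {h : MvPolynomial (Fin m) ℂ}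
    (hs : Sus g h) : SQ h := by
  induction hs with
  | refl => exact hg
  | step he _ ih => exact ih.sus0 he

theorem SQ.smcLoc {F : MvPolynomial (Fin n) ℂ} (h : SQ F) : SmcLoc F := by
  obtain ⟨hF, h0, w, hw, h⟩ := h
  exact SmcLoc.of_sqh hw h hF h0

/-- **Semi-quasi-homogeneous germs.** -/
theorem SuLoc.of_sqh {f : MvPolynomial (Fin n) ℂ} {w : Fin n → ℕ} (hw : ∀ i, 0 < w i)
    (h : ∀ p : Fin n → ℂ, p ≠ 0 → ∃ i, eval p (pderiv i (initialPart f w)) ≠ 0)
    (hf : f ≠ 0) (h0 : coeff 0 f = 0) : SuLoc f :=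
  fun _ _ hs => (hs.sq ⟨hf, h0, w, hw, h⟩).smcLoc

end QV

end MPb07157
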