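import Pool.Agent.Lib.MP_b07157_agQU.Defs
import Pool.Agent.Lib.MP_b07157_agQV.Chg
import Pool.Agent.Lib.MP_b07157_agCS.N1
import Pool.Agent.Lib.MP_b07157_agLC.Lin

/-!
# Cubic forms with a square factor: normal forms
-/

noncomputable section

namespace MPb07157

open MvPolynomial

namespace QV

open QU

private def cqm (i j k : ℕ) : Fin 3 →₀ ℕ :=
  Finsupp.single 0 i + Finsupp.single 1 j + Finsupp.single 2 k

private theorem cqm_0 (i j k : ℕ) : cqm i j k 0 = i := by
  simp [cqm]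

private theorem cqm_1 (i j k : ℕ) : cqm i j k 1 = j := by
  simp [cqm]

private theorem cqm_2 (i j k : ℕ) : cqm i j k 2 = k := by
  simp [cqm]

private theorem cq_mon (i j k : ℕ) (a : ℂ) :
    (monomial (cqm i j k) a : MvPolynomial (Fin 3) ℂ) =
      C a * (X 0 ^ i * X 1 ^ j * X 2 ^ k) := by
  rw [monomial_eq, Finsupp.prod_fintype _ _ (fun _ => pow_zero _), Fin.prod_univ_three,
    cqm_0, cqm_1, cqm_2]

private theorem cq_sum {q : MvPolynomial (Fin 3) ℂ} (hq : q.IsHomogeneous 4) :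
    q = ∑ i ∈ Finset.range 5, ∑ j ∈ Finset.range (5 - i),
      C (coeff (cqm i j (4 - i - j)) q) * (X 0 ^ i * X 1 ^ j * X 2 ^ (4 - i - j)) := by
  simp only [← cq_mon]
  refine MvPolynomial.ext _ _ fun d => ?_
  simp only [coeff_sum, coeff_monomial]
  by_cases hd : d 0 + d 1 + d 2 = 4
  · have hd' : d = cqm (d 0) (d 1) (4 - d 0 - d 1) := by
      have h2 : 4 - d 0 - d 1 = d 2 := by omega
      rw [h2]
      refine Finsupp.ext fun i => ?_
      fin_cases i
      · exact (cqm_0 _ _ _).symm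
      · exact (cqm_1 _ _ _).symm
      · exact (cqm_2 _ _ _).symm
    rw [Finset.sum_eq_single_of_mem (d 0) (Finset.mem_range.mpr (by omega)),
      Finset.sum_eq_single_of_mem (d 1) (Finset.mem_range.mpr (by omega)), if_pos hd'.symm, ← hd']
    · intro j _ hj
      rw [if_neg]
      intro h
      apply hj
      rw [← h, cqm_1]
    · intro i _ hi
      refine Finset.sum_eq_zero fun j _ => ?_
      rw [if_neg]
      intro h
      apply hi
      rw [← h, cqm_0]
  · rw [hq.coeff_eq_zero]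
    · symm
      refine Finset.sum_eq_zero fun i hi => Finset.sum_eq_zero fun j hj => ?_
      rw [Finset.mem_range] at hi hj
      rw [if_neg]
      rintro rfl
      apply hd
      rw [cqm_0, cqm_1, cqm_2]
      omega
    · rw [Finsupp.degree_eq_sum, Fin.sum_univ_three]
      exact hd

/-- Every quartic form in three variables is a `qf`. -/
theorem exists_qf {q : MvPolynomial (Fin 3) ℂ} (hq : q.IsHomogeneous 4) :
    ∃ b0 b1 b2 b3 b4 a0 a1 a2 a3 e0 e1 e2 l0 l1 k : ℂ,
      q = qf b0 b1 b2 b3 b4 a0 a1 a2 a3 e0 e1 e2 l0 l1 k := by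
  refine ⟨coeff (cqm 0 0 4) q, coeff (cqm 0 1 3) q, coeff (cqm 0 2 2) q, coeff (cqm 0 3 1) q,
    coeff (cqm 0 4 0) q, coeff (cqm 1 0 3) q, coeff (cqm 1 1 2) q, coeff (cqm 1 2 1) q,
    coeff (cqm 1 3 0) q, coeff (cqm 2 0 2) q, coeff (cqm 2 1 1) q, coeff (cqm 2 2 0) q,
    coeff (cqm 3 0 1) q, coeff (cqm 3 1 0) q, coeff (cqm 4 0 0) q, ?_⟩
  refine (cq_sum hq).trans ?_
  unfold qf
  simp only [Finset.sum_range_succ, Finset.sum_range_zero, Nat.reduceSub, zero_add, pow_zero,
    pow_one, one_mul, mul_one, Nat.sub_zero]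
  ring

private theorem cq_aeval_hom {q : MvPolynomial (Fin 3) ℂ} (hq : q.IsHomogeneous 4)
    (M : Matrix (Fin 3) (Fin 3) ℂ) : (aeval (LC.subM M) q).IsHomogeneous 4 := by
  have h := hq.aeval (LC.subM M) (n := 1) (fun i => IsHomogeneous.sum _ _ _ fun j _ => by
    have := (isHomogeneous_C (Fin 3) (M i j)).mul (isHomogeneous_X ℂ j)
    simpa using this)
  simpa using h

/-- A change of coordinates with given first two rows. -/
private theorem cq_matrix {a b : Fin 3 → ℂ} (h : ¬ ∀ i j, a i * b j = a j * b i) :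
    ∃ M : Matrix (Fin 3) (Fin 3) ℂ, M.det ≠ 0 ∧
      ∀ w : Fin 3 → ℂ, ∑ i, a i * M.mulVec w i = w 0 ∧ ∑ i, b i * M.mulVec w i = w 1 := by
  obtain ⟨r, hr⟩ : ∃ r : Fin 3 → ℂ, (Matrix.of ![a, b, r]).det ≠ 0 := by
    by_contra hcon
    push Not at hcon
    apply h
    have h0 := hcon ![1, 0, 0]
    have h1 := hcon ![0, 1, 0]
    have h2 := hcon ![0, 0, 1]
    rw [Matrix.det_fin_three] at h0 h1 h2
    simp at h0 h1 h2
    intro i j
    fin_cases i <;> fin_cases j <;> simp <;> first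
      | ring1
      | linear_combination h0
      | linear_combination -h0
      | linear_combination h1
      | linear_combination -h1
      | linear_combination h2
      | linear_combination -h2
  set N : Matrix (Fin 3) (Fin 3) ℂ := Matrix.of ![a, b, r] with hN
  have hu : IsUnit N.det := isUnit_iff_ne_zero.2 hr
  refine ⟨N⁻¹, ?_, ?_⟩
  · rw [Matrix.det_nonsing_inv]
    exact (isUnit_ringInverse.2 hu).ne_zero
  · intro w
    have h1 : N.mulVec ((N⁻¹).mulVec w) = w := by
      rw [Matrix.mulVec_mulVec, Matrix.mul_nonsing_inv _ hu, Matrix.one_mulVec]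
    exact ⟨congrFun h1 0, congrFun h1 1⟩

/-- `c = l^2 m` (`LC.exists_square`), `l`, `m` linear forms, `l ≠ 0`, `m ≠ 0`. If `m` is a multiple
of `l`, choose linear coordinates with `c = X 0 ^ 3` (`LC.exists_coordM` and a scaling); otherwise
with `c = X 0 ^ 2 * X 1`. `CS.LinEq.smcLoc` (agCS/N1) for the change of coordinates. The quartic
part stays a quartic form: `exists_qf`. -/
theorem suLoc_cq
    (h1 : ∀ b0 b1 b2 b3 b4 a0 a1 a2 a3 e0 e1 e2 l0 l1 k : ℂ,
      SuLoc (X 0 ^ 2 * X 1 + qf b0 b1 b2 b3 b4 a0 a1 a2 a3 e0 e1 e2 l0 l1 k))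
    (h2 : ∀ b0 b1 b2 b3 b4 a0 a1 a2 a3 e0 e1 e2 l0 l1 k : ℂ,
      SuLoc (X 0 ^ 3 + qf b0 b1 b2 b3 b4 a0 a1 a2 a3 e0 e1 e2 l0 l1 k))
    {c q : MvPolynomial (Fin 3) ℂ} (hc : c.IsHomogeneous 3) (hc0 : c ≠ 0) (hs : ¬ Squarefree c)
    (hq : q.IsHomogeneous 4) : SuLoc (c + q) := by
  obtain ⟨l, m, hl, hl0, hm, hclm⟩ := (LC.exists_square hc hs).resolve_left hc0
  have hm0 : m ≠ 0 := by
    rintro rfl
    rw [mul_zero] at hclm
    exact hc0 hclm
  have hevl : ∀ z, eval z l = ∑ i, coeff (Finsupp.single i 1) l * z i :=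
    fun z => OR.eval_of_isHomogeneous_one hl z
  have hevm : ∀ z, eval z m = ∑ i, coeff (Finsupp.single i 1) m * z i :=
    fun z => OR.eval_of_isHomogeneous_one hm z
  by_cases hprop : ∀ i j, coeff (Finsupp.single i 1) l * coeff (Finsupp.single j 1) m =
      coeff (Finsupp.single j 1) l * coeff (Finsupp.single i 1) m
  · obtain ⟨i₀, hi₀⟩ : ∃ i, coeff (Finsupp.single i 1) l ≠ 0 := by
      by_contra hcon
      push Not at hcon
      apply hl0
      refine MvPolynomial.funext fun z => ?_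
      rw [hevl, map_zero]
      exact Finset.sum_eq_zero fun i _ => by rw [hcon, zero_mul]
    set μ : ℂ := coeff (Finsupp.single i₀ 1) m / coeff (Finsupp.single i₀ 1) l with hμ
    have hml : m = C μ * l := by
      refine MvPolynomial.funext fun z => ?_
      rw [map_mul, eval_C, hevl, hevm, Finset.mul_sum]
      refine Finset.sum_congr rfl fun j _ => ?_
      have h3 := hprop i₀ j
      have h4 : coeff (Finsupp.single j 1) m = μ * coeff (Finsupp.single j 1) l := by
        rw [hμ, div_mul_eq_mul_div, eq_div_iff hi₀]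
        linear_combination h3
      rw [h4, mul_assoc]
    have hμ0 : μ ≠ 0 := by
      intro h0
      rw [h0, map_zero, zero_mul] at hml
      exact hm0 hml
    obtain ⟨ν, hν⟩ := IsAlgClosed.exists_pow_nat_eq μ (n := 3) (by norm_num)
    have hν0 : ν ≠ 0 := by
      rintro rfl
      rw [zero_pow (by norm_num)] at hν
      exact hμ0 hν.symm
    have hl' : (C ν * l).IsHomogeneous 1 := by
      have := (isHomogeneous_C (Fin 3) ν).mul hl
      simpa using this
    have hl'0 : C ν * l ≠ 0 := mul_ne_zero (by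
      intro h
      exact hν0 ((C_eq_zero).mp h)) hl0
    obtain ⟨M, hM, hM'⟩ := LC.exists_coordM hl' hl'0
    obtain ⟨b0, b1, b2, b3, b4, a0, a1, a2, a3, e0, e1, e2, l0, l1, k, hqf⟩ :=
      exists_qf (cq_aeval_hom hq M)
    refine suLoc_of_linEq (CS.LinEq.of_matrix M hM fun w => ?_)
      (h2 b0 b1 b2 b3 b4 a0 a1 a2 a3 e0 e1 e2 l0 l1 k)
    rw [← hqf, map_add, map_add, LC.eval_subM, map_pow, eval_X]
    congr 1
    have h5 : c = (C ν * l) ^ 3 := by
      rw [hclm, hml, mul_pow, ← map_pow, hν]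
      ring
    have h6 := LC.eval_subM M w (C ν * l)
    rw [hM', eval_X] at h6
    rw [h5, map_pow, ← h6]
  · obtain ⟨M, hM, hw⟩ := cq_matrix hprop
    obtain ⟨b0, b1, b2, b3, b4, a0, a1, a2, a3, e0, e1, e2, l0, l1, k, hqf⟩ :=
      exists_qf (cq_aeval_hom hq M)
    refine suLoc_of_linEq (CS.LinEq.of_matrix M hM fun w => ?_)
      (h1 b0 b1 b2 b3 b4 a0 a1 a2 a3 e0 e1 e2 l0 l1 k)
    rw [← hqf, map_add, map_add, LC.eval_subM, map_mul, map_pow, eval_X, eval_X]
    congr 1
    rw [hclm, map_mul, map_pow, hevl, hevm, (hw w).1, (hw w).2]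

end QV

end MPb07157
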