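import Pool.Agent.Lib.MP_b07157_agM.TDefs

/-!
# Plane cubics with a node
-/

noncomputable section

namespace MPb07157

open MvPolynomial

/-- The ternary cubic form `c` is `xyz + α x^3 + β y^3` in suitable linear coordinates: an irreducible
nodal cubic, a conic and a line that meet in two points, or three lines not through one point. -/
def NodCond (c : MvPolynomial (Fin 3) ℂ) : Prop :=
  ∃ (M : Matrix (Fin 3) (Fin 3) ℂ) (α β : ℂ), M.det ≠ 0 ∧
    ∀ w : Fin 3 → ℂ, eval (M.mulVec w) c = w 0 * w 1 * w 2 + α * w 0 ^ 3 + β * w 1 ^ 3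

end MPb07157
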