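import Pool.Agent.Lib.MP_b07157_agQV.TriDefs
import Pool.Agent.Lib.MP_b07157_agQV.NodDefs

/-!
# Classification of ternary cubic forms

A cubic form `c ≠ 0` in three variables satisfies `TriCond` (it is not squarefree, or smooth, or
cuspidal, or consists of three concurrent lines), or is
`x y z + a x ^ 3 + b y ^ 3` or `x ^ 2 z + y z ^ 2` in suitable linear coordinates.
-/

noncomputable section

namespace MPb07157

open MvPolynomial

namespace QV

namespace Cls

/-- The substitution of the linear forms with the rows of `M` as coefficients. -/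
def lf (M : Matrix (Fin 3) (Fin 3) ℂ) (i : Fin 3) : MvPolynomial (Fin 3) ℂ := ∑ j, C (M i j) * X j

theorem eval_lf (M : Matrix (Fin 3) (Fin 3) ℂ) (w : Fin 3 → ℂ) (i : Fin 3) :
    eval w (lf M i) = M.mulVec w i := by
  simp [lf, Matrix.mulVec, dotProduct]

theorem pderiv_lf (M : Matrix (Fin 3) (Fin 3) ℂ) (i l : Fin 3) :
    pderiv i (lf M l) = C (M l i) := by
  unfold lf
  rw [map_sum, Finset.sum_eq_single i]
  · rw [pderiv_C_mul, pderiv_X_self, mul_one]
  · intro k _ hk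
    rw [pderiv_C_mul, pderiv_X_of_ne hk, mul_zero]
  · intro h
    exact absurd (Finset.mem_univ _) h

theorem eval_sub (M : Matrix (Fin 3) (Fin 3) ℂ) (w : Fin 3 → ℂ) (p : MvPolynomial (Fin 3) ℂ) :
    eval w (aeval (lf M) p) = eval (M.mulVec w) p := by
  induction p using MvPolynomial.induction_on with
  | C a => simp
  | add p q hp hq => rw [map_add, map_add, map_add, hp, hq]
  | mul_X p i hp => rw [map_mul, map_mul, map_mul, hp, aeval_X, eval_X, eval_lf]

theorem pderiv_sub (M : Matrix (Fin 3) (Fin 3) ℂ) (g : MvPolynomial (Fin 3) ℂ)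
    (i : Fin 3) : pderiv i (aeval (lf M) g) = ∑ l, aeval (lf M) (pderiv l g) * C (M l i) := by
  induction g using MvPolynomial.induction_on with
  | C a =>
    simp only [aeval_C, algebraMap_eq, pderiv_C, map_zero, zero_mul, Finset.sum_const_zero]
  | add p q hp hq =>
    simp only [map_add, hp, hq, add_mul, Finset.sum_add_distrib]
  | mul_X p k hp =>
    rw [map_mul, aeval_X, Derivation.leibniz, hp, smul_eq_mul, smul_eq_mul, pderiv_lf]
    have h1 : ∀ j, aeval (lf M) (pderiv j (p * X k)) * C (M j i) =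
        (if j = k then aeval (lf M) p * C (M k i) else 0) +
          lf M k * (aeval (lf M) (pderiv j p) * C (M j i)) := by
      intro j
      rw [Derivation.leibniz, smul_eq_mul, smul_eq_mul, map_add, map_mul, map_mul, aeval_X]
      by_cases hjk : j = k
      · rw [if_pos hjk, hjk, pderiv_X_self, map_one]
        ring
      · rw [if_neg hjk, pderiv_X_of_ne (Ne.symm hjk), map_zero]
        ring
    rw [Finset.sum_congr rfl fun j _ => h1 j, Finset.sum_add_distrib,
      Finset.sum_ite_eq' Finset.univ k, if_pos (Finset.mem_univ k), ← Finset.mul_sum]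

theorem homog_sub {M : Matrix (Fin 3) (Fin 3) ℂ} {p : MvPolynomial (Fin 3) ℂ} {d : ℕ}
    (hp : p.IsHomogeneous d) :
    (aeval (lf M) p : MvPolynomial (Fin 3) ℂ).IsHomogeneous d := by
  have hL : ∀ i, (lf M i).IsHomogeneous 1 := by
    intro i
    refine IsHomogeneous.sum _ _ _ fun j _ => ?_
    have := (isHomogeneous_C (Fin 3) (M i j)).mul (isHomogeneous_X ℂ j)
    rwa [zero_add] at this
  have := hp.aeval _ hL
  rwa [one_mul] at this

/-- The general cubic form. -/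
def cub (a0 a1 a2 a3 a4 a5 a6 a7 a8 a9 : ℂ) : MvPolynomial (Fin 3) ℂ :=
  C a0 * X 0 ^ 3 + C a1 * (X 0 ^ 2 * X 1) + C a2 * (X 0 ^ 2 * X 2) + C a3 * (X 0 * X 1 ^ 2) +
    C a4 * (X 0 * X 1 * X 2) + C a5 * (X 0 * X 2 ^ 2) + C a6 * X 1 ^ 3 + C a7 * (X 1 ^ 2 * X 2) +
    C a8 * (X 1 * X 2 ^ 2) + C a9 * X 2 ^ 3

def m3 (i j k : ℕ) : Fin 3 →₀ ℕ :=
  Finsupp.single 0 i + Finsupp.single 1 j + Finsupp.single 2 k

theorem m3_0 (i j k : ℕ) : m3 i j k 0 = i := by
  simp [m3]

theorem m3_1 (i j k : ℕ) : m3 i j k 1 = j := by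
  simp [m3]

theorem m3_2 (i j k : ℕ) : m3 i j k 2 = k := by
  simp [m3]

theorem m3_mon (i j k : ℕ) (a : ℂ) :
    (monomial (m3 i j k) a : MvPolynomial (Fin 3) ℂ) =
      C a * (X 0 ^ i * X 1 ^ j * X 2 ^ k) := by
  rw [monomial_eq, Finsupp.prod_fintype _ _ (fun _ => pow_zero _), Fin.prod_univ_three,
    m3_0, m3_1, m3_2]

theorem cub_sum {q : MvPolynomial (Fin 3) ℂ} (hq : q.IsHomogeneous 3) :
    q = ∑ i ∈ Finset.range 4, ∑ j ∈ Finset.range (4 - i),
      C (coeff (m3 i j (3 - i - j)) q) * (X 0 ^ i * X 1 ^ j * X 2 ^ (3 - i - j)) := by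
  simp only [← m3_mon]
  refine MvPolynomial.ext _ _ fun d => ?_
  simp only [coeff_sum, coeff_monomial]
  by_cases hd : d 0 + d 1 + d 2 = 3
  · have hd' : d = m3 (d 0) (d 1) (3 - d 0 - d 1) := by
      have h2 : 3 - d 0 - d 1 = d 2 := by omega
      rw [h2]
      refine Finsupp.ext fun i => ?_
      fin_cases i
      · exact (m3_0 _ _ _).symm
      · exact (m3_1 _ _ _).symm
      · exact (m3_2 _ _ _).symm
    rw [Finset.sum_eq_single_of_mem (d 0) (Finset.mem_range.mpr (by omega)),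
      Finset.sum_eq_single_of_mem (d 1) (Finset.mem_range.mpr (by omega)), if_pos hd'.symm, ← hd']
    · intro j _ hj
      rw [if_neg]
      intro h
      apply hj
      rw [← h, m3_1]
    · intro i _ hi
      refine Finset.sum_eq_zero fun j _ => ?_
      rw [if_neg]
      intro h
      apply hi
      rw [← h, m3_0]
  · rw [hq.coeff_eq_zero]
    · symm
      refine Finset.sum_eq_zero fun i hi => Finset.sum_eq_zero fun j hj => ?_
      rw [Finset.mem_range] at hi hj
      rw [if_neg]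
      rintro rfl
      apply hd
      rw [m3_0, m3_1, m3_2]
      omega
    · rw [Finsupp.degree_eq_sum, Fin.sum_univ_three]
      exact hd

theorem exists_cub {q : MvPolynomial (Fin 3) ℂ} (hq : q.IsHomogeneous 3) :
    ∃ a0 a1 a2 a3 a4 a5 a6 a7 a8 a9 : ℂ, q = cub a0 a1 a2 a3 a4 a5 a6 a7 a8 a9 := by
  refine ⟨coeff (m3 3 0 0) q, coeff (m3 2 1 0) q, coeff (m3 2 0 1) q, coeff (m3 1 2 0) q,
    coeff (m3 1 1 1) q, coeff (m3 1 0 2) q, coeff (m3 0 3 0) q, coeff (m3 0 2 1) q,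
    coeff (m3 0 1 2) q, coeff (m3 0 0 3) q, ?_⟩
  refine (cub_sum hq).trans ?_
  unfold cub
  simp only [Finset.sum_range_succ, Finset.sum_range_zero, Nat.reduceSub, zero_add, pow_zero,
    pow_one, one_mul, mul_one, Nat.sub_zero]
  ring

/-- A matrix whose second column is a given vector. -/
theorem exists_col {q : Fin 3 → ℂ} (hq : q ≠ 0) :
    ∃ M : Matrix (Fin 3) (Fin 3) ℂ, M.det ≠ 0 ∧ M.mulVec ![0, 1, 0] = q := by
  obtain ⟨j, hj⟩ := Function.ne_iff.1 hq
  rw [Pi.zero_apply] at hj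
  fin_cases j
  · refine ⟨!![0, q 0, 0; 1, q 1, 0; 0, q 2, 1], ?_, ?_⟩
    · simpa [Matrix.det_fin_three] using hj
    · funext i
      fin_cases i <;> simp [Matrix.mulVec, dotProduct, Fin.sum_univ_three]
  · refine ⟨!![1, q 0, 0; 0, q 1, 0; 0, q 2, 1], ?_, ?_⟩
    · simpa [Matrix.det_fin_three] using hj
    · funext i
      fin_cases i <;> simp [Matrix.mulVec, dotProduct, Fin.sum_univ_three]
  · refine ⟨!![1, q 0, 0; 0, q 1, 1; 0, q 2, 0], ?_, ?_⟩
    · simpa [Matrix.det_fin_three] using hj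
    · funext i
      fin_cases i <;> simp [Matrix.mulVec, dotProduct, Fin.sum_univ_three]

/-- Normal forms of binary quadratic forms. -/
theorem quad_cases (a b c : ℂ) : (a = 0 ∧ b = 0 ∧ c = 0) ∨ ∃ p q r s : ℂ, p * s - q * r ≠ 0 ∧
    ((∀ x z : ℂ, a * (p * x + q * z) ^ 2 + b * ((p * x + q * z) * (r * x + s * z)) +
        c * (r * x + s * z) ^ 2 = x * z) ∨
      ∀ x z : ℂ, a * (p * x + q * z) ^ 2 + b * ((p * x + q * z) * (r * x + s * z)) +
        c * (r * x + s * z) ^ 2 = z ^ 2) := by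
  by_cases ha : a = 0
  · subst ha
    by_cases hb : b = 0
    · subst hb
      by_cases hc : c = 0
      · exact Or.inl ⟨rfl, rfl, hc⟩
      · obtain ⟨t, ht⟩ := IsAlgClosed.exists_pow_nat_eq (1 / c : ℂ) two_pos
        have ht0 : t ≠ 0 := by
          rintro rfl
          rw [zero_pow (by norm_num)] at ht
          exact one_div_ne_zero hc ht.symm
        have hct : c * t ^ 2 = 1 := by
          rw [ht]
          field_simp
        refine Or.inr ⟨1, 0, 0, t, by simpa using ht0, Or.inr fun x z => ?_⟩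
        linear_combination z ^ 2 * hct
    · refine Or.inr ⟨1 / b, -c / b, 0, 1, ?_, Or.inl fun x z => ?_⟩
      · simpa using hb
      · field_simp
        ring
  · obtain ⟨d, hd⟩ := IsAlgClosed.exists_pow_nat_eq (b ^ 2 - 4 * a * c : ℂ) two_pos
    by_cases hd0 : d = 0
    · subst hd0
      obtain ⟨t, ht⟩ := IsAlgClosed.exists_pow_nat_eq (1 / a : ℂ) two_pos
      have ht0 : t ≠ 0 := by
        rintro rfl
        rw [zero_pow (by norm_num)] at ht
        exact one_div_ne_zero ha ht.symm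
      have hat : a * t ^ 2 = 1 := by
        rw [ht]
        field_simp
      have hD : b ^ 2 - 4 * a * c = 0 := by rw [← hd]; ring
      obtain ⟨m, hm⟩ : ∃ m : ℂ, b = -(2 * a * m) := ⟨-b / (2 * a), by field_simp⟩
      have hc : c = a * m ^ 2 := by
        have h4 : 4 * a ≠ 0 := mul_ne_zero (by norm_num) ha
        have h5 : 4 * a * c = 4 * a * (a * m ^ 2) := by
          rw [hm] at hD
          linear_combination -hD
        exact mul_left_cancel₀ h4 h5
      refine Or.inr ⟨m, t, 1, 0, by simpa using ht0, Or.inr fun x z => ?_⟩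
      rw [hm, hc]
      linear_combination z ^ 2 * hat
    · -- roots `r₁ ≠ r₂`
      obtain ⟨m, hm⟩ : ∃ m : ℂ, b = -(2 * a * m) := ⟨-b / (2 * a), by field_simp⟩
      obtain ⟨n, hn⟩ : ∃ n : ℂ, d = 2 * a * n := ⟨d / (2 * a), by field_simp⟩
      have hn0 : n ≠ 0 := by
        rintro rfl
        exact hd0 (by rw [hn, mul_zero])
      have hc : c = a * (m ^ 2 - n ^ 2) := by
        have h4 : 4 * a ≠ 0 := mul_ne_zero (by norm_num) ha
        have h5 : 4 * a * c = 4 * a * (a * (m ^ 2 - n ^ 2)) := by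
          rw [hm, hn] at hd
          linear_combination hd
        exact mul_left_cancel₀ h4 h5
      -- `a (x - (m - n) z) (x - (m + n) z)`, `X = a (x - (m - n) z)`, `Z = x - (m + n) z`
      refine Or.inr ⟨(m + n) / (2 * a * n), 1 - (m + n) / (2 * n), 1 / (2 * a * n), -1 / (2 * n),
        ?_, Or.inl fun x z => ?_⟩
      · have h1 : (m + n) / (2 * a * n) * (-1 / (2 * n)) - (1 - (m + n) / (2 * n)) *
            (1 / (2 * a * n)) = -1 / (2 * a * n) := by
          field_simp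
          ring
        rw [h1]
        exact div_ne_zero (by norm_num) (mul_ne_zero (mul_ne_zero two_ne_zero ha) hn0)
      · rw [hm, hc]
        field_simp
        ring

theorem sub_sub {M N : Matrix (Fin 3) (Fin 3) ℂ} (h : M * N = 1) (c : MvPolynomial (Fin 3) ℂ) :
    aeval (lf N) (aeval (lf M) c : MvPolynomial (Fin 3) ℂ) = c := by
  refine MvPolynomial.funext fun w => ?_
  rw [eval_sub, eval_sub, Matrix.mulVec_mulVec, h, Matrix.one_mulVec]

/-- The first derivatives vanish. -/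
theorem crit_sub {M : Matrix (Fin 3) (Fin 3) ℂ} {c : MvPolynomial (Fin 3) ℂ} {e q : Fin 3 → ℂ}
    (he : M.mulVec e = q) (hq : ∀ i, eval q (pderiv i c) = 0) (i : Fin 3) :
    eval e (pderiv i (aeval (lf M) c)) = 0 := by
  rw [pderiv_sub, map_sum]
  refine Finset.sum_eq_zero fun l _ => ?_
  rw [map_mul, eval_sub, he, hq, zero_mul]

/-- The second derivatives vanish. -/
theorem hess_sub {M : Matrix (Fin 3) (Fin 3) ℂ} {c : MvPolynomial (Fin 3) ℂ} {e q : Fin 3 → ℂ}
    (he : M.mulVec e = q) (hq : ∀ i j, eval q (pderiv i (pderiv j c)) = 0) (i j : Fin 3) :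
    eval e (pderiv i (pderiv j (aeval (lf M) c))) = 0 := by
  rw [pderiv_sub, map_sum, map_sum]
  refine Finset.sum_eq_zero fun l _ => ?_
  rw [mul_comm, pderiv_C_mul, pderiv_sub, map_mul, map_sum]
  rw [Finset.sum_eq_zero fun m _ => ?_, mul_zero]
  rw [map_mul, eval_sub, he, hq, zero_mul]

/-- The critical point `(0, 1, 0)`. -/
theorem crit_cub {a0 a1 a2 a3 a4 a5 a6 a7 a8 a9 : ℂ}
    (h : ∀ i, eval ![0, 1, 0] (pderiv i (cub a0 a1 a2 a3 a4 a5 a6 a7 a8 a9)) = 0) :
    a3 = 0 ∧ a6 = 0 ∧ a7 = 0 := by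
  have h0 := h 0
  have h1 := h 1
  have h2 := h 2
  unfold cub at h0 h1 h2
  simp [pderiv_C_mul, Derivation.leibniz, Derivation.leibniz_pow, pderiv_X, Pi.single_apply] at h0 h1 h2
  exact ⟨h0, h1, h2⟩

theorem hess_cub {a0 a2 a5 a9 : ℂ} (i j : Fin 3) :
    eval ![0, 1, 0] (pderiv i (pderiv j (cub a0 0 a2 0 0 a5 0 0 0 a9))) = 0 := by
  unfold cub
  fin_cases i <;> fin_cases j <;>
    simp [pderiv_C_mul, Derivation.leibniz, Derivation.leibniz_pow, pderiv_X, Pi.single_apply]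

theorem eval_cub (w : Fin 3 → ℂ) (a0 a1 a2 a3 a4 a5 a6 a7 a8 a9 : ℂ) :
    eval w (cub a0 a1 a2 a3 a4 a5 a6 a7 a8 a9) =
      a0 * w 0 ^ 3 + a1 * (w 0 ^ 2 * w 1) + a2 * (w 0 ^ 2 * w 2) + a3 * (w 0 * w 1 ^ 2) +
        a4 * (w 0 * w 1 * w 2) + a5 * (w 0 * w 2 ^ 2) + a6 * w 1 ^ 3 + a7 * (w 1 ^ 2 * w 2) +
        a8 * (w 1 * w 2 ^ 2) + a9 * w 2 ^ 3 := by
  simp [cub]

/-- `y z^2` is not squarefree. -/
theorem not_squarefree {c : MvPolynomial (Fin 3) ℂ} {M : Matrix (Fin 3) (Fin 3) ℂ}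
    (hM : M.det ≠ 0) (h : ∀ w, eval (M.mulVec w) c = w 1 * w 2 ^ 2) : ¬ Squarefree c := by
  intro hs
  have hu : IsUnit M.det := isUnit_iff_ne_zero.2 hM
  have h1 : c = lf M⁻¹ 1 * (lf M⁻¹ 2 * lf M⁻¹ 2) := by
    refine MvPolynomial.funext fun w => ?_
    have h2 := h (M⁻¹.mulVec w)
    rw [Matrix.mulVec_mulVec, Matrix.mul_nonsing_inv _ hu, Matrix.one_mulVec] at h2
    rw [h2, map_mul, map_mul, eval_lf, eval_lf]
    ring
  have h3 := hs (lf M⁻¹ 2) (by rw [h1]; exact dvd_mul_left _ _)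
  have h4 := h3.map (eval (0 : Fin 3 → ℂ))
  rw [eval_lf, Matrix.mulVec_zero, Pi.zero_apply] at h4
  exact not_isUnit_zero h4

end Cls

open Cls

/-- **Classification of ternary cubic forms.** -/
theorem cubic_cases {c : MvPolynomial (Fin 3) ℂ} (hc : c.IsHomogeneous 3) (h0 : c ≠ 0) :
    TriCond c ∨ NodCond c ∨ ∃ M : Matrix (Fin 3) (Fin 3) ℂ, M.det ≠ 0 ∧
      ∀ w : Fin 3 → ℂ, eval (M.mulVec w) c = w 0 ^ 2 * w 2 + w 1 * w 2 ^ 2 := by
  by_cases hsm : ∀ p : Fin 3 → ℂ, p ≠ 0 → ∃ i, eval p (pderiv i c) ≠ 0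
  · exact Or.inl ⟨h0, Or.inr (Or.inl hsm)⟩
  push Not at hsm
  obtain ⟨q, hq0, hq⟩ := hsm
  by_cases hH : YG.hessAt c q = 0
  · exact Or.inl ⟨h0, Or.inr (Or.inr (Or.inr ⟨q, hq0, hH⟩))⟩
  obtain ⟨M, hM, hMq⟩ := exists_col hq0
  have hu : IsUnit M.det := isUnit_iff_ne_zero.2 hM
  obtain ⟨a0, a1, a2, a3, a4, a5, a6, a7, a8, a9, hc'⟩ := exists_cub (homog_sub (M := M) hc)
  obtain ⟨rfl, rfl, rfl⟩ := crit_cub fun i => by rw [← hc']; exact crit_sub hMq hq i
  have hev : ∀ w, eval (M.mulVec w) c = a0 * w 0 ^ 3 + a1 * (w 0 ^ 2 * w 1) +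
      a2 * (w 0 ^ 2 * w 2) + a4 * (w 0 * w 1 * w 2) + a5 * (w 0 * w 2 ^ 2) +
        a8 * (w 1 * w 2 ^ 2) + a9 * w 2 ^ 3 := by
    intro w
    rw [← eval_sub, hc', eval_cub]
    ring
  rcases quad_cases a1 a4 a8 with ⟨rfl, rfl, rfl⟩ | ⟨p, q', r, s, hdet, hQ⟩
  · exfalso
    apply hH
    have hNq : (M⁻¹).mulVec q = ![0, 1, 0] := by
      rw [← hMq, Matrix.mulVec_mulVec, Matrix.nonsing_inv_mul _ hu, Matrix.one_mulVec]
    ext i j
    have h1 := hess_sub (M := M⁻¹) (c := aeval (lf M) c) hNq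
      (fun i j => by rw [hc']; exact hess_cub i j) i j
    rw [sub_sub (Matrix.mul_nonsing_inv _ hu)] at h1
    exact h1
  -- the binary cubic form in the new coordinates
  obtain ⟨α, hα⟩ : ∃ α, α = a0 * p ^ 3 + a2 * (p ^ 2 * r) + a5 * (p * r ^ 2) + a9 * r ^ 3 :=
    ⟨_, rfl⟩
  obtain ⟨β, hβ⟩ : ∃ β, β = 3 * a0 * p ^ 2 * q' + a2 * (p ^ 2 * s + 2 * p * q' * r) +
    a5 * (2 * p * r * s + q' * r ^ 2) + 3 * a9 * r ^ 2 * s := ⟨_, rfl⟩
  obtain ⟨γ, hγ⟩ : ∃ γ, γ = 3 * a0 * p * q' ^ 2 + a2 * (2 * p * q' * s + q' ^ 2 * r) +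
    a5 * (p * s ^ 2 + 2 * q' * r * s) + 3 * a9 * r * s ^ 2 := ⟨_, rfl⟩
  obtain ⟨δ, hδ⟩ : ∃ δ, δ = a0 * q' ^ 3 + a2 * (q' ^ 2 * s) + a5 * (q' * s ^ 2) + a9 * s ^ 3 :=
    ⟨_, rfl⟩
  have hC : ∀ x z : ℂ, a0 * (p * x + q' * z) ^ 3 + a2 * ((p * x + q' * z) ^ 2 * (r * x + s * z)) +
      a5 * ((p * x + q' * z) * (r * x + s * z) ^ 2) + a9 * (r * x + s * z) ^ 3 =
      α * x ^ 3 + β * (x ^ 2 * z) + γ * (x * z ^ 2) + δ * z ^ 3 := by
    intro x z
    rw [hα, hβ, hγ, hδ]
    ring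
  -- `(x, y, z) ↦ (p x + q' z, y, r x + s z)`
  have hev2 : ∀ x y z : ℂ, eval (M.mulVec ![p * x + q' * z, y, r * x + s * z]) c =
      y * (a1 * (p * x + q' * z) ^ 2 + a4 * ((p * x + q' * z) * (r * x + s * z)) +
        a8 * (r * x + s * z) ^ 2) +
        (α * x ^ 3 + β * (x ^ 2 * z) + γ * (x * z ^ 2) + δ * z ^ 3) := by
    intro x y z
    rw [hev, ← hC]
    simp only [Matrix.cons_val_zero, Matrix.cons_val_one, Matrix.cons_val]
    ring
  rcases hQ with hQ | hQ
  · -- a node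
    refine Or.inr (Or.inl ⟨M * !![p, q', 0; -β, -γ, 1; r, s, 0], α, δ, ?_, fun w => ?_⟩)
    · rw [Matrix.det_mul]
      refine mul_ne_zero hM ?_
      rw [Matrix.det_fin_three]
      intro h
      apply hdet
      simp at h
      linear_combination -h
    · have h1 : (!![p, q', 0; -β, -γ, 1; r, s, 0] : Matrix (Fin 3) (Fin 3) ℂ).mulVec w =
          ![p * w 0 + q' * w 1, w 2 - β * w 0 - γ * w 1, r * w 0 + s * w 1] := by
        funext i
        fin_cases i <;> simp [Matrix.mulVec, dotProduct, Fin.sum_univ_three]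
        ring
      rw [← Matrix.mulVec_mulVec, h1, hev2, hQ]
      ring
  · -- `y z^2`
    by_cases hα0 : α = 0
    · by_cases hβ0 : β = 0
      · refine Or.inl ⟨h0, Or.inl (not_squarefree
          (M := M * !![p, 0, q'; -γ, 1, -δ; r, 0, s]) ?_ fun w => ?_)⟩
        · rw [Matrix.det_mul]
          refine mul_ne_zero hM ?_
          rw [Matrix.det_fin_three]
          intro h
          apply hdet
          simp at h
          linear_combination h
        · have h1 : (!![p, 0, q'; -γ, 1, -δ; r, 0, s] : Matrix (Fin 3) (Fin 3) ℂ).mulVec w =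
              ![p * w 0 + q' * w 2, w 1 - γ * w 0 - δ * w 2, r * w 0 + s * w 2] := by
            funext i
            fin_cases i <;> simp [Matrix.mulVec, dotProduct, Fin.sum_univ_three]
            ring
          rw [← Matrix.mulVec_mulVec, h1, hev2, hQ, hα0, hβ0]
          ring
      · obtain ⟨t, ht⟩ := IsAlgClosed.exists_pow_nat_eq (1 / β : ℂ) two_pos
        have ht0 : t ≠ 0 := by
          rintro rfl
          rw [zero_pow (by norm_num)] at ht
          exact one_div_ne_zero hβ0 ht.symm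
        have hbt : β * t ^ 2 = 1 := by
          rw [ht]
          field_simp
        refine Or.inr (Or.inr ⟨M * !![p * t, 0, q'; -γ * t, 1, -δ; r * t, 0, s], ?_, fun w => ?_⟩)
        · rw [Matrix.det_mul]
          refine mul_ne_zero hM ?_
          rw [Matrix.det_fin_three]
          intro h
          simp at h
          have h2 : t * (p * s - q' * r) = 0 := by linear_combination h
          exact mul_ne_zero ht0 hdet h2
        · have h1 : (!![p * t, 0, q'; -γ * t, 1, -δ; r * t, 0, s] :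
              Matrix (Fin 3) (Fin 3) ℂ).mulVec w =
              ![p * (t * w 0) + q' * w 2, w 1 - γ * (t * w 0) - δ * w 2,
                r * (t * w 0) + s * w 2] := by
            funext i
            fin_cases i <;> simp [Matrix.mulVec, dotProduct, Fin.sum_univ_three] <;> ring
          rw [← Matrix.mulVec_mulVec, h1, hev2, hQ, hα0]
          linear_combination (w 0 ^ 2 * w 2) * hbt
    · -- a cusp
      obtain ⟨t, ht⟩ := IsAlgClosed.exists_pow_nat_eq (1 / α : ℂ) (n := 3) (by norm_num)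
      have ht0 : t ≠ 0 := by
        rintro rfl
        rw [zero_pow (by norm_num)] at ht
        exact one_div_ne_zero hα0 ht.symm
      have hat : α * t ^ 3 = 1 := by
        rw [ht]
        field_simp
      obtain ⟨μ, hμ⟩ : ∃ μ : ℂ, β = -(3 * α * μ) := ⟨-β / (3 * α), by field_simp⟩
      -- `x = t x' + μ z`
      obtain ⟨κ, hκ⟩ : ∃ κ, κ = 3 * α * μ ^ 2 + 2 * β * μ + γ := ⟨_, rfl⟩
      obtain ⟨ν, hν⟩ : ∃ ν, ν = α * μ ^ 3 + β * μ ^ 2 + γ * μ + δ := ⟨_, rfl⟩
      refine Or.inl ⟨h0, Or.inr (Or.inr (Or.inl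
        ⟨M * !![p * t, 0, p * μ + q'; -κ * t, 1, -ν; r * t, 0, r * μ + s], ?_, fun w => ?_⟩))⟩
      · rw [Matrix.det_mul]
        refine mul_ne_zero hM ?_
        rw [Matrix.det_fin_three]
        intro h
        simp at h
        have h2 : t * (p * s - q' * r) = 0 := by linear_combination h
        exact mul_ne_zero ht0 hdet h2
      · have h1 : (!![p * t, 0, p * μ + q'; -κ * t, 1, -ν; r * t, 0, r * μ + s] :
            Matrix (Fin 3) (Fin 3) ℂ).mulVec w =
            ![p * (t * w 0 + μ * w 2) + q' * w 2, w 1 - κ * (t * w 0) - ν * w 2,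
              r * (t * w 0 + μ * w 2) + s * w 2] := by
          funext i
          fin_cases i <;> simp [Matrix.mulVec, dotProduct, Fin.sum_univ_three] <;> ring
        rw [← Matrix.mulVec_mulVec, h1, hev2, hQ, hκ, hν, hμ]
        linear_combination (w 0 ^ 3) * hat

end QV

end MPb07157
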