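import Pool.Agent.Lib.MP_b07157_agQV.Chg
import Pool.Agent.Lib.MP_b07157_agQU.Defs

/-!
# Quartic polynomials with triple points: three concurrent lines
-/

noncomputable section

namespace MPb07157

open MvPolynomial

namespace QV

/-- The binary cubic form with the coefficients `c_j` of `x^j z^(3-j)`. -/
def cf (c0 c1 c2 c3 : ℂ) : MvPolynomial (Fin 3) ℂ :=
  C c0 * X 2 ^ 3 + C c1 * (X 0 * X 2 ^ 2) + C c2 * (X 0 ^ 2 * X 2) + C c3 * X 0 ^ 3

/-- The binary cubic form `∑ c_j u^j v^(3-j)` has no critical point outside the origin. -/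
def BC (c0 c1 c2 c3 : ℂ) : Prop :=
  ∀ u v : ℂ, c1 * v ^ 2 + 2 * (c2 * (u * v)) + 3 * (c3 * u ^ 2) = 0 →
    3 * (c0 * v ^ 2) + 2 * (c1 * (u * v)) + c2 * u ^ 2 = 0 → u = 0 ∧ v = 0

end QV

end MPb07157
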