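import Pool.Agent.Lib.MP_b07157_agQV.Fam3
import Pool.Agent.Lib.MP_b07157_agQV.UDefs

/-!
# Quartic polynomials with triple points: Newton non-degenerate families
-/

noncomputable section

namespace MPb07157

open MvPolynomial

namespace QV

open QU

set_option linter.unusedVariables false
set_option linter.unusedSimpArgs false
set_option linter.unusedTactic false

/-- `c = x (c_1 z^2 + c_3 x^2)`, `x y^3` present, `y^2 z^2` not. -/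
theorem nd_U3b {c3 c1 b0 b1 a0 a1 a2 a3 e0 e1 e2 l0 l1 k0 : ℂ} (hc3 : c3 ≠ 0) (hc1 : c1 ≠ 0)
     (ha3 : a3 ≠ 0) :
    SuLoc (cf 0 c1 0 c3 + qf b0 b1 0 0 0 a0 a1 a2 a3 e0 e1 e2 l0 l1 k0) := by
  refine suLoc_fam3 ![![3, 0, 0], ![1, 0, 2], ![0, 0, 4], ![0, 1, 3], ![1, 0, 3], ![1, 1, 2],
      ![1, 2, 1], ![1, 3, 0], ![2, 0, 2], ![2, 1, 1], ![2, 2, 0], ![3, 0, 1], ![3, 1, 0],
      ![4, 0, 0]] (by decide)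
    ![c3, c1, b0, b1, a0, a1, a2, a3, e0, e1, e2, l0, l1, k0] ?_ ⟨0, hc3⟩ (by decide) ?_
  · simp [cf, qf, Fin.sum_univ_succ]
    try ring
  intro p q r m x y z T p0 q0 r0 hx hy hz hm hT hv hne s0 s1 s2
  have m0 : m ≤ p * 3 + q * 0 + r * 0 := hm 0 hc3
  have m1 : m ≤ p * 1 + q * 0 + r * 2 := hm 1 hc1
  have m7 : m ≤ p * 1 + q * 3 + r * 0 := hm 7 ha3
  have t0 : T 0 = 0 ∨ T 0 ≠ 0 ∧ c3 ≠ 0 ∧ p * 3 + q * 0 + r * 0 = m := hT 0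
  have t1 : T 1 = 0 ∨ T 1 ≠ 0 ∧ c1 ≠ 0 ∧ p * 1 + q * 0 + r * 2 = m := hT 1
  have t2 : T 2 = 0 ∨ T 2 ≠ 0 ∧ b0 ≠ 0 ∧ p * 0 + q * 0 + r * 4 = m := hT 2
  have t3 : T 3 = 0 ∨ T 3 ≠ 0 ∧ b1 ≠ 0 ∧ p * 0 + q * 1 + r * 3 = m := hT 3
  have t4 : T 4 = 0 ∨ T 4 ≠ 0 ∧ a0 ≠ 0 ∧ p * 1 + q * 0 + r * 3 = m := hT 4
  have t5 : T 5 = 0 ∨ T 5 ≠ 0 ∧ a1 ≠ 0 ∧ p * 1 + q * 1 + r * 2 = m := hT 5
  have t6 : T 6 = 0 ∨ T 6 ≠ 0 ∧ a2 ≠ 0 ∧ p * 1 + q * 2 + r * 1 = m := hT 6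
  have t7 : T 7 = 0 ∨ T 7 ≠ 0 ∧ a3 ≠ 0 ∧ p * 1 + q * 3 + r * 0 = m := hT 7
  have t8 : T 8 = 0 ∨ T 8 ≠ 0 ∧ e0 ≠ 0 ∧ p * 2 + q * 0 + r * 2 = m := hT 8
  have t9 : T 9 = 0 ∨ T 9 ≠ 0 ∧ e1 ≠ 0 ∧ p * 2 + q * 1 + r * 1 = m := hT 9
  have t10 : T 10 = 0 ∨ T 10 ≠ 0 ∧ e2 ≠ 0 ∧ p * 2 + q * 2 + r * 0 = m := hT 10
  have t11 : T 11 = 0 ∨ T 11 ≠ 0 ∧ l0 ≠ 0 ∧ p * 3 + q * 0 + r * 1 = m := hT 11
  have t12 : T 12 = 0 ∨ T 12 ≠ 0 ∧ l1 ≠ 0 ∧ p * 3 + q * 1 + r * 0 = m := hT 12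
  have t13 : T 13 = 0 ∨ T 13 ≠ 0 ∧ k0 ≠ 0 ∧ p * 4 + q * 0 + r * 0 = m := hT 13
  have hn : ¬ (T 0 = 0 ∧ T 1 = 0 ∧ T 2 = 0 ∧ T 3 = 0 ∧ T 4 = 0 ∧ T 5 = 0 ∧ T 6 = 0 ∧ T 7 = 0 ∧ T 8 = 0 ∧ T 9 = 0 ∧ T 10 = 0 ∧ T 11 = 0 ∧ T 12 = 0 ∧ T 13 = 0) := by
    rintro ⟨_, _, _, _, _, _, _, _, _, _, _, _, _, _⟩
    obtain ⟨k, hk⟩ := hne
    fin_cases k <;> exact hk (by assumption)
  have f0 : (3 : ℂ) * T 0 + (1 : ℂ) * T 1 + (1 : ℂ) * T 4 + (1 : ℂ) * T 5 + (1 : ℂ) * T 6 + (1 : ℂ) * T 7 + (2 : ℂ) * T 8 + (2 : ℂ) * T 9 + (2 : ℂ) * T 10 + (3 : ℂ) * T 11 + (3 : ℂ) * T 12 + (4 : ℂ) * T 13 = 0 := by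
    simpa [Fin.sum_univ_succ, add_assoc] using s0
  have f1 : (1 : ℂ) * T 3 + (1 : ℂ) * T 5 + (2 : ℂ) * T 6 + (3 : ℂ) * T 7 + (1 : ℂ) * T 9 + (2 : ℂ) * T 10 + (1 : ℂ) * T 12 = 0 := by
    simpa [Fin.sum_univ_succ, add_assoc] using s1
  have f2 : (2 : ℂ) * T 1 + (4 : ℂ) * T 2 + (3 : ℂ) * T 3 + (3 : ℂ) * T 4 + (2 : ℂ) * T 5 + (1 : ℂ) * T 6 + (2 : ℂ) * T 8 + (1 : ℂ) * T 9 + (1 : ℂ) * T 11 = 0 := by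
    simpa [Fin.sum_univ_succ, add_assoc] using s2
  clear hm hT hv hne s0 s1 s2 hx hy hz
  all_goals rcases t4 with t4 | ⟨n4, _, g4⟩
  all_goals try omega
  all_goals rcases t5 with t5 | ⟨n5, _, g5⟩
  all_goals try omega
  all_goals rcases t8 with t8 | ⟨n8, _, g8⟩
  all_goals try omega
  all_goals rcases t11 with t11 | ⟨n11, _, g11⟩
  all_goals try omega
  all_goals rcases t12 with t12 | ⟨n12, _, g12⟩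
  all_goals try omega
  all_goals rcases t13 with t13 | ⟨n13, _, g13⟩
  all_goals try omega
  all_goals rcases t0 with t0 | ⟨n0, _, g0⟩
  all_goals try omega
  all_goals rcases t1 with t1 | ⟨n1, _, g1⟩
  all_goals try omega
  all_goals rcases t2 with t2 | ⟨n2, _, g2⟩
  all_goals try omega
  all_goals rcases t3 with t3 | ⟨n3, _, g3⟩
  all_goals try omega
  all_goals rcases t6 with t6 | ⟨n6, _, g6⟩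
  all_goals try omega
  all_goals rcases t7 with t7 | ⟨n7, _, g7⟩
  all_goals try omega
  all_goals rcases t9 with t9 | ⟨n9, _, g9⟩
  all_goals try omega
  all_goals rcases t10 with t10 | ⟨n10, _, g10⟩
  all_goals try omega
  all_goals clear p0 q0 r0 m0 m1 m7
  all_goals grind

end QV

end MPb07157
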