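import Pool.Agent.Lib.MP_b07157_agQV.Chg
import Pool.Agent.Lib.MP_b07157_agQU.Defs

/-!
# Newton non-degenerate polynomials with explicit supports: five variables
-/

noncomputable section

namespace MPb07157

open MvPolynomial

namespace QV

open QU

/-- The form of `suLoc_fam` for five variables. -/
theorem suLoc_fam5 {K : ℕ} {F : MvPolynomial (Fin 5) ℂ} (E : Fin K → Fin 5 → ℕ)
    (hE : Function.Injective E) (c : Fin K → ℂ)
    (hF : F = ∑ k, C (c k) * (X 0 ^ E k 0 * X 1 ^ E k 1 * X 2 ^ E k 2 * X 3 ^ E k 3 * X 4 ^ E k 4))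
    (hc : ∃ k, c k ≠ 0) (h0 : ∀ k, E k ≠ 0)
    (H : ∀ (p q r s t m : ℕ) (T : Fin K → ℂ), 0 < p → 0 < q → 0 < r → 0 < s → 0 < t →
      (∀ k, c k ≠ 0 → m ≤ p * E k 0 + q * E k 1 + r * E k 2 + s * E k 3 + t * E k 4) →
      (∀ k, T k = 0 ∨ T k ≠ 0 ∧ c k ≠ 0 ∧
        p * E k 0 + q * E k 1 + r * E k 2 + s * E k 3 + t * E k 4 = m) →
      (∃ k, T k ≠ 0) → ∑ k, (E k 0 : ℂ) * T k = 0 → ∑ k, (E k 1 : ℂ) * T k = 0 →
      ∑ k, (E k 2 : ℂ) * T k = 0 → ∑ k, (E k 3 : ℂ) * T k = 0 → ∑ k, (E k 4 : ℂ) * T k = 0 →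
      False) : SuLoc F := by
  refine suLoc_fam E hE c (hF.trans ?_) hc h0 fun w m u T hw hu hm hT hne hs => ?_
  · refine Finset.sum_congr rfl fun k _ => ?_
    rw [Fin.prod_univ_five]
  · refine H (w 0) (w 1) (w 2) (w 3) (w 4) m T (hw 0) (hw 1) (hw 2) (hw 3) (hw 4)
      (fun k hk => ?_) (fun k => ?_) hne (hs 0) (hs 1) (hs 2) (hs 3) (hs 4)
    · have := hm k hk
      rwa [Fin.sum_univ_five] at this
    · have h1 := hT k
      rw [Fin.sum_univ_five] at h1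
      split_ifs at h1 with h2
      · by_cases h3 : T k = 0
        · exact Or.inl h3
        · refine Or.inr ⟨h3, fun h4 => h3 ?_, h2⟩
          rw [h1, h4, zero_mul]
      · exact Or.inl h1

end QV

end MPb07157
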