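import Pool.Agent.Lib.MP_b07157_agQV.Mv
import Pool.Agent.Lib.MP_b07157_agQU.Bin
import Pool.Agent.Lib.MP_b07157_agQV.FA2a
import Pool.Agent.Lib.MP_b07157_agQV.FA2b
import Pool.Agent.Lib.MP_b07157_agQV.FAI

/-!
# `c = x^2 y`, `b0 = b1 = 0`, `b2 ≠ 0`
-/

noncomputable section

namespace MPb07157

open MvPolynomial

namespace QV

open QU

/-- As `I_b1` (RA.lean): `exists_nd4` for `0, 0, b2, b3, b4`, `mvZy s` (`b2`, `a0` do not change),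
then `exists_nd4` for `0, a0, e0, l0, k`, `mvZx t`; then `nd_A2a`. -/
theorem I_b2a {b2 b3 b4 a0 a1 a2 a3 e0 e1 e2 l0 l1 k : ℂ} (hb2 : b2 ≠ 0) (ha0 : a0 ≠ 0) :
    SuLoc (X 0 ^ 2 * X 1 + qf 0 0 b2 b3 b4 a0 a1 a2 a3 e0 e1 e2 l0 l1 k) := by
  obtain ⟨s, hs⟩ := exists_nd4 0 0 b2 b3 b4
  have hs1 := hs.resolve_right fun h => h.1 rfl
  simp only [mul_zero, zero_mul, add_zero] at hs1
  refine mvZy s (x2y_inv1 s) ?_
  simp only [mul_zero, zero_mul, add_zero]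
  obtain ⟨t, ht⟩ := exists_nd4 0 a0 e0 l0 (k)
  have ht1 := ht.resolve_right fun h => h.1 rfl
  simp only [mul_zero, zero_mul, add_zero] at ht1
  refine mvZx t (x2y_inv2 t) ?_
  simp only [mul_zero, zero_mul, add_zero]
  exact nd_A2a hb2 ha0 ht1 hs1

/-- If `e0 ≠ 0 → a1 ^ 2 ≠ 4 * e0 * b2`: the same with `nd_A2b` (`e0`, `a1`, `b2` do not change, as
`a0 = b0 = b1 = 0`). Otherwise (`e0 ≠ 0`, `a1 ^ 2 = 4 e0 b2`, so `a1 ≠ 0`): `mvZy s` with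
`s = -b3 / (2 b2)` kills `b3`; then `mvYx κ` (`x2y_inv3`) with `κ = -a1 / (2 b2) ≠ 0` gives
`a1' = 0`, `e0' = e0 + a1 κ + b2 κ^2 = 0`: `nd_AI` with `ro = κ`. -/
theorem I_b2b {b2 b3 b4 a1 a2 a3 e0 e1 e2 l0 l1 k : ℂ} (hb2 : b2 ≠ 0) :
    SuLoc (X 0 ^ 2 * X 1 + qf 0 0 b2 b3 b4 0 a1 a2 a3 e0 e1 e2 l0 l1 k) := by
  by_cases h3 : e0 ≠ 0 → a1 ^ 2 ≠ 4 * e0 * b2
  · obtain ⟨s, hs⟩ := exists_nd4 0 0 b2 b3 b4
    have hs1 := hs.resolve_right fun h => h.1 rfl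
    simp only [mul_zero, zero_mul, add_zero] at hs1
    refine mvZy s (x2y_inv1 s) ?_
    simp only [mul_zero, zero_mul, add_zero]
    obtain ⟨t, ht⟩ := exists_nd4 0 0 e0 l0 (k)
    have ht1 := ht.resolve_right fun h => h.1 rfl
    simp only [mul_zero, zero_mul, add_zero] at ht1
    refine mvZx t (x2y_inv2 t) ?_
    simp only [mul_zero, zero_mul, add_zero]
    exact nd_A2b hb2 ht1 hs1 h3
  · push Not at h3
    obtain ⟨he, ha⟩ := h3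
    have ha1 : a1 ≠ 0 := by
      rintro rfl
      have h4 : 4 * e0 * b2 ≠ 0 := mul_ne_zero (mul_ne_zero (by norm_num) he) hb2
      exact h4 (by rw [← ha]; ring)
    refine mvZy (-b3 / (2 * b2)) (x2y_inv1 _) ?_
    refine mvYx (-a1 / (2 * b2)) (x2y_inv3 _) ?_
    have hk : -a1 / (2 * b2) ≠ 0 := by
      refine div_ne_zero (neg_ne_zero.2 ha1) (mul_ne_zero two_ne_zero hb2)
    have q1 : b3 + 2 * b2 * (-b3 / (2 * b2)) = 0 := by field_simp; ring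
    have q2 : a1 + 2 * b2 * (-a1 / (2 * b2)) = 0 := by field_simp; ring
    have q3 : e0 + a1 * (-a1 / (2 * b2)) + b2 * (-a1 / (2 * b2)) ^ 2 = 0 := by
      field_simp
      linear_combination (-1 : ℂ) * ha
    simp only [mul_zero, zero_mul, add_zero, q1, q2, q3]
    exact nd_AI hk hb2

end QV

end MPb07157
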