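import Pool.Agent.Lib.MP_b07157_agQV.Mv
import Pool.Agent.Lib.MP_b07157_agQU.Bin
import Pool.Agent.Lib.MP_b07157_agQV.FA3
import Pool.Agent.Lib.MP_b07157_agQV.FA4a
import Pool.Agent.Lib.MP_b07157_agQV.FA4b
import Pool.Agent.Lib.MP_b07157_agQV.FA4c

/-!
# `c = x^2 y`, `b0 = b1 = b2 = 0`, `b3 ≠ 0` or `b4 ≠ 0`
-/

noncomputable section

namespace MPb07157

open MvPolynomial

namespace QV

open QU

private theorem RC_b3 {b3 a0 a1 a2 a3 e0 e1 e2 l0 l1 k : ℂ} (hb3 : b3 ≠ 0) :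
    SuLoc (X 0 ^ 2 * X 1 + qf 0 0 0 b3 0 a0 a1 a2 a3 e0 e1 e2 l0 l1 k) := by
  obtain ⟨t, ht⟩ := exists_nd4 0 a0 e0 l0 k
  rcases ht with ht | ⟨h0, _⟩
  · exact mvZx t (x2y_inv2 t) (nd_A3 hb3 ht)
  · exact absurd rfl h0

/-- `mvZy s` (`x2y_inv1`) with `s = -b4 / b3` kills `b4`; then `exists_nd4` for
`0, a0, e0, l0, k`: `mvZx t` (`x2y_inv2`; second alternative impossible); then `nd_A3`. -/
theorem I_b3 {b3 b4 a0 a1 a2 a3 e0 e1 e2 l0 l1 k : ℂ} (hb3 : b3 ≠ 0) :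
    SuLoc (X 0 ^ 2 * X 1 + qf 0 0 0 b3 b4 a0 a1 a2 a3 e0 e1 e2 l0 l1 k) := by
  obtain ⟨s, hs⟩ : ∃ s : ℂ, b4 + b3 * s = 0 := ⟨-b4 / b3, by field_simp; ring⟩
  refine mvZy s (x2y_inv1 s) ?_
  rw [show (0 : ℂ) + 4 * 0 * s = 0 by ring, show (0 : ℂ) + 3 * 0 * s + 6 * 0 * s ^ 2 = 0 by ring,
    show b3 + 2 * 0 * s + 3 * 0 * s ^ 2 + 4 * 0 * s ^ 3 = b3 by ring,
    show b4 + b3 * s + 0 * s ^ 2 + 0 * s ^ 3 + 0 * s ^ 4 = 0 by linear_combination hs]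
  exact RC_b3 hb3

/-- If not (`a0 = a1 = 0`, `e0 ≠ 0`, `a2 ^ 2 = 4 e0 b4`): `exists_nd4` for `0, a0, e0, l0, k`:
`mvZx t`; then `nd_A4a` (`a0 ≠ 0`), `nd_A4b` (`a0 = 0`, `a1 ≠ 0`), `nd_A4c` (`a0 = a1 = 0`; `a2`,
`e0`, `b4` do not change). Otherwise `mvZx t` with `t = -l0 / (2 e0)` kills `l0`: `hX`. -/
theorem I_b4 (hX : ∀ b4 a2 a3 e0 e1 e2 l1 k : ℂ, b4 ≠ 0 → e0 ≠ 0 → a2 ^ 2 = 4 * e0 * b4 →
      SuLoc (X 0 ^ 2 * X 1 + qf 0 0 0 0 b4 0 0 a2 a3 e0 e1 e2 0 l1 k))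
    {b4 a0 a1 a2 a3 e0 e1 e2 l0 l1 k : ℂ} (hb4 : b4 ≠ 0) :
    SuLoc (X 0 ^ 2 * X 1 + qf 0 0 0 0 b4 a0 a1 a2 a3 e0 e1 e2 l0 l1 k) := by
  by_cases hcase : a0 = 0 ∧ a1 = 0 ∧ e0 ≠ 0 ∧ a2 ^ 2 = 4 * e0 * b4
  · obtain ⟨rfl, rfl, he0, h2⟩ := hcase
    obtain ⟨t, ht⟩ : ∃ t : ℂ, l0 + 2 * e0 * t = 0 := ⟨-l0 / (2 * e0), by field_simp; ring⟩
    refine mvZx t (x2y_inv2 t) ?_
    rw [show (0 : ℂ) + 4 * 0 * t = 0 by ring, show (0 : ℂ) + 3 * 0 * t = 0 by ring,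
      show a2 + 2 * 0 * t = a2 by ring, show e0 + 3 * 0 * t + 6 * 0 * t ^ 2 = e0 by ring,
      show l0 + 2 * e0 * t + 3 * 0 * t ^ 2 + 4 * 0 * t ^ 3 = 0 by linear_combination ht]
    exact hX _ _ _ _ _ _ _ _ hb4 he0 h2
  · obtain ⟨t, ht⟩ := exists_nd4 0 a0 e0 l0 k
    rcases ht with ht | ⟨h0, _⟩
    swap
    · exact absurd rfl h0
    by_cases ha0 : a0 = 0
    · subst ha0
      rw [show (0 : ℂ) + 4 * 0 * t = 0 by ring] at ht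
      refine mvZx t (x2y_inv2 t) ?_
      rw [show (0 : ℂ) + 4 * 0 * t = 0 by ring]
      by_cases ha1 : a1 = 0
      · subst ha1
        rw [show (0 : ℂ) + 3 * 0 * t = 0 by ring]
        refine nd_A4c hb4 ht ?_
        intro he h2
        refine hcase ⟨rfl, rfl, ?_, ?_⟩
        · intro h
          apply he
          rw [h]
          ring
        · linear_combination h2
      · refine nd_A4b hb4 ?_ ht
        rwa [show a1 + 3 * 0 * t = a1 by ring]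
    · refine mvZx t (x2y_inv2 t) (nd_A4a hb4 ?_ ht)
      rwa [show a0 + 4 * 0 * t = a0 by ring]

end QV

end MPb07157
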