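import Pool.Agent.Lib.MP_b07157_agQV.Mv
import Pool.Agent.Lib.MP_b07157_agQU.Bin
import Pool.Agent.Lib.MP_b07157_agQV.FA5

/-!
# `c = x^2 y`, `b = 0`
-/

noncomputable section

namespace MPb07157

open MvPolynomial

namespace QV

open QU

/-- The case of `I_b` in which the `a`'s already satisfy `ND3`: `exists_nd4` for
`0, a0, e0, l0, k`, then `mvZx t` and `nd_A5`. -/
theorem I_b_aux {a0 a1 a2 a3 e0 e1 e2 l0 l1 k : ℂ} (hA : ND3 a0 a1 a2 a3) :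
    SuLoc (X 0 ^ 2 * X 1 + qf 0 0 0 0 0 a0 a1 a2 a3 e0 e1 e2 l0 l1 k) := by
  obtain ⟨t, ht | ht⟩ := exists_nd4 0 a0 e0 l0 k
  · refine mvZx t (x2y_inv2 t) ?_
    simp only [mul_zero, zero_mul, add_zero] at ht ⊢
    exact nd_A5 ht hA
  · exact absurd rfl ht.1

/-- `exists_nd3` for `a0, a1, a2, a3`: `mvZy s` (`x2y_inv1`); then `exists_nd4` for
`0, a0, e0, l0, k`: `mvZx t` (`x2y_inv2`; the second alternative is impossible; the `a`'s do not
change, as `b = 0`); then `nd_A5`. -/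
theorem I_b {a0 a1 a2 a3 e0 e1 e2 l0 l1 k : ℂ} :
    SuLoc (X 0 ^ 2 * X 1 + qf 0 0 0 0 0 a0 a1 a2 a3 e0 e1 e2 l0 l1 k) := by
  obtain ⟨s, hs⟩ := exists_nd3 a0 a1 a2 a3
  refine mvZy s (x2y_inv1 s) ?_
  simp only [mul_zero, zero_mul, add_zero]
  exact I_b_aux hs

end QV

end MPb07157
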