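import Pool.Agent.Lib.MP_b07157_agQV.Mv
import Pool.Agent.Lib.MP_b07157_agQV.FBb
import Pool.Agent.Lib.MP_b07157_agQV.FBc
import Pool.Agent.Lib.MP_b07157_agQV.FBd

/-!
# `c = x^3`, `b0 = b1 = 0`, `b2 ≠ 0` or `b3 ≠ 0`
-/

noncomputable section

namespace MPb07157

open MvPolynomial

namespace QV

open QU

/-- The case `b3 = 0`. -/
theorem RF.II_b2_aux {b2 b4 a0 a1 a2 a3 e0 e1 e2 l0 l1 k : ℂ} (hb2 : b2 ≠ 0) :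
    SuLoc (X 0 ^ 3 + qf 0 0 b2 0 b4 a0 a1 a2 a3 e0 e1 e2 l0 l1 k) := by
  refine mvYx (-a1 / (2 * b2)) (x3_inv4 _) ?_
  have h1 : a1 + 2 * b2 * (-a1 / (2 * b2)) = 0 := by
    field_simp
    ring
  rw [h1]
  by_cases hb4 : b4 = 0
  · subst hb4
    generalize a0 + 0 * (-a1 / (2 * b2)) = A0
    generalize a2 + 3 * 0 * (-a1 / (2 * b2)) = A2
    generalize a3 + 4 * 0 * (-a1 / (2 * b2)) = A3
    refine mvZx (-A2 / (2 * b2)) (x3_inv2 _) ?_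
    have h2 : A2 + 2 * b2 * (-A2 / (2 * b2)) = 0 := by
      field_simp
      ring
    have h3 : (0 : ℂ) + 3 * 0 * (-A2 / (2 * b2)) = 0 := by ring
    rw [h2, h3]
    exact nd_Bc hb2
  · exact nd_Bb hb2 hb4

/-- `mvZy s` (`x3_inv1`) with `s = -b3 / (2 b2)` kills `b3`. If then `b4 ≠ 0`: `mvYx t` (`x3_inv4`)
with `t = -a1 / (2 b2)` kills `a1`: `nd_Bb`. If `b4 = 0`: `mvYx t` kills `a1`, `mvZx t'` (`x3_inv2`)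
with `t' = -a2 / (2 b2)` kills `a2` (`a1' = a1 = 0` as `b1 = 0`): `nd_Bc`. -/
theorem II_b2 {b2 b3 b4 a0 a1 a2 a3 e0 e1 e2 l0 l1 k : ℂ} (hb2 : b2 ≠ 0) :
    SuLoc (X 0 ^ 3 + qf 0 0 b2 b3 b4 a0 a1 a2 a3 e0 e1 e2 l0 l1 k) := by
  refine mvZy (-b3 / (2 * b2)) (x3_inv1 _) ?_
  have h1 : (0 : ℂ) + 4 * 0 * (-b3 / (2 * b2)) = 0 := by ring
  have h2 : b2 + 3 * 0 * (-b3 / (2 * b2)) + 6 * 0 * (-b3 / (2 * b2)) ^ 2 = b2 := by ring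
  have h3 : b3 + 2 * b2 * (-b3 / (2 * b2)) + 3 * 0 * (-b3 / (2 * b2)) ^ 2 +
      4 * 0 * (-b3 / (2 * b2)) ^ 3 = 0 := by
    field_simp
    ring
  rw [h1, h2, h3]
  exact RF.II_b2_aux hb2

/-- `mvZy s` (`x3_inv1`) with `s = -b4 / b3` kills `b4`: `nd_Bd`. -/
theorem II_b3 {b3 b4 a0 a1 a2 a3 e0 e1 e2 l0 l1 k : ℂ} (hb3 : b3 ≠ 0) :
    SuLoc (X 0 ^ 3 + qf 0 0 0 b3 b4 a0 a1 a2 a3 e0 e1 e2 l0 l1 k) := by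
  refine mvZy (-b4 / b3) (x3_inv1 _) ?_
  have h1 : (0 : ℂ) + 4 * 0 * (-b4 / b3) = 0 := by ring
  have h2 : (0 : ℂ) + 3 * 0 * (-b4 / b3) + 6 * 0 * (-b4 / b3) ^ 2 = 0 := by ring
  have h3 : b3 + 2 * 0 * (-b4 / b3) + 3 * 0 * (-b4 / b3) ^ 2 + 4 * 0 * (-b4 / b3) ^ 3 = b3 := by
    ring
  have h4 : b4 + b3 * (-b4 / b3) + 0 * (-b4 / b3) ^ 2 + 0 * (-b4 / b3) ^ 3 +
      0 * (-b4 / b3) ^ 4 = 0 := by
    field_simp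
    ring
  rw [h1, h2, h3, h4]
  exact nd_Bd hb3

end QV

end MPb07157
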