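import Pool.Agent.Lib.MP_b07157_agQV.Mv
import Pool.Agent.Lib.MP_b07157_agQV.FBf2
import Pool.Agent.Lib.MP_b07157_agQV.FBf3
import Pool.Agent.Lib.MP_b07157_agQV.FBg

/-!
# `c = x^3`, `b = 0`, `a0 = a1 = 0`
-/

noncomputable section

namespace MPb07157

open MvPolynomial

namespace QV

open QU

/-- `a2 ≠ 0`: `mvZy s` (`x3_inv1`) with `s = -a3 / a2` kills `a3`: `nd_Bf2`. `a2 = 0`: `nd_Bf3`. -/
theorem II_a23 {a2 a3 e0 e1 e2 l0 l1 k : ℂ} (h : a2 ≠ 0 ∨ a3 ≠ 0) :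
    SuLoc (X 0 ^ 3 + qf 0 0 0 0 0 0 0 a2 a3 e0 e1 e2 l0 l1 k) := by
  by_cases h2 : a2 = 0
  · subst h2
    exact nd_Bf3 (h.resolve_left fun h => h rfl)
  · refine mvZy (-a3 / a2) (x3_inv1 _) ?_
    simp only [mul_zero, zero_mul, add_zero, zero_add]
    rw [show a3 + a2 * (-a3 / a2) = 0 by
      rw [mul_div_cancel₀ _ h2, add_neg_cancel]]
    exact nd_Bf2 h2

private theorem RH_e2 {e0 e1 e2 l0 l1 k : ℂ} (h2 : e2 ≠ 0) :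
    SuLoc (X 0 ^ 3 + qf 0 0 0 0 0 0 0 0 0 e0 e1 e2 l0 l1 k) := by
  refine mvYz (-e1 / (2 * e2)) (x3_inv3 _) ?_
  simp only [mul_zero, zero_mul, add_zero, zero_add]
  rw [show e1 + 2 * e2 * (-e1 / (2 * e2)) = 0 by
    rw [mul_div_cancel₀ _ (mul_ne_zero two_ne_zero h2), add_neg_cancel]]
  exact nd_Bg

private theorem RH_e0 {e0 e1 l0 l1 k : ℂ} (h0 : e0 ≠ 0) :
    SuLoc (X 0 ^ 3 + qf 0 0 0 0 0 0 0 0 0 e0 e1 0 l0 l1 k) := by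
  refine mvZy (-e1 / (2 * e0)) (x3_inv1 _) ?_
  simp only [mul_zero, zero_mul, add_zero, zero_add]
  rw [show e1 + 2 * e0 * (-e1 / (2 * e0)) = 0 by
    rw [mul_div_cancel₀ _ (mul_ne_zero two_ne_zero h0), add_neg_cancel]]
  exact nd_Bg

/-- Kill `e1`, then `nd_Bg`: `e1 = 0` nothing; `e2 ≠ 0`: `mvYz s` (`x3_inv3`) with `s = -e1 / (2 e2)`;
`e2 = 0`, `e0 ≠ 0`: `mvZy s` (`x3_inv1`) with `s = -e1 / (2 e0)`; `e0 = e2 = 0`, `e1 ≠ 0`: first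
`mvZy 1` gives `e2' = e1 ≠ 0`. -/
theorem II_g {e0 e1 e2 l0 l1 k : ℂ} :
    SuLoc (X 0 ^ 3 + qf 0 0 0 0 0 0 0 0 0 e0 e1 e2 l0 l1 k) := by
  by_cases h2 : e2 = 0
  · subst h2
    by_cases h0 : e0 = 0
    · subst h0
      by_cases h1 : e1 = 0
      · subst h1
        exact nd_Bg
      · refine mvZy 1 (x3_inv1 _) ?_
        simp only [mul_zero, zero_mul, add_zero, zero_add, mul_one]
        exact RH_e2 h1
    · exact RH_e0 h0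
  · exact RH_e2 h2

end QV

end MPb07157
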