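import Pool.Agent.Lib.MP_b07157_agQV.X5
import Pool.Agent.Lib.MP_b07157_agQU.XE

/-!
# The exceptional types, with powers of new variables
-/

noncomputable section

namespace MPb07157

open MvPolynomial

namespace QV

open QU

theorem chg_xp (α β : ℂ) : Chg (xp α β) := by
  refine ⟨?_, ?_⟩
  · intro i
    rw [← constantCoeff_eq]
    fin_cases i <;> simp [xp]
  · have hco : ∀ i j : Fin 5, coeff (Finsupp.single j 1) (xp α β i) =
        !![1, 0, 0, 0, 0; 0, 1, 0, 0, 0; 0, 0, 1, 0, 0; 0, 0, 0, 1 / 2, 1 / 2;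
          0, 0, 0, -Complex.I / 2, Complex.I / 2] i j := by
      intro i j
      have h1 : coeff (Finsupp.single j 1) (xp α β i) = constantCoeff (pderiv j (xp α β i)) := by
        rw [constantCoeff_eq, coeff_pderiv]
        simp
      rw [h1]
      fin_cases j <;> fin_cases i <;> simp [xp, pderiv_X]
    have hm : (Matrix.of fun i j => coeff (Finsupp.single j 1) (xp α β i)) =
        !![1, 0, 0, 0, 0; 0, 1, 0, 0, 0; 0, 0, 1, 0, 0; 0, 0, 0, 1 / 2, 1 / 2;
          0, 0, 0, -Complex.I / 2, Complex.I / 2] := by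
      ext i j
      rw [Matrix.of_apply, hco]
    rw [hm]
    simp [Matrix.det_succ_row_zero, Fin.sum_univ_succ, Fin.succAbove]
    intro h3
    exact Complex.I_ne_zero (by linear_combination 2 * h3)

/-- The exceptional type `c = x^2 y`. -/
theorem suLoc_XI (b4 a2 a3 e0 e1 e2 l1 k : ℂ) (hb4 : b4 ≠ 0) (he0 : e0 ≠ 0)
    (h : a2 ^ 2 = 4 * e0 * b4) :
    SuLoc (X 0 ^ 2 * X 1 + qf 0 0 0 0 b4 0 0 a2 a3 e0 e1 e2 0 l1 k) := by
  obtain ⟨α, β, hα, hβ, rfl, rfl, rfl⟩ := exc_sqrt hb4 he0 h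
  refine SuLoc.of_stab ?_ ?_ ?_
  · intro h0
    have h1 := congrArg (eval ![0, 1, 0]) h0
    simp [qf] at h1
    exact hα h1
  · rw [← constantCoeff_eq]
    simp [qf]
  · have h1 := (nd_XI (α := -2 * Complex.I * α) (β := -2 * Complex.I * β)
      (a3 := a3) (e1 := e1) (e2 := e2) (l1 := l1) (k0 := k) (by simp [hα])
      (by simp [hβ])).aeval (chg_xp α β)
    convert h1 using 1
    refine MvPolynomial.funext fun w => ?_
    simp [stab, xp, qf]
    linear_combination ((α * w 1 ^ 2 + β * (w 0 * w 2)) ^ 2 - (w 4 - w 3) ^ 2 / 4) * Complex.I_sq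

/-- The exceptional type `c = x^3`. -/
theorem suLoc_XII (b4 a2 e0 e1 e2 l0 l1 k : ℂ) (hb4 : b4 ≠ 0) (he0 : e0 ≠ 0)
    (h : a2 ^ 2 = 4 * e0 * b4) :
    SuLoc (X 0 ^ 3 + qf 0 0 0 0 b4 0 0 a2 0 e0 e1 e2 l0 l1 k) := by
  obtain ⟨α, β, hα, hβ, rfl, rfl, rfl⟩ := exc_sqrt hb4 he0 h
  refine SuLoc.of_stab ?_ ?_ ?_
  · intro h0
    have h1 := congrArg (eval ![0, 1, 0]) h0
    simp [qf] at h1
    exact hα h1
  · rw [← constantCoeff_eq]
    simp [qf]
  · have h1 := (nd_XII (α := -2 * Complex.I * α) (β := -2 * Complex.I * β)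
      (e1 := e1) (e2 := e2) (l0 := l0) (l1 := l1) (k0 := k) (by simp [hα])
      (by simp [hβ])).aeval (chg_xp α β)
    convert h1 using 1
    refine MvPolynomial.funext fun w => ?_
    simp [stab, xp, qf]
    linear_combination ((α * w 1 ^ 2 + β * (w 0 * w 2)) ^ 2 - (w 4 - w 3) ^ 2 / 4) * Complex.I_sq

end QV

end MPb07157
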