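import Pool.Agent.Lib.MP_b07157_agE.EMain
import Pool.Agent.Lib.MP_b07157_agS.SMain

/-!
# Newton non-degenerate polynomials and sums with powers of new variables
-/

noncomputable section

namespace MPb07157

open MvPolynomial

namespace QV

variable {n : ℕ}

/-- The sum of `φ v` times the coefficients. -/
def Lf (φ : (Fin n →₀ ℕ) → ℂ) (F : MvPolynomial (Fin n) ℂ) : ℂ := ∑ v ∈ F.support, coeff v F * φ v

theorem Lf_eq (φ : (Fin n →₀ ℕ) → ℂ) (F : MvPolynomial (Fin n) ℂ) {S : Finset (Fin n →₀ ℕ)}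
    (hS : F.support ⊆ S) : Lf φ F = ∑ v ∈ S, coeff v F * φ v :=
  Finset.sum_subset hS fun v _ hv => by rw [notMem_support_iff.1 hv, zero_mul]

theorem Lf_add (φ : (Fin n →₀ ℕ) → ℂ) (F G : MvPolynomial (Fin n) ℂ) :
    Lf φ (F + G) = Lf φ F + Lf φ G := by
  classical
  rw [Lf_eq φ F (Finset.subset_union_left (s₂ := G.support)),
    Lf_eq φ G (Finset.subset_union_right (s₁ := F.support)),
    Lf_eq φ (F + G) (support_add (p := F) (q := G)), ← Finset.sum_add_distrib]
  refine Finset.sum_congr rfl fun v _ => ?_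
  rw [coeff_add]
  ring

theorem Lf_zero (φ : (Fin n →₀ ℕ) → ℂ) : Lf φ 0 = 0 := by
  unfold Lf
  rw [support_zero, Finset.sum_empty]

theorem Lf_sum (φ : (Fin n →₀ ℕ) → ℂ) {ι : Type*} (s : Finset ι) (G : ι → MvPolynomial (Fin n) ℂ) :
    Lf φ (∑ i ∈ s, G i) = ∑ i ∈ s, Lf φ (G i) := by
  classical
  induction s using Finset.induction_on with
  | empty => rw [Finset.sum_empty, Finset.sum_empty, Lf_zero]
  | insert a s ha ih => rw [Finset.sum_insert ha, Finset.sum_insert ha, Lf_add, ih]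

theorem Lf_monomial (φ : (Fin n →₀ ℕ) → ℂ) (v : Fin n →₀ ℕ) (c : ℂ) :
    Lf φ (monomial v c) = c * φ v := by
  classical
  rw [Lf_eq φ _ support_monomial_subset, Finset.sum_singleton, coeff_monomial, if_pos rfl]

/-- The values at `u` of the logarithmic derivatives of the terms of weight `m`. -/
def ph (w : Fin n → ℕ) (m : ℕ) (u : Fin n → ℂ) (i : Fin n) (v : Fin n →₀ ℕ) : ℂ :=
  if ∑ j, w j * v j = m then (v i : ℂ) * ∏ j, u j ^ v j else 0

/-- Newton non-degenerate: the initial forms have no critical points in the torus. -/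
def ND (F : MvPolynomial (Fin n) ℂ) : Prop :=
  F ≠ 0 ∧ coeff 0 F = 0 ∧ ∀ (w : Fin n → ℕ) (m : ℕ) (u : Fin n → ℂ), (∀ i, 0 < w i) →
    (∀ i, u i ≠ 0) → (∀ v ∈ F.support, m ≤ ∑ j, w j * v j) →
    (∃ v ∈ F.support, ∑ j, w j * v j = m) → ∃ i, Lf (ph w m u i) F ≠ 0

theorem ND.smcLoc {F : MvPolynomial (Fin n) ℂ} (h : ND F) : SmcLoc F := by
  classical
  obtain ⟨hF0, hc0, H⟩ := h
  intro s₀ _ hp b hb
  refine eval_eq_zero_of_form hF0 hc0 (fun w hw => ?_) s₀ hp b hb
  intro u hu _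
  obtain ⟨v0, hv0, hmin⟩ := Finset.exists_min_image F.support (fun v => ∑ j, w j * v j)
    (support_nonempty.2 hF0)
  obtain ⟨i, hi⟩ := H w (∑ j, w j * v0 j) u hw hu hmin ⟨v0, hv0, rfl⟩
  refine ⟨i, fun h1 => hi ?_⟩
  have h2 : eval u (X i * pderiv i (initialPart F w)) = 0 := by
    rw [map_mul, h1, mul_zero]
  rw [← h2]
  obtain ⟨S, hS1, hS2⟩ : ∃ S : Finset (Fin n →₀ ℕ),
      initialPart F w = ∑ v ∈ S, monomial v (coeff v F) ∧
      ∀ v, v ∈ S ↔ v ∈ F.support ∧ ∀ u ∈ F.support, ∑ j, w j * v j ≤ ∑ j, w j * u j :=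
    ⟨_, rfl, fun v => Finset.mem_filter⟩
  have hS3 : S = F.support.filter fun v => ∑ j, w j * v j = ∑ j, w j * v0 j := by
    ext v
    rw [hS2, Finset.mem_filter]
    constructor
    · rintro ⟨h3, h4⟩
      exact ⟨h3, le_antisymm (h4 v0 hv0) (hmin v h3)⟩
    · rintro ⟨h3, h4⟩
      exact ⟨h3, fun x hx => by rw [h4]; exact hmin x hx⟩
  rw [hS1, map_sum, Finset.mul_sum, map_sum, hS3, Finset.sum_filter]
  unfold Lf
  refine Finset.sum_congr rfl fun v _ => ?_
  unfold ph
  split_ifs with h6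
  · rw [X_mul_pderiv_monomial, map_nsmul, nsmul_eq_mul, eval_monomial,
      Finsupp.prod_fintype _ _ (fun i => pow_zero _)]
    ring
  · rw [mul_zero]

/-- `u^e + g(x)`, the new variable first. -/
def sus0 (g : MvPolynomial (Fin n) ℂ) (e : ℕ) : MvPolynomial (Fin (n + 1)) ℂ :=
  X 0 ^ e + rename Fin.succ g

theorem coeff_sus0_cons (g : MvPolynomial (Fin n) ℂ) {e : ℕ} (he : 0 < e) (v : Fin n →₀ ℕ) :
    coeff (Finsupp.cons 0 v) (sus0 g e) = coeff v g := by
  classical
  unfold sus0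
  have h1 : Finsupp.cons 0 v = Finsupp.mapDomain Fin.succ v := by
    ext j
    refine Fin.cases ?_ (fun j => ?_) j
    · rw [Finsupp.cons_zero, Finsupp.mapDomain_of_notMem_range]
      rintro ⟨k, hk⟩
      exact Fin.succ_ne_zero k hk
    · rw [Finsupp.cons_succ, Finsupp.mapDomain_apply (Fin.succ_injective n)]
  rw [coeff_add, h1, coeff_rename_mapDomain _ (Fin.succ_injective n), coeff_X_pow, if_neg, zero_add]
  intro h2
  have h3 := congrArg (fun z => z 0) h2
  simp only [Finsupp.single_eq_same] at h3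
  rw [Finsupp.mapDomain_of_notMem_range] at h3
  · omega
  · rintro ⟨k, hk⟩
    exact Fin.succ_ne_zero k hk

theorem coeff_sus0_single (g : MvPolynomial (Fin n) ℂ) {e : ℕ} (he : 0 < e) :
    coeff (Finsupp.single 0 e) (sus0 g e) = 1 := by
  classical
  unfold sus0
  rw [coeff_add, coeff_X_pow, if_pos rfl, coeff_rename_eq_zero, add_zero]
  intro v hv
  exfalso
  have h3 := congrArg (fun z => z 0) hv
  simp only [Finsupp.single_eq_same] at h3
  rw [Finsupp.mapDomain_of_notMem_range] at h3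
  · omega
  · rintro ⟨k, hk⟩
    exact Fin.succ_ne_zero k hk

theorem Lf_rename (φ : (Fin (n + 1) →₀ ℕ) → ℂ) (g : MvPolynomial (Fin n) ℂ) :
    Lf φ (rename Fin.succ g) = Lf (fun v => φ (Finsupp.mapDomain Fin.succ v)) g := by
  conv_lhs => rw [as_sum g]
  rw [map_sum, Lf_sum]
  unfold Lf
  refine Finset.sum_congr rfl fun v _ => ?_
  rw [rename_monomial]
  exact Lf_monomial φ _ _

theorem Lf_sus0 (φ : (Fin (n + 1) →₀ ℕ) → ℂ) (g : MvPolynomial (Fin n) ℂ) (e : ℕ) :
    Lf φ (sus0 g e) = φ (Finsupp.single 0 e) +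
      Lf (fun v => φ (Finsupp.mapDomain Fin.succ v)) g := by
  unfold sus0
  rw [Lf_add, Lf_rename, X_pow_eq_monomial, Lf_monomial, one_mul]

theorem md_zero (v : Fin n →₀ ℕ) : Finsupp.mapDomain Fin.succ v 0 = 0 := by
  rw [Finsupp.mapDomain_of_notMem_range]
  rintro ⟨k, hk⟩
  exact Fin.succ_ne_zero k hk

theorem md_succ (v : Fin n →₀ ℕ) (j : Fin n) : Finsupp.mapDomain Fin.succ v j.succ = v j :=
  Finsupp.mapDomain_apply (Fin.succ_injective n) _ _

theorem sus0_ne_zero (g : MvPolynomial (Fin n) ℂ) {e : ℕ} (he : 0 < e) : sus0 g e ≠ 0 := by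
  intro h
  have h1 := coeff_sus0_single g he
  rw [h, coeff_zero] at h1
  exact zero_ne_one h1

theorem coeff_zero_sus0 {g : MvPolynomial (Fin n) ℂ} {e : ℕ} (he : 0 < e) (h0 : coeff 0 g = 0) :
    coeff 0 (sus0 g e) = 0 := by
  rw [← constantCoeff_eq] at h0 ⊢
  unfold sus0
  rw [map_add, map_pow, constantCoeff_X, zero_pow he.ne', constantCoeff_rename, h0, zero_add]

theorem ND.sus0 {g : MvPolynomial (Fin n) ℂ} (h : ND g) {e : ℕ} (he : 0 < e) : ND (sus0 g e) := by
  classical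
  obtain ⟨hg0, hc0, H⟩ := h
  refine ⟨sus0_ne_zero g he, coeff_zero_sus0 he hc0, fun w m u hw hu hm hex => ?_⟩
  have hwt : ∀ v : Fin n →₀ ℕ, ∑ j, w j * Finsupp.mapDomain Fin.succ v j =
      ∑ j, w j.succ * v j := by
    intro v
    rw [Fin.sum_univ_succ, md_zero, mul_zero, zero_add]
    simp only [md_succ]
  have hwe : ∑ j, w j * (Finsupp.single 0 e : Fin (n + 1) →₀ ℕ) j = w 0 * e := by
    rw [Fin.sum_univ_succ, Finsupp.single_eq_same, Finset.sum_eq_zero, add_zero]
    intro j _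
    rw [Finsupp.single_eq_of_ne (Fin.succ_ne_zero j), mul_zero]
  by_cases hme : w 0 * e = m
  · refine ⟨0, ?_⟩
    rw [Lf_sus0]
    have h1 : Lf (fun v => ph w m u 0 (Finsupp.mapDomain Fin.succ v)) g = 0 := by
      unfold Lf
      refine Finset.sum_eq_zero fun v _ => ?_
      unfold ph
      beta_reduce
      rw [md_zero, Nat.cast_zero, zero_mul, ite_self, mul_zero]
    rw [h1, add_zero]
    unfold ph
    rw [if_pos (hwe.trans hme), Finsupp.single_eq_same]
    exact mul_ne_zero (by exact_mod_cast he.ne') (Finset.prod_ne_zero_iff.2 fun i _ =>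
      pow_ne_zero _ (hu i))
  · obtain ⟨i, hi⟩ := H (fun j => w j.succ) m (fun j => u j.succ) (fun j => hw _) (fun j => hu _)
      (fun v hv => by
        rw [← hwt]
        refine hm _ ?_
        rw [mem_support_iff] at hv ⊢
        have h1 : Finsupp.cons 0 v = Finsupp.mapDomain Fin.succ v := by
          ext j
          refine Fin.cases ?_ (fun j => ?_) j
          · rw [Finsupp.cons_zero, md_zero]
          · rw [Finsupp.cons_succ, md_succ]
        rw [← h1, coeff_sus0_cons g he]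
        exact hv)
      (by
        obtain ⟨v, hv, hvm⟩ := hex
        have h1 : v ∈ (X 0 ^ e : MvPolynomial (Fin (n + 1)) ℂ).support ∪
            (rename Fin.succ g).support := support_add hv
        rw [Finset.mem_union] at h1
        rcases h1 with h1 | h1
        · exfalso
          rw [X_pow_eq_monomial] at h1
          have h2 := Finset.mem_singleton.1 (support_monomial_subset h1)
          rw [h2, hwe] at hvm
          exact hme hvm
        · rw [support_rename_of_injective (Fin.succ_injective n), Finset.mem_image] at h1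
          obtain ⟨v', hv', rfl⟩ := h1
          exact ⟨v', hv', (hwt v').symm.trans hvm⟩)
    refine ⟨i.succ, ?_⟩
    rw [Lf_sus0]
    have h1 : ph w m u i.succ (Finsupp.single 0 e) = 0 := by
      unfold ph
      rw [if_neg]
      rw [hwe]
      exact hme
    rw [h1, zero_add]
    intro h2
    apply hi
    have h3 : Lf (fun v => ph w m u i.succ (Finsupp.mapDomain Fin.succ v)) g = 0 := h2
    rw [← h3]
    unfold Lf
    refine Finset.sum_congr rfl fun v _ => ?_
    unfold ph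
    beta_reduce
    rw [hwt, md_succ, Fin.prod_univ_succ, md_zero, pow_zero, one_mul]
    simp only [md_succ]

/-- `g + ∑ u_j^{e_j}`, `e_j ≥ 2`, the new variables first. -/
inductive Sus (g : MvPolynomial (Fin n) ℂ) : ∀ {m : ℕ}, MvPolynomial (Fin m) ℂ → Prop
  | refl : Sus g g
  | step {m : ℕ} {h : MvPolynomial (Fin m) ℂ} {e : ℕ} (he : 2 ≤ e) (hs : Sus g h) :
      Sus g (sus0 h e)

/-- The conjecture for the germs of `g + ∑ u_j^{e_j}`. -/
def SuLoc (g : MvPolynomial (Fin n) ℂ) : Prop :=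
  ∀ (m : ℕ) (h : MvPolynomial (Fin m) ℂ), Sus g h → SmcLoc h

theorem Sus.nd {g : MvPolynomial (Fin n) ℂ} (hg : ND g) {m : ℕ} {h : MvPolynomial (Fin m) ℂ}
    (hs : Sus g h) : ND h := by
  induction hs with
  | refl => exact hg
  | step he _ ih => exact ih.sus0 (by omega)

theorem ND.suLoc {g : MvPolynomial (Fin n) ℂ} (hg : ND g) : SuLoc g :=
  fun _ _ hs => (hs.nd hg).smcLoc

theorem SuLoc.smcLoc {g : MvPolynomial (Fin n) ℂ} (hg : SuLoc g) : SmcLoc g := hg n g Sus.refl

/-- A polynomial with an explicit support is non-degenerate. -/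
theorem nd_fam {K : ℕ} {F : MvPolynomial (Fin n) ℂ} (E : Fin K → Fin n → ℕ)
    (hE : Function.Injective E) (c : Fin K → ℂ) (hF : F = ∑ k, C (c k) * ∏ i, X i ^ E k i)
    (hc : ∃ k, c k ≠ 0) (h0 : ∀ k, E k ≠ 0)
    (H : ∀ (w : Fin n → ℕ) (m : ℕ) (u : Fin n → ℂ) (T : Fin K → ℂ), (∀ i, 0 < w i) →
      (∀ i, u i ≠ 0) → (∀ k, c k ≠ 0 → m ≤ ∑ i, w i * E k i) →
      (∀ k, T k = if ∑ i, w i * E k i = m then c k * ∏ i, u i ^ E k i else 0) →
      (∃ k, T k ≠ 0) → (∀ i, ∑ k, (E k i : ℂ) * T k = 0) → False) : ND F := by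
  classical
  let e : Fin K → (Fin n →₀ ℕ) := fun k => Finsupp.equivFunOnFinite.symm (E k)
  have he : Function.Injective e := fun a b hab =>
    hE (Finsupp.equivFunOnFinite.symm.injective hab)
  have hea : ∀ k i, e k i = E k i := fun k i => rfl
  have hmon : ∀ k, C (c k) * ∏ i, (X i : MvPolynomial (Fin n) ℂ) ^ E k i =
      monomial (e k) (c k) := by
    intro k
    rw [monomial_eq, Finsupp.prod_fintype _ _ (fun i => pow_zero _)]
    rfl
  have hFm : F = ∑ k, monomial (e k) (c k) := by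
    rw [hF]
    exact Finset.sum_congr rfl fun k _ => hmon k
  have hco : ∀ k, coeff (e k) F = c k := by
    intro k
    rw [hFm, coeff_sum, Finset.sum_eq_single k, coeff_monomial, if_pos rfl]
    · intro l _ hl
      rw [coeff_monomial, if_neg fun h => hl (he h)]
    · intro h
      exact absurd (Finset.mem_univ k) h
  have hsup : ∀ v ∈ F.support, ∃ k, e k = v ∧ c k ≠ 0 := by
    intro v hv
    rw [mem_support_iff, hFm, coeff_sum] at hv
    obtain ⟨k, _, hk⟩ := Finset.exists_ne_zero_of_sum_ne_zero hv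
    rw [coeff_monomial] at hk
    split_ifs at hk with h1
    · exact ⟨k, h1, hk⟩
    · exact absurd rfl hk
  obtain ⟨k0, hk0⟩ := hc
  have hF0 : F ≠ 0 := by
    intro h
    apply hk0
    rw [← hco, h, coeff_zero]
  have hc0 : coeff 0 F = 0 := by
    by_contra h
    obtain ⟨k, hk, _⟩ := hsup 0 (mem_support_iff.2 h)
    apply h0 k
    funext i
    rw [← hea, hk]
    rfl
  refine ⟨hF0, hc0, fun w m u hw hu hm hex => ?_⟩
  by_contra hcon
  push Not at hcon
  refine H w m u (fun k => if ∑ i, w i * E k i = m then c k * ∏ i, u i ^ E k i else 0) hw hu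
    (fun k hk => ?_) (fun k => rfl) ?_ fun i => ?_
  · exact hm (e k) (mem_support_iff.2 (by rw [hco]; exact hk))
  · obtain ⟨v, hv, hvm⟩ := hex
    obtain ⟨k, rfl, hck⟩ := hsup v hv
    refine ⟨k, ?_⟩
    have h1 : ∑ i, w i * E k i = m := hvm
    simp only [if_pos h1]
    exact mul_ne_zero hck (Finset.prod_ne_zero_iff.2 fun i _ => pow_ne_zero _ (hu i))
  · have h1 := hcon i
    rw [hFm, Lf_sum] at h1
    refine Eq.trans (Finset.sum_congr rfl fun k _ => ?_) h1
    rw [Lf_monomial]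
    unfold ph
    simp only [hea]
    split_ifs with h6
    · ring
    · rw [mul_zero, mul_zero]

theorem suLoc_fam {K : ℕ} {F : MvPolynomial (Fin n) ℂ} (E : Fin K → Fin n → ℕ)
    (hE : Function.Injective E) (c : Fin K → ℂ) (hF : F = ∑ k, C (c k) * ∏ i, X i ^ E k i)
    (hc : ∃ k, c k ≠ 0) (h0 : ∀ k, E k ≠ 0)
    (H : ∀ (w : Fin n → ℕ) (m : ℕ) (u : Fin n → ℂ) (T : Fin K → ℂ), (∀ i, 0 < w i) →
      (∀ i, u i ≠ 0) → (∀ k, c k ≠ 0 → m ≤ ∑ i, w i * E k i) →
      (∀ k, T k = if ∑ i, w i * E k i = m then c k * ∏ i, u i ^ E k i else 0) →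
      (∃ k, T k ≠ 0) → (∀ i, ∑ k, (E k i : ℂ) * T k = 0) → False) : SuLoc F :=
  (nd_fam E hE c hF hc h0 H).suLoc

end QV

end MPb07157
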