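import Pool.Agent.Lib.MP_b07157_agQV.Mv
import Pool.Agent.Lib.MP_b07157_agQU.Bin
import Pool.Agent.Lib.MP_b07157_agQV.FA0
import Pool.Agent.Lib.MP_b07157_agQV.FAU
import Pool.Agent.Lib.MP_b07157_agQV.FA1

/-!
# `c = x^2 y`, `b0 ≠ 0` or `b1 ≠ 0`
-/

noncomputable section

namespace MPb07157

open MvPolynomial

namespace QV

open QU

/-- `exists_nd4` for `b` gives `s`; `mvZy s` (with `x2y_inv1`). First alternative: `mvYx 1`
(`x2y_inv3`; the new `b` is the same) and `nd_A0` with `ro = 1`. Second alternative: `b3 = b4 = 0`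
and `b1^2 = 4 b0 b2`, `b0, b1 ≠ 0`: `mvU` with `v = -b1 / (2 b0)`, and `nd_AU`. -/
theorem I_b0 {b0 b1 b2 b3 b4 a0 a1 a2 a3 e0 e1 e2 l0 l1 k : ℂ} (hb0 : b0 ≠ 0) :
    SuLoc (X 0 ^ 2 * X 1 + qf b0 b1 b2 b3 b4 a0 a1 a2 a3 e0 e1 e2 l0 l1 k) := by
  obtain ⟨s, hs | ⟨-, h1, h2, h3, h4⟩⟩ := exists_nd4 b0 b1 b2 b3 b4
  · exact mvZy s (x2y_inv1 s) (mvYx 1 (x2y_inv3 1) (nd_A0 one_ne_zero hb0 hs))
  · refine mvZy s (x2y_inv1 s) ?_
    rw [h3, h4]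
    refine mvU (v := -(b1 + 4 * b0 * s) / (2 * b0)) ?_ ?_ ?_ fun c1 c2 a0' a1' a2' a3' e0' e1' e2'
      l0' l1' k' hc1 hc2 => nd_AU hc1 hc2 hb0
    · exact div_ne_zero (neg_ne_zero.2 h1) (mul_ne_zero two_ne_zero hb0)
    · field_simp
    · generalize b1 + 4 * b0 * s = B1 at h1 h2 ⊢
      generalize b2 + 3 * b1 * s + 6 * b0 * s ^ 2 = B2 at h2 ⊢
      field_simp
      linear_combination -h2

/-- `exists_nd4` for `0, b1, b2, b3, b4`: `mvZy s` (the second alternative is impossible; `b1` does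
not change); then `exists_nd4` for `0, a0, e0, l0, k`: `mvZx t` (second alternative impossible; the
`b`'s do not change, since `b0 = 0`: `b' = b`). Then `nd_A1`. -/
theorem I_b1 {b1 b2 b3 b4 a0 a1 a2 a3 e0 e1 e2 l0 l1 k : ℂ} (hb1 : b1 ≠ 0) :
    SuLoc (X 0 ^ 2 * X 1 + qf 0 b1 b2 b3 b4 a0 a1 a2 a3 e0 e1 e2 l0 l1 k) := by
  obtain ⟨s, hs | ⟨h0, -⟩⟩ := exists_nd4 0 b1 b2 b3 b4
  swap
  · exact absurd rfl h0
  obtain ⟨t, ht | ⟨h0, -⟩⟩ := exists_nd4 0 a0 e0 l0 k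
  swap
  · exact absurd rfl h0
  refine mvZy s (x2y_inv1 s) (mvZx t (x2y_inv2 t) ?_)
  have h1 : b1 + 4 * 0 * s ≠ 0 := by
    rwa [mul_zero, zero_mul, add_zero]
  exact nd_A1 h1 ht hs

end QV

end MPb07157
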