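import Pool.Agent.Lib.MP_b07157_agQV.Chg
import Pool.Agent.Lib.MP_b07157_agQU.Defs

/-!
# Quartic polynomials with triple points: a conic and a tangent line
-/

noncomputable section

namespace MPb07157

open MvPolynomial

namespace QV

/-- The cubic form `z (x^2 + y z)`: a conic and one of its tangent lines. -/
def cS : MvPolynomial (Fin 3) ℂ := X 0 ^ 2 * X 2 + X 1 * X 2 ^ 2

end QV

end MPb07157
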