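import Pool.Agent.Lib.MP_b07157_agQV.Sq
import Pool.Agent.Lib.MP_b07157_agQV.SDefs
import Pool.Agent.Lib.MP_b07157_agCR.R2

/-!
# Quartic polynomials with triple points, conic and tangent line: semi-quasi-homogeneous germs
-/

noncomputable section

namespace MPb07157

open MvPolynomial

namespace QV

open QU

theorem supp_fam3 {K : ℕ} {F : MvPolynomial (Fin 3) ℂ} (E : Fin K → Fin 3 → ℕ) (c : Fin K → ℂ)
    (hF : F = ∑ k, C (c k) * (X 0 ^ E k 0 * X 1 ^ E k 1 * X 2 ^ E k 2)) {v : Fin 3 →₀ ℕ}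
    (hv : v ∈ F.support) : ∃ k, v 0 = E k 0 ∧ v 1 = E k 1 ∧ v 2 = E k 2 := by
  classical
  rw [mem_support_iff, hF, coeff_sum] at hv
  obtain ⟨k, _, hk⟩ := Finset.exists_ne_zero_of_sum_ne_zero hv
  have h1 : C (c k) * (X 0 ^ E k 0 * X 1 ^ E k 1 * X 2 ^ E k 2 : MvPolynomial (Fin 3) ℂ) =
      monomial (Finsupp.equivFunOnFinite.symm (E k)) (c k) := by
    rw [monomial_eq, Finsupp.prod_fintype _ _ (fun i => pow_zero _), Fin.prod_univ_three]
    rfl
  rw [h1, coeff_monomial] at hk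
  refine ⟨k, ?_⟩
  split_ifs at hk with h2
  · rw [← h2]
    exact ⟨rfl, rfl, rfl⟩
  · exact absurd rfl hk

/-- Semi-quasi-homogeneous germs with explicit supports. -/
theorem suLoc_split {K L : ℕ} {P Q : MvPolynomial (Fin 3) ℂ} (w : Fin 3 → ℕ) (hw : ∀ i, 0 < w i)
    (N : ℕ) (hN : 0 < N) (E : Fin K → Fin 3 → ℕ) (c : Fin K → ℂ)
    (hP : P = ∑ k, C (c k) * (X 0 ^ E k 0 * X 1 ^ E k 1 * X 2 ^ E k 2))
    (hE : ∀ k, w 0 * E k 0 + w 1 * E k 1 + w 2 * E k 2 = N) (E' : Fin L → Fin 3 → ℕ)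
    (c' : Fin L → ℂ) (hQ : Q = ∑ k, C (c' k) * (X 0 ^ E' k 0 * X 1 ^ E' k 1 * X 2 ^ E' k 2))
    (hE' : ∀ k, N < w 0 * E' k 0 + w 1 * E' k 1 + w 2 * E' k 2) (hP0 : P ≠ 0)
    (hcr : ∀ p : Fin 3 → ℂ, (∀ i, eval p (pderiv i P) = 0) → p = 0) : SuLoc (P + Q) := by
  classical
  have hPs : ∀ v ∈ P.support, ∑ j, w j * v j = N := by
    intro v hv
    obtain ⟨k, h0, h1, h2⟩ := supp_fam3 E c hP hv
    rw [Fin.sum_univ_three, h0, h1, h2, hE]
  have hQs : ∀ v ∈ Q.support, N < ∑ j, w j * v j := by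
    intro v hv
    obtain ⟨k, h0, h1, h2⟩ := supp_fam3 E' c' hQ hv
    rw [Fin.sum_univ_three, h0, h1, h2]
    exact hE' k
  have hin := CR.R2.initialPart_eq_of_split hPs hQs hP0
  refine SuLoc.of_sqh hw (fun p hp => ?_) ?_ ?_
  · rw [hin]
    by_contra hcon
    push Not at hcon
    exact hp (hcr p hcon)
  · intro h0
    rw [h0] at hin
    apply hP0
    rw [← hin]
    unfold initialPart
    simp
  · by_contra h0
    have h1 : (0 : Fin 3 →₀ ℕ) ∈ (P + Q).support := mem_support_iff.2 h0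
    rcases Finset.mem_union.1 (support_add h1) with h2 | h2
    · have := hPs _ h2
      simp at this
      omega
    · have := hQs _ h2
      simp at this

theorem pd2' (i : Fin 3) : pderiv i (2 : MvPolynomial (Fin 3) ℂ) = 0 := by
  have h := (pderiv i : Derivation ℂ (MvPolynomial (Fin 3) ℂ) _).map_natCast 2
  exact_mod_cast h

theorem eq_zero3 {p : Fin 3 → ℂ} (h0 : p 0 = 0) (h1 : p 1 = 0) (h2 : p 2 = 0) : p = 0 := by
  funext i
  fin_cases i
  · exact h0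
  · exact h1
  · exact h2

/-- `b_4 ≠ 0`: weights `(5, 4, 6)`. -/
theorem nd_SA {b0 b1 b2 b3 b4 a0 a1 a2 a3 e0 e1 e2 l0 l1 k : ℂ} (hb4 : b4 ≠ 0) :
    SuLoc (cS + qf b0 b1 b2 b3 b4 a0 a1 a2 a3 e0 e1 e2 l0 l1 k) := by
  have e : cS + qf b0 b1 b2 b3 b4 a0 a1 a2 a3 e0 e1 e2 l0 l1 k =
      (cS + C b4 * X 1 ^ 4) + qf b0 b1 b2 b3 0 a0 a1 a2 a3 e0 e1 e2 l0 l1 k := by
    unfold qf
    simp only [C_0]
    ring
  rw [e]
  refine suLoc_split ![5, 4, 6] (by decide) 16 (by norm_num)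
    ![![2, 0, 1], ![0, 1, 2], ![0, 4, 0]] ![1, 1, b4] ?_ (by decide)
    ![![0, 0, 4], ![0, 1, 3], ![0, 2, 2], ![0, 3, 1], ![1, 0, 3], ![1, 1, 2], ![1, 2, 1],
      ![1, 3, 0], ![2, 0, 2], ![2, 1, 1], ![2, 2, 0], ![3, 0, 1], ![3, 1, 0], ![4, 0, 0]]
    ![b0, b1, b2, b3, a0, a1, a2, a3, e0, e1, e2, l0, l1, k] ?_ (by decide) ?_ fun p hp => ?_
  · simp [cS, Fin.sum_univ_succ]
    try ring
  · simp [qf, Fin.sum_univ_succ]
    try ring
  · intro h
    have h1 := congrArg (eval ![1, 0, 1]) h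
    simp [cS] at h1
  · have h0 := hp 0
    have h1 := hp 1
    have h2 := hp 2
    simp [cS, pderiv_X, Derivation.leibniz_pow] at h0 h1 h2
    have q0 : p 0 * p 2 = 0 := by
      rcases h0 with h0 | h0 <;> simp [h0]
    by_cases hz : p 2 = 0
    · have q1 : p 0 = 0 := by
        have : p 0 ^ 2 = 0 := by linear_combination h2 - 2 * p 1 * hz
        exact pow_eq_zero_iff (by norm_num) |>.1 this
      have q2 : p 1 = 0 := by
        have : b4 * p 1 ^ 3 = 0 := by linear_combination h1 / 4 - p 2 / 4 * hz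
        exact pow_eq_zero_iff (by norm_num) |>.1 ((mul_eq_zero.1 this).resolve_left hb4)
      exact eq_zero3 q1 q2 hz
    · exfalso
      have q1 : p 0 = 0 := (mul_eq_zero.1 q0).resolve_right hz
      have q2 : p 1 = 0 := by
        have : p 1 * p 2 = 0 := by linear_combination h2 / 2 - p 0 / 2 * q1
        exact (mul_eq_zero.1 this).resolve_right hz
      apply hz
      have : p 2 ^ 2 = 0 := by linear_combination h1 - 4 * b4 * p 1 ^ 2 * q2
      exact pow_eq_zero_iff (by norm_num) |>.1 this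

/-- `b_4 = 0`, `a_3 ≠ 0`: weights `(4, 3, 5)`. -/
theorem nd_SB {b0 b1 b2 b3 a0 a1 a2 a3 e0 e1 e2 l0 l1 k : ℂ} (ha3 : a3 ≠ 0) :
    SuLoc (cS + qf b0 b1 b2 b3 0 a0 a1 a2 a3 e0 e1 e2 l0 l1 k) := by
  have e : cS + qf b0 b1 b2 b3 0 a0 a1 a2 a3 e0 e1 e2 l0 l1 k =
      (cS + C a3 * (X 0 * X 1 ^ 3)) + qf b0 b1 b2 b3 0 a0 a1 a2 0 e0 e1 e2 l0 l1 k := by
    unfold qf
    simp only [C_0]
    ring
  rw [e]
  refine suLoc_split ![4, 3, 5] (by decide) 13 (by norm_num)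
    ![![2, 0, 1], ![0, 1, 2], ![1, 3, 0]] ![1, 1, a3] ?_ (by decide)
    ![![0, 0, 4], ![0, 1, 3], ![0, 2, 2], ![0, 3, 1], ![1, 0, 3], ![1, 1, 2], ![1, 2, 1],
      ![2, 0, 2], ![2, 1, 1], ![2, 2, 0], ![3, 0, 1], ![3, 1, 0], ![4, 0, 0]]
    ![b0, b1, b2, b3, a0, a1, a2, e0, e1, e2, l0, l1, k] ?_ (by decide) ?_ fun p hp => ?_
  · simp [cS, Fin.sum_univ_succ]
    try ring
  · simp [qf, Fin.sum_univ_succ]
    try ring
  · intro h
    have h1 := congrArg (eval ![1, 0, 1]) h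
    simp [cS] at h1
  · have h0 := hp 0
    have h1 := hp 1
    have h2 := hp 2
    simp [cS, pderiv_X, Derivation.leibniz_pow] at h0 h1 h2
    by_cases hy : p 1 = 0
    · have q2 : p 2 = 0 := by
        have : p 2 ^ 2 = 0 := by linear_combination h1 - 3 * a3 * p 0 * p 1 * hy
        exact pow_eq_zero_iff (by norm_num) |>.1 this
      have q0 : p 0 = 0 := by
        have : p 0 ^ 2 = 0 := by linear_combination h2 - 2 * p 1 * q2
        exact pow_eq_zero_iff (by norm_num) |>.1 this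
      exact eq_zero3 q0 hy q2
    · exfalso
      have g1 : p 0 ^ 3 = a3 * p 1 ^ 4 := by
        linear_combination p 0 * h2 - p 1 * h0
      have g2 : p 0 * (p 0 ^ 3 + 12 * a3 * p 1 ^ 4) = 0 := by
        linear_combination 4 * p 1 ^ 2 * h1 + (p 0 ^ 2 - 2 * p 1 * p 2) * h2
      have x0 : p 0 ≠ 0 := by
        intro h
        rw [h, zero_pow (by norm_num)] at g1
        exact mul_ne_zero ha3 (pow_ne_zero _ hy) g1.symm
      have g3 := (mul_eq_zero.1 g2).resolve_left x0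
      rw [g1] at g3
      have g4 : a3 * p 1 ^ 4 = 0 := by linear_combination g3 / 13
      exact mul_ne_zero ha3 (pow_ne_zero _ hy) g4

/-- `b_4 = a_3 = 0`, `b_3, e_2 ≠ 0`, `b_3 ≠ e_2`: weights `(3, 2, 4)`. -/
theorem nd_SC1 {b0 b1 b2 b3 a0 a1 a2 e0 e1 e2 l0 l1 k : ℂ} (hb3 : b3 ≠ 0) (he2 : e2 ≠ 0)
    (hbe : b3 ≠ e2) : SuLoc (cS + qf b0 b1 b2 b3 0 a0 a1 a2 0 e0 e1 e2 l0 l1 k) := by
  have e : cS + qf b0 b1 b2 b3 0 a0 a1 a2 0 e0 e1 e2 l0 l1 k =
      (cS + C b3 * (X 1 ^ 3 * X 2) + C e2 * (X 0 ^ 2 * X 1 ^ 2)) +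
        qf b0 b1 b2 0 0 a0 a1 a2 0 e0 e1 0 l0 l1 k := by
    unfold qf
    simp only [C_0]
    ring
  rw [e]
  refine suLoc_split ![3, 2, 4] (by decide) 10 (by norm_num)
    ![![2, 0, 1], ![0, 1, 2], ![0, 3, 1], ![2, 2, 0]] ![1, 1, b3, e2] ?_ (by decide)
    ![![0, 0, 4], ![0, 1, 3], ![0, 2, 2], ![1, 0, 3], ![1, 1, 2], ![1, 2, 1],
      ![2, 0, 2], ![2, 1, 1], ![3, 0, 1], ![3, 1, 0], ![4, 0, 0]]
    ![b0, b1, b2, a0, a1, a2, e0, e1, l0, l1, k] ?_ (by decide) ?_ fun p hp => ?_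
  · simp [cS, Fin.sum_univ_succ]
    try ring
  · simp [qf, Fin.sum_univ_succ]
    try ring
  · intro h
    have h1 := congrArg (eval ![1, 0, 1]) h
    simp [cS] at h1
  · have h0 := hp 0
    have h1 := hp 1
    have h2 := hp 2
    simp [cS, pderiv_X, Derivation.leibniz_pow] at h0 h1 h2
    by_cases hx : p 0 = 0
    · have g1 : p 2 * (p 2 + 3 * b3 * p 1 ^ 2) = 0 := by
        linear_combination h1 - 2 * e2 * p 0 * p 1 * hx
      have g2 : p 1 * (2 * p 2 + b3 * p 1 ^ 2) = 0 := by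
        linear_combination h2 - p 0 * hx
      by_cases hy : p 1 = 0
      · have q2 : p 2 = 0 := by
          rw [hy] at g1
          have : p 2 ^ 2 = 0 := by linear_combination g1
          exact pow_eq_zero_iff (by norm_num) |>.1 this
        exact eq_zero3 hx hy q2
      · exfalso
        have g3 := (mul_eq_zero.1 g2).resolve_left hy
        have g4 : b3 ^ 2 * p 1 ^ 4 = 0 := by
          linear_combination (-4 / 5 : ℂ) * g1 + (2 / 5 * p 2 + b3 * p 1 ^ 2) * g3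
        exact mul_ne_zero (pow_ne_zero _ hb3) (pow_ne_zero _ hy) g4
    · exfalso
      have g1 : p 2 = -(e2 * p 1 ^ 2) := by
        have : p 0 * (p 2 + e2 * p 1 ^ 2) = 0 := by linear_combination h0 / 2
        linear_combination (mul_eq_zero.1 this).resolve_left hx
      have g2 : p 0 ^ 2 = (2 * e2 - b3) * p 1 ^ 3 := by
        rw [g1] at h2
        linear_combination h2
      have g3 : 5 * e2 * (e2 - b3) * p 1 ^ 4 = 0 := by
        rw [g1] at h1
        linear_combination h1 - 2 * e2 * p 1 * g2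
      have hy : p 1 = 0 := by
        have h5 : (5 * e2 * (e2 - b3) : ℂ) ≠ 0 :=
          mul_ne_zero (mul_ne_zero (by norm_num) he2) (sub_ne_zero.2 hbe.symm)
        exact pow_eq_zero_iff (by norm_num) |>.1 ((mul_eq_zero.1 g3).resolve_left h5)
      apply hx
      rw [hy] at g2
      have : p 0 ^ 2 = 0 := by linear_combination g2
      exact pow_eq_zero_iff (by norm_num) |>.1 this

end QV

end MPb07157
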