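import Pool.Agent.Lib.MP_b07157_agQV.SC2
import Pool.Agent.Lib.MP_b07157_agQV.Mv

/-!
# Quartic polynomials with triple points, conic and tangent line: a change of coordinates
-/

noncomputable section

namespace MPb07157

open MvPolynomial

namespace QV

open QU

/-- `b_4 = a_3 = b_3 = 0`, `e_2 ≠ 0`. -/
theorem nd_SC2 {b0 b1 b2 a0 a1 a2 e0 e1 e2 l0 l1 k : ℂ} (he2 : e2 ≠ 0) :
    SuLoc (cS + qf b0 b1 b2 0 0 a0 a1 a2 0 e0 e1 e2 l0 l1 k) := by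
  obtain ⟨s, hs⟩ : ∃ s, l1 = 4 * e2 * s := ⟨l1 / (4 * e2), by field_simp⟩
  subst hs
  refine suLoc_lin !![1, 0, s; -2 * s, 1, -s ^ 2; 0, 0, 1] (by simp [Matrix.det_fin_three]) ?_
    (nd_SC2' (b0 := a0 * s ^ 1 - a1 * s ^ 3 + a2 * s ^ 5 + b0 - b1 * s ^ 2 + b2 * s ^ 4 + e0 * s ^ 2 - e1 * s ^ 4 + e2 * s ^ 6 + k * s ^ 4 + l0 * s ^ 3 - (4 * e2 * s) * s ^ 5)
      (b1 := a1 * s ^ 1 - 2 * a2 * s ^ 3 + b1 - 2 * b2 * s ^ 2 + e1 * s ^ 2 - 2 * e2 * s ^ 4 + (4 * e2 * s) * s ^ 3)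
      (b2 := a2 * s ^ 1 + b2 + e2 * s ^ 2)
      (a0 := a0 - 3 * a1 * s ^ 2 + 5 * a2 * s ^ 4 - 2 * b1 * s ^ 1 + 4 * b2 * s ^ 3 + 2 * e0 * s ^ 1 - 4 * e1 * s ^ 3 + 6 * e2 * s ^ 5 + 4 * k * s ^ 3 + 3 * l0 * s ^ 2 - 5 * (4 * e2 * s) * s ^ 4)
      (a1 := a1 - 6 * a2 * s ^ 2 - 4 * b2 * s ^ 1 + 2 * e1 * s ^ 1 - 8 * e2 * s ^ 3 + 3 * (4 * e2 * s) * s ^ 2)
      (a2 := a2 + 2 * e2 * s ^ 1)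
      (e0 := -2 * a1 * s ^ 1 + 8 * a2 * s ^ 3 + 4 * b2 * s ^ 2 + e0 - 5 * e1 * s ^ 2 + 13 * e2 * s ^ 4 + 6 * k * s ^ 2 + 3 * l0 * s ^ 1 - 9 * (4 * e2 * s) * s ^ 3)
      (e1 := -4 * a2 * s ^ 1 + e1 - 10 * e2 * s ^ 2 + 3 * (4 * e2 * s) * s ^ 1)
      (e2 := e2)
      (l0 := 4 * a2 * s ^ 2 - 2 * e1 * s ^ 1 + 12 * e2 * s ^ 3 + 4 * k * s ^ 1 + l0 - 7 * (4 * e2 * s) * s ^ 2)
      (k0 := 4 * e2 * s ^ 2 + k - 2 * (4 * e2 * s) * s ^ 1) he2)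
  intro x y z
  simp [cS, qf]
  ring

end QV

end MPb07157
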