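import Pool.Agent.Lib.MP_b07157_agQV.SABC
import Pool.Agent.Lib.MP_b07157_agQV.SC2n
import Pool.Agent.Lib.MP_b07157_agQV.SC3
import Pool.Agent.Lib.MP_b07157_agQV.SD1
import Pool.Agent.Lib.MP_b07157_agQV.SD2

/-!
# Quartic polynomials with triple points, conic and tangent line: the list of cases
-/

noncomputable section

namespace MPb07157

open MvPolynomial

namespace QV

open QU

/-- All cases, from the two last ones `b_3 = e_2 ≠ 0` and `a_2 = l_1 ≠ 0`. -/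
theorem suLoc_S_of
    (hC4 : ∀ b0 b1 b2 b3 a0 a1 a2 e0 e1 l0 l1 k : ℂ, b3 ≠ 0 →
      SuLoc (cS + qf b0 b1 b2 b3 0 a0 a1 a2 0 e0 e1 b3 l0 l1 k))
    (hD3 : ∀ b0 b1 b2 a0 a1 e0 e1 l0 l1 k : ℂ, l1 ≠ 0 →
      SuLoc (cS + qf b0 b1 b2 0 0 a0 a1 l1 0 e0 e1 0 l0 l1 k))
    (b0 b1 b2 b3 b4 a0 a1 a2 a3 e0 e1 e2 l0 l1 k : ℂ) :
    SuLoc (cS + qf b0 b1 b2 b3 b4 a0 a1 a2 a3 e0 e1 e2 l0 l1 k) := by
  by_cases hb4 : b4 = 0
  swap
  · exact nd_SA hb4
  subst hb4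
  by_cases ha3 : a3 = 0
  swap
  · exact nd_SB ha3
  subst ha3
  by_cases hb3 : b3 = 0
  · subst hb3
    by_cases he2 : e2 = 0
    swap
    · exact nd_SC2 he2
    subst he2
    by_cases hl1 : l1 = 0
    · subst hl1
      exact nd_SD2
    · by_cases ha2 : a2 = l1
      · subst ha2
        exact hD3 _ _ _ _ _ _ _ _ _ _ hl1
      · exact nd_SD1 hl1 ha2
  · by_cases he2 : e2 = 0
    · subst he2
      exact nd_SC3 hb3
    · by_cases hbe : b3 = e2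
      · subst hbe
        exact hC4 _ _ _ _ _ _ _ _ _ _ _ _ hb3
      · exact nd_SC1 hb3 he2 hbe

end QV

end MPb07157
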