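import Pool.Agent.Lib.MP_b07157_agQV.SN4

/-!
# Conic and tangent line: a Newton non-degenerate family with a remainder, weights `(3, 2)`
-/

noncomputable section

namespace MPb07157

open MvPolynomial

namespace QV

namespace SZ

set_option linter.unusedVariables false
set_option linter.unusedSimpArgs false
set_option linter.unusedTactic false

theorem face4 {β α g a0 b0 : ℂ} {j1 j2 p q r m : ℕ} {T : Fin 8 → ℂ} (hp : 0 < p) (hq : 0 < q)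
    (hr : 0 < r) (hj1 : 4 ≤ j1) (hj2 : 6 ≤ j2)
    (hl : (β ≠ 0 ∧ j1 ≤ 6) ∨ (α ≠ 0 ∧ j2 ≤ 8))
    (m0 : m ≤ p * 2 + q * 0 + r * 1) (m1 : m ≤ p * 0 + q * 1 + r * 2)
    (m2 : m ≤ p * 0 + q * 3 + r * 1) (m5 : m ≤ p * 9 + q * 0 + r * 0)
    (m6 : β ≠ 0 → m ≤ p * 1 + q * j1 + r * 0) (m7 : α ≠ 0 → m ≤ p * 0 + q * j2 + r * 0)
    (t0 : (T 0 = 0 ∧ p * 2 + q * 0 + r * 1 ≠ m) ∨ (T 0 ≠ 0 ∧ p * 2 + q * 0 + r * 1 = m))
    (t1 : (T 1 = 0 ∧ p * 0 + q * 1 + r * 2 ≠ m) ∨ (T 1 ≠ 0 ∧ p * 0 + q * 1 + r * 2 = m))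
    (t2 : (T 2 = 0 ∧ p * 0 + q * 3 + r * 1 ≠ m) ∨ (T 2 ≠ 0 ∧ p * 0 + q * 3 + r * 1 = m))
    (t3 : T 3 = 0 ∨ (T 3 ≠ 0 ∧ p * 1 + q * 0 + r * 3 = m))
    (t4 : T 4 = 0 ∨ (T 4 ≠ 0 ∧ p * 0 + q * 0 + r * 4 = m))
    (t5 : (T 5 = 0 ∧ p * 9 + q * 0 + r * 0 ≠ m) ∨ (T 5 ≠ 0 ∧ p * 9 + q * 0 + r * 0 = m))
    (t6 : T 6 = 0 ∨ (T 6 ≠ 0 ∧ p * 1 + q * j1 + r * 0 = m))
    (t7 : T 7 = 0 ∨ (T 7 ≠ 0 ∧ p * 0 + q * j2 + r * 0 = m))
    (hn : ¬ (T 0 = 0 ∧ T 1 = 0 ∧ T 2 = 0 ∧ T 3 = 0 ∧ T 4 = 0 ∧ T 5 = 0 ∧ T 6 = 0 ∧ T 7 = 0))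
    (f0 : 2 * T 0 + T 3 + 9 * T 5 + T 6 = 0) (f1 : T 1 + 3 * T 2 + j1 * T 6 + j2 * T 7 = 0)
    (f2 : T 0 + 2 * T 1 + T 2 + 3 * T 3 + 4 * T 4 = 0) : False := by
  have hc1 : (j1 : ℂ) ≠ 0 := by
    have : j1 ≠ 0 := by omega
    exact_mod_cast this
  have hc2 : (j2 : ℂ) ≠ 0 := by
    have : j2 ≠ 0 := by omega
    exact_mod_cast this
  have hc3 : (3 + 2 * j1 : ℂ) ≠ 0 := by
    have : 3 + 2 * j1 ≠ 0 := by omega
    exact_mod_cast this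
  have hpar : 2 * (q * j2) ≠ 2 * (q * j1) + 3 * q := by
    intro h
    have h1 : q * (2 * j2) = q * (2 * j1 + 3) := by linarith
    have := Nat.eq_of_mul_eq_mul_left hq h1
    omega
  have hal : 8 * (q * j2) ≠ 9 * (q * j1) := by
    intro h
    have h1 : q * (8 * j2) = q * (9 * j1) := by linarith
    have := Nat.eq_of_mul_eq_mul_left hq h1
    omega
  have hJ1 : 4 * q ≤ q * j1 := by
    rw [mul_comm]
    exact Nat.mul_le_mul_left _ hj1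
  have hJ2 : 6 * q ≤ q * j2 := by
    rw [mul_comm]
    exact Nat.mul_le_mul_left _ hj2
  have hlead : (m ≤ p + q * j1 ∧ q * j1 ≤ 6 * q) ∨ (m ≤ q * j2 ∧ q * j2 ≤ 8 * q) := by
    rcases hl with ⟨h1, h2⟩ | ⟨h1, h2⟩
    · left
      have := m6 h1
      refine ⟨by omega, ?_⟩
      rw [mul_comm 6]
      exact Nat.mul_le_mul_left _ h2
    · right
      have := m7 h1
      refine ⟨by omega, ?_⟩
      rw [mul_comm 8]
      exact Nat.mul_le_mul_left _ h2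
  generalize q * j1 = J1 at *
  generalize q * j2 = J2 at *
  clear m6 m7 hl hj1 hj2
  rcases t3 with t3 | ⟨n3, g3⟩
  all_goals rcases t4 with t4 | ⟨n4, g4⟩
  all_goals try omega
  all_goals rcases t0 with ⟨t0, g0⟩ | ⟨n0, g0⟩
  all_goals try omega
  all_goals rcases t1 with ⟨t1, g1⟩ | ⟨n1, g1⟩
  all_goals try omega
  all_goals rcases t2 with ⟨t2, g2⟩ | ⟨n2, g2⟩
  all_goals try omega
  all_goals rcases t5 with ⟨t5, g5⟩ | ⟨n5, g5⟩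
  all_goals try omega
  all_goals rcases t6 with t6 | ⟨n6, g6⟩
  all_goals try omega
  all_goals rcases t7 with t7 | ⟨n7, g7⟩
  all_goals try omega
  all_goals clear hp hq hr m0 m1 m2 m5 hpar hal hJ1 hJ2 hlead
  all_goals grind

end SZ

end QV

end MPb07157
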