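import Pool.Agent.Lib.MP_b07157_agQV.SG
import Pool.Agent.Lib.MP_b07157_agQV.SF4

/-!
# Conic and tangent line: type C4, the part which is not a product
-/

noncomputable section

namespace MPb07157

open MvPolynomial

namespace QV

open QU

namespace SZ

variable {d a0 a1 a2 b0 b1 b2 e0 e1 l0 l1 k : ℂ}

theorem zw_k1 : ZW 3 2 0 3 6 (k1 d a2 e1 l0 - X 0 ^ 2) := by
  have e : k1 d a2 e1 l0 - X 0 ^ 2 = C d * (X 0 ^ 0 * X 1 ^ 3) + C a2 * (X 0 ^ 1 * X 1 ^ 2) +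
      C e1 * (X 0 ^ 2 * X 1 ^ 1) + C l0 * (X 0 ^ 3 * X 1 ^ 0) := by
    unfold k1
    ring
  rw [e]
  refine ZW.add (ZW.add (ZW.add ?_ ?_) ?_) ?_
  · exact (ZW.xy 0 3 _).mono (by omega) (by omega) (by omega)
  · exact (ZW.xy 1 2 _).mono (by omega) (by omega) (by omega)
  · exact (ZW.xy 2 1 _).mono (by omega) (by omega) (by omega)
  · exact (ZW.xy 3 0 _).mono (by omega) (by omega) (by omega)

theorem zw_k2' : ZW 3 2 0 2 4 (k2 b2 a1 e0 - X 1) := by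
  have e : k2 b2 a1 e0 - X 1 = C b2 * (X 0 ^ 0 * X 1 ^ 2) + C a1 * (X 0 ^ 1 * X 1 ^ 1) +
      C e0 * (X 0 ^ 2 * X 1 ^ 0) := by
    unfold k2
    ring
  rw [e]
  refine ZW.add (ZW.add ?_ ?_) ?_
  · exact (ZW.xy 0 2 _).mono (by omega) (by omega) (by omega)
  · exact (ZW.xy 1 1 _).mono (by omega) (by omega) (by omega)
  · exact (ZW.xy 2 0 _).mono (by omega) (by omega) (by omega)

theorem zw_k2 : ZW 3 2 0 1 2 (k2 b2 a1 e0) := by
  have e : k2 b2 a1 e0 = (k2 b2 a1 e0 - X 1) + X 1 := by ring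
  rw [e]
  exact ZW.add (zw_k2'.mono (by omega) (by omega) (by omega))
    (ZW.y1.mono (by omega) (by omega) (by omega))

theorem zw_k3 : ZW 3 2 0 1 2 (k3 b1 a0) := by
  refine ZW.add ?_ ?_
  · exact (ZW.y b1).mono (by omega) (by omega) (by omega)
  · exact (ZW.x a0).mono (by omega) (by omega) (by omega)

/-- The exponents of the remainder. -/
def DR (j1 j2 : ℕ) (β α : ℂ) (v : Fin 3 →₀ ℕ) : Prop :=
  (v 2 = 1 ∧ ((1 ≤ v 0 ∧ 3 ≤ v 0 + v 1) ∨ 4 ≤ v 0 + v 1)) ∨ (v 2 = 2 ∧ 2 ≤ v 0 + v 1) ∨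
    (v 2 = 3 ∧ (1 ≤ v 1 ∨ 2 ≤ v 0 + v 1)) ∨
    (v 2 = 0 ∧ ((v 0 = 1 ∧ j1 < v 1 ∧ β ≠ 0) ∨ (v 0 = 0 ∧ j2 < v 1 ∧ α ≠ 0) ∨
        (2 ≤ v 0 ∧ 10 ≤ v 0 + v 1)))

theorem nd_of_R {j1 j2 : ℕ} {β α g a0 b0 : ℂ} (hg : g ≠ 0) (hj1 : 4 ≤ j1) (hj2 : 6 ≤ j2)
    (hl : (β ≠ 0 ∧ j1 ≤ 6) ∨ (α ≠ 0 ∧ j2 ≤ 8)) {F R : MvPolynomial (Fin 3) ℂ}
    (hF : F = X 0 ^ 2 * X 2 + X 1 * X 2 ^ 2 + C g * (X 1 ^ 3 * X 2) + C a0 * (X 0 * X 2 ^ 3) +
      C b0 * X 2 ^ 4 + X 0 ^ 9 + C β * (X 0 * X 1 ^ j1) + C α * X 1 ^ j2 + R)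
    (hR : ∀ v ∈ R.support, DR j1 j2 β α v) : ND F := by
  refine nd_famR (K := 8) (R := R) ![![2, 0, 1], ![0, 1, 2], ![0, 3, 1], ![1, 0, 3], ![0, 0, 4],
    ![9, 0, 0], ![1, j1, 0], ![0, j2, 0]] ?_ ![1, 1, g, a0, b0, 1, β, α] ?_ ⟨0, one_ne_zero⟩ ?_ ?_ ?_
  · intro x y hxy
    have h0 := congrFun hxy 0
    have h1 := congrFun hxy 1
    have h2 := congrFun hxy 2
    fin_cases x <;> fin_cases y <;> simp at h0 h1 h2 <;> rfl
  · rw [hF]
    simp only [Fin.sum_univ_succ, Fin.prod_univ_three, Finset.univ_unique, Finset.sum_singleton]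
    simp
    ring
  · intro x
    fin_cases x <;> simp
    · omega
  · intro v hv w hw
    have hp := hw 0
    have hq := hw 1
    have hr := hw 2
    simp only [Fin.sum_univ_three]
    generalize w 0 = p at *
    generalize w 1 = q at *
    generalize w 2 = r at *
    have hA : ∀ (_ : p * 2 + q * 0 + r * 1 < p * v 0 + q * v 1 + r * v 2), _ := fun h =>
      (⟨0, one_ne_zero, h⟩ : ∃ k : Fin 8, (![1, 1, g, a0, b0, 1, β, α] : Fin 8 → ℂ) k ≠ 0 ∧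
        p * (![![2, 0, 1], ![0, 1, 2], ![0, 3, 1], ![1, 0, 3], ![0, 0, 4],
    ![9, 0, 0], ![1, j1, 0], ![0, j2, 0]] : Fin 8 → Fin 3 → ℕ) k 0 +
        q * (![![2, 0, 1], ![0, 1, 2], ![0, 3, 1], ![1, 0, 3], ![0, 0, 4],
    ![9, 0, 0], ![1, j1, 0], ![0, j2, 0]] : Fin 8 → Fin 3 → ℕ) k 1 +
        r * (![![2, 0, 1], ![0, 1, 2], ![0, 3, 1], ![1, 0, 3], ![0, 0, 4],
    ![9, 0, 0], ![1, j1, 0], ![0, j2, 0]] : Fin 8 → Fin 3 → ℕ) k 2 <
          p * v 0 + q * v 1 + r * v 2)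
    have hB : ∀ (_ : p * 0 + q * 1 + r * 2 < p * v 0 + q * v 1 + r * v 2), _ := fun h =>
      (⟨1, one_ne_zero, h⟩ : ∃ k : Fin 8, (![1, 1, g, a0, b0, 1, β, α] : Fin 8 → ℂ) k ≠ 0 ∧
        p * (![![2, 0, 1], ![0, 1, 2], ![0, 3, 1], ![1, 0, 3], ![0, 0, 4],
    ![9, 0, 0], ![1, j1, 0], ![0, j2, 0]] : Fin 8 → Fin 3 → ℕ) k 0 +
        q * (![![2, 0, 1], ![0, 1, 2], ![0, 3, 1], ![1, 0, 3], ![0, 0, 4],
    ![9, 0, 0], ![1, j1, 0], ![0, j2, 0]] : Fin 8 → Fin 3 → ℕ) k 1 +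
        r * (![![2, 0, 1], ![0, 1, 2], ![0, 3, 1], ![1, 0, 3], ![0, 0, 4],
    ![9, 0, 0], ![1, j1, 0], ![0, j2, 0]] : Fin 8 → Fin 3 → ℕ) k 2 <
          p * v 0 + q * v 1 + r * v 2)
    have hwl : ∀ a0 b0 : ℕ, a0 ≤ v 0 → b0 ≤ v 1 → a0 + b0 < v 0 + v 1 →
        p * a0 + q * b0 < p * v 0 + q * v 1 := fun a0 b0 h1 h2 h3 => wlt hp hq h1 h2 h3
    have hwle : ∀ a0 b0 : ℕ, a0 ≤ v 0 → b0 ≤ v 1 →
        p * a0 + q * b0 ≤ p * v 0 + q * v 1 := fun a0 b0 h1 h2 =>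
      Nat.add_le_add (Nat.mul_le_mul_left _ h1) (Nat.mul_le_mul_left _ h2)
    rcases hR v hv with ⟨e2, e⟩ | ⟨e2, e⟩ | ⟨e2, e⟩ | ⟨e2, e⟩
    · have hrv : r * v 2 = r * 1 := by rw [e2]
      by_cases h2 : 2 ≤ v 0
      · have := hwl 2 0 h2 (Nat.zero_le _) (by omega)
        exact hA (by omega)
      · by_cases h1 : v 0 = 1
        · have h3 := hwle 1 2 (by omega) (by omega)
          by_cases h4 : p < 2 * q
          · exact hA (by omega)
          · refine ⟨2, hg, ?_⟩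
            show p * 0 + q * 3 + r * 1 < _
            omega
        · have h3 := hwle 0 4 (by omega) (by omega)
          refine ⟨2, hg, ?_⟩
          show p * 0 + q * 3 + r * 1 < _
          omega
    · have hrv : r * v 2 = r * 2 := by rw [e2]
      by_cases h1 : 1 ≤ v 1
      · have := hwl 0 1 (Nat.zero_le _) h1 (by omega)
        exact hB (by omega)
      · have := hwle 2 0 (by omega) (Nat.zero_le _)
        exact hA (by omega)
    · have hrv : r * v 2 = r * 3 := by rw [e2]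
      by_cases h1 : 1 ≤ v 1
      · have := hwle 0 1 (Nat.zero_le _) h1
        exact hB (by omega)
      · have := hwle 2 0 (by omega) (Nat.zero_le _)
        exact hA (by omega)
    · have hrv : r * v 2 = r * 0 := by rw [e2]
      rcases e with ⟨h1, h2, h3⟩ | ⟨h1, h2, h3⟩ | ⟨h1, h2⟩
      · refine ⟨6, h3, ?_⟩
        show p * 1 + q * j1 + r * 0 < _
        have := hwl 1 j1 (by omega) (by omega) (by omega)
        omega
      · refine ⟨7, h3, ?_⟩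
        show p * 0 + q * j2 + r * 0 < _
        have := hwl 0 j2 (by omega) (by omega) (by omega)
        omega
      · by_cases hpq : p ≤ q
        · refine ⟨5, one_ne_zero, ?_⟩
          show p * 9 + q * 0 + r * 0 < _
          have h3 : p * (v 0 + v 1) ≤ p * v 0 + q * v 1 := by
            rw [mul_add]
            exact Nat.add_le_add_left (Nat.mul_le_mul_right _ hpq) _
          have h4 : p * 10 ≤ p * (v 0 + v 1) := Nat.mul_le_mul_left _ h2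
          omega
        · push Not at hpq
          have h5 : p * 2 + q * (v 0 - 2 + v 1) ≤ p * v 0 + q * v 1 := by
            have h6 : q * (v 0 - 2) ≤ p * (v 0 - 2) := Nat.mul_le_mul_right _ hpq.le
            have h7 : p * v 0 = p * 2 + p * (v 0 - 2) := by
              rw [← mul_add]
              congr 1
              omega
            rw [mul_add]
            omega
          have h8 : q * 8 ≤ q * (v 0 - 2 + v 1) := Nat.mul_le_mul_left _ (by omega)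
          rcases hl with ⟨h9, h10⟩ | ⟨h9, h10⟩
          · refine ⟨6, h9, ?_⟩
            show p * 1 + q * j1 + r * 0 < _
            have : q * j1 ≤ q * 6 := Nat.mul_le_mul_left _ h10
            omega
          · refine ⟨7, h9, ?_⟩
            show p * 0 + q * j2 + r * 0 < _
            have : q * j2 ≤ q * 8 := Nat.mul_le_mul_left _ h10
            omega
  · intro w m u T hw hu hm hT hne hs
    have hsum : ∀ k : Fin 8, ∀ E : Fin 3 → ℕ, ∑ i, w i * E i = w 0 * E 0 + w 1 * E 1 + w 2 * E 2 :=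
      fun _ E => Fin.sum_univ_three _
    simp only [Fin.sum_univ_three] at hm hT
    have hT0 : ∀ k : Fin 8, T k = 0 ∨ (T k ≠ 0 ∧ w 0 * (![![2, 0, 1], ![0, 1, 2], ![0, 3, 1],
        ![1, 0, 3], ![0, 0, 4], ![9, 0, 0], ![1, j1, 0], ![0, j2, 0]] : Fin 8 → Fin 3 → ℕ) k 0 +
        w 1 * (![![2, 0, 1], ![0, 1, 2], ![0, 3, 1],
        ![1, 0, 3], ![0, 0, 4], ![9, 0, 0], ![1, j1, 0], ![0, j2, 0]] : Fin 8 → Fin 3 → ℕ) k 1 +
        w 2 * (![![2, 0, 1], ![0, 1, 2], ![0, 3, 1],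
        ![1, 0, 3], ![0, 0, 4], ![9, 0, 0], ![1, j1, 0], ![0, j2, 0]] : Fin 8 → Fin 3 → ℕ) k 2
          = m) := by
      intro k
      have h := hT k
      split_ifs at h with h1
      · by_cases h2 : T k = 0
        · exact Or.inl h2
        · exact Or.inr ⟨h2, h1⟩
      · exact Or.inl h
    have hT1 : ∀ k : Fin 8, (![1, 1, g, a0, b0, 1, β, α] : Fin 8 → ℂ) k ≠ 0 →
        (T k = 0 ∧ w 0 * (![![2, 0, 1], ![0, 1, 2], ![0, 3, 1],
        ![1, 0, 3], ![0, 0, 4], ![9, 0, 0], ![1, j1, 0], ![0, j2, 0]] : Fin 8 → Fin 3 → ℕ) k 0 +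
        w 1 * (![![2, 0, 1], ![0, 1, 2], ![0, 3, 1],
        ![1, 0, 3], ![0, 0, 4], ![9, 0, 0], ![1, j1, 0], ![0, j2, 0]] : Fin 8 → Fin 3 → ℕ) k 1 +
        w 2 * (![![2, 0, 1], ![0, 1, 2], ![0, 3, 1],
        ![1, 0, 3], ![0, 0, 4], ![9, 0, 0], ![1, j1, 0], ![0, j2, 0]] : Fin 8 → Fin 3 → ℕ) k 2
          ≠ m) ∨ (T k ≠ 0 ∧ w 0 * (![![2, 0, 1], ![0, 1, 2], ![0, 3, 1],
        ![1, 0, 3], ![0, 0, 4], ![9, 0, 0], ![1, j1, 0], ![0, j2, 0]] : Fin 8 → Fin 3 → ℕ) k 0 +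
        w 1 * (![![2, 0, 1], ![0, 1, 2], ![0, 3, 1],
        ![1, 0, 3], ![0, 0, 4], ![9, 0, 0], ![1, j1, 0], ![0, j2, 0]] : Fin 8 → Fin 3 → ℕ) k 1 +
        w 2 * (![![2, 0, 1], ![0, 1, 2], ![0, 3, 1],
        ![1, 0, 3], ![0, 0, 4], ![9, 0, 0], ![1, j1, 0], ![0, j2, 0]] : Fin 8 → Fin 3 → ℕ) k 2
          = m) := by
      intro k hk
      have h := hT k
      split_ifs at h with h1
      · right
        refine ⟨?_, h1⟩
        rw [h]
        exact mul_ne_zero hk (Finset.prod_ne_zero_iff.2 fun i _ => pow_ne_zero _ (hu i))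
      · exact Or.inl ⟨h, h1⟩
    refine face4 (β := β) (α := α) (g := g) (a0 := a0) (b0 := b0) (T := T) (hw 0) (hw 1) (hw 2)
      hj1 hj2 hl (hm 0 one_ne_zero) (hm 1 one_ne_zero) (hm 2 hg) (hm 5 one_ne_zero)
      (fun h => hm 6 h) (fun h => hm 7 h) (hT1 0 one_ne_zero) (hT1 1 one_ne_zero) (hT1 2 hg)
      (hT0 3) (hT0 4) (hT1 5 one_ne_zero) (hT0 6) (hT0 7) ?_ ?_ ?_ ?_
    · rintro ⟨_, _, _, _, _, _, _, _⟩
      obtain ⟨k, hk⟩ := hne
      fin_cases k <;> exact hk (by assumption)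
    · have h := hs 0
      simp [Fin.sum_univ_succ] at h
      linear_combination h
    · have h := hs 1
      simp [Fin.sum_univ_succ] at h
      linear_combination h
    · have h := hs 2
      simp [Fin.sum_univ_succ] at h
      linear_combination h

end SZ

end QV

end MPb07157
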