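import Pool.Agent.Lib.MP_b07157_agQV.SC4R

/-!
# Conic and tangent line: type C4, the part which is not a product, end
-/

noncomputable section

namespace MPb07157

open MvPolynomial

namespace QV

open QU

namespace SZ

variable {d a0 a1 a2 b0 b1 b2 e0 e1 l0 l1 k : ℂ}

theorem suLoc_C4R (hd : d ≠ 0) (hR : ¬ (a2 - l1 = 0 ∧ b2 - e1 + k = 0 ∧ a1 - l0 = 0 ∧
    b1 - e0 = 0 ∧ a0 = 0 ∧ b0 = 0)) :
    SuLoc (cS + qf b0 b1 b2 d 0 a0 a1 a2 0 e0 e1 d l0 l1 k) := by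
  classical
  obtain ⟨s, Q, c, i, j, h1, h2, hc, hij, hH, hQ⟩ := start4 (e1 := e1) (k := k) (b2 := b2)
    (a1 := a1) (l0 := l0) (b1 := b1) (e0 := e0) (a0 := a0) (b0 := b0) (a2 := a2) (l1 := l1) hd hR
  obtain ⟨s', R, h3, h4, h5, h6⟩ := kill4 (c0 := k0 d l1 k) (c1 := k1 d a2 e1 l0)
    (c2 := k2 b2 a1 e0) (c3 := k3 b1 a0) (c4 := C b0) zw_k1 zw_k2 zw_k3 (ZW.c b0)
    (m := 3 * i + 2 * j + 1) (by rcases hij with h | h <;> omega)
    (by rcases hij with h | h <;> omega) h1 hH hQ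
  obtain ⟨j1, j2, β, α, R', e1', hj1, hj2, hl, hR'⟩ := lead4 hc hij h4 h5
  have hsr : ZW 3 2 0 3 6 (s' - rr d l1 k) := by
    have e : s' - rr d l1 k = (s' - s) + (s - rr d l1 k) := by ring
    rw [e]
    exact h3.add h2
  have hs' : ZW 3 2 0 2 4 s' := by
    have := (hsr.mono (le_refl _) (by omega : 2 ≤ 3) (by omega : 4 ≤ 6)).add
      (zw_r (d := d) (l1 := l1) (k := k))
    rwa [sub_add_cancel] at this
  refine SuLoc.of_aeval (chg_sh hs') (ND.suLoc ?_)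
  rw [aeval_sh, h6]
  -- the remainders
  set σ := s' - rr d l1 k with hσ
  have hs'e : s' = rr d l1 k + σ := by rw [hσ]; ring
  obtain ⟨R1, hR1, hR1'⟩ : ∃ R1, G1 (k1 d a2 e1 l0) (k2 b2 a1 e0) (k3 b1 a0) (C b0) s' =
      X 0 ^ 2 - C d * X 1 ^ 3 + R1 ∧
        ∀ v ∈ R1.support, v 2 = 0 ∧ ((1 ≤ v 0 ∧ 3 ≤ v 0 + v 1) ∨ 4 ≤ v 0 + v 1) := by
    refine ⟨(C (a2 - 2 * l1) * (X 0 ^ 1 * X 1 ^ 2) + C (e1 - 2 * k) * (X 0 ^ 2 * X 1 ^ 1) +
        C l0 * (X 0 ^ 3 * X 1 ^ 0)) + (-(C 2 * (X 1 * σ)) - C 2 * ((k2 b2 a1 e0 - X 1) * s') +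
        C 3 * (k3 b1 a0 * (s' * s')) - C 4 * (C b0 * (s' * (s' * s')))), ?_, ?_⟩
    · have h22 : (C 2 : MvPolynomial (Fin 3) ℂ) = 2 := map_ofNat C 2
      have e4 : C 2 * (X 1 * σ) = C 2 * (X 1 * s') - C 2 * (X 1 * rr d l1 k) := by
        rw [hσ]
        ring
      rw [e4]
      unfold G1 k1 rr
      simp only [map_sub, map_mul]
      rw [h22]
      ring
    · have z1 : ZW 3 2 1 3 0 (C (a2 - 2 * l1) * (X 0 ^ 1 * X 1 ^ 2) +
          C (e1 - 2 * k) * (X 0 ^ 2 * X 1 ^ 1) + C l0 * (X 0 ^ 3 * X 1 ^ 0)) := by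
        refine ZW.add (ZW.add ?_ ?_) ?_
        · exact (ZW.xy 1 2 _).mono (by omega) (by omega) (by omega)
        · exact (ZW.xy 2 1 _).mono (by omega) (by omega) (by omega)
        · exact (ZW.xy 3 0 _).mono (by omega) (by omega) (by omega)
      have z2 : ZW 3 2 0 4 0 (-(C 2 * (X 1 * σ)) - C 2 * ((k2 b2 a1 e0 - X 1) * s') +
        C 3 * (k3 b1 a0 * (s' * s')) - C 4 * (C b0 * (s' * (s' * s')))) := by
        refine ZW.sub (ZW.add (ZW.sub (ZW.neg ?_) ?_) ?_) ?_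
        · exact ((ZW.c 2).mul (ZW.y1.mul hsr)).mono (by omega) (by omega) (by omega)
        · exact ((ZW.c 2).mul (zw_k2'.mul hs')).mono (by omega) (by omega) (by omega)
        · exact ((ZW.c 3).mul (zw_k3.mul (hs'.mul hs'))).mono (by omega) (by omega) (by omega)
        · exact ((ZW.c 4).mul ((ZW.c b0).mul (hs'.mul (hs'.mul hs')))).mono (by omega)
            (by omega) (by omega)
      intro v hv
      rcases Finset.mem_union.1 (support_add hv) with h | h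
      · obtain ⟨g1, g2, g3, _⟩ := z1 v h
        exact ⟨g1, Or.inl ⟨g2, g3⟩⟩
      · obtain ⟨g1, g2, g3, _⟩ := z2 v h
        exact ⟨g1, Or.inr g3⟩
  obtain ⟨R2, hR2, hR2'⟩ : ∃ R2, G2 (k2 b2 a1 e0) (k3 b1 a0) (C b0) s' = X 1 + R2 ∧
      ∀ v ∈ R2.support, v 2 = 0 ∧ 2 ≤ v 0 + v 1 := by
    refine ⟨(k2 b2 a1 e0 - X 1) - C 3 * (k3 b1 a0 * s') + C 6 * (C b0 * (s' * s')), ?_, ?_⟩
    · unfold G2
      ring
    · have z : ZW 3 2 0 2 0 ((k2 b2 a1 e0 - X 1) - C 3 * (k3 b1 a0 * s') +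
          C 6 * (C b0 * (s' * s'))) := by
        refine ZW.add (ZW.sub ?_ ?_) ?_
        · exact zw_k2'.mono (by omega) (by omega) (by omega)
        · exact ((ZW.c 3).mul (zw_k3.mul hs')).mono (by omega) (by omega) (by omega)
        · exact ((ZW.c 6).mul ((ZW.c b0).mul (hs'.mul hs'))).mono (by omega) (by omega) (by omega)
      intro v hv
      obtain ⟨g1, _, g3, _⟩ := z v hv
      exact ⟨g1, g3⟩
  obtain ⟨R3, hR3, hR3'⟩ : ∃ R3, G3 (k3 b1 a0) (C b0) s' = C a0 * X 0 + R3 ∧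
      ∀ v ∈ R3.support, v 2 = 0 ∧ (1 ≤ v 1 ∨ 2 ≤ v 0 + v 1) := by
    refine ⟨C b1 * (X 0 ^ 0 * X 1 ^ 1) - C 4 * (C b0 * s'), ?_, ?_⟩
    · unfold G3 k3
      ring
    · intro v hv
      rcases Finset.mem_union.1 (support_sub _ _ _ hv) with h | h
      · rw [xy_eq] at h
        have h7 := Finset.mem_singleton.1 (support_monomial_subset h)
        subst h7
        rw [ex0, ex1, ex2]
        exact ⟨rfl, Or.inl (le_refl _)⟩
      · have z : ZW 3 2 0 2 0 (C 4 * (C b0 * s')) :=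
          ((ZW.c 4).mul ((ZW.c b0).mul hs')).mono (by omega) (by omega) (by omega)
        obtain ⟨g1, _, g3, _⟩ := z v h
        exact ⟨g1, Or.inr g3⟩
  refine nd_of_R (R := R' + X 2 ^ 1 * R1 + X 2 ^ 2 * R2 + X 2 ^ 3 * R3) (g := -d) (a0 := a0)
    (b0 := b0) (neg_ne_zero.2 hd) hj1 hj2 hl ?_ ?_
  · rw [hR1, hR2, hR3, e1']
    simp only [map_neg]
    ring
  · intro v hv
    rcases Finset.mem_union.1 (support_add hv) with h | h
    · rcases Finset.mem_union.1 (support_add h) with h | h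
      · rcases Finset.mem_union.1 (support_add h) with h | h
        · obtain ⟨g1, g2⟩ := hR' v h
          exact Or.inr (Or.inr (Or.inr ⟨g1, g2⟩))
        · obtain ⟨u, hu, u0, u1, u2⟩ := mem_mulX h
          obtain ⟨g1, g2⟩ := hR1' u hu
          left
          rw [u0, u1, u2, g1]
          exact ⟨rfl, g2⟩
      · obtain ⟨u, hu, u0, u1, u2⟩ := mem_mulX h
        obtain ⟨g1, g2⟩ := hR2' u hu
        right
        left
        rw [u0, u1, u2, g1]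
        exact ⟨rfl, g2⟩
    · obtain ⟨u, hu, u0, u1, u2⟩ := mem_mulX h
      obtain ⟨g1, g2⟩ := hR3' u hu
      right
      right
      left
      rw [u0, u1, u2, g1]
      exact ⟨rfl, g2⟩

end SZ

end QV

end MPb07157
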