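import Pool.Agent.Lib.MP_b07157_agQV.TnC

/-!
# Sums with powers of new variables: formal equivalences
-/

noncomputable section

namespace MPb07157

open MvPolynomial

namespace QV

variable {n : ℕ}

theorem Sus.exists_sg {g : MvPolynomial (Fin n) ℂ} {m : ℕ} {h : MvPolynomial (Fin m) ℂ}
    (hs : Sus g h) : ∃ (r : ℕ) (e : Fin r → ℕ), (∀ i, 2 ≤ e i) ∧
      ∃ σ : Fin (n + r) ≃ Fin m, h = rename σ (SS.sg g e) := by
  induction hs with
  | refl =>
    refine ⟨0, Fin.elim0, fun i => i.elim0, Equiv.refl _, ?_⟩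
    rw [sg_zero]
    exact (rename_id_apply g).symm
  | @step m h e he _ ih =>
    obtain ⟨r, e', he', σ, hσ⟩ := ih
    refine ⟨r + 1, Fin.snoc (α := fun _ => ℕ) e' e, fun i => ?_,
      (finSuccEquivLast (n := n + r)).trans ((Equiv.optionCongr σ).trans (finSuccEquiv m).symm), ?_⟩
    · refine Fin.lastCases ?_ (fun i => ?_) i
      · rw [Fin.snoc_last]
        exact he
      · rw [Fin.snoc_castSucc]
        exact he' i
    · rw [sg_succ, map_add, rename_rename, map_pow, rename_X, Fin.snoc_last]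
      have h1 : (fun i : Fin r => Fin.snoc (α := fun _ => ℕ) e' e i.castSucc) = e' := by
        funext i
        rw [Fin.snoc_castSucc]
      rw [h1]
      unfold sus0
      rw [hσ, rename_rename]
      refine (add_comm _ _).trans (congrArg₂ _ ?_ ?_)
      · congr 1
        congr 1
        funext i
        simp
      · congr 2
        simp

theorem SuLoc.of_sg {g : MvPolynomial (Fin n) ℂ}
    (H : ∀ (r : ℕ) (e : Fin r → ℕ), (∀ i, 2 ≤ e i) → SmcLoc (SS.sg g e)) : SuLoc g := by
  intro m h hs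
  obtain ⟨r, e, he, σ, hσ⟩ := hs.exists_sg
  obtain rfl : n + r = m := by simpa using Fintype.card_congr σ
  rw [hσ]
  exact (linEq_rename σ _).smcLoc (H r e he)

/-- Formal equivalence. -/
theorem SuLoc.of_formal {g G : MvPolynomial (Fin n) ℂ}
    (E₁ E₂ : MvPowerSeries (Fin n) ℂ ≃ₐ[ℂ] MvPowerSeries (Fin n) ℂ)
    (h : E₁ (g : MvPowerSeries (Fin n) ℂ) = E₂ (G : MvPowerSeries (Fin n) ℂ)) (hG : SuLoc G) :
    SuLoc g :=
  SuLoc.of_sg fun _ _ he => TN.smcLoc_of_formal E₁ E₂ h (hG.smcLoc_sg he)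

end QV

end MPb07157
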