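import Pool.Agent.Lib.MP_b07157_agQV.SN4

/-!
# Conic and tangent line: a Newton non-degenerate family with a remainder, weights `(2, 1)`
-/

noncomputable section

namespace MPb07157

open MvPolynomial

namespace QV

namespace SZ

set_option linter.unusedVariables false
set_option linter.unusedSimpArgs false
set_option linter.unusedTactic false

theorem face3 {c g a0 b0 : ℂ} {j p q r m : ℕ} {T : Fin 7 → ℂ} (hp : 0 < p) (hq : 0 < q)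
    (hr : 0 < r) (hj : 4 ≤ j) (hj8 : j ≤ 8)
    (m0 : m ≤ p * 2 + q * 0 + r * 1) (m1 : m ≤ p * 0 + q * 1 + r * 2)
    (m2 : m ≤ p * 1 + q * 2 + r * 1) (m5 : m ≤ p * 12 + q * 0 + r * 0)
    (m6 : m ≤ p * 2 + q * j + r * 0)
    (t0 : (T 0 = 0 ∧ p * 2 + q * 0 + r * 1 ≠ m) ∨ (T 0 ≠ 0 ∧ p * 2 + q * 0 + r * 1 = m))
    (t1 : (T 1 = 0 ∧ p * 0 + q * 1 + r * 2 ≠ m) ∨ (T 1 ≠ 0 ∧ p * 0 + q * 1 + r * 2 = m))
    (t2 : (T 2 = 0 ∧ p * 1 + q * 2 + r * 1 ≠ m) ∨ (T 2 ≠ 0 ∧ p * 1 + q * 2 + r * 1 = m))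
    (t3 : T 3 = 0 ∨ (T 3 ≠ 0 ∧ p * 1 + q * 0 + r * 3 = m))
    (t4 : T 4 = 0 ∨ (T 4 ≠ 0 ∧ p * 0 + q * 0 + r * 4 = m))
    (t5 : (T 5 = 0 ∧ p * 12 + q * 0 + r * 0 ≠ m) ∨ (T 5 ≠ 0 ∧ p * 12 + q * 0 + r * 0 = m))
    (t6 : (T 6 = 0 ∧ p * 2 + q * j + r * 0 ≠ m) ∨ (T 6 ≠ 0 ∧ p * 2 + q * j + r * 0 = m))
    (hn : ¬ (T 0 = 0 ∧ T 1 = 0 ∧ T 2 = 0 ∧ T 3 = 0 ∧ T 4 = 0 ∧ T 5 = 0 ∧ T 6 = 0))
    (f0 : 2 * T 0 + T 2 + T 3 + 12 * T 5 + 2 * T 6 = 0) (f1 : T 1 + 2 * T 2 + j * T 6 = 0)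
    (f2 : T 0 + 2 * T 1 + T 2 + 3 * T 3 + 4 * T 4 = 0) : False := by
  have hc1 : (j : ℂ) ≠ 0 := by
    have : j ≠ 0 := by omega
    exact_mod_cast this
  have hc2 : (4 + j : ℂ) ≠ 0 := by
    have : 4 + j ≠ 0 := by omega
    exact_mod_cast this
  have hJ1 : 4 * q ≤ q * j := by
    rw [mul_comm]
    exact Nat.mul_le_mul_left _ hj
  have hJ2 : q * j ≤ 8 * q := by
    rw [mul_comm 8]
    exact Nat.mul_le_mul_left _ hj8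
  generalize q * j = J at *
  clear hj hj8
  rcases t3 with t3 | ⟨n3, g3⟩
  all_goals rcases t4 with t4 | ⟨n4, g4⟩
  all_goals try omega
  all_goals rcases t0 with ⟨t0, g0⟩ | ⟨n0, g0⟩
  all_goals try omega
  all_goals rcases t1 with ⟨t1, g1⟩ | ⟨n1, g1⟩
  all_goals try omega
  all_goals rcases t2 with ⟨t2, g2⟩ | ⟨n2, g2⟩
  all_goals try omega
  all_goals rcases t5 with ⟨t5, g5⟩ | ⟨n5, g5⟩
  all_goals try omega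
  all_goals rcases t6 with ⟨t6, g6⟩ | ⟨n6, g6⟩
  all_goals try omega
  all_goals clear hp hq hr m0 m1 m2 m5 m6 hJ1 hJ2
  all_goals grind

end SZ

end QV

end MPb07157
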