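import Pool.Agent.Lib.MP_b07157_agQV.SK3

/-!
# Conic and tangent line: the leading term, weights `(2, 1)`
-/

noncomputable section

namespace MPb07157

open MvPolynomial

namespace QV

namespace SZ

theorem c1_3 (e1 l0 l1 : ℂ) : ZW 2 1 1 3 4 (k1 0 l1 e1 l0 - X 0 ^ 2) := by
  have e : k1 0 l1 e1 l0 - X 0 ^ 2 = C l1 * (X 0 ^ 1 * X 1 ^ 2) + C e1 * (X 0 ^ 2 * X 1 ^ 1) +
      C l0 * (X 0 ^ 3 * X 1 ^ 0) := by
    unfold k1
    rw [C_0]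
    ring
  rw [e]
  refine ZW.add (ZW.add ?_ ?_) ?_
  · exact (ZW.xy 1 2 l1).mono (by omega) (by omega) (by omega)
  · exact (ZW.xy 2 1 e1).mono (by omega) (by omega) (by omega)
  · exact (ZW.xy 3 0 l0).mono (by omega) (by omega) (by omega)

theorem c1_3' (e1 l0 l1 : ℂ) : ∃ τ, k1 0 l1 e1 l0 = X 0 ^ 2 + C l1 * (X 0 ^ 1 * X 1 ^ 2) + τ ∧
    ZW 2 1 0 0 5 τ := by
  refine ⟨C e1 * (X 0 ^ 2 * X 1 ^ 1) + C l0 * (X 0 ^ 3 * X 1 ^ 0), ?_, ZW.add ?_ ?_⟩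
  · unfold k1
    rw [C_0]
    ring
  · exact (ZW.xy 2 1 e1).mono (by omega) (by omega) (by omega)
  · exact (ZW.xy 3 0 l0).mono (by omega) (by omega) (by omega)

theorem c2_3' (b2 a1 e0 : ℂ) : ∃ τ, k2 b2 a1 e0 = X 1 + τ ∧ ZW 2 1 0 0 2 τ := by
  refine ⟨_, rfl, ZW.add (ZW.add ?_ ?_) ?_⟩
  · exact (ZW.xy 0 2 b2).mono (by omega) (by omega) (by omega)
  · exact (ZW.xy 1 1 a1).mono (by omega) (by omega) (by omega)
  · exact (ZW.xy 2 0 e0).mono (by omega) (by omega) (by omega)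

theorem c2_3 (b2 a1 e0 : ℂ) : ZW 2 1 0 1 1 (k2 b2 a1 e0) := by
  refine ZW.add ZW.y1 (ZW.add (ZW.add ?_ ?_) ?_)
  · exact (ZW.xy 0 2 b2).mono (by omega) (by omega) (by omega)
  · exact (ZW.xy 1 1 a1).mono (by omega) (by omega) (by omega)
  · exact (ZW.xy 2 0 e0).mono (by omega) (by omega) (by omega)

theorem c3_3 (b1 a0 : ℂ) : ZW 2 1 0 1 1 (k3 b1 a0) := by
  refine ZW.add ?_ ?_
  · exact (ZW.y b1).mono (by omega) (by omega) (by omega)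
  · exact (ZW.x a0).mono (by omega) (by omega) (by omega)

theorem r_3 (l1 k : ℂ) : ZW 2 1 1 2 3 (rr 0 l1 k) := by
  have e : rr 0 l1 k = C l1 * (X 0 ^ 1 * X 1 ^ 1) + C k * (X 0 ^ 2 * X 1 ^ 0) := by
    unfold rr
    rw [C_0]
    ring
  rw [e]
  refine ZW.add ?_ ?_
  · exact (ZW.xy 1 1 l1).mono (by omega) (by omega) (by omega)
  · exact (ZW.xy 2 0 k).mono (by omega) (by omega) (by omega)

theorem u_3 (e1 l0 k : ℂ) : ZW 2 1 0 1 1 (uu e1 l0 k) := by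
  refine ZW.add ?_ ?_
  · exact (ZW.x l0).mono (by omega) (by omega) (by omega)
  · exact (ZW.y _).mono (by omega) (by omega) (by omega)

/-- The start: an approximate solution, and the leading term on the curve. -/
theorem start3 {a0 a1 b0 b1 b2 e0 e1 l0 l1 k : ℂ} (hl : l1 ≠ 0)
    (hR : ¬ (b2 - e1 + k = 0 ∧ a1 - l0 = 0 ∧ b1 - e0 = 0 ∧ a0 = 0 ∧ b0 = 0)) :
    ∃ (s : MvPolynomial (Fin 3) ℂ) (κ : ℂ) (m : ℕ), 8 ≤ m ∧ m ≤ 12 ∧ κ ≠ 0 ∧ ZW 2 1 1 2 3 s ∧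
      ZW 2 1 1 3 4 (s - rr 0 l1 k) ∧ (∃ τ, s = C l1 * (X 0 ^ 1 * X 1 ^ 1) + τ ∧ ZW 2 1 1 2 4 τ) ∧
      ZW 2 1 2 5 m (Hs (k0 0 l1 k) (k1 0 l1 e1 l0) (k2 b2 a1 e0) (k3 b1 a0) (C b0) s) ∧
      (Polynomial.X : Polynomial ℂ) ^ (m + 1) ∣
        ps l1 (Hs (k0 0 l1 k) (k1 0 l1 e1 l0) (k2 b2 a1 e0) (k3 b1 a0) (C b0) s) -
          Polynomial.C κ * Polynomial.X ^ m := by
  obtain ⟨s, h1, h2, h3⟩ := exists_fix (a := 2) (b := 1) (m := 3) (i := 1) (t := e0)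
    (by norm_num) (by norm_num) (r_3 l1 k) (u_3 e1 l0 k) (by norm_num) 12 (by norm_num)
  have hs' : ∃ τ, s = C l1 * (X 0 ^ 1 * X 1 ^ 1) + τ ∧ ZW 2 1 1 2 4 τ := by
    refine ⟨(s - rr 0 l1 k) + C k * (X 0 ^ 2 * X 1 ^ 0), ?_, ZW.add ?_ ?_⟩
    · unfold rr
      rw [C_0]
      ring
    · exact h2.mono (by omega) (by omega) (by omega)
    · exact (ZW.xy 2 0 k).mono (by omega) (by omega) (by omega)
  have z2 : ZW 2 1 2 4 6 (s ^ 2) := by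
    rw [pow_two]
    exact h1.mul h1
  have z3 : ZW 2 1 3 6 9 (s ^ 3) := by
    rw [pow_succ]
    exact z2.mul h1
  have z4 : ZW 2 1 4 8 12 (s ^ 4) := by
    rw [pow_succ]
    exact z3.mul h1
  obtain ⟨E, hE⟩ : ∃ E : MvPolynomial (Fin 3) ℂ, E =
    (X 0 ^ 2 - X 1 * s) * (Ts (rr 0 l1 k) (uu e1 l0 k) e0 s - s) := ⟨_, rfl⟩
  have zE : ZW 2 1 2 14 16 E := by
    rw [hE]
    have hxx : ZW 2 1 1 2 4 (X 0 ^ 2 - X 1 * s : MvPolynomial (Fin 3) ℂ) := by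
      refine ZW.sub ?_ ((ZW.y1.mul h1).mono (by omega) (by omega) (by omega))
      rw [pow_two]
      exact (ZW.x1.mul ZW.x1).mono (by omega) (by omega) (by omega)
    exact (hxx.mul h3).mono (by omega) (by omega) (by omega)
  have hH := Hs_eq (d := 0) (a0 := a0) (a1 := a1) (a2 := l1) (b0 := b0) (b1 := b1) (b2 := b2)
    (e0 := e0) (e1 := e1) (l0 := l0) (l1 := l1) (k := k) s
  rw [← hE, sub_self, C_0] at hH
  obtain ⟨ε, hε⟩ := zE.ps_dvd l1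
  obtain ⟨w, hw⟩ : ∃ w, ps l1 s = Polynomial.X ^ 3 * (Polynomial.C (l1 ^ 2) + Polynomial.X * w) := by
    obtain ⟨τ, t1, t2⟩ := hs'
    obtain ⟨w, hw⟩ := t2.ps_dvd l1
    refine ⟨w, ?_⟩
    rw [t1, map_add, hw]
    simp only [map_mul, map_pow, ps_x, ps_y, ps_C]
    ring
  obtain ⟨q, hq⟩ : ∃ q, q = Polynomial.C (l1 ^ 2) + Polynomial.X * w := ⟨_, rfl⟩
  rw [← hq] at hw
  have hq2 : q ^ 2 = Polynomial.C (l1 ^ 4) + Polynomial.X * (Polynomial.C (2 * l1 ^ 2) * w +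
      Polynomial.X * w ^ 2) := by
    have h2C : (Polynomial.C 2 : Polynomial ℂ) = 2 := map_ofNat Polynomial.C 2
    rw [hq]
    simp only [map_mul, map_pow, h2C]
    ring
  obtain ⟨A, hA⟩ : ∃ A, A = Polynomial.C (2 * l1 ^ 2) * w + Polynomial.X * w ^ 2 := ⟨_, rfl⟩
  rw [← hA] at hq2
  have hq3 : q ^ 3 = Polynomial.C (l1 ^ 6) + Polynomial.X * (Polynomial.C (l1 ^ 4) * w + A * q) := by
    have e : q ^ 3 = q ^ 2 * q := by ring
    rw [e, hq2]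
    nth_rewrite 1 [hq]
    simp only [map_pow]
    rw [hq]
    simp only [map_pow]
    ring
  obtain ⟨B, hB⟩ : ∃ B, B = Polynomial.C (l1 ^ 4) * w + A * q := ⟨_, rfl⟩
  rw [← hB] at hq3
  have hq4 : q ^ 4 = Polynomial.C (l1 ^ 8) + Polynomial.X * (Polynomial.C (l1 ^ 6) * w + B * q) := by
    have e : q ^ 4 = q ^ 3 * q := by ring
    rw [e, hq3]
    nth_rewrite 1 [hq]
    simp only [map_pow]
    rw [hq]
    simp only [map_pow]
    ring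
  obtain ⟨D, hD⟩ : ∃ D, D = Polynomial.C (l1 ^ 6) * w + B * q := ⟨_, rfl⟩
  rw [← hD] at hq4
  have hps : ps l1 (Hs (k0 0 l1 k) (k1 0 l1 e1 l0) (k2 b2 a1 e0) (k3 b1 a0) (C b0) s) =
      Polynomial.X ^ 16 * ε + Polynomial.C (b2 - e1 + k) * Polynomial.X ^ 8 * q ^ 2 +
      Polynomial.C (a1 - l0) * Polynomial.C l1 * Polynomial.X ^ 9 * q ^ 2 -
      Polynomial.C (b1 - e0) * Polynomial.X ^ 10 * q ^ 3 -
      Polynomial.C a0 * Polynomial.C l1 * Polynomial.X ^ 11 * q ^ 3 +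
      Polynomial.C b0 * Polynomial.X ^ 12 * q ^ 4 := by
    rw [hH]
    simp only [map_add, map_sub, map_mul, map_pow, map_zero, ps_x, ps_y, ps_C, hε, hw]
    ring
  have pB : ∀ c : ℂ, ZW 2 1 2 5 8 (C c * (X 0 ^ 0 * X 1 ^ 2) * s ^ 2) := fun c =>
    ((ZW.xy 0 2 c).mul z2).mono (by omega) (by omega) (by omega)
  have pA1 : ∀ c : ℂ, ZW 2 1 2 5 9 (C c * (X 0 ^ 1 * X 1 ^ 1) * s ^ 2) := fun c =>
    ((ZW.xy 1 1 c).mul z2).mono (by omega) (by omega) (by omega)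
  have pB1 : ∀ c : ℂ, ZW 2 1 2 5 10 (C c * (X 0 ^ 0 * X 1 ^ 1) * s ^ 3) := fun c =>
    ((ZW.xy 0 1 c).mul z3).mono (by omega) (by omega) (by omega)
  have pa0 : ∀ c : ℂ, ZW 2 1 2 5 11 (C c * (X 0 ^ 1 * X 1 ^ 0) * s ^ 3) := fun c =>
    ((ZW.xy 1 0 c).mul z3).mono (by omega) (by omega) (by omega)
  have pb0 : ∀ c : ℂ, ZW 2 1 2 5 12 (C c * s ^ 4) := fun c =>
    ((ZW.c c).mul z4).mono (by omega) (by omega) (by omega)
  have zE' : ∀ m, m ≤ 12 → ZW 2 1 2 5 m E := fun m hm =>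
    zE.mono (by omega) (by omega) (by omega)
  by_cases hB2 : b2 - e1 + k = 0
  swap
  · refine ⟨s, (b2 - e1 + k) * l1 ^ 4, 8, by norm_num, by norm_num,
      mul_ne_zero hB2 (pow_ne_zero _ hl), h1, h2, hs', ?_, ?_⟩
    · rw [hH, zero_mul, zero_mul, sub_zero]
      refine ZW.add (ZW.sub (ZW.sub (ZW.add (ZW.add (zE' 8 (by norm_num)) (pB _)) ?_) ?_) ?_) ?_
      · exact (pA1 _).mono (by omega) (by omega) (by omega)
      · exact (pB1 _).mono (by omega) (by omega) (by omega)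
      · exact (pa0 _).mono (by omega) (by omega) (by omega)
      · exact (pb0 _).mono (by omega) (by omega) (by omega)
    · rw [hps]
      refine ⟨Polynomial.X ^ 7 * ε + Polynomial.C (b2 - e1 + k) * A +
        Polynomial.C (a1 - l0) * Polynomial.C l1 * q ^ 2 -
        Polynomial.C (b1 - e0) * Polynomial.X * q ^ 3 -
        Polynomial.C a0 * Polynomial.C l1 * Polynomial.X ^ 2 * q ^ 3 +
        Polynomial.C b0 * Polynomial.X ^ 3 * q ^ 4, ?_⟩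
      nth_rewrite 1 [hq2]
      rw [map_mul]
      ring
  rw [hB2] at hps hH
  by_cases hA1 : a1 - l0 = 0
  swap
  · refine ⟨s, (a1 - l0) * l1 * l1 ^ 4, 9, by norm_num, by norm_num,
      mul_ne_zero (mul_ne_zero hA1 hl) (pow_ne_zero _ hl), h1, h2, hs', ?_, ?_⟩
    · rw [hH, zero_mul, zero_mul, sub_zero, C_0, zero_mul, zero_mul, add_zero]
      refine ZW.add (ZW.sub (ZW.sub (ZW.add (zE' 9 (by norm_num)) (pA1 _)) ?_) ?_) ?_
      · exact (pB1 _).mono (by omega) (by omega) (by omega)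
      · exact (pa0 _).mono (by omega) (by omega) (by omega)
      · exact (pb0 _).mono (by omega) (by omega) (by omega)
    · rw [hps]
      refine ⟨Polynomial.X ^ 6 * ε + Polynomial.C (a1 - l0) * Polynomial.C l1 * A -
        Polynomial.C (b1 - e0) * q ^ 3 -
        Polynomial.C a0 * Polynomial.C l1 * Polynomial.X * q ^ 3 +
        Polynomial.C b0 * Polynomial.X ^ 2 * q ^ 4, ?_⟩
      rw [Polynomial.C_0, hq2, map_mul, map_mul]
      ring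
  rw [hA1] at hps hH
  by_cases hB1 : b1 - e0 = 0
  swap
  · refine ⟨s, -((b1 - e0) * l1 ^ 6), 10, by norm_num, by norm_num,
      neg_ne_zero.2 (mul_ne_zero hB1 (pow_ne_zero _ hl)), h1, h2, hs', ?_, ?_⟩
    · rw [hH, zero_mul, zero_mul, sub_zero, C_0, zero_mul, zero_mul, add_zero, zero_mul, zero_mul,
        add_zero]
      refine ZW.add (ZW.sub (ZW.sub (zE' 10 (by norm_num)) (pB1 _)) ?_) ?_
      · exact (pa0 _).mono (by omega) (by omega) (by omega)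
      · exact (pb0 _).mono (by omega) (by omega) (by omega)
    · rw [hps]
      refine ⟨Polynomial.X ^ 5 * ε - Polynomial.C (b1 - e0) * B -
        Polynomial.C a0 * Polynomial.C l1 * q ^ 3 +
        Polynomial.C b0 * Polynomial.X * q ^ 4, ?_⟩
      rw [Polynomial.C_0, hq3, map_neg, map_mul]
      ring
  rw [hB1] at hps hH
  by_cases ha0 : a0 = 0
  swap
  · refine ⟨s, -(a0 * l1 * l1 ^ 6), 11, by norm_num, by norm_num,
      neg_ne_zero.2 (mul_ne_zero (mul_ne_zero ha0 hl) (pow_ne_zero _ hl)), h1, h2, hs', ?_, ?_⟩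
    · rw [hH, zero_mul, zero_mul, sub_zero, C_0, zero_mul, zero_mul, add_zero, zero_mul, zero_mul,
        add_zero, zero_mul, zero_mul, sub_zero]
      refine ZW.add (ZW.sub (zE' 11 (by norm_num)) (pa0 _)) ?_
      exact (pb0 _).mono (by omega) (by omega) (by omega)
    · rw [hps]
      refine ⟨Polynomial.X ^ 4 * ε - Polynomial.C a0 * Polynomial.C l1 * B +
        Polynomial.C b0 * q ^ 4, ?_⟩
      rw [Polynomial.C_0, hq3, map_neg, map_mul, map_mul]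
      ring
  have hb0 : b0 ≠ 0 := fun h => hR ⟨hB2, hA1, hB1, ha0, h⟩
  refine ⟨s, b0 * l1 ^ 8, 12, by norm_num, by norm_num, mul_ne_zero hb0 (pow_ne_zero _ hl), h1, h2,
    hs', ?_, ?_⟩
  · rw [hH, ha0, zero_mul, zero_mul, sub_zero, C_0, zero_mul, zero_mul, add_zero, zero_mul, zero_mul,
      add_zero, zero_mul, zero_mul, sub_zero, zero_mul, zero_mul, sub_zero]
    exact ZW.add (zE' 12 (by norm_num)) (pb0 _)
  · rw [hps, ha0]
    refine ⟨Polynomial.X ^ 3 * ε + Polynomial.C b0 * D, ?_⟩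
    rw [Polynomial.C_0, hq4, map_mul]
    ring

/-- The multiples of `x^3` except `x^12` are removed up to degree `12`; the rest is `c x^2 y^j` and
terms above it. -/
theorem exists_s3 {a0 a1 b0 b1 b2 e0 e1 l0 l1 k : ℂ} (hl : l1 ≠ 0)
    (hR : ¬ (b2 - e1 + k = 0 ∧ a1 - l0 = 0 ∧ b1 - e0 = 0 ∧ a0 = 0 ∧ b0 = 0)) :
    ∃ (s R : MvPolynomial (Fin 3) ℂ) (c : ℂ) (j : ℕ), c ≠ 0 ∧ 4 ≤ j ∧ j ≤ 8 ∧ ZW 2 1 1 2 3 s ∧
      ZW 2 1 1 3 4 (s - rr 0 l1 k) ∧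
      Hs (k0 0 l1 k) (k1 0 l1 e1 l0) (k2 b2 a1 e0) (k3 b1 a0) (C b0) s =
        C c * (X 0 ^ 2 * X 1 ^ j) + X 0 ^ 12 + R ∧
      ∀ v ∈ R.support, v 2 = 0 ∧ ((v 0 = 2 ∧ j < v 1) ∨ (3 ≤ v 0 ∧ 13 ≤ v 0 + v 1)) := by
  obtain ⟨s, κ, m, hm, hm', hκ, h1, h2, h3, h4, h5⟩ := start3 (a0 := a0) (a1 := a1) (b0 := b0)
    (b1 := b1) (b2 := b2) (e0 := e0) (e1 := e1) (l0 := l0) (k := k) hl hR
  obtain ⟨s', R, c, hc, g1, g2, g3⟩ := kill3 (c1_3 e1 l0 l1) (c1_3' e1 l0 l1) (c2_3 b2 a1 e0)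
    (c2_3' b2 a1 e0) (c3_3 b1 a0) ((ZW.c b0).mono (le_refl _) (le_refl _) (le_refl _)) hm hm' hl h1
    h3 h4 hκ h5
  refine ⟨s', R, c, m - 4, hc, by omega, by omega, ?_, ?_, g2, g3⟩
  · have := (g1.mono (le_refl _) (by omega : 2 ≤ 3) (by omega : 3 ≤ 4)).add h1
    rwa [sub_add_cancel] at this
  · have e : s' - rr 0 l1 k = (s' - s) + (s - rr 0 l1 k) := by ring
    rw [e]
    exact g1.add h2

end SZ

end QV

end MPb07157
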