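import Pool.Agent.Lib.MP_b07157_agQV.SG
import Pool.Agent.Lib.MP_b07157_agQV.SF3
import Pool.Agent.Lib.MP_b07157_agQV.SL3

/-!
# Conic and tangent line: type D3, the part which is not a product
-/

noncomputable section

namespace MPb07157

open MvPolynomial

namespace QV

open QU

namespace SZ

variable {a0 a1 b0 b1 b2 e0 e1 l0 l1 k : ℂ}

theorem zw3_k2' (b2 a1 e0 : ℂ) : ZW 2 1 0 2 2 (k2 b2 a1 e0 - X 1) := by
  have e : k2 b2 a1 e0 - X 1 = C b2 * (X 0 ^ 0 * X 1 ^ 2) + C a1 * (X 0 ^ 1 * X 1 ^ 1) +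
      C e0 * (X 0 ^ 2 * X 1 ^ 0) := by
    unfold k2
    ring
  rw [e]
  refine ZW.add (ZW.add ?_ ?_) ?_
  · exact (ZW.xy 0 2 _).mono (by omega) (by omega) (by omega)
  · exact (ZW.xy 1 1 _).mono (by omega) (by omega) (by omega)
  · exact (ZW.xy 2 0 _).mono (by omega) (by omega) (by omega)

/-- The exponents of the remainder. -/
def DR3 (j : ℕ) (v : Fin 3 →₀ ℕ) : Prop :=
  (v 2 = 1 ∧ ((2 ≤ v 0 ∧ 3 ≤ v 0 + v 1) ∨ (1 ≤ v 0 ∧ 4 ≤ v 0 + v 1))) ∨
    (v 2 = 2 ∧ 2 ≤ v 0 + v 1) ∨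
    (v 2 = 3 ∧ (1 ≤ v 1 ∨ 2 ≤ v 0 + v 1)) ∨
    (v 2 = 0 ∧ ((v 0 = 2 ∧ j < v 1) ∨ (3 ≤ v 0 ∧ 13 ≤ v 0 + v 1)))

theorem nd_of_R3 {j : ℕ} {c g a0 b0 : ℂ} (hg : g ≠ 0) (hc : c ≠ 0) (hj : 4 ≤ j) (hj8 : j ≤ 8)
    {F R : MvPolynomial (Fin 3) ℂ}
    (hF : F = X 0 ^ 2 * X 2 + X 1 * X 2 ^ 2 + C g * (X 0 * X 1 ^ 2 * X 2) + C a0 * (X 0 * X 2 ^ 3) +
      C b0 * X 2 ^ 4 + X 0 ^ 12 + C c * (X 0 ^ 2 * X 1 ^ j) + R)
    (hR : ∀ v ∈ R.support, DR3 j v) : ND F := by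
  refine nd_famR (K := 7) (R := R) ![![2, 0, 1], ![0, 1, 2], ![1, 2, 1], ![1, 0, 3], ![0, 0, 4],
    ![12, 0, 0], ![2, j, 0]] ?_ ![1, 1, g, a0, b0, 1, c] ?_ ⟨0, one_ne_zero⟩ ?_ ?_ ?_
  · intro x y hxy
    have h0 := congrFun hxy 0
    have h1 := congrFun hxy 1
    have h2 := congrFun hxy 2
    fin_cases x <;> fin_cases y <;> simp at h0 h1 h2 <;> rfl
  · rw [hF]
    simp only [Fin.sum_univ_succ, Fin.prod_univ_three, Finset.univ_unique, Finset.sum_singleton]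
    simp
    ring
  · intro x
    fin_cases x <;> simp
  · intro v hv w hw
    have hp := hw 0
    have hq := hw 1
    have hr := hw 2
    simp only [Fin.sum_univ_three]
    generalize w 0 = p at *
    generalize w 1 = q at *
    generalize w 2 = r at *
    have hwl : ∀ a0 b0 : ℕ, a0 ≤ v 0 → b0 ≤ v 1 → a0 + b0 < v 0 + v 1 →
        p * a0 + q * b0 < p * v 0 + q * v 1 := fun a0 b0 h1 h2 h3 => wlt hp hq h1 h2 h3
    have hwle : ∀ a0 b0 : ℕ, a0 ≤ v 0 → b0 ≤ v 1 →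
        p * a0 + q * b0 ≤ p * v 0 + q * v 1 := fun a0 b0 h1 h2 =>
      Nat.add_le_add (Nat.mul_le_mul_left _ h1) (Nat.mul_le_mul_left _ h2)
    rcases hR v hv with ⟨e2, e⟩ | ⟨e2, e⟩ | ⟨e2, e⟩ | ⟨e2, e⟩
    · have hrv : r * v 2 = r * 1 := by rw [e2]
      by_cases h2 : 2 ≤ v 0
      · have := hwl 2 0 h2 (Nat.zero_le _) (by omega)
        refine ⟨0, one_ne_zero, ?_⟩
        show p * 2 + q * 0 + r * 1 < _
        omega
      · have h3 := hwl 1 2 (by omega) (by omega) (by omega)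
        refine ⟨2, hg, ?_⟩
        show p * 1 + q * 2 + r * 1 < _
        omega
    · have hrv : r * v 2 = r * 2 := by rw [e2]
      by_cases h1 : 1 ≤ v 1
      · have := hwl 0 1 (Nat.zero_le _) h1 (by omega)
        refine ⟨1, one_ne_zero, ?_⟩
        show p * 0 + q * 1 + r * 2 < _
        omega
      · have := hwle 2 0 (by omega) (Nat.zero_le _)
        refine ⟨0, one_ne_zero, ?_⟩
        show p * 2 + q * 0 + r * 1 < _
        omega
    · have hrv : r * v 2 = r * 3 := by rw [e2]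
      by_cases h1 : 1 ≤ v 1
      · have := hwle 0 1 (Nat.zero_le _) h1
        refine ⟨1, one_ne_zero, ?_⟩
        show p * 0 + q * 1 + r * 2 < _
        omega
      · have := hwle 2 0 (by omega) (Nat.zero_le _)
        refine ⟨0, one_ne_zero, ?_⟩
        show p * 2 + q * 0 + r * 1 < _
        omega
    · have hrv : r * v 2 = r * 0 := by rw [e2]
      rcases e with ⟨h1, h2⟩ | ⟨h1, h2⟩
      · refine ⟨6, hc, ?_⟩
        show p * 2 + q * j + r * 0 < _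
        have := hwl 2 j (by omega) (by omega) (by omega)
        omega
      · by_cases hpq : p ≤ q
        · refine ⟨5, one_ne_zero, ?_⟩
          show p * 12 + q * 0 + r * 0 < _
          have h3 : p * (v 0 + v 1) ≤ p * v 0 + q * v 1 := by
            rw [mul_add]
            exact Nat.add_le_add_left (Nat.mul_le_mul_right _ hpq) _
          have h4 : p * 13 ≤ p * (v 0 + v 1) := Nat.mul_le_mul_left _ h2
          omega
        · push Not at hpq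
          have h5 : p * 3 + q * (v 0 - 3 + v 1) ≤ p * v 0 + q * v 1 := by
            have h6 : q * (v 0 - 3) ≤ p * (v 0 - 3) := Nat.mul_le_mul_right _ hpq.le
            have h7 : p * v 0 = p * 3 + p * (v 0 - 3) := by
              rw [← mul_add]
              congr 1
              omega
            rw [mul_add]
            omega
          have h8 : q * 10 ≤ q * (v 0 - 3 + v 1) := Nat.mul_le_mul_left _ (by omega)
          refine ⟨6, hc, ?_⟩
          show p * 2 + q * j + r * 0 < _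
          have : q * j ≤ q * 8 := Nat.mul_le_mul_left _ hj8
          omega
  · intro w m u T hw hu hm hT hne hs
    simp only [Fin.sum_univ_three] at hm hT
    have hT0 : ∀ k : Fin 7, T k = 0 ∨ (T k ≠ 0 ∧ w 0 * (![![2, 0, 1], ![0, 1, 2], ![1, 2, 1],
        ![1, 0, 3], ![0, 0, 4], ![12, 0, 0], ![2, j, 0]] : Fin 7 → Fin 3 → ℕ) k 0 +
        w 1 * (![![2, 0, 1], ![0, 1, 2], ![1, 2, 1],
        ![1, 0, 3], ![0, 0, 4], ![12, 0, 0], ![2, j, 0]] : Fin 7 → Fin 3 → ℕ) k 1 +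
        w 2 * (![![2, 0, 1], ![0, 1, 2], ![1, 2, 1],
        ![1, 0, 3], ![0, 0, 4], ![12, 0, 0], ![2, j, 0]] : Fin 7 → Fin 3 → ℕ) k 2
          = m) := by
      intro k
      have h := hT k
      split_ifs at h with h1
      · by_cases h2 : T k = 0
        · exact Or.inl h2
        · exact Or.inr ⟨h2, h1⟩
      · exact Or.inl h
    have hT1 : ∀ k : Fin 7, (![1, 1, g, a0, b0, 1, c] : Fin 7 → ℂ) k ≠ 0 →
        (T k = 0 ∧ w 0 * (![![2, 0, 1], ![0, 1, 2], ![1, 2, 1],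
        ![1, 0, 3], ![0, 0, 4], ![12, 0, 0], ![2, j, 0]] : Fin 7 → Fin 3 → ℕ) k 0 +
        w 1 * (![![2, 0, 1], ![0, 1, 2], ![1, 2, 1],
        ![1, 0, 3], ![0, 0, 4], ![12, 0, 0], ![2, j, 0]] : Fin 7 → Fin 3 → ℕ) k 1 +
        w 2 * (![![2, 0, 1], ![0, 1, 2], ![1, 2, 1],
        ![1, 0, 3], ![0, 0, 4], ![12, 0, 0], ![2, j, 0]] : Fin 7 → Fin 3 → ℕ) k 2
          ≠ m) ∨ (T k ≠ 0 ∧ w 0 * (![![2, 0, 1], ![0, 1, 2], ![1, 2, 1],
        ![1, 0, 3], ![0, 0, 4], ![12, 0, 0], ![2, j, 0]] : Fin 7 → Fin 3 → ℕ) k 0 +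
        w 1 * (![![2, 0, 1], ![0, 1, 2], ![1, 2, 1],
        ![1, 0, 3], ![0, 0, 4], ![12, 0, 0], ![2, j, 0]] : Fin 7 → Fin 3 → ℕ) k 1 +
        w 2 * (![![2, 0, 1], ![0, 1, 2], ![1, 2, 1],
        ![1, 0, 3], ![0, 0, 4], ![12, 0, 0], ![2, j, 0]] : Fin 7 → Fin 3 → ℕ) k 2
          = m) := by
      intro k hk
      have h := hT k
      split_ifs at h with h1
      · right
        refine ⟨?_, h1⟩
        rw [h]
        exact mul_ne_zero hk (Finset.prod_ne_zero_iff.2 fun i _ => pow_ne_zero _ (hu i))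
      · exact Or.inl ⟨h, h1⟩
    refine face3 (c := c) (g := g) (a0 := a0) (b0 := b0) (T := T) (hw 0) (hw 1) (hw 2)
      hj hj8 (hm 0 one_ne_zero) (hm 1 one_ne_zero) (hm 2 hg) (hm 5 one_ne_zero)
      (hm 6 hc) (hT1 0 one_ne_zero) (hT1 1 one_ne_zero) (hT1 2 hg)
      (hT0 3) (hT0 4) (hT1 5 one_ne_zero) (hT1 6 hc) ?_ ?_ ?_ ?_
    · rintro ⟨_, _, _, _, _, _, _⟩
      obtain ⟨k, hk⟩ := hne
      fin_cases k <;> exact hk (by assumption)
    · have h := hs 0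
      simp [Fin.sum_univ_succ] at h
      linear_combination h
    · have h := hs 1
      simp [Fin.sum_univ_succ] at h
      linear_combination h
    · have h := hs 2
      simp [Fin.sum_univ_succ] at h
      linear_combination h

theorem suLoc_D3R (hl : l1 ≠ 0) (hR : ¬ (b2 - e1 + k = 0 ∧ a1 - l0 = 0 ∧ b1 - e0 = 0 ∧
    a0 = 0 ∧ b0 = 0)) :
    SuLoc (cS + qf b0 b1 b2 0 0 a0 a1 l1 0 e0 e1 0 l0 l1 k) := by
  classical
  obtain ⟨s', R', c, j, hc, hj, hj8, hs', hsr, h6, hR'⟩ := exists_s3 (e1 := e1) (k := k) (b2 := b2)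
    (a1 := a1) (l0 := l0) (b1 := b1) (e0 := e0) (a0 := a0) (b0 := b0) hl hR
  have hs0 : ZW 2 1 0 2 3 s' := hs'.mono (by omega) (by omega) (by omega)
  refine SuLoc.of_aeval (chg_sh hs0) (ND.suLoc ?_)
  rw [aeval_sh, h6]
  -- the remainders
  set σ := s' - rr 0 l1 k with hσ
  obtain ⟨R1, hR1, hR1'⟩ : ∃ R1, G1 (k1 0 l1 e1 l0) (k2 b2 a1 e0) (k3 b1 a0) (C b0) s' =
      X 0 ^ 2 - C l1 * (X 0 * X 1 ^ 2) + R1 ∧
        ∀ v ∈ R1.support, v 2 = 0 ∧ ((2 ≤ v 0 ∧ 3 ≤ v 0 + v 1) ∨ (1 ≤ v 0 ∧ 4 ≤ v 0 + v 1)) := by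
    refine ⟨(C (e1 - 2 * k) * (X 0 ^ 2 * X 1 ^ 1) +
        C l0 * (X 0 ^ 3 * X 1 ^ 0)) + (-(C 2 * (X 1 * σ)) - C 2 * ((k2 b2 a1 e0 - X 1) * s') +
        C 3 * (k3 b1 a0 * (s' * s')) - C 4 * (C b0 * (s' * (s' * s')))), ?_, ?_⟩
    · have h22 : (C 2 : MvPolynomial (Fin 3) ℂ) = 2 := map_ofNat C 2
      have e4 : C 2 * (X 1 * σ) = C 2 * (X 1 * s') - C 2 * (X 1 * rr 0 l1 k) := by
        rw [hσ]
        ring
      rw [e4]
      unfold G1 k1 rr
      simp only [map_sub, map_mul, map_zero]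
      rw [h22]
      ring
    · have z1 : ZW 2 1 2 3 0 (C (e1 - 2 * k) * (X 0 ^ 2 * X 1 ^ 1) +
          C l0 * (X 0 ^ 3 * X 1 ^ 0)) := by
        refine ZW.add ?_ ?_
        · exact (ZW.xy 2 1 _).mono (by omega) (by omega) (by omega)
        · exact (ZW.xy 3 0 _).mono (by omega) (by omega) (by omega)
      have z2 : ZW 2 1 1 4 0 (-(C 2 * (X 1 * σ)) - C 2 * ((k2 b2 a1 e0 - X 1) * s') +
        C 3 * (k3 b1 a0 * (s' * s')) - C 4 * (C b0 * (s' * (s' * s')))) := by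
        refine ZW.sub (ZW.add (ZW.sub (ZW.neg ?_) ?_) ?_) ?_
        · exact ((ZW.c 2).mul (ZW.y1.mul hsr)).mono (by omega) (by omega) (by omega)
        · exact ((ZW.c 2).mul ((zw3_k2' b2 a1 e0).mul hs')).mono (by omega) (by omega) (by omega)
        · exact ((ZW.c 3).mul ((c3_3 b1 a0).mul (hs'.mul hs'))).mono (by omega) (by omega)
            (by omega)
        · exact ((ZW.c 4).mul ((ZW.c b0).mul (hs'.mul (hs'.mul hs')))).mono (by omega)
            (by omega) (by omega)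
      intro v hv
      rcases Finset.mem_union.1 (support_add hv) with h | h
      · obtain ⟨g1, g2, g3, _⟩ := z1 v h
        exact ⟨g1, Or.inl ⟨g2, g3⟩⟩
      · obtain ⟨g1, g2, g3, _⟩ := z2 v h
        exact ⟨g1, Or.inr ⟨g2, g3⟩⟩
  obtain ⟨R2, hR2, hR2'⟩ : ∃ R2, G2 (k2 b2 a1 e0) (k3 b1 a0) (C b0) s' = X 1 + R2 ∧
      ∀ v ∈ R2.support, v 2 = 0 ∧ 2 ≤ v 0 + v 1 := by
    refine ⟨(k2 b2 a1 e0 - X 1) - C 3 * (k3 b1 a0 * s') + C 6 * (C b0 * (s' * s')), ?_, ?_⟩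
    · unfold G2
      ring
    · have z : ZW 2 1 0 2 0 ((k2 b2 a1 e0 - X 1) - C 3 * (k3 b1 a0 * s') +
          C 6 * (C b0 * (s' * s'))) := by
        refine ZW.add (ZW.sub ?_ ?_) ?_
        · exact (zw3_k2' b2 a1 e0).mono (by omega) (by omega) (by omega)
        · exact ((ZW.c 3).mul ((c3_3 b1 a0).mul hs')).mono (by omega) (by omega) (by omega)
        · exact ((ZW.c 6).mul ((ZW.c b0).mul (hs'.mul hs'))).mono (by omega) (by omega) (by omega)
      intro v hv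
      obtain ⟨g1, _, g3, _⟩ := z v hv
      exact ⟨g1, g3⟩
  obtain ⟨R3, hR3, hR3'⟩ : ∃ R3, G3 (k3 b1 a0) (C b0) s' = C a0 * X 0 + R3 ∧
      ∀ v ∈ R3.support, v 2 = 0 ∧ (1 ≤ v 1 ∨ 2 ≤ v 0 + v 1) := by
    refine ⟨C b1 * (X 0 ^ 0 * X 1 ^ 1) - C 4 * (C b0 * s'), ?_, ?_⟩
    · unfold G3 k3
      ring
    · intro v hv
      rcases Finset.mem_union.1 (support_sub _ _ _ hv) with h | h
      · rw [xy_eq] at h
        have h7 := Finset.mem_singleton.1 (support_monomial_subset h)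
        subst h7
        rw [ex0, ex1, ex2]
        exact ⟨rfl, Or.inl (le_refl _)⟩
      · have z : ZW 2 1 0 2 0 (C 4 * (C b0 * s')) :=
          ((ZW.c 4).mul ((ZW.c b0).mul hs')).mono (by omega) (by omega) (by omega)
        obtain ⟨g1, _, g3, _⟩ := z v h
        exact ⟨g1, Or.inr g3⟩
  refine nd_of_R3 (R := R' + X 2 ^ 1 * R1 + X 2 ^ 2 * R2 + X 2 ^ 3 * R3) (g := -l1) (a0 := a0)
    (b0 := b0) (neg_ne_zero.2 hl) hc hj hj8 ?_ ?_
  · rw [hR1, hR2, hR3]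
    simp only [map_neg]
    ring
  · intro v hv
    rcases Finset.mem_union.1 (support_add hv) with h | h
    · rcases Finset.mem_union.1 (support_add h) with h | h
      · rcases Finset.mem_union.1 (support_add h) with h | h
        · obtain ⟨g1, g2⟩ := hR' v h
          exact Or.inr (Or.inr (Or.inr ⟨g1, g2⟩))
        · obtain ⟨u, hu, u0, u1, u2⟩ := mem_mulX h
          obtain ⟨g1, g2⟩ := hR1' u hu
          left
          rw [u0, u1, u2, g1]
          exact ⟨rfl, g2⟩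
      · obtain ⟨u, hu, u0, u1, u2⟩ := mem_mulX h
        obtain ⟨g1, g2⟩ := hR2' u hu
        right
        left
        rw [u0, u1, u2, g1]
        exact ⟨rfl, g2⟩
    · obtain ⟨u, hu, u0, u1, u2⟩ := mem_mulX h
      obtain ⟨g1, g2⟩ := hR3' u hu
      right
      right
      left
      rw [u0, u1, u2, g1]
      exact ⟨rfl, g2⟩

end SZ

end QV

end MPb07157
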