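import Pool.Agent.Lib.MP_b07157_agQV.SFin0
import Pool.Agent.Lib.MP_b07157_agQV.SN3

/-!
# Quartic polynomials with triple points, conic and tangent line: all cases
-/

noncomputable section

namespace MPb07157

open MvPolynomial

namespace QV

open QU

/-- Conic and tangent line, any quartic part, all coefficients. -/
theorem suLoc_S (b0 b1 b2 b3 b4 a0 a1 a2 a3 e0 e1 e2 l0 l1 k : ℂ) :
    SuLoc (cS + qf b0 b1 b2 b3 b4 a0 a1 a2 a3 e0 e1 e2 l0 l1 k) :=
  suLoc_S_of_D3 (fun _ _ _ _ _ _ _ _ _ _ hl hR => SZ.suLoc_D3R hl hR) b0 b1 b2 b3 b4 a0 a1 a2 a3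
    e0 e1 e2 l0 l1 k

end QV

end MPb07157
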