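import Pool.Agent.Lib.MP_b07157_agQV.SZero
import Pool.Agent.Lib.MP_b07157_agQV.SC4S

/-!
# Quartic polynomials with triple points, conic and tangent line: all cases but one
-/

noncomputable section

namespace MPb07157

open MvPolynomial

namespace QV

open QU

/-- `b_3 = e_2 ≠ 0`. -/
theorem nd_SC4 {b0 b1 b2 b3 a0 a1 a2 e0 e1 l0 l1 k : ℂ} (hb3 : b3 ≠ 0) :
    SuLoc (cS + qf b0 b1 b2 b3 0 a0 a1 a2 0 e0 e1 b3 l0 l1 k) := by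
  by_cases hR : a2 - l1 = 0 ∧ b2 - e1 + k = 0 ∧ a1 - l0 = 0 ∧ b1 - e0 = 0 ∧ a0 = 0 ∧ b0 = 0
  · exact nd_SC4_zero hb3 hR
  · exact SZ.suLoc_C4R hb3 hR

/-- All cases, from the last one. -/
theorem suLoc_S_of_D3
    (hD3 : ∀ b0 b1 b2 a0 a1 e0 e1 l0 l1 k : ℂ, l1 ≠ 0 →
      ¬ (b2 - e1 + k = 0 ∧ a1 - l0 = 0 ∧ b1 - e0 = 0 ∧ a0 = 0 ∧ b0 = 0) →
      SuLoc (cS + qf b0 b1 b2 0 0 a0 a1 l1 0 e0 e1 0 l0 l1 k))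
    (b0 b1 b2 b3 b4 a0 a1 a2 a3 e0 e1 e2 l0 l1 k : ℂ) :
    SuLoc (cS + qf b0 b1 b2 b3 b4 a0 a1 a2 a3 e0 e1 e2 l0 l1 k) :=
  suLoc_S_of' (fun _ _ _ _ _ _ _ _ _ _ _ _ hb3 _ => nd_SC4 hb3) hD3 b0 b1 b2 b3 b4 a0 a1 a2 a3 e0
    e1 e2 l0 l1 k

end QV

end MPb07157
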