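import Pool.Agent.Lib.MP_b07157_agQV.SN4

/-!
# Conic and tangent line: the shift of `z`
-/

noncomputable section

namespace MPb07157

open MvPolynomial

namespace QV

open QU

namespace SZ

variable {a b l m : ℕ} {d b3 a0 a1 a2 b0 b1 b2 e0 e1 l0 l1 k : ℂ}

/-- The shift `z → z - s`. -/
def sh (s : MvPolynomial (Fin 3) ℂ) : Fin 3 → MvPolynomial (Fin 3) ℂ := ![X 0, X 1, X 2 - s]

theorem chg_sh {s : MvPolynomial (Fin 3) ℂ} (hs : ZW a b l 2 m s) : Chg (sh s) := by
  classical
  have h0 : coeff 0 s = 0 := by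
    by_contra h
    have := (hs _ (mem_support_iff.2 h)).2.2.1
    simp at this
  have h1 : ∀ j, coeff (Finsupp.single j 1) s = 0 := by
    intro j
    by_contra h
    have := (hs _ (mem_support_iff.2 h)).2.2.1
    rw [Finsupp.single_apply, Finsupp.single_apply] at this
    split_ifs at this with h2 h3 <;> omega
  constructor
  · intro i
    fin_cases i
    · show coeff 0 (X 0) = 0
      rw [coeff_zero_X]
    · show coeff 0 (X 1) = 0
      rw [coeff_zero_X]
    · show coeff 0 (X 2 - s) = 0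
      rw [coeff_sub, coeff_zero_X, h0, sub_zero]
  · have h2 : (Matrix.of fun i j => coeff (Finsupp.single j 1) (sh s i)) =
        (1 : Matrix (Fin 3) (Fin 3) ℂ) := by
      ext i j
      rw [Matrix.of_apply]
      have h3 : ∀ i : Fin 3, coeff (Finsupp.single j 1) (X i : MvPolynomial (Fin 3) ℂ) =
          (1 : Matrix (Fin 3) (Fin 3) ℂ) i j := by
        intro i
        rw [coeff_X, Matrix.one_apply]
        by_cases h : i = j
        · rw [h, if_pos rfl, if_pos rfl]
        · rw [if_neg h, if_neg]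
          intro h4
          exact h (Finsupp.single_left_injective one_ne_zero h4)
      fin_cases i
      · exact h3 0
      · exact h3 1
      · show coeff (Finsupp.single j 1) (X 2 - s) = _
        rw [coeff_sub, h1, sub_zero]
        exact h3 2
    rw [h2, Matrix.det_one]
    exact one_ne_zero

theorem aeval_sh (s : MvPolynomial (Fin 3) ℂ) :
    aeval (sh s) (cS + qf b0 b1 b2 b3 0 a0 a1 a2 0 e0 e1 d l0 l1 k) =
      Hs (k0 d l1 k) (k1 b3 a2 e1 l0) (k2 b2 a1 e0) (k3 b1 a0) (C b0) s +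
        X 2 ^ 1 * G1 (k1 b3 a2 e1 l0) (k2 b2 a1 e0) (k3 b1 a0) (C b0) s +
        X 2 ^ 2 * G2 (k2 b2 a1 e0) (k3 b1 a0) (C b0) s +
        X 2 ^ 3 * G3 (k3 b1 a0) (C b0) s + X 2 ^ 4 * C b0 := by
  have h := taylor (c0 := k0 d l1 k) (c1 := k1 b3 a2 e1 l0) (c2 := k2 b2 a1 e0) (c3 := k3 b1 a0)
    (c4 := C b0) (s := s) (X 2)
  rw [pow_one, ← h]
  have hX0 : aeval (sh s) (X 0 : MvPolynomial (Fin 3) ℂ) = X 0 := aeval_X _ _
  have hX1 : aeval (sh s) (X 1 : MvPolynomial (Fin 3) ℂ) = X 1 := aeval_X _ _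
  have hX2 : aeval (sh s) (X 2 : MvPolynomial (Fin 3) ℂ) = X 2 - s := aeval_X _ _
  unfold cS qf k0 k1 k2 k3
  simp only [map_add, map_mul, map_pow, hX0, hX1, hX2, aeval_C, algebraMap_eq, map_zero]
  ring

end SZ

end QV

end MPb07157
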