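import Pool.Agent.Lib.MP_b07157_agQV.SZ

/-!
# Conic and tangent line: shifts of `z`
-/

noncomputable section

namespace MPb07157

open MvPolynomial

namespace QV

namespace SZ

variable {a b l n m : ℕ} {c0 c1 c2 c3 c4 s g : MvPolynomial (Fin 3) ℂ}

/-- The value at `z = -s` of `c_0 + c_1 z + c_2 z^2 + c_3 z^3 + c_4 z^4`. -/
def Hs (c0 c1 c2 c3 c4 s : MvPolynomial (Fin 3) ℂ) : MvPolynomial (Fin 3) ℂ :=
  c0 - c1 * s + c2 * s ^ 2 - c3 * s ^ 3 + c4 * s ^ 4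

def G1 (c1 c2 c3 c4 s : MvPolynomial (Fin 3) ℂ) : MvPolynomial (Fin 3) ℂ :=
  c1 - C 2 * (c2 * s) + C 3 * (c3 * (s * s)) - C 4 * (c4 * (s * (s * s)))

def G2 (c2 c3 c4 s : MvPolynomial (Fin 3) ℂ) : MvPolynomial (Fin 3) ℂ :=
  c2 - C 3 * (c3 * s) + C 6 * (c4 * (s * s))

def G3 (c3 c4 s : MvPolynomial (Fin 3) ℂ) : MvPolynomial (Fin 3) ℂ :=
  c3 - C 4 * (c4 * s)

theorem Hs_add : Hs c0 c1 c2 c3 c4 (s + g) = Hs c0 c1 c2 c3 c4 s - g * G1 c1 c2 c3 c4 s +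
    g * (g * G2 c2 c3 c4 s) - g * (g * (g * G3 c3 c4 s)) + c4 * (g * (g * (g * g))) := by
  have h2 : (C 2 : MvPolynomial (Fin 3) ℂ) = 2 := map_ofNat C 2
  have h3 : (C 3 : MvPolynomial (Fin 3) ℂ) = 3 := map_ofNat C 3
  have h4 : (C 4 : MvPolynomial (Fin 3) ℂ) = 4 := map_ofNat C 4
  have h6 : (C 6 : MvPolynomial (Fin 3) ℂ) = 6 := map_ofNat C 6
  unfold Hs G1 G2 G3
  rw [h2, h3, h4, h6]
  ring

/-- The Taylor expansion at `z = -s`. -/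
theorem taylor (z : MvPolynomial (Fin 3) ℂ) : c0 + c1 * (z - s) + c2 * (z - s) ^ 2 +
    c3 * (z - s) ^ 3 + c4 * (z - s) ^ 4 = Hs c0 c1 c2 c3 c4 s + z * G1 c1 c2 c3 c4 s +
      z ^ 2 * G2 c2 c3 c4 s + z ^ 3 * G3 c3 c4 s + z ^ 4 * c4 := by
  have h2 : (C 2 : MvPolynomial (Fin 3) ℂ) = 2 := map_ofNat C 2
  have h3 : (C 3 : MvPolynomial (Fin 3) ℂ) = 3 := map_ofNat C 3
  have h4 : (C 4 : MvPolynomial (Fin 3) ℂ) = 4 := map_ofNat C 4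
  have h6 : (C 6 : MvPolynomial (Fin 3) ℂ) = 6 := map_ofNat C 6
  unfold Hs G1 G2 G3
  rw [h2, h3, h4, h6]
  ring

/-! ### The weights `(3, 2)` -/

/-- One step: removal of the multiples of `x^2`. -/
theorem step4 (hc1 : ZW 3 2 0 3 6 (c1 - X 0 ^ 2)) (hc2 : ZW 3 2 0 1 2 c2) (hc3 : ZW 3 2 0 1 2 c3)
    (hc4 : ZW 3 2 0 0 0 c4) {N m : ℕ} (hN : 5 ≤ N) (hm : 12 ≤ m) (hs : ZW 3 2 0 2 4 s)
    {P Q : MvPolynomial (Fin 3) ℂ} (hH : Hs c0 c1 c2 c3 c4 s = P + Q) (hQ : ZW 3 2 0 N m Q) :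
    ∃ g R Q' : MvPolynomial (Fin 3) ℂ, ZW 3 2 0 (N - 2) (m - 6) g ∧ ZW 3 2 0 N m R ∧
      (∀ v ∈ R.support, v 0 < 2) ∧ ZW 3 2 0 (N + 1) m Q' ∧
        Hs c0 c1 c2 c3 c4 (s + g) = P + R + Q' := by
  obtain ⟨g, R, h1, h2, h3, h4⟩ := hQ.div 2
  have hg : ZW 3 2 0 (N - 2) (m - 6) g := h2
  have hG1 : ZW 3 2 0 3 6 (G1 c1 c2 c3 c4 s - X 0 ^ 2) := by
    have e1 : G1 c1 c2 c3 c4 s - X 0 ^ 2 = (c1 - X 0 ^ 2) - C 2 * (c2 * s) +
        C 3 * (c3 * (s * s)) - C 4 * (c4 * (s * (s * s))) := by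
      unfold G1
      ring
    rw [e1]
    refine ZW.sub (ZW.add (ZW.sub hc1 ?_) ?_) ?_
    · exact ((ZW.c 2).mul (hc2.mul hs)).mono (by omega) (by omega) (by omega)
    · exact ((ZW.c 3).mul (hc3.mul (hs.mul hs))).mono (by omega) (by omega) (by omega)
    · exact ((ZW.c 4).mul (hc4.mul (hs.mul (hs.mul hs)))).mono (by omega) (by omega) (by omega)
  have hG2 : ZW 3 2 0 1 2 (G2 c2 c3 c4 s) := by
    refine ZW.add (ZW.sub hc2 ?_) ?_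
    · exact ((ZW.c 3).mul (hc3.mul hs)).mono (by omega) (by omega) (by omega)
    · exact ((ZW.c 6).mul (hc4.mul (hs.mul hs))).mono (by omega) (by omega) (by omega)
  have hG3 : ZW 3 2 0 1 2 (G3 c3 c4 s) := by
    refine ZW.sub hc3 ?_
    exact ((ZW.c 4).mul (hc4.mul hs)).mono (by omega) (by omega) (by omega)
  refine ⟨g, R, -(g * (G1 c1 c2 c3 c4 s - X 0 ^ 2)) + g * (g * G2 c2 c3 c4 s) -
    g * (g * (g * G3 c3 c4 s)) + c4 * (g * (g * (g * g))), hg, h3, h4, ?_, ?_⟩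
  · refine ZW.add (ZW.sub (ZW.add (ZW.neg ?_) ?_) ?_) ?_
    · exact (hg.mul hG1).mono (by omega) (by omega) (by omega)
    · exact (hg.mul (hg.mul hG2)).mono (by omega) (by omega) (by omega)
    · exact (hg.mul (hg.mul (hg.mul hG3))).mono (by omega) (by omega) (by omega)
    · exact (hc4.mul (hg.mul (hg.mul (hg.mul hg)))).mono (by omega) (by omega) (by omega)
  · rw [Hs_add, hH, h1]
    ring

theorem lp4 (hc1 : ZW 3 2 0 3 6 (c1 - X 0 ^ 2)) (hc2 : ZW 3 2 0 1 2 c2) (hc3 : ZW 3 2 0 1 2 c3)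
    (hc4 : ZW 3 2 0 0 0 c4) {m : ℕ} (hm : 12 ≤ m) (hs : ZW 3 2 0 2 4 s)
    {P Q : MvPolynomial (Fin 3) ℂ} (hH : Hs c0 c1 c2 c3 c4 s = P + Q) (hQ : ZW 3 2 0 5 m Q) :
    ∀ N, 5 ≤ N → ∃ s' R Q' : MvPolynomial (Fin 3) ℂ, ZW 3 2 0 3 6 (s' - s) ∧ ZW 3 2 0 0 m R ∧
      (∀ v ∈ R.support, v 0 < 2) ∧ ZW 3 2 0 N m Q' ∧
        Hs c0 c1 c2 c3 c4 s' = P + R + Q' := by
  intro N hN
  induction N, hN using Nat.le_induction with
  | base => exact ⟨s, 0, Q, by rw [sub_self]; exact ZW.zero, ZW.zero, by simp, hQ, by rw [hH]; ring⟩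
  | succ N hN ih =>
    obtain ⟨s', R, Q', h1, h2, h3, h4, h5⟩ := ih
    have hs' : ZW 3 2 0 2 4 s' := by
      have := (h1.mono (le_refl _) (by omega : 2 ≤ 3) (by omega : 4 ≤ 6)).add hs
      rwa [sub_add_cancel] at this
    obtain ⟨g, R', Q'', e1, e2, e3, e4, e5⟩ := step4 hc1 hc2 hc3 hc4 hN hm hs' h5 h4
    refine ⟨s' + g, R + R', Q'', ?_, h2.add (e2.mono (le_refl _) (Nat.zero_le _) (le_refl _)), ?_,
      e4, ?_⟩
    · have h6 : s' + g - s = (s' - s) + g := by ring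
      rw [h6]
      exact h1.add (e1.mono (le_refl _) (by omega) (by omega))
    · classical
      intro v hv
      rcases Finset.mem_union.1 (support_add hv) with h6 | h6
      · exact h3 v h6
      · exact e3 v h6
    · rw [e5]
      ring

/-- The multiples of `x^2` except `x^9` are removed up to degree `9`. -/
theorem kill4 (hc1 : ZW 3 2 0 3 6 (c1 - X 0 ^ 2)) (hc2 : ZW 3 2 0 1 2 c2) (hc3 : ZW 3 2 0 1 2 c3)
    (hc4 : ZW 3 2 0 0 0 c4) {m : ℕ} (hm : 12 ≤ m) (hm' : m ≤ 27) (hs : ZW 3 2 0 2 4 s)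
    {P Q : MvPolynomial (Fin 3) ℂ} (hH : Hs c0 c1 c2 c3 c4 s = P + Q) (hQ : ZW 3 2 0 5 m Q) :
    ∃ s' R : MvPolynomial (Fin 3) ℂ, ZW 3 2 0 3 6 (s' - s) ∧ ZW 3 2 0 0 m R ∧
      (∀ v ∈ R.support, v 0 < 2 ∨ 10 ≤ v 0 + v 1) ∧
        Hs c0 c1 c2 c3 c4 s' = P + R + X 0 ^ 9 := by
  classical
  obtain ⟨s', R, Q', h1, h2, h3, h4, h5⟩ := lp4 hc1 hc2 hc3 hc4 hm hs hH hQ 9 (by norm_num)
  have hs' : ZW 3 2 0 2 4 s' := by
    have := (h1.mono (le_refl _) (by omega : 2 ≤ 3) (by omega : 4 ≤ 6)).add hs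
    rwa [sub_add_cancel] at this
  have hx : ZW 3 2 0 9 m (X 0 ^ 9 : MvPolynomial (Fin 3) ℂ) := by
    have := ZW.xy (a := 3) (b := 2) 9 0 1
    simp only [map_one, one_mul, pow_zero, mul_one] at this
    exact this.mono (Nat.zero_le _) (by omega) (by omega)
  have h6 : Hs c0 c1 c2 c3 c4 s' = (P + R + X 0 ^ 9) + (Q' - X 0 ^ 9) := by
    rw [h5]
    ring
  obtain ⟨g, R', Q'', e1, e2, e3, e4, e5⟩ := step4 hc1 hc2 hc3 hc4 (by norm_num : 5 ≤ 9) hm hs' h6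
    (h4.sub hx)
  refine ⟨s' + g, R + R' + Q'', ?_, (h2.add (e2.mono (le_refl _) (Nat.zero_le _) (le_refl _))).add
    (e4.mono (le_refl _) (Nat.zero_le _) (le_refl _)), ?_, ?_⟩
  · have h7 : s' + g - s = (s' - s) + g := by ring
    rw [h7]
    exact h1.add (e1.mono (le_refl _) (by omega) (by omega))
  · intro v hv
    rcases Finset.mem_union.1 (support_add hv) with h7 | h7
    · rcases Finset.mem_union.1 (support_add h7) with h8 | h8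
      · exact Or.inl (h3 v h8)
      · exact Or.inl (e3 v h8)
    · exact Or.inr (e4 v h7).2.2.1
  · rw [e5]
    ring

end SZ

end QV

end MPb07157
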