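import Pool.Agent.Lib.MP_b07157_agQV.SL4

/-!
# Conic and tangent line: shifts of `z`, weights `(2, 1)`
-/

noncomputable section

namespace MPb07157

open MvPolynomial

namespace QV

namespace SZ

/-- The restriction to the curve `x = l T^2`, `y = T`. -/
def ps (l : ℂ) : MvPolynomial (Fin 3) ℂ →ₐ[ℂ] Polynomial ℂ :=
  aeval ![Polynomial.C l * Polynomial.X ^ 2, Polynomial.X, 0]

theorem ps_x (l : ℂ) : ps l (X 0) = Polynomial.C l * Polynomial.X ^ 2 := by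
  unfold ps
  rw [aeval_X]
  rfl

theorem ps_y (l : ℂ) : ps l (X 1) = Polynomial.X := by
  unfold ps
  rw [aeval_X]
  rfl

theorem ps_C (l c : ℂ) : ps l (C c) = Polynomial.C c := by
  unfold ps
  rw [aeval_C]
  rfl

theorem ps_dvd (l : ℂ) {P : MvPolynomial (Fin 3) ℂ} {m : ℕ}
    (h : ∀ v ∈ P.support, m ≤ 2 * v 0 + 1 * v 1) : (Polynomial.X : Polynomial ℂ) ^ m ∣ ps l P := by
  unfold ps
  rw [aeval_def, eval₂_eq']
  refine Finset.dvd_sum fun v hv => ?_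
  rw [Fin.prod_univ_three]
  have h1 := h v hv
  refine Dvd.dvd.mul_left ?_ _
  refine Dvd.dvd.mul_right ?_ _
  refine (pow_dvd_pow _ h1).trans ?_
  show Polynomial.X ^ (2 * v 0 + 1 * v 1) ∣ (Polynomial.C l * Polynomial.X ^ 2) ^ v 0 *
    Polynomial.X ^ v 1
  rw [mul_pow, ← pow_mul, one_mul, pow_add]
  exact ⟨Polynomial.C l ^ v 0, by ring⟩

theorem ZW.ps_dvd (l : ℂ) {a' n m : ℕ} {P : MvPolynomial (Fin 3) ℂ} (h : ZW 2 1 a' n m P) :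
    (Polynomial.X : Polynomial ℂ) ^ m ∣ ps l P :=
  SZ.ps_dvd l fun v hv => (h v hv).2.2.2

variable {c0 c1 c2 c3 c4 s : MvPolynomial (Fin 3) ℂ} {l1 : ℂ}

theorem g1_3 (hc1 : ZW 2 1 1 3 4 (c1 - X 0 ^ 2)) (hc2 : ZW 2 1 0 1 1 c2) (hc3 : ZW 2 1 0 1 1 c3)
    (hc4 : ZW 2 1 0 0 0 c4) (hs : ZW 2 1 1 2 3 s) :
    ZW 2 1 1 3 4 (G1 c1 c2 c3 c4 s - X 0 ^ 2) := by
  have e1 : G1 c1 c2 c3 c4 s - X 0 ^ 2 = (c1 - X 0 ^ 2) - C 2 * (c2 * s) +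
      C 3 * (c3 * (s * s)) - C 4 * (c4 * (s * (s * s))) := by
    unfold G1
    ring
  rw [e1]
  refine ZW.sub (ZW.add (ZW.sub hc1 ?_) ?_) ?_
  · exact ((ZW.c 2).mul (hc2.mul hs)).mono (by omega) (by omega) (by omega)
  · exact ((ZW.c 3).mul (hc3.mul (hs.mul hs))).mono (by omega) (by omega) (by omega)
  · exact ((ZW.c 4).mul (hc4.mul (hs.mul (hs.mul hs)))).mono (by omega) (by omega) (by omega)

theorem g2_3 (hc2 : ZW 2 1 0 1 1 c2) (hc3 : ZW 2 1 0 1 1 c3)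
    (hc4 : ZW 2 1 0 0 0 c4) (hs : ZW 2 1 1 2 3 s) : ZW 2 1 0 1 1 (G2 c2 c3 c4 s) := by
  refine ZW.add (ZW.sub hc2 ?_) ?_
  · exact ((ZW.c 3).mul (hc3.mul hs)).mono (by omega) (by omega) (by omega)
  · exact ((ZW.c 6).mul (hc4.mul (hs.mul hs))).mono (by omega) (by omega) (by omega)

theorem g3_3 (hc3 : ZW 2 1 0 1 1 c3)
    (hc4 : ZW 2 1 0 0 0 c4) (hs : ZW 2 1 1 2 3 s) : ZW 2 1 0 1 1 (G3 c3 c4 s) := by
  refine ZW.sub hc3 ?_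
  exact ((ZW.c 4).mul (hc4.mul hs)).mono (by omega) (by omega) (by omega)

/-- On the curve, `G1` vanishes to order five. -/
theorem ps_g1 (hc1 : ∃ τ, c1 = X 0 ^ 2 + C l1 * (X 0 ^ 1 * X 1 ^ 2) + τ ∧ ZW 2 1 0 0 5 τ)
    (hc2 : ∃ τ, c2 = X 1 + τ ∧ ZW 2 1 0 0 2 τ) (hc3 : ZW 2 1 0 1 1 c3)
    (hc4 : ZW 2 1 0 0 0 c4) (hs : ZW 2 1 1 2 3 s)
    (hs' : ∃ τ, s = C l1 * (X 0 ^ 1 * X 1 ^ 1) + τ ∧ ZW 2 1 1 2 4 τ) :
    (Polynomial.X : Polynomial ℂ) ^ 5 ∣ ps l1 (G1 c1 c2 c3 c4 s) := by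
  obtain ⟨τ1, h1, z1⟩ := hc1
  obtain ⟨τ2, h2, z2⟩ := hc2
  obtain ⟨τ3, h3, z3⟩ := hs'
  have h2' : (C 2 : MvPolynomial (Fin 3) ℂ) = 2 := map_ofNat C 2
  have e : G1 c1 c2 c3 c4 s = (X 0 ^ 2 - C l1 * (X 0 * X 1 ^ 2)) +
      (τ1 - C 2 * (X 1 * τ3) - C 2 * (τ2 * s) + C 3 * (c3 * (s * s)) -
        C 4 * (c4 * (s * (s * s)))) := by
    have e1 : G1 c1 c2 c3 c4 s = c1 - C 2 * (X 1 * s) - C 2 * (τ2 * s) + C 3 * (c3 * (s * s)) -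
        C 4 * (c4 * (s * (s * s))) := by
      unfold G1
      rw [h2]
      ring
    rw [e1]
    have e2 : C 2 * (X 1 * s) = C 2 * (X 1 * (C l1 * (X 0 ^ 1 * X 1 ^ 1) + τ3)) := by rw [← h3]
    rw [e2, h1, h2']
    ring
  rw [e, map_add]
  have e3 : ps l1 (X 0 ^ 2 - C l1 * (X 0 * X 1 ^ 2)) = 0 := by
    rw [map_sub, map_pow, map_mul, map_mul, map_pow, ps_x, ps_y, ps_C]
    ring
  rw [e3, zero_add]
  refine ZW.ps_dvd (a' := 0) (n := 0) l1 ?_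
  refine ZW.sub (ZW.add (ZW.sub (ZW.sub z1 ?_) ?_) ?_) ?_
  · exact ((ZW.c 2).mul (ZW.y1.mul z3)).mono (by omega) (by omega) (by omega)
  · exact ((ZW.c 2).mul (z2.mul hs)).mono (by omega) (by omega) (by omega)
  · exact ((ZW.c 3).mul (hc3.mul (hs.mul hs))).mono (by omega) (by omega) (by omega)
  · exact ((ZW.c 4).mul (hc4.mul (hs.mul (hs.mul hs)))).mono (by omega) (by omega) (by omega)

/-- One step: removal of the multiples of `x^3`. -/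
theorem step3 (hc1 : ZW 2 1 1 3 4 (c1 - X 0 ^ 2))
    (hc1' : ∃ τ, c1 = X 0 ^ 2 + C l1 * (X 0 ^ 1 * X 1 ^ 2) + τ ∧ ZW 2 1 0 0 5 τ)
    (hc2 : ZW 2 1 0 1 1 c2) (hc2' : ∃ τ, c2 = X 1 + τ ∧ ZW 2 1 0 0 2 τ)
    (hc3 : ZW 2 1 0 1 1 c3) (hc4 : ZW 2 1 0 0 0 c4) {N m : ℕ} (hN : 5 ≤ N) (hm : 8 ≤ m)
    (hs : ZW 2 1 1 2 3 s) (hs' : ∃ τ, s = C l1 * (X 0 ^ 1 * X 1 ^ 1) + τ ∧ ZW 2 1 1 2 4 τ)
    {P Q : MvPolynomial (Fin 3) ℂ} (hH : Hs c0 c1 c2 c3 c4 s = P + Q) (hQ : ZW 2 1 2 N m Q) :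
    ∃ g R Q' : MvPolynomial (Fin 3) ℂ, ZW 2 1 1 (N - 2) (m - 4) g ∧ ZW 2 1 2 N m R ∧
      (∀ v ∈ R.support, v 0 < 3) ∧ ZW 2 1 2 (N + 1) m Q' ∧
        Hs c0 c1 c2 c3 c4 (s + g) = P + R + Q' ∧
        (Polynomial.X : Polynomial ℂ) ^ (m + 1) ∣
          ps l1 (Hs c0 c1 c2 c3 c4 (s + g)) - ps l1 (Hs c0 c1 c2 c3 c4 s) := by
  obtain ⟨g0, R, h1, h2, h3, h4⟩ := hQ.div 3
  obtain ⟨g, hg⟩ : ∃ g : MvPolynomial (Fin 3) ℂ, g = X 0 * g0 := ⟨_, rfl⟩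
  have zg : ZW 2 1 1 (N - 2) (m - 4) g := by
    rw [hg]
    refine (ZW.x1.mul h2).mono (by omega) ?_ ?_
    · omega
    · omega
  have hG1 := g1_3 hc1 hc2 hc3 hc4 hs
  have hG2 := g2_3 hc2 hc3 hc4 hs
  have hG3 := g3_3 hc3 hc4 hs
  have hp1 := ps_g1 hc1' hc2' hc3 hc4 hs hs'
  refine ⟨g, R, -(g * (G1 c1 c2 c3 c4 s - X 0 ^ 2)) + g * (g * G2 c2 c3 c4 s) -
    g * (g * (g * G3 c3 c4 s)) + c4 * (g * (g * (g * g))), zg, h3, h4, ?_, ?_, ?_⟩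
  · refine ZW.add (ZW.sub (ZW.add (ZW.neg ?_) ?_) ?_) ?_
    · exact (zg.mul hG1).mono (by omega) (by omega) (by omega)
    · exact (zg.mul (zg.mul hG2)).mono (by omega) (by omega) (by omega)
    · exact (zg.mul (zg.mul (zg.mul hG3))).mono (by omega) (by omega) (by omega)
    · exact (hc4.mul (zg.mul (zg.mul (zg.mul zg)))).mono (by omega) (by omega) (by omega)
  · rw [Hs_add, hH, h1, hg]
    ring
  · have e : ps l1 (Hs c0 c1 c2 c3 c4 (s + g)) - ps l1 (Hs c0 c1 c2 c3 c4 s) =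
        -(ps l1 g * ps l1 (G1 c1 c2 c3 c4 s)) + ps l1 (g * (g * G2 c2 c3 c4 s) -
          g * (g * (g * G3 c3 c4 s)) + c4 * (g * (g * (g * g)))) := by
      rw [Hs_add]
      simp only [map_add, map_sub, map_mul]
      ring
    rw [e]
    refine dvd_add ?_ ?_
    · rw [dvd_neg]
      have h5 := mul_dvd_mul (zg.ps_dvd l1) hp1
      rw [← pow_add] at h5
      exact (pow_dvd_pow _ (by omega)).trans h5
    · refine ZW.ps_dvd (a' := 0) (n := 0) l1 ?_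
      refine ZW.add (ZW.sub ?_ ?_) ?_
      · exact (zg.mul (zg.mul hG2)).mono (by omega) (by omega) (by omega)
      · exact (zg.mul (zg.mul (zg.mul hG3))).mono (by omega) (by omega) (by omega)
      · exact (hc4.mul (zg.mul (zg.mul (zg.mul zg)))).mono (by omega) (by omega) (by omega)

theorem lp3 (hc1 : ZW 2 1 1 3 4 (c1 - X 0 ^ 2))
    (hc1' : ∃ τ, c1 = X 0 ^ 2 + C l1 * (X 0 ^ 1 * X 1 ^ 2) + τ ∧ ZW 2 1 0 0 5 τ)
    (hc2 : ZW 2 1 0 1 1 c2) (hc2' : ∃ τ, c2 = X 1 + τ ∧ ZW 2 1 0 0 2 τ)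
    (hc3 : ZW 2 1 0 1 1 c3) (hc4 : ZW 2 1 0 0 0 c4) {m : ℕ} (hm : 8 ≤ m)
    (hs : ZW 2 1 1 2 3 s) (hs' : ∃ τ, s = C l1 * (X 0 ^ 1 * X 1 ^ 1) + τ ∧ ZW 2 1 1 2 4 τ)
    (hQ : ZW 2 1 2 5 m (Hs c0 c1 c2 c3 c4 s)) :
    ∀ N, 5 ≤ N → ∃ s' R Q' : MvPolynomial (Fin 3) ℂ, ZW 2 1 1 3 4 (s' - s) ∧ ZW 2 1 2 0 m R ∧
      (∀ v ∈ R.support, v 0 < 3) ∧ ZW 2 1 2 N m Q' ∧
        Hs c0 c1 c2 c3 c4 s' = R + Q' ∧
        (Polynomial.X : Polynomial ℂ) ^ (m + 1) ∣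
          ps l1 (Hs c0 c1 c2 c3 c4 s') - ps l1 (Hs c0 c1 c2 c3 c4 s) := by
  intro N hN
  induction N, hN using Nat.le_induction with
  | base =>
    exact ⟨s, 0, Hs c0 c1 c2 c3 c4 s, by rw [sub_self]; exact ZW.zero, ZW.zero, by simp, hQ,
      by ring, by rw [sub_self]; exact dvd_zero _⟩
  | succ N hN ih =>
    obtain ⟨s', R, Q', h1, h2, h3, h4, h5, h6⟩ := ih
    have hs1 : ZW 2 1 1 2 3 s' := by
      have := (h1.mono (le_refl _) (by omega : 2 ≤ 3) (by omega : 3 ≤ 4)).add hs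
      rwa [sub_add_cancel] at this
    have hs2 : ∃ τ, s' = C l1 * (X 0 ^ 1 * X 1 ^ 1) + τ ∧ ZW 2 1 1 2 4 τ := by
      obtain ⟨τ, t1, t2⟩ := hs'
      refine ⟨(s' - s) + τ, ?_, (h1.mono (le_refl _) (by omega) (le_refl _)).add t2⟩
      have : s' = (s' - s) + s := by ring
      rw [this]
      nth_rewrite 3 [t1]
      ring
    obtain ⟨g, R', Q'', e1, e2, e3, e4, e5, e6⟩ := step3 hc1 hc1' hc2 hc2' hc3 hc4 hN hm hs1 hs2
      h5 h4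
    refine ⟨s' + g, R + R', Q'', ?_, h2.add (e2.mono (le_refl _) (Nat.zero_le _) (le_refl _)), ?_,
      e4, e5, ?_⟩
    · have h7 : s' + g - s = (s' - s) + g := by ring
      rw [h7]
      exact h1.add (e1.mono (le_refl _) (by omega) (by omega))
    · classical
      intro v hv
      rcases Finset.mem_union.1 (support_add hv) with h7 | h7
      · exact h3 v h7
      · exact e3 v h7
    · have h7 := dvd_add e6 h6
      rwa [sub_add_sub_cancel] at h7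

/-- The multiples of `x^3` except `x^12` are removed up to degree `12`. -/
theorem kill3 (hc1 : ZW 2 1 1 3 4 (c1 - X 0 ^ 2))
    (hc1' : ∃ τ, c1 = X 0 ^ 2 + C l1 * (X 0 ^ 1 * X 1 ^ 2) + τ ∧ ZW 2 1 0 0 5 τ)
    (hc2 : ZW 2 1 0 1 1 c2) (hc2' : ∃ τ, c2 = X 1 + τ ∧ ZW 2 1 0 0 2 τ)
    (hc3 : ZW 2 1 0 1 1 c3) (hc4 : ZW 2 1 0 0 0 c4) {m : ℕ} (hm : 8 ≤ m) (hm' : m ≤ 12)
    (hl : l1 ≠ 0) (hs : ZW 2 1 1 2 3 s)
    (hs' : ∃ τ, s = C l1 * (X 0 ^ 1 * X 1 ^ 1) + τ ∧ ZW 2 1 1 2 4 τ)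
    (hQ : ZW 2 1 2 5 m (Hs c0 c1 c2 c3 c4 s)) {κ : ℂ} (hκ : κ ≠ 0)
    (hps : (Polynomial.X : Polynomial ℂ) ^ (m + 1) ∣
      ps l1 (Hs c0 c1 c2 c3 c4 s) - Polynomial.C κ * Polynomial.X ^ m) :
    ∃ (s' R : MvPolynomial (Fin 3) ℂ) (c : ℂ), c ≠ 0 ∧ ZW 2 1 1 3 4 (s' - s) ∧
      Hs c0 c1 c2 c3 c4 s' = C c * (X 0 ^ 2 * X 1 ^ (m - 4)) + X 0 ^ 12 + R ∧
      ∀ v ∈ R.support, v 2 = 0 ∧ ((v 0 = 2 ∧ m - 4 < v 1) ∨ (3 ≤ v 0 ∧ 13 ≤ v 0 + v 1)) := by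
  classical
  obtain ⟨s', R, Q', h1, h2, h3, h4, h5, h6⟩ := lp3 hc1 hc1' hc2 hc2' hc3 hc4 hm hs hs' hQ 12
    (by norm_num)
  have hs1 : ZW 2 1 1 2 3 s' := by
    have := (h1.mono (le_refl _) (by omega : 2 ≤ 3) (by omega : 3 ≤ 4)).add hs
    rwa [sub_add_cancel] at this
  have hs2 : ∃ τ, s' = C l1 * (X 0 ^ 1 * X 1 ^ 1) + τ ∧ ZW 2 1 1 2 4 τ := by
    obtain ⟨τ, t1, t2⟩ := hs'
    refine ⟨(s' - s) + τ, ?_, (h1.mono (le_refl _) (by omega) (le_refl _)).add t2⟩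
    have : s' = (s' - s) + s := by ring
    rw [this]
    nth_rewrite 3 [t1]
    ring
  have hx : ZW 2 1 2 12 m (X 0 ^ 12 : MvPolynomial (Fin 3) ℂ) := by
    have := ZW.xy (a := 2) (b := 1) 12 0 1
    simp only [map_one, one_mul, pow_zero, mul_one] at this
    exact this.mono (by omega) (by omega) (by omega)
  have h7 : Hs c0 c1 c2 c3 c4 s' = (R + X 0 ^ 12) + (Q' - X 0 ^ 12) := by
    rw [h5]
    ring
  obtain ⟨g, R', Q'', e1, e2, e3, e4, e5, e6⟩ := step3 hc1 hc1' hc2 hc2' hc3 hc4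
    (by norm_num : 5 ≤ 12) hm hs1 hs2 h7 (h4.sub hx)
  obtain ⟨v0, hv0⟩ : ∃ v : Fin 3 →₀ ℕ, v = Finsupp.single 0 2 + Finsupp.single 1 (m - 4) :=
    ⟨_, rfl⟩
  obtain ⟨A, hA⟩ : ∃ A : MvPolynomial (Fin 3) ℂ, A = R + R' + Q'' := ⟨_, rfl⟩
  obtain ⟨c, hc⟩ : ∃ c : ℂ, c = coeff v0 A := ⟨_, rfl⟩
  have hmon : C c * (X 0 ^ 2 * X 1 ^ (m - 4)) = monomial v0 c := by
    rw [X_pow_eq_monomial, X_pow_eq_monomial, monomial_mul, C_mul_monomial, one_mul, mul_one, hv0]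
  have hAs : ∀ v ∈ (A - monomial v0 c).support,
      v 2 = 0 ∧ ((v 0 = 2 ∧ m - 4 < v 1) ∨ (3 ≤ v 0 ∧ 13 ≤ v 0 + v 1)) := by
    intro v hv
    have hvv : v ≠ v0 := by
      rintro rfl
      rw [mem_support_iff, coeff_sub, coeff_monomial, if_pos rfl, hc, sub_self] at hv
      exact hv rfl
    have hvA : v ∈ A.support := by
      rw [mem_support_iff, coeff_sub, coeff_monomial, if_neg (Ne.symm hvv), sub_zero] at hv
      exact mem_support_iff.2 hv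
    have key : v 2 = 0 ∧ 2 ≤ v 0 ∧ m ≤ 2 * v 0 + 1 * v 1 ∧ (v 0 < 3 ∨ 13 ≤ v 0 + v 1) := by
      rw [hA] at hvA
      rcases Finset.mem_union.1 (support_add hvA) with h8 | h8
      · rcases Finset.mem_union.1 (support_add h8) with h9 | h9
        · obtain ⟨q1, q2, q3, q4⟩ := h2 v h9
          exact ⟨q1, q2, q4, Or.inl (h3 v h9)⟩
        · obtain ⟨q1, q2, q3, q4⟩ := e2 v h9
          exact ⟨q1, q2, q4, Or.inl (e3 v h9)⟩
      · obtain ⟨q1, q2, q3, q4⟩ := e4 v h8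
        exact ⟨q1, q2, q4, Or.inr q3⟩
    obtain ⟨q1, q2, q3, q4⟩ := key
    refine ⟨q1, ?_⟩
    by_cases hv3 : v 0 = 2
    · refine Or.inl ⟨hv3, ?_⟩
      have h10 : m - 4 ≤ v 1 := by omega
      rcases h10.lt_or_eq with h11 | h11
      · exact h11
      · exfalso
        apply hvv
        rw [hv0]
        ext i
        fin_cases i
        · simpa using hv3
        · simpa using h11.symm
        · simpa using q1
    · refine Or.inr ⟨by omega, ?_⟩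
      rcases q4 with q4 | q4
      · omega
      · exact q4
  have hfin : Hs c0 c1 c2 c3 c4 (s' + g) = C c * (X 0 ^ 2 * X 1 ^ (m - 4)) + X 0 ^ 12 +
      (A - monomial v0 c) := by
    rw [e5, hmon, hA]
    ring
  refine ⟨s' + g, A - monomial v0 c, c, ?_, ?_, hfin, hAs⟩
  · -- the leading coefficient
    rintro hc0
    have d1 : (Polynomial.X : Polynomial ℂ) ^ (m + 1) ∣ ps l1 (Hs c0 c1 c2 c3 c4 (s' + g)) -
        Polynomial.C κ * Polynomial.X ^ m := by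
      have h8 := dvd_add (dvd_add e6 h6) hps
      have h9 : ps l1 (Hs c0 c1 c2 c3 c4 (s' + g)) - ps l1 (Hs c0 c1 c2 c3 c4 s') +
          (ps l1 (Hs c0 c1 c2 c3 c4 s') - ps l1 (Hs c0 c1 c2 c3 c4 s)) +
          (ps l1 (Hs c0 c1 c2 c3 c4 s) - Polynomial.C κ * Polynomial.X ^ m) =
          ps l1 (Hs c0 c1 c2 c3 c4 (s' + g)) - Polynomial.C κ * Polynomial.X ^ m := by ring
      rwa [h9] at h8
    have d2 : (Polynomial.X : Polynomial ℂ) ^ (m + 1) ∣ ps l1 (Hs c0 c1 c2 c3 c4 (s' + g)) := by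
      rw [hfin, hc0, C_0, zero_mul, zero_add]
      refine SZ.ps_dvd l1 fun v hv => ?_
      rcases Finset.mem_union.1 (support_add hv) with h8 | h8
      · rw [support_X_pow, Finset.mem_singleton] at h8
        rw [h8]
        simp
        omega
      · rw [← hc0] at h8
        obtain ⟨-, h9⟩ := hAs v h8
        rcases h9 with ⟨h9, h10⟩ | ⟨h9, h10⟩
        · omega
        · omega
    have d3 := dvd_sub d2 d1
    rw [sub_sub_cancel] at d3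
    have d4 : (Polynomial.C κ * Polynomial.X ^ m : Polynomial ℂ).coeff m = 0 := by
      rw [Polynomial.X_pow_dvd_iff] at d3
      exact d3 m (Nat.lt_succ_self m)
    rw [Polynomial.coeff_C_mul_X_pow, if_pos rfl] at d4
    exact hκ d4
  · have h8 : s' + g - s = (s' - s) + g := by ring
    rw [h8]
    exact h1.add (e1.mono (le_refl _) (by omega) (by omega))

end SZ

end QV

end MPb07157
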