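import Pool.Agent.Lib.MP_b07157_agQV.ST4

/-!
# Conic and tangent line: the leading term, weights `(3, 2)`
-/

noncomputable section

namespace MPb07157

open MvPolynomial

namespace QV

namespace SZ

/-- The coefficients of `z (x^2 + y z) + q_4` as polynomials in `z`, types C and D. -/
def k0 (d l1 k : ℂ) : MvPolynomial (Fin 3) ℂ :=
  C d * (X 0 ^ 2 * X 1 ^ 2) + C l1 * (X 0 ^ 3 * X 1 ^ 1) + C k * (X 0 ^ 4 * X 1 ^ 0)

def k1 (b3 a2 e1 l0 : ℂ) : MvPolynomial (Fin 3) ℂ :=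
  X 0 ^ 2 + (C b3 * (X 0 ^ 0 * X 1 ^ 3) + C a2 * (X 0 ^ 1 * X 1 ^ 2) + C e1 * (X 0 ^ 2 * X 1 ^ 1) +
    C l0 * (X 0 ^ 3 * X 1 ^ 0))

def k2 (b2 a1 e0 : ℂ) : MvPolynomial (Fin 3) ℂ :=
  X 1 + (C b2 * (X 0 ^ 0 * X 1 ^ 2) + C a1 * (X 0 ^ 1 * X 1 ^ 1) + C e0 * (X 0 ^ 2 * X 1 ^ 0))

def k3 (b1 a0 : ℂ) : MvPolynomial (Fin 3) ℂ := C b1 * X 1 + C a0 * X 0

variable {d a0 a1 a2 b0 b1 b2 e0 e1 l0 l1 k : ℂ}

def rr (d l1 k : ℂ) : MvPolynomial (Fin 3) ℂ :=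
  C d * (X 0 ^ 0 * X 1 ^ 2) + C l1 * (X 0 ^ 1 * X 1 ^ 1) + C k * (X 0 ^ 2 * X 1 ^ 0)

def uu (e1 l0 k : ℂ) : MvPolynomial (Fin 3) ℂ := C l0 * X 0 + C (e1 - k) * X 1

theorem Hs_eq (s : MvPolynomial (Fin 3) ℂ) :
    Hs (k0 d l1 k) (k1 d a2 e1 l0) (k2 b2 a1 e0) (k3 b1 a0) (C b0) s =
      (X 0 ^ 2 - X 1 * s) * (Ts (rr d l1 k) (uu e1 l0 k) e0 s - s) -
        C (a2 - l1) * (X 0 ^ 1 * X 1 ^ 2) * s + C (b2 - e1 + k) * (X 0 ^ 0 * X 1 ^ 2) * s ^ 2 +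
        C (a1 - l0) * (X 0 ^ 1 * X 1 ^ 1) * s ^ 2 - C (b1 - e0) * (X 0 ^ 0 * X 1 ^ 1) * s ^ 3 -
        C a0 * (X 0 ^ 1 * X 1 ^ 0) * s ^ 3 + C b0 * s ^ 4 := by
  unfold Hs Ts rr uu k0 k1 k2 k3
  simp only [map_sub, map_add]
  ring

theorem zw_r : ZW 3 2 0 2 4 (rr d l1 k) := by
  refine ZW.add (ZW.add ?_ ?_) ?_
  · exact (ZW.xy 0 2 d).mono (by omega) (by omega) (by omega)
  · exact (ZW.xy 1 1 l1).mono (by omega) (by omega) (by omega)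
  · exact (ZW.xy 2 0 k).mono (by omega) (by omega) (by omega)

theorem zw_u : ZW 3 2 0 1 2 (uu e1 l0 k) := by
  refine ZW.add ?_ ?_
  · exact (ZW.x l0).mono (by omega) (by omega) (by omega)
  · exact (ZW.y _).mono (by omega) (by omega) (by omega)

/-- The start: an approximate solution, and the leading term. -/
theorem start4 (hd : d ≠ 0) (hR : ¬ (a2 - l1 = 0 ∧ b2 - e1 + k = 0 ∧ a1 - l0 = 0 ∧ b1 - e0 = 0 ∧
    a0 = 0 ∧ b0 = 0)) :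
    ∃ (s Q : MvPolynomial (Fin 3) ℂ) (c : ℂ) (i j : ℕ), ZW 3 2 0 2 4 s ∧
      ZW 3 2 0 3 6 (s - rr d l1 k) ∧ c ≠ 0 ∧
      ((i = 1 ∧ 4 ≤ j ∧ j ≤ 6) ∨ (i = 0 ∧ 6 ≤ j ∧ j ≤ 8)) ∧
      Hs (k0 d l1 k) (k1 d a2 e1 l0) (k2 b2 a1 e0) (k3 b1 a0) (C b0) s =
        C c * (X 0 ^ i * X 1 ^ j) + Q ∧ ZW 3 2 0 5 (3 * i + 2 * j + 1) Q := by
  obtain ⟨s, h1, h2, h3⟩ := exists_fix (a := 3) (b := 2) (m := 4) (i := 0) (t := e0)
    (by norm_num) (by norm_num) (zw_r (d := d) (l1 := l1) (k := k))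
    (zw_u (e1 := e1) (l0 := l0) (k := k)) (by norm_num) 6 (by norm_num)
  set τ : MvPolynomial (Fin 3) ℂ := s - C d * (X 0 ^ 0 * X 1 ^ 2) with hτ
  have hst : s = C d * (X 0 ^ 0 * X 1 ^ 2) + τ := by rw [hτ]; ring
  have t1 : ZW 3 2 0 2 5 τ := by
    have e : τ = (s - rr d l1 k) + (C l1 * (X 0 ^ 1 * X 1 ^ 1) + C k * (X 0 ^ 2 * X 1 ^ 0)) := by
      rw [hτ]
      unfold rr
      ring
    rw [e]
    refine ZW.add (h2.mono (by omega) (by omega) (by omega)) (ZW.add ?_ ?_)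
    · exact (ZW.xy 1 1 l1).mono (by omega) (by omega) (by omega)
    · exact (ZW.xy 2 0 k).mono (by omega) (by omega) (by omega)
  have hy2 : ZW 3 2 0 2 4 (C d * (X 0 ^ 0 * X 1 ^ 2)) :=
    (ZW.xy 0 2 d).mono (by omega) (by omega) (by omega)
  have s2 : ∃ τ2, s ^ 2 = C (d ^ 2) * (X 0 ^ 0 * X 1 ^ 4) + τ2 ∧ ZW 3 2 0 4 9 τ2 := by
    refine ⟨C d * (X 0 ^ 0 * X 1 ^ 2) * τ + s * τ, ?_, ZW.add ?_ ?_⟩
    · rw [hst, map_pow]
      ring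
    · exact (hy2.mul t1).mono (by omega) (by omega) (by omega)
    · exact (h1.mul t1).mono (by omega) (by omega) (by omega)
  obtain ⟨τ2, s2, t2⟩ := s2
  have hy4 : ZW 3 2 0 4 8 (C (d ^ 2) * (X 0 ^ 0 * X 1 ^ 4)) :=
    (ZW.xy 0 4 _).mono (by omega) (by omega) (by omega)
  have s3 : ∃ τ3, s ^ 3 = C (d ^ 3) * (X 0 ^ 0 * X 1 ^ 6) + τ3 ∧ ZW 3 2 0 6 13 τ3 := by
    refine ⟨C (d ^ 2) * (X 0 ^ 0 * X 1 ^ 4) * τ + s * τ2, ?_, ZW.add ?_ ?_⟩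
    · have e : s ^ 3 = s ^ 2 * (C d * (X 0 ^ 0 * X 1 ^ 2) + τ) := by rw [← hst]; ring
      rw [e]
      have e2 : s * τ2 = (C d * (X 0 ^ 0 * X 1 ^ 2) + τ) * τ2 := by rw [← hst]
      rw [e2, s2]
      simp only [map_pow]
      ring
    · exact (hy4.mul t1).mono (by omega) (by omega) (by omega)
    · exact (h1.mul t2).mono (by omega) (by omega) (by omega)
  obtain ⟨τ3, s3, t3⟩ := s3
  have hy6 : ZW 3 2 0 6 12 (C (d ^ 3) * (X 0 ^ 0 * X 1 ^ 6)) :=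
    (ZW.xy 0 6 _).mono (by omega) (by omega) (by omega)
  have s4 : ∃ τ4, s ^ 4 = C (d ^ 4) * (X 0 ^ 0 * X 1 ^ 8) + τ4 ∧ ZW 3 2 0 8 17 τ4 := by
    refine ⟨C (d ^ 3) * (X 0 ^ 0 * X 1 ^ 6) * τ + s * τ3, ?_, ZW.add ?_ ?_⟩
    · have e : s ^ 4 = s ^ 3 * (C d * (X 0 ^ 0 * X 1 ^ 2) + τ) := by rw [← hst]; ring
      rw [e]
      have e2 : s * τ3 = (C d * (X 0 ^ 0 * X 1 ^ 2) + τ) * τ3 := by rw [← hst]
      rw [e2, s3]
      simp only [map_pow]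
      ring
    · exact (hy6.mul t1).mono (by omega) (by omega) (by omega)
    · exact (h1.mul t3).mono (by omega) (by omega) (by omega)
  obtain ⟨τ4, s4, t4⟩ := s4
  have z2 : ZW 3 2 0 4 8 (s ^ 2) := by
    rw [pow_two]
    exact h1.mul h1
  have z3 : ZW 3 2 0 6 12 (s ^ 3) := by
    rw [pow_succ]
    exact z2.mul h1
  have z4 : ZW 3 2 0 8 16 (s ^ 4) := by
    rw [pow_succ]
    exact z3.mul h1
  set E : MvPolynomial (Fin 3) ℂ :=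
    (X 0 ^ 2 - X 1 * s) * (Ts (rr d l1 k) (uu e1 l0 k) e0 s - s) with hE
  have zE : ZW 3 2 0 8 18 E := by
    have hxx : ZW 3 2 0 2 6 (X 0 ^ 2 - X 1 * s : MvPolynomial (Fin 3) ℂ) := by
      refine ZW.sub ?_ ((ZW.y1.mul h1).mono (by omega) (by omega) (by omega))
      rw [pow_two]
      exact (ZW.x1.mul ZW.x1).mono (by omega) (by omega) (by omega)
    exact (hxx.mul h3).mono (by omega) (by omega) (by omega)
  have hH := Hs_eq (d := d) (a0 := a0) (a1 := a1) (a2 := a2) (b0 := b0) (b1 := b1) (b2 := b2)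
    (e0 := e0) (e1 := e1) (l0 := l0) (l1 := l1) (k := k) s
  rw [← hE] at hH
  have pB : ∀ c : ℂ, ZW 3 2 0 6 12 (C c * (X 0 ^ 0 * X 1 ^ 2) * s ^ 2) := fun c =>
    ((ZW.xy 0 2 c).mul z2).mono (by omega) (by omega) (by omega)
  have pA1 : ∀ c : ℂ, ZW 3 2 0 6 13 (C c * (X 0 ^ 1 * X 1 ^ 1) * s ^ 2) := fun c =>
    ((ZW.xy 1 1 c).mul z2).mono (by omega) (by omega) (by omega)
  have pB1 : ∀ c : ℂ, ZW 3 2 0 7 14 (C c * (X 0 ^ 0 * X 1 ^ 1) * s ^ 3) := fun c =>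
    ((ZW.xy 0 1 c).mul z3).mono (by omega) (by omega) (by omega)
  have pa0 : ∀ c : ℂ, ZW 3 2 0 7 15 (C c * (X 0 ^ 1 * X 1 ^ 0) * s ^ 3) := fun c =>
    ((ZW.xy 1 0 c).mul z3).mono (by omega) (by omega) (by omega)
  have pb0 : ∀ c : ℂ, ZW 3 2 0 8 16 (C c * s ^ 4) := fun c =>
    ((ZW.c c).mul z4).mono (by omega) (by omega) (by omega)
  by_cases hA : a2 - l1 = 0
  swap
  · refine ⟨s, E - C (a2 - l1) * (X 0 ^ 1 * X 1 ^ 2) * τ +
      C (b2 - e1 + k) * (X 0 ^ 0 * X 1 ^ 2) * s ^ 2 +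
      C (a1 - l0) * (X 0 ^ 1 * X 1 ^ 1) * s ^ 2 - C (b1 - e0) * (X 0 ^ 0 * X 1 ^ 1) * s ^ 3 -
      C a0 * (X 0 ^ 1 * X 1 ^ 0) * s ^ 3 + C b0 * s ^ 4, -((a2 - l1) * d), 1, 4, h1,
      h2.mono (by omega) (by omega) (by omega),
      neg_ne_zero.2 (mul_ne_zero hA hd), Or.inl ⟨rfl, by norm_num, by norm_num⟩, ?_, ?_⟩
    · rw [hH]
      have e : C (a2 - l1) * (X 0 ^ 1 * X 1 ^ 2) * s = C (a2 - l1) * (X 0 ^ 1 * X 1 ^ 2) *
          (C d * (X 0 ^ 0 * X 1 ^ 2) + τ) := by rw [← hst]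
      rw [e]
      simp only [map_neg, map_mul]
      ring
    · refine ZW.add (ZW.sub (ZW.sub (ZW.add (ZW.add (ZW.sub ?_ ?_) ?_) ?_) ?_) ?_) ?_
      · exact zE.mono (by omega) (by omega) (by omega)
      · exact ((ZW.xy 1 2 _).mul t1).mono (by omega) (by omega) (by omega)
      · exact (pB _).mono (by omega) (by omega) (by omega)
      · exact (pA1 _).mono (by omega) (by omega) (by omega)
      · exact (pB1 _).mono (by omega) (by omega) (by omega)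
      · exact (pa0 _).mono (by omega) (by omega) (by omega)
      · exact (pb0 _).mono (by omega) (by omega) (by omega)
  rw [hA] at hH
  by_cases hB : b2 - e1 + k = 0
  swap
  · refine ⟨s, E + C (b2 - e1 + k) * (X 0 ^ 0 * X 1 ^ 2) * τ2 +
      C (a1 - l0) * (X 0 ^ 1 * X 1 ^ 1) * s ^ 2 - C (b1 - e0) * (X 0 ^ 0 * X 1 ^ 1) * s ^ 3 -
      C a0 * (X 0 ^ 1 * X 1 ^ 0) * s ^ 3 + C b0 * s ^ 4, (b2 - e1 + k) * d ^ 2, 0, 6, h1,
      h2.mono (by omega) (by omega) (by omega),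
      mul_ne_zero hB (pow_ne_zero _ hd), Or.inr ⟨rfl, by norm_num, by norm_num⟩, ?_, ?_⟩
    · rw [hH]
      have e : C (b2 - e1 + k) * (X 0 ^ 0 * X 1 ^ 2) * s ^ 2 = C (b2 - e1 + k) * (X 0 ^ 0 * X 1 ^ 2) *
          (C (d ^ 2) * (X 0 ^ 0 * X 1 ^ 4) + τ2) := by rw [← s2]
      rw [e]
      simp only [map_zero, map_mul]
      ring
    · refine ZW.add (ZW.sub (ZW.sub (ZW.add (ZW.add ?_ ?_) ?_) ?_) ?_) ?_
      · exact zE.mono (by omega) (by omega) (by omega)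
      · exact ((ZW.xy 0 2 _).mul t2).mono (by omega) (by omega) (by omega)
      · exact (pA1 _).mono (by omega) (by omega) (by omega)
      · exact (pB1 _).mono (by omega) (by omega) (by omega)
      · exact (pa0 _).mono (by omega) (by omega) (by omega)
      · exact (pb0 _).mono (by omega) (by omega) (by omega)
  rw [hB] at hH
  by_cases hA1 : a1 - l0 = 0
  swap
  · refine ⟨s, E + C (a1 - l0) * (X 0 ^ 1 * X 1 ^ 1) * τ2 -
      C (b1 - e0) * (X 0 ^ 0 * X 1 ^ 1) * s ^ 3 -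
      C a0 * (X 0 ^ 1 * X 1 ^ 0) * s ^ 3 + C b0 * s ^ 4, (a1 - l0) * d ^ 2, 1, 5, h1,
      h2.mono (by omega) (by omega) (by omega),
      mul_ne_zero hA1 (pow_ne_zero _ hd), Or.inl ⟨rfl, by norm_num, by norm_num⟩, ?_, ?_⟩
    · rw [hH]
      have e : C (a1 - l0) * (X 0 ^ 1 * X 1 ^ 1) * s ^ 2 = C (a1 - l0) * (X 0 ^ 1 * X 1 ^ 1) *
          (C (d ^ 2) * (X 0 ^ 0 * X 1 ^ 4) + τ2) := by rw [← s2]
      rw [e]
      simp only [map_zero, map_mul]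
      ring
    · refine ZW.add (ZW.sub (ZW.sub (ZW.add ?_ ?_) ?_) ?_) ?_
      · exact zE.mono (by omega) (by omega) (by omega)
      · exact ((ZW.xy 1 1 _).mul t2).mono (by omega) (by omega) (by omega)
      · exact (pB1 _).mono (by omega) (by omega) (by omega)
      · exact (pa0 _).mono (by omega) (by omega) (by omega)
      · exact (pb0 _).mono (by omega) (by omega) (by omega)
  rw [hA1] at hH
  by_cases hB1 : b1 - e0 = 0
  swap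
  · refine ⟨s, E - C (b1 - e0) * (X 0 ^ 0 * X 1 ^ 1) * τ3 -
      C a0 * (X 0 ^ 1 * X 1 ^ 0) * s ^ 3 + C b0 * s ^ 4, -((b1 - e0) * d ^ 3), 0, 7, h1,
      h2.mono (by omega) (by omega) (by omega),
      neg_ne_zero.2 (mul_ne_zero hB1 (pow_ne_zero _ hd)), Or.inr ⟨rfl, by norm_num, by norm_num⟩,
      ?_, ?_⟩
    · rw [hH]
      have e : C (b1 - e0) * (X 0 ^ 0 * X 1 ^ 1) * s ^ 3 = C (b1 - e0) * (X 0 ^ 0 * X 1 ^ 1) *
          (C (d ^ 3) * (X 0 ^ 0 * X 1 ^ 6) + τ3) := by rw [← s3]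
      rw [e]
      simp only [map_zero, map_neg, map_mul]
      ring
    · refine ZW.add (ZW.sub (ZW.sub ?_ ?_) ?_) ?_
      · exact zE.mono (by omega) (by omega) (by omega)
      · exact ((ZW.xy 0 1 _).mul t3).mono (by omega) (by omega) (by omega)
      · exact (pa0 _).mono (by omega) (by omega) (by omega)
      · exact (pb0 _).mono (by omega) (by omega) (by omega)
  rw [hB1] at hH
  by_cases ha0 : a0 = 0
  swap
  · refine ⟨s, E - C a0 * (X 0 ^ 1 * X 1 ^ 0) * τ3 + C b0 * s ^ 4, -(a0 * d ^ 3), 1, 6, h1,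
      h2.mono (by omega) (by omega) (by omega),
      neg_ne_zero.2 (mul_ne_zero ha0 (pow_ne_zero _ hd)), Or.inl ⟨rfl, by norm_num, by norm_num⟩,
      ?_, ?_⟩
    · rw [hH]
      have e : C a0 * (X 0 ^ 1 * X 1 ^ 0) * s ^ 3 = C a0 * (X 0 ^ 1 * X 1 ^ 0) *
          (C (d ^ 3) * (X 0 ^ 0 * X 1 ^ 6) + τ3) := by rw [← s3]
      rw [e]
      simp only [map_zero, map_neg, map_mul]
      ring
    · refine ZW.add (ZW.sub ?_ ?_) ?_
      · exact zE.mono (by omega) (by omega) (by omega)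
      · exact ((ZW.xy 1 0 _).mul t3).mono (by omega) (by omega) (by omega)
      · exact (pb0 _).mono (by omega) (by omega) (by omega)
  have hb0 : b0 ≠ 0 := fun h => hR ⟨hA, hB, hA1, hB1, ha0, h⟩
  refine ⟨s, E + C b0 * τ4, b0 * d ^ 4, 0, 8, h1, h2.mono (by omega) (by omega) (by omega),
    mul_ne_zero hb0 (pow_ne_zero _ hd), Or.inr ⟨rfl, by norm_num, by norm_num⟩, ?_, ?_⟩
  · rw [hH, ha0, s4]
    simp only [map_zero, map_mul]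
    ring
  · refine ZW.add ?_ ?_
    · exact zE.mono (by omega) (by omega) (by omega)
    · exact ((ZW.c _).mul t4).mono (by omega) (by omega) (by omega)

end SZ

end QV

end MPb07157
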