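import Pool.Agent.Lib.MP_b07157_agQV.Chg
import Pool.Agent.Lib.MP_b07157_agQV.SDefs

/-!
# Conic and tangent line: Newton non-degeneracy after a shift of `z`, case `a_2 = l_1 ≠ 0`
-/

noncomputable section

namespace MPb07157

open MvPolynomial

namespace QV

theorem ND.add_dom {n : ℕ} {P Q : MvPolynomial (Fin n) ℂ} (hP : ND P)
    (hQ : ∀ (w : Fin n → ℕ) (m : ℕ), (∀ i, 0 < w i) → (∀ v ∈ P.support, m ≤ ∑ j, w j * v j) →
      ∀ v ∈ Q.support, m < ∑ j, w j * v j) : ND (P + Q) := by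
  classical
  obtain ⟨hP0, hP1, H⟩ := hP
  have key : ∀ w : Fin n → ℕ, (∀ i, 0 < w i) → ∃ v0 ∈ P.support,
      (∀ v ∈ P.support, ∑ j, w j * v0 j ≤ ∑ j, w j * v j) ∧ v0 ∉ Q.support ∧
        (∀ v ∈ Q.support, ∑ j, w j * v0 j < ∑ j, w j * v j) := by
    intro w hw
    obtain ⟨v0, hv0, hmin⟩ := Finset.exists_min_image P.support (fun v => ∑ j, w j * v j)
      (support_nonempty.2 hP0)
    have h1 := hQ w _ hw hmin
    exact ⟨v0, hv0, hmin, fun h => lt_irrefl _ (h1 v0 h), h1⟩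
  have hco : ∀ v, v ∈ P.support → v ∉ Q.support → v ∈ (P + Q).support := by
    intro v h1 h2
    rw [mem_support_iff, coeff_add, notMem_support_iff.1 h2, add_zero]
    exact mem_support_iff.1 h1
  refine ⟨?_, ?_, ?_⟩
  · obtain ⟨v0, h1, -, h2, -⟩ := key (fun _ => 1) (fun _ => one_pos)
    intro h
    have h3 := hco v0 h1 h2
    rw [h] at h3
    simp at h3
  · rw [coeff_add, hP1, zero_add]
    by_contra h
    have h3 := hQ (fun _ => 1) 0 (fun _ => one_pos) (fun _ _ => Nat.zero_le _) 0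
      (mem_support_iff.2 h)
    simp at h3
  · intro w m u hw hu hm hex
    obtain ⟨v0, h1, h2, h3, h4⟩ := key w hw
    obtain ⟨v, hv, hvm⟩ := hex
    have h5 := hm v0 (hco v0 h1 h3)
    have h6 : v ∈ P.support := by
      rcases Finset.mem_union.1 (support_add hv) with h | h
      · exact h
      · have := h4 v h
        omega
    have h7 := h2 v h6
    have h8 : m = ∑ j, w j * v0 j := by omega
    obtain ⟨i, hi⟩ := H w m u hw hu (fun v' hv' => by rw [h8]; exact h2 v' hv') ⟨v, h6, hvm⟩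
    refine ⟨i, ?_⟩
    rw [Lf_add]
    have h9 : Lf (ph w m u i) Q = 0 := by
      unfold Lf
      refine Finset.sum_eq_zero fun v' hv' => ?_
      have := h4 v' hv'
      unfold ph
      rw [if_neg, mul_zero]
      omega
    rw [h9, add_zero]
    exact hi

theorem nd_fam_dom {n K : ℕ} {F Q : MvPolynomial (Fin n) ℂ} (E : Fin K → Fin n → ℕ)
    (hE : Function.Injective E) (c : Fin K → ℂ)
    (hF : F = ∑ k, C (c k) * ∏ i, X i ^ E k i + Q)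
    (hc : ∃ k, c k ≠ 0) (h0 : ∀ k, E k ≠ 0)
    (hQ : ∀ (w : Fin n → ℕ) (m : ℕ), (∀ i, 0 < w i) → (∀ k, c k ≠ 0 → m ≤ ∑ i, w i * E k i) →
      ∀ v ∈ Q.support, m < ∑ j, w j * v j)
    (H : ∀ (w : Fin n → ℕ) (m : ℕ) (u : Fin n → ℂ) (T : Fin K → ℂ), (∀ i, 0 < w i) →
      (∀ i, u i ≠ 0) → (∀ k, c k ≠ 0 → m ≤ ∑ i, w i * E k i) →
      (∀ k, T k = if ∑ i, w i * E k i = m then c k * ∏ i, u i ^ E k i else 0) →
      (∃ k, T k ≠ 0) → (∀ i, ∑ k, (E k i : ℂ) * T k = 0) → False) : ND F := by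
  classical
  rw [hF]
  refine (nd_fam E hE c rfl hc h0 H).add_dom fun w m hw hm => hQ w m hw fun k hk => ?_
  refine hm (Finsupp.equivFunOnFinite.symm (E k)) (mem_support_iff.2 ?_)
  let e : Fin K → (Fin n →₀ ℕ) := fun k => Finsupp.equivFunOnFinite.symm (E k)
  have he : Function.Injective e := fun a b hab =>
    hE (Finsupp.equivFunOnFinite.symm.injective hab)
  have hmon : ∀ k, C (c k) * ∏ i, (X i : MvPolynomial (Fin n) ℂ) ^ E k i =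
      monomial (e k) (c k) := by
    intro k
    rw [monomial_eq, Finsupp.prod_fintype _ _ (fun i => pow_zero _)]
    rfl
  rw [Finset.sum_congr rfl fun k _ => hmon k, coeff_sum, Finset.sum_eq_single k]
  · show coeff (e k) (monomial (e k) (c k)) ≠ 0
    rw [coeff_monomial, if_pos rfl]
    exact hk
  · intro l _ hl
    rw [coeff_monomial, if_neg fun h => hl (he h)]
  · intro h
    exact absurd (Finset.mem_univ k) h

/-- The form of `nd_fam_dom` for three variables. -/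
theorem nd_fam_dom3 {K : ℕ} {F Q : MvPolynomial (Fin 3) ℂ} (E : Fin K → Fin 3 → ℕ)
    (hE : Function.Injective E) (c : Fin K → ℂ)
    (hF : F = ∑ k, C (c k) * (X 0 ^ E k 0 * X 1 ^ E k 1 * X 2 ^ E k 2) + Q)
    (hc : ∃ k, c k ≠ 0) (h0 : ∀ k, E k ≠ 0)
    (hQ : ∀ (p q r m : ℕ), 0 < p → 0 < q → 0 < r →
      (∀ k, c k ≠ 0 → m ≤ p * E k 0 + q * E k 1 + r * E k 2) →
      ∀ v ∈ Q.support, m < p * v 0 + q * v 1 + r * v 2)
    (H : ∀ (p q r m : ℕ) (x y z : ℂ) (T : Fin K → ℂ), 0 < p → 0 < q → 0 < r →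
      x ≠ 0 → y ≠ 0 → z ≠ 0 → (∀ k, c k ≠ 0 → m ≤ p * E k 0 + q * E k 1 + r * E k 2) →
      (∀ k, T k = 0 ∨ T k ≠ 0 ∧ c k ≠ 0 ∧ p * E k 0 + q * E k 1 + r * E k 2 = m) →
      (∃ k, T k ≠ 0) → ∑ k, (E k 0 : ℂ) * T k = 0 → ∑ k, (E k 1 : ℂ) * T k = 0 →
      ∑ k, (E k 2 : ℂ) * T k = 0 → False) : ND F := by
  refine nd_fam_dom (Q := Q) E hE c (hF.trans ?_) hc h0 (fun w m hw hm v hv => ?_)
    fun w m u T hw hu hm hT hne hs => ?_
  · congr 1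
    refine Finset.sum_congr rfl fun k _ => ?_
    rw [Fin.prod_univ_three]
  · rw [Fin.sum_univ_three]
    refine hQ (w 0) (w 1) (w 2) m (hw 0) (hw 1) (hw 2) (fun k hk => ?_) v hv
    have := hm k hk
    rwa [Fin.sum_univ_three] at this
  · refine H (w 0) (w 1) (w 2) m (u 0) (u 1) (u 2) T (hw 0) (hw 1) (hw 2) (hu 0) (hu 1) (hu 2)
      (fun k hk => ?_) (fun k => ?_) hne (hs 0) (hs 1) (hs 2)
    · have := hm k hk
      rwa [Fin.sum_univ_three] at this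
    · have h1 := hT k
      rw [Fin.sum_univ_three] at h1
      split_ifs at h1 with h2
      · by_cases h3 : T k = 0
        · exact Or.inl h3
        · refine Or.inr ⟨h3, fun h4 => h3 ?_, h2⟩
          rw [h1, h4, zero_mul]
      · exact Or.inl h1

/-- The conditions on the remaining terms. -/
def Dom3 (j : ℕ) (Q : MvPolynomial (Fin 3) ℂ) : Prop :=
  ∀ v ∈ Q.support, (v 2 = 0 ∧ v 0 = 2 ∧ j < v 1) ∨ (v 2 = 0 ∧ 3 ≤ v 0 ∧ 13 ≤ v 0 + v 1) ∨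
    (v 2 = 1 ∧ 1 ≤ v 0 ∧ 5 ≤ 2 * v 0 + v 1) ∨ (v 2 = 2 ∧ 2 ≤ v 0 + v 1) ∨
      (v 2 = 3 ∧ (1 ≤ v 1 ∨ 2 ≤ v 0))

theorem dom3_lt {j : ℕ} (hj : j ≤ 8) {p q r m a b c : ℕ} (hp : 0 < p) (hq : 0 < q)
    (hr : 0 < r) (mA : m ≤ p * 2 + q * 0 + r * 1) (mB : m ≤ p * 0 + q * 1 + r * 2)
    (mD : m ≤ p * 1 + q * 2 + r * 1) (mE : m ≤ p * 2 + q * j + r * 0)
    (mF : m ≤ p * 12 + q * 0 + r * 0)
    (h : (c = 0 ∧ a = 2 ∧ j < b) ∨ (c = 0 ∧ 3 ≤ a ∧ 13 ≤ a + b) ∨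
    (c = 1 ∧ 1 ≤ a ∧ 5 ≤ 2 * a + b) ∨ (c = 2 ∧ 2 ≤ a + b) ∨
      (c = 3 ∧ (1 ≤ b ∨ 2 ≤ a))) : m < p * a + q * b + r * c := by
  have hqj : q * j ≤ q * 8 := Nat.mul_le_mul_left _ hj
  rcases h with ⟨rfl, rfl, h⟩ | ⟨rfl, h1, h2⟩ | ⟨rfl, h1, h2⟩ | ⟨rfl, h1⟩ | ⟨rfl, h1⟩
  · have h1 : q * (j + 1) ≤ q * b := Nat.mul_le_mul_left _ h
    rw [Nat.mul_add] at h1
    omega
  · by_cases h3 : 13 ≤ a
    · have h4 : p * 13 ≤ p * a := Nat.mul_le_mul_left _ h3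
      omega
    · have h4 : q * (13 - a) ≤ q * b := Nat.mul_le_mul_left _ (by omega)
      interval_cases a <;> omega
  · by_cases h3 : 3 ≤ a
    · have h4 : p * 3 ≤ p * a := Nat.mul_le_mul_left _ h3
      omega
    · have h4 : q * (5 - 2 * a) ≤ q * b := Nat.mul_le_mul_left _ (by omega)
      interval_cases a <;> omega
  · rcases Nat.eq_zero_or_pos b with h3 | h3
    · subst h3
      have h4 : p * 2 ≤ p * a := Nat.mul_le_mul_left _ (by omega)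
      omega
    · rcases Nat.eq_zero_or_pos a with h5 | h5
      · subst h5
        have h4 : q * 2 ≤ q * b := Nat.mul_le_mul_left _ (by omega)
        omega
      · have h4 : q * 1 ≤ q * b := Nat.mul_le_mul_left _ h3
        have h6 : p * 1 ≤ p * a := Nat.mul_le_mul_left _ h5
        omega
  · rcases h1 with h1 | h1
    · have h4 : q * 1 ≤ q * b := Nat.mul_le_mul_left _ h1
      omega
    · have h4 : p * 2 ≤ p * a := Nat.mul_le_mul_left _ h1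
      omega

set_option linter.unusedVariables false
set_option linter.unusedSimpArgs false
set_option linter.unusedTactic false
set_option linter.unreachableTactic false

theorem nd3_of_Q {j : ℕ} {c l a0 b0 : ℂ} (hl : l ≠ 0) (hc : c ≠ 0) (hj : 4 ≤ j) (hj' : j ≤ 8)
    {F Q : MvPolynomial (Fin 3) ℂ} (hF : F = X 0 ^ 2 * X 2 + X 1 * X 2 ^ 2 -
      C l * (X 0 * X 1 ^ 2 * X 2) + C c * (X 0 ^ 2 * X 1 ^ j) + X 0 ^ 12 + C a0 * (X 0 * X 2 ^ 3) +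
        C b0 * X 2 ^ 4 + Q) (hQ : Dom3 j Q) : ND F := by
  refine nd_fam_dom3 (Q := Q)
    ![![2, 0, 1], ![0, 1, 2], ![1, 2, 1], ![2, j, 0], ![12, 0, 0], ![1, 0, 3], ![0, 0, 4]] ?_
    ![1, 1, -l, c, 1, a0, b0] ?_ ⟨0, one_ne_zero⟩ ?_ (fun p q r m hp hq hr hm v hv => ?_) ?_
  · clear hF hQ
    interval_cases j <;> decide
  · rw [hF]
    simp [Fin.sum_univ_succ]
    try ring
  · clear hF hQ
    interval_cases j <;> decide
  · exact dom3_lt hj' hp hq hr (hm 0 one_ne_zero) (hm 1 one_ne_zero) (hm 2 (neg_ne_zero.2 hl))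
      (hm 3 hc) (hm 4 one_ne_zero) (hQ v hv)
  intro p q r m x y z T p0 q0 r0 hx hy hz hm hT hne s0 s1 s2
  clear hF hQ
  have m0 : m ≤ p * 2 + q * 0 + r * 1 := hm 0 one_ne_zero
  have m1 : m ≤ p * 0 + q * 1 + r * 2 := hm 1 one_ne_zero
  have m2 : m ≤ p * 1 + q * 2 + r * 1 := hm 2 (neg_ne_zero.2 hl)
  have m3 : m ≤ p * 2 + q * j + r * 0 := hm 3 hc
  have m4 : m ≤ p * 12 + q * 0 + r * 0 := hm 4 one_ne_zero
  have t0 : T 0 = 0 ∨ T 0 ≠ 0 ∧ (1 : ℂ) ≠ 0 ∧ p * 2 + q * 0 + r * 1 = m := hT 0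
  have t1 : T 1 = 0 ∨ T 1 ≠ 0 ∧ (1 : ℂ) ≠ 0 ∧ p * 0 + q * 1 + r * 2 = m := hT 1
  have t2 : T 2 = 0 ∨ T 2 ≠ 0 ∧ -l ≠ 0 ∧ p * 1 + q * 2 + r * 1 = m := hT 2
  have t3 : T 3 = 0 ∨ T 3 ≠ 0 ∧ c ≠ 0 ∧ p * 2 + q * j + r * 0 = m := hT 3
  have t4 : T 4 = 0 ∨ T 4 ≠ 0 ∧ (1 : ℂ) ≠ 0 ∧ p * 12 + q * 0 + r * 0 = m := hT 4
  have t5 : T 5 = 0 ∨ T 5 ≠ 0 ∧ a0 ≠ 0 ∧ p * 1 + q * 0 + r * 3 = m := hT 5
  have t6 : T 6 = 0 ∨ T 6 ≠ 0 ∧ b0 ≠ 0 ∧ p * 0 + q * 0 + r * 4 = m := hT 6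
  have hn : ¬ (T 0 = 0 ∧ T 1 = 0 ∧ T 2 = 0 ∧ T 3 = 0 ∧ T 4 = 0 ∧ T 5 = 0 ∧ T 6 = 0) := by
    rintro ⟨_, _, _, _, _, _, _⟩
    obtain ⟨k, hk⟩ := hne
    fin_cases k <;> exact hk (by assumption)
  have f0 : (2 : ℂ) * T 0 + (1 : ℂ) * T 2 + (2 : ℂ) * T 3 + (12 : ℂ) * T 4 + (1 : ℂ) * T 5 = 0 := by
    simpa [Fin.sum_univ_succ, add_assoc] using s0
  have f1 : (1 : ℂ) * T 1 + (2 : ℂ) * T 2 + (j : ℂ) * T 3 = 0 := by
    simpa [Fin.sum_univ_succ, add_assoc] using s1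
  have f2 : (1 : ℂ) * T 0 + (2 : ℂ) * T 1 + (1 : ℂ) * T 2 + (3 : ℂ) * T 5 + (4 : ℂ) * T 6 = 0 := by
    simpa [Fin.sum_univ_succ, add_assoc] using s2
  clear hm hT hne s0 s1 s2 hx hy hz
  interval_cases j
  all_goals push_cast at f1
  all_goals rcases t0 with t0 | ⟨n0, _, g0⟩
  all_goals try omega
  all_goals rcases t1 with t1 | ⟨n1, _, g1⟩
  all_goals try omega
  all_goals rcases t2 with t2 | ⟨n2, _, g2⟩
  all_goals try omega
  all_goals rcases t3 with t3 | ⟨n3, _, g3⟩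
  all_goals try omega
  all_goals rcases t4 with t4 | ⟨n4, _, g4⟩
  all_goals try omega
  all_goals rcases t5 with t5 | ⟨n5, _, g5⟩
  all_goals try omega
  all_goals rcases t6 with t6 | ⟨n6, _, g6⟩
  all_goals try omega
  all_goals clear p0 q0 r0 m0 m1 m2 m3 m4
  all_goals grind

end QV

end MPb07157
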