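import Pool.Agent.Lib.MP_b07157_agQV.SL4
import Pool.Agent.Lib.MP_b07157_agSG3.NdR

/-!
# Conic and tangent line: Newton non-degeneracy after the shift, weights `(3, 2)`
-/

noncomputable section

namespace MPb07157

open MvPolynomial

namespace QV

namespace SZ

theorem first (φ : ℕ → ℂ) (t0 : ℕ) (h : ∀ u < t0, φ u = 0) :
    ∃ t, t0 ≤ t ∧ (∀ u < t, φ u = 0) ∧ (φ t = 0 → ∀ u, φ u = 0) := by
  classical
  by_cases hex : ∃ u, φ u ≠ 0
  · refine ⟨Nat.find hex, ?_, fun u hu => ?_, fun h0 => absurd h0 (Nat.find_spec hex)⟩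
    · by_contra hlt
      push Not at hlt
      exact Nat.find_spec hex (h _ hlt)
    · by_contra hne
      exact Nat.find_min hex hu hne
  · push Not at hex
    exact ⟨t0, le_refl _, h, fun _ => hex⟩

/-- Exponents `x^i y^j`. -/
def ex (i j : ℕ) : Fin 3 →₀ ℕ := Finsupp.single 0 i + Finsupp.single 1 j

theorem ex0 (i j : ℕ) : ex i j 0 = i := by simp [ex]
theorem ex1 (i j : ℕ) : ex i j 1 = j := by simp [ex]
theorem ex2 (i j : ℕ) : ex i j 2 = 0 := by simp [ex]

theorem eq_ex {v : Fin 3 →₀ ℕ} (h : v 2 = 0) : v = ex (v 0) (v 1) := by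
  ext i
  fin_cases i
  · exact (ex0 _ _).symm
  · exact (ex1 _ _).symm
  · exact h.trans (ex2 _ _).symm

theorem ex_inj {i j i' j' : ℕ} (h : ex i j = ex i' j') : i = i' ∧ j = j' := by
  have h0 := DFunLike.congr_fun h 0
  have h1 := DFunLike.congr_fun h 1
  rw [ex0, ex0] at h0
  rw [ex1, ex1] at h1
  exact ⟨h0, h1⟩

theorem xy_eq (i j : ℕ) (c : ℂ) : C c * (X 0 ^ i * X 1 ^ j) = monomial (ex i j) c := by
  rw [X_pow_eq_monomial, X_pow_eq_monomial, monomial_mul, C_mul_monomial, one_mul, mul_one]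
  rfl

theorem coeff_xy (i j : ℕ) (c : ℂ) (v : Fin 3 →₀ ℕ) :
    coeff v (C c * (X 0 ^ i * X 1 ^ j)) = if ex i j = v then c else 0 := by
  classical
  rw [xy_eq, coeff_monomial]

/-- The leading terms of the part of `x`-degree at most one. -/
theorem lead4 {c : ℂ} (hc : c ≠ 0) {i j : ℕ} (hij : (i = 1 ∧ 4 ≤ j ∧ j ≤ 6) ∨ (i = 0 ∧ 6 ≤ j ∧ j ≤ 8))
    {R : MvPolynomial (Fin 3) ℂ} (hR : ZW 3 2 0 0 (3 * i + 2 * j + 1) R)
    (hR' : ∀ v ∈ R.support, v 0 < 2 ∨ 10 ≤ v 0 + v 1) :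
    ∃ (j1 j2 : ℕ) (β α : ℂ) (R' : MvPolynomial (Fin 3) ℂ),
      C c * (X 0 ^ i * X 1 ^ j) + R = C β * (X 0 ^ 1 * X 1 ^ j1) + C α * (X 0 ^ 0 * X 1 ^ j2) + R' ∧
      4 ≤ j1 ∧ 6 ≤ j2 ∧ ((β ≠ 0 ∧ j1 ≤ 6) ∨ (α ≠ 0 ∧ j2 ≤ 8)) ∧
      ∀ v ∈ R'.support, v 2 = 0 ∧ ((v 0 = 1 ∧ j1 < v 1 ∧ β ≠ 0) ∨ (v 0 = 0 ∧ j2 < v 1 ∧ α ≠ 0) ∨
        (2 ≤ v 0 ∧ 10 ≤ v 0 + v 1)) := by
  classical
  set P : MvPolynomial (Fin 3) ℂ := C c * (X 0 ^ i * X 1 ^ j) + R with hP
  have hPc : ∀ v, coeff v P = (if ex i j = v then c else 0) + coeff v R := by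
    intro v
    rw [hP, coeff_add, coeff_xy]
  have hPs : ∀ v ∈ P.support, v 2 = 0 ∧ (v 0 < 2 ∨ 10 ≤ v 0 + v 1) ∧
      3 * i + 2 * j ≤ 3 * v 0 + 2 * v 1 := by
    intro v hv
    rcases Finset.mem_union.1 (support_add hv) with h | h
    · rw [xy_eq] at h
      have h1 := Finset.mem_singleton.1 (support_monomial_subset h)
      subst h1
      rw [ex0, ex1, ex2]
      refine ⟨rfl, Or.inl ?_, le_refl _⟩
      rcases hij with h2 | h2 <;> omega
    · obtain ⟨e1, _, _, e4⟩ := hR v h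
      exact ⟨e1, hR' v h, by omega⟩
  have hm : 11 ≤ 3 * i + 2 * j := by
    rcases hij with h2 | h2 <;> omega
  obtain ⟨j1, hj1, hj1', hj1''⟩ := first (fun t => coeff (ex 1 t) P) 4 (by
    intro u hu
    by_contra hne
    have := (hPs _ (mem_support_iff.2 hne)).2.2
    rw [ex0, ex1] at this
    omega)
  obtain ⟨j2, hj2, hj2', hj2''⟩ := first (fun t => coeff (ex 0 t) P) 6 (by
    intro u hu
    by_contra hne
    have := (hPs _ (mem_support_iff.2 hne)).2.2
    rw [ex0, ex1] at this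
    omega)
  have hcP : coeff (ex i j) P ≠ 0 := by
    rw [hPc, if_pos rfl, notMem_support_iff.1, add_zero]
    · exact hc
    · intro h
      have := (hR _ h).2.2.2
      rw [ex0, ex1] at this
      omega
  refine ⟨j1, j2, coeff (ex 1 j1) P, coeff (ex 0 j2) P, P - C (coeff (ex 1 j1) P) *
    (X 0 ^ 1 * X 1 ^ j1) - C (coeff (ex 0 j2) P) * (X 0 ^ 0 * X 1 ^ j2), by ring, hj1, hj2, ?_, ?_⟩
  · rcases hij with ⟨rfl, h2, h3⟩ | ⟨rfl, h2, h3⟩
    · left
      refine ⟨fun h => hcP (hj1'' h j), ?_⟩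
      by_contra hlt
      exact hcP (hj1' j (by omega))
    · right
      refine ⟨fun h => hcP (hj2'' h j), ?_⟩
      by_contra hlt
      exact hcP (hj2' j (by omega))
  · intro v hv
    rw [mem_support_iff, coeff_sub, coeff_sub, coeff_xy, coeff_xy] at hv
    by_cases h1 : ex 1 j1 = v
    · exfalso
      apply hv
      subst h1
      rw [if_pos rfl, if_neg]
      · ring
      · intro h
        have := (ex_inj h).1
        omega
    by_cases h2 : ex 0 j2 = v
    · exfalso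
      apply hv
      subst h2
      rw [if_pos rfl, if_neg]
      · ring
      · intro h
        have := (ex_inj h).1
        omega
    rw [if_neg h1, if_neg h2, sub_zero, sub_zero] at hv
    obtain ⟨e1, e2, e3⟩ := hPs v (mem_support_iff.2 hv)
    refine ⟨e1, ?_⟩
    have hvex := eq_ex e1
    by_cases h3 : v 0 = 1
    · left
      rw [h3] at hvex
      rw [hvex] at hv
      refine ⟨h3, ?_, fun h => hv (hj1'' h _)⟩
      by_contra hlt
      push Not at hlt
      rcases Nat.lt_or_eq_of_le hlt with h4 | h4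
      · exact hv (hj1' _ h4)
      · exact h1 (by rw [hvex, h4])
    by_cases h4 : v 0 = 0
    · right
      left
      rw [h4] at hvex
      rw [hvex] at hv
      refine ⟨h4, ?_, fun h => hv (hj2'' h _)⟩
      by_contra hlt
      push Not at hlt
      rcases Nat.lt_or_eq_of_le hlt with h5 | h5
      · exact hv (hj2' _ h5)
      · exact h2 (by rw [hvex, h5])
    · right
      right
      refine ⟨by omega, ?_⟩
      rcases e2 with h5 | h5
      · omega
      · exact h5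

theorem mem_mulX {t : ℕ} {Q : MvPolynomial (Fin 3) ℂ} {v : Fin 3 →₀ ℕ}
    (h : v ∈ (X 2 ^ t * Q).support) : ∃ u ∈ Q.support, v 0 = u 0 ∧ v 1 = u 1 ∧ v 2 = t + u 2 := by
  classical
  obtain ⟨v1, h1, v2, h2, rfl⟩ := Finset.mem_add.1 (support_mul _ _ h)
  rw [X_pow_eq_monomial] at h1
  have h3 := Finset.mem_singleton.1 (support_monomial_subset h1)
  subst h3
  exact ⟨v2, h2, by simp, by simp, by simp⟩

/-- Domination by the terms with `z`, and by the terms without `z`. -/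
theorem wlt {p q a b a0 b0 : ℕ} (hp : 0 < p) (hq : 0 < q) (ha : a0 ≤ a) (hb : b0 ≤ b)
    (h : a0 + b0 < a + b) : p * a0 + q * b0 < p * a + q * b := by
  obtain ⟨a', rfl⟩ := Nat.exists_eq_add_of_le ha
  obtain ⟨b', rfl⟩ := Nat.exists_eq_add_of_le hb
  have h1 : 0 < p * a' + q * b' := by
    rcases Nat.eq_zero_or_pos a' with h2 | h2
    · have h3 : 0 < b' := by omega
      exact Nat.add_pos_right _ (Nat.mul_pos hq h3)
    · exact Nat.add_pos_left (Nat.mul_pos hp h2) _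
  have h2 : p * (a0 + a') + q * (b0 + b') = (p * a0 + q * b0) + (p * a' + q * b') := by ring
  omega

end SZ

end QV

end MPb07157
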