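import Pool.Agent.Lib.MP_b07157_agQV.SF
import Pool.Agent.Lib.MP_b07157_agQV.Fam3
import Pool.Agent.Lib.MP_b07157_agR.Cor

/-!
# Products of `x^2 + y z` and a smooth surface tangent to it
-/

noncomputable section

namespace MPb07157

namespace QV

open IFT TN

section

open MvPolynomial

theorem suLoc_P4 {d : ℂ} :
    SuLoc (X 2 * (X 0 ^ 2 + X 1 * X 2 - C d * X 1 ^ 3) : MvPolynomial (Fin 3) ℂ) := by
  refine suLoc_fam3 ![![2, 0, 1], ![0, 1, 2], ![0, 3, 1]] (by decide)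
    ![1, 1, -d] ?_ ⟨0, one_ne_zero⟩ (by decide) ?_
  · simp [Fin.sum_univ_succ]
    ring
  intro p q r m x y z T p0 q0 r0 hx hy hz hm hT hv hne s0 s1 s2
  have f0 : (2 : ℂ) * T 0 = 0 := by
    simpa [Fin.sum_univ_succ, add_assoc] using s0
  have f1 : T 1 + 3 * T 2 = 0 := by
    simpa [Fin.sum_univ_succ, add_assoc] using s1
  have f2 : T 0 + (2 * T 1 + T 2) = 0 := by
    simpa [Fin.sum_univ_succ, add_assoc] using s2
  have h0 : T 0 = 0 := by linear_combination f0 / 2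
  have h2 : T 2 = 0 := by linear_combination (-1 / 5) * f2 + (2 / 5) * f1 + (1 / 5) * h0
  have h1 : T 1 = 0 := by linear_combination f1 - 3 * h2
  obtain ⟨k, hk⟩ := hne
  fin_cases k
  · exact hk h0
  · exact hk h1
  · exact hk h2

theorem suLoc_P3 {l : ℂ} :
    SuLoc (X 2 * (X 0 ^ 2 - C l * (X 0 * X 1 ^ 2) + X 1 * X 2) : MvPolynomial (Fin 3) ℂ) := by
  refine suLoc_fam3 ![![2, 0, 1], ![0, 1, 2], ![1, 2, 1]] (by decide)
    ![1, 1, -l] ?_ ⟨0, one_ne_zero⟩ (by decide) ?_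
  · simp [Fin.sum_univ_succ]
    ring
  intro p q r m x y z T p0 q0 r0 hx hy hz hm hT hv hne s0 s1 s2
  have f0 : (2 : ℂ) * T 0 + T 2 = 0 := by
    simpa [Fin.sum_univ_succ, add_assoc] using s0
  have f1 : T 1 + 2 * T 2 = 0 := by
    simpa [Fin.sum_univ_succ, add_assoc] using s1
  have f2 : T 0 + (2 * T 1 + T 2) = 0 := by
    simpa [Fin.sum_univ_succ, add_assoc] using s2
  have h2 : T 2 = 0 := by linear_combination (-2 / 7) * f2 + (4 / 7) * f1 + (1 / 7) * f0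
  have h0 : T 0 = 0 := by linear_combination f0 / 2 - h2 / 2
  have h1 : T 1 = 0 := by linear_combination f1 - 2 * h2
  obtain ⟨k, hk⟩ := hne
  fin_cases k
  · exact hk h0
  · exact hk h1
  · exact hk h2

end

open MvPowerSeries

theorem exists_inv' {W : RR} (h : constantCoeff W = 1) :
    ∃ V : RR, constantCoeff V = 1 ∧ W * V = 1 := by
  have h1 : constantCoeff W ≠ 0 := by rw [h]; exact one_ne_zero
  refine ⟨W⁻¹, ?_, MvPowerSeries.mul_inv_cancel W h1⟩
  rw [constantCoeff_inv, h, inv_one]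

theorem ge_sub_one {a : RR} (h : constantCoeff a = 1) : Ge 1 (a - 1) := by
  rw [ge_one_iff, map_sub, h, map_one, sub_self]

theorem ge_lin {a : RR} (h : constantCoeff a = 1) (i : Fin 3) : Ge 2 (a * X i - X i) := by
  have e : a * X i - X i = (a - 1) * X i := by ring
  rw [e]
  exact (ge_sub_one h).mul (geX i)

theorem ge_XX (i j : Fin 3) : Ge 2 (X i * X j : RR) := (geX i).mul (geX j)

theorem suLoc_SP4 {d l k u v t : ℂ} (hd : d ≠ 0) :
    SuLoc ((MvPolynomial.X 0 ^ 2 + MvPolynomial.X 1 * MvPolynomial.X 2) *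
      (MvPolynomial.X 2 + (MvPolynomial.C d * MvPolynomial.X 1 ^ 2 +
        MvPolynomial.C l * (MvPolynomial.X 0 * MvPolynomial.X 1) +
        MvPolynomial.C k * MvPolynomial.X 0 ^ 2 + MvPolynomial.X 2 *
          (MvPolynomial.C u * MvPolynomial.X 0 + MvPolynomial.C v * MvPolynomial.X 1 +
            MvPolynomial.C t * MvPolynomial.X 2))) : MvPolynomial (Fin 3) ℂ) := by
  set W : RR := 1 + C u * X 0 + C v * X 1 + C t * X 2 with hW
  have hW1 : constantCoeff W = 1 := by simp [hW]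
  obtain ⟨V0, hV01, hV0⟩ := exists_inv' hW1
  set U : RR := 1 - C k * V0 * X 1 with hU
  have hU1 : constantCoeff U = 1 := by simp [hU]
  obtain ⟨U', hU'1, hU'⟩ := exists_inv' hU1
  set V : RR := V0 + C (l ^ 2 / (4 * d)) * V0 ^ 2 * U' * X 1 with hV
  have hV1 : constantCoeff V = 1 := by simp [hV, hV01]
  obtain ⟨V', hV'1, hV'⟩ := exists_inv' hV1
  obtain ⟨c, hc1, hc⟩ := ARL.exists_root (N := 5) (by norm_num) (U := W ^ 2 * V') (by
    rw [map_mul, map_pow, hW1, hV'1]; norm_num)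
  obtain ⟨c', hc'1, hc'⟩ := exists_inv' hc1
  obtain ⟨a, ha1, ha⟩ := ARL.exists_root (N := 2) (by norm_num) (U := W * U * c') (by
    rw [map_mul, map_mul, hW1, hU1, hc'1]; norm_num)
  set b : RR := W * c' ^ 2 with hb
  have hb1 : constantCoeff b = 1 := by rw [hb, map_mul, map_pow, hW1, hc'1]; norm_num
  set r : RR := C d * X 1 ^ 2 + C l * (X 0 * X 1) + C k * X 0 ^ 2 with hr
  set Z0 : RR := X 2 + r * V0 with hZ0
  set X0 : RR := X 0 - C (l / 2) * V0 * U' * X 1 ^ 2 with hX0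
  have hr2 : Ge 2 r := by
    rw [hr]
    refine Ge.add (Ge.add ?_ ?_) ?_
    · rw [pow_two]
      exact (ge_XX _ _).C_mul _
    · exact (ge_XX _ _).C_mul _
    · rw [pow_two]
      exact (ge_XX _ _).C_mul _
  have hA : ∀ i, Ge 2 ((![a * X0, b * X 1, c * Z0] : Fin 3 → RR) i - X i) := by
    intro i
    fin_cases i
    · show Ge 2 (a * X0 - X 0)
      have e : a * X0 - X 0 = (a * X 0 - X 0) - a * C (l / 2) * V0 * U' * (X 1 * X 1) := by
        rw [hX0]
        ring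
      rw [e]
      exact (ge_lin ha1 0).sub (Ge.mul_left' _ (ge_XX _ _))
    · exact ge_lin hb1 1
    · show Ge 2 (c * Z0 - X 2)
      have e : c * Z0 - X 2 = (c * X 2 - X 2) + c * V0 * r := by
        rw [hZ0]
        ring
      rw [e]
      exact (ge_lin hc1 2).add (Ge.mul_left' _ hr2)
  obtain ⟨E, hE⟩ := exists_E hA
  refine SuLoc.of_formal AlgEquiv.refl E ?_ (suLoc_P4 (d := d))
  rw [hE]
  have e1 : MvPolynomial.aeval (![a * X0, b * X 1, c * Z0] : Fin 3 → RR)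
      (MvPolynomial.X 2 * (MvPolynomial.X 0 ^ 2 + MvPolynomial.X 1 * MvPolynomial.X 2 -
        MvPolynomial.C d * MvPolynomial.X 1 ^ 3)) =
      (c * Z0) * ((a * X0) ^ 2 + (b * X 1) * (c * Z0) - C d * (b * X 1) ^ 3) := by
    simp only [map_mul, map_add, map_sub, map_pow, MvPolynomial.aeval_X, MvPolynomial.aeval_C,
      Matrix.cons_val_zero, Matrix.cons_val_one, Matrix.cons_val]
    rfl
  rw [e1]
  have e2 : (((MvPolynomial.X 0 ^ 2 + MvPolynomial.X 1 * MvPolynomial.X 2) *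
      (MvPolynomial.X 2 + (MvPolynomial.C d * MvPolynomial.X 1 ^ 2 +
        MvPolynomial.C l * (MvPolynomial.X 0 * MvPolynomial.X 1) +
        MvPolynomial.C k * MvPolynomial.X 0 ^ 2 + MvPolynomial.X 2 *
          (MvPolynomial.C u * MvPolynomial.X 0 + MvPolynomial.C v * MvPolynomial.X 1 +
            MvPolynomial.C t * MvPolynomial.X 2))) : MvPolynomial (Fin 3) ℂ) : RR) =
      (X 0 ^ 2 + X 1 * X 2) * (X 2 + (r + X 2 * (W - 1))) := by
    rw [hr, hW]
    simp only [MvPolynomial.coe_mul, MvPolynomial.coe_add, MvPolynomial.coe_pow,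
      MvPolynomial.coe_X, MvPolynomial.coe_C]
    ring
  refine Eq.trans e2 ?_
  -- the relations
  have k1 : c * a ^ 2 = W * U := by
    rw [ha]
    linear_combination (W * U) * hc'
  have k2 : b * c ^ 2 = W := by
    rw [hb]
    linear_combination W * (c * c' + 1) * hc'
  have k3 : c * b ^ 3 = W * V := by
    have h5 : c ^ 5 * c' ^ 5 = 1 := by rw [← mul_pow, hc', one_pow]
    have h6 : W ^ 2 * c' ^ 5 = V := by
      rw [hc] at h5
      linear_combination V * h5 - (W ^ 2 * c' ^ 5) * hV'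
    rw [hb]
    linear_combination (W ^ 3 * c' ^ 5) * hc' + W * h6
  have k4 : C (l / 2) = (C l * C (1 / 2 : ℂ) : RR) := by
    rw [← map_mul]
    congr 1
    ring
  have k5 : C d * C (l ^ 2 / (4 * d)) = (C l ^ 2 * C (1 / 2 : ℂ) ^ 2 : RR) := by
    rw [← map_pow, ← map_pow, ← map_mul, ← map_mul]
    congr 1
    field_simp
    ring
  have k6 : (2 : RR) * C (1 / 2 : ℂ) = 1 := by
    have : (2 : RR) = C (2 : ℂ) := (map_ofNat (C : ℂ →+* RR) 2).symm
    rw [this, ← map_mul]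
    norm_num
  have e3 : W * Z0 * (U * X0 ^ 2 + X 1 * Z0 - C d * V * X 1 ^ 3) =
      (X 0 ^ 2 + X 1 * X 2) * (X 2 + (r + X 2 * (W - 1))) := by
    have h7 : W * Z0 = X 2 + (r + X 2 * (W - 1)) := by
      rw [hZ0]
      linear_combination r * hV0
    have h8 : U * X0 ^ 2 + X 1 * Z0 - C d * V * X 1 ^ 3 = X 0 ^ 2 + X 1 * X 2 := by
      have h9 : U * X0 ^ 2 = U * X 0 ^ 2 - C l * V0 * X 0 * X 1 ^ 2 +
          C l ^ 2 * C (1 / 2 : ℂ) ^ 2 * V0 ^ 2 * U' * X 1 ^ 4 := by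
        rw [hX0, k4]
        linear_combination (-(2 * C (1 / 2 : ℂ) * C l * V0 * X 0 * X 1 ^ 2) +
          C l ^ 2 * C (1 / 2 : ℂ) ^ 2 * V0 ^ 2 * U' * X 1 ^ 4) * hU' -
          (C l * V0 * X 0 * X 1 ^ 2) * k6
      have h10 : C d * V * X 1 ^ 3 = C d * V0 * X 1 ^ 3 +
          C l ^ 2 * C (1 / 2 : ℂ) ^ 2 * V0 ^ 2 * U' * X 1 ^ 4 := by
        rw [hV]
        linear_combination (V0 ^ 2 * U' * X 1 ^ 4) * k5
      rw [h9, h10, hZ0, hU, hr]
      ring
    rw [h7, h8]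
    ring
  rw [← e3]
  linear_combination (-(Z0 * X0 ^ 2)) * k1 - (Z0 ^ 2 * X 1) * k2 + (C d * X 1 ^ 3 * Z0) * k3

theorem suLoc_SP3 {l k u v t : ℂ} :
    SuLoc ((MvPolynomial.X 0 ^ 2 + MvPolynomial.X 1 * MvPolynomial.X 2) *
      (MvPolynomial.X 2 + (MvPolynomial.C l * (MvPolynomial.X 0 * MvPolynomial.X 1) +
        MvPolynomial.C k * MvPolynomial.X 0 ^ 2 + MvPolynomial.X 2 *
          (MvPolynomial.C u * MvPolynomial.X 0 + MvPolynomial.C v * MvPolynomial.X 1 +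
            MvPolynomial.C t * MvPolynomial.X 2))) : MvPolynomial (Fin 3) ℂ) := by
  set W : RR := 1 + C u * X 0 + C v * X 1 + C t * X 2 with hW
  have hW1 : constantCoeff W = 1 := by simp [hW]
  obtain ⟨V0, hV01, hV0⟩ := exists_inv' hW1
  set U : RR := 1 - C k * V0 * X 1 with hU
  have hU1 : constantCoeff U = 1 := by simp [hU]
  obtain ⟨c, hc1, hc⟩ := ARL.exists_root (N := 7) (by norm_num) (U := W ^ 5 * U) (by
    rw [map_mul, map_pow, hW1, hU1]; norm_num)
  obtain ⟨c', hc'1, hc'⟩ := exists_inv' hc1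
  set b : RR := W * c' ^ 2 with hb
  have hb1 : constantCoeff b = 1 := by rw [hb, map_mul, map_pow, hW1, hc'1]; norm_num
  set a : RR := c ^ 3 * V0 ^ 2 with ha
  have ha1 : constantCoeff a = 1 := by rw [ha, map_mul, map_pow, map_pow, hc1, hV01]; norm_num
  set r : RR := C l * (X 0 * X 1) + C k * X 0 ^ 2 with hr
  set Z0 : RR := X 2 + r * V0 with hZ0
  have hr2 : Ge 2 r := by
    rw [hr]
    refine Ge.add ?_ ?_
    · exact (ge_XX _ _).C_mul _
    · rw [pow_two]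
      exact (ge_XX _ _).C_mul _
  have hA : ∀ i, Ge 2 ((![a * X 0, b * X 1, c * Z0] : Fin 3 → RR) i - X i) := by
    intro i
    fin_cases i
    · exact ge_lin ha1 0
    · exact ge_lin hb1 1
    · show Ge 2 (c * Z0 - X 2)
      have e : c * Z0 - X 2 = (c * X 2 - X 2) + c * V0 * r := by
        rw [hZ0]
        ring
      rw [e]
      exact (ge_lin hc1 2).add (Ge.mul_left' _ hr2)
  obtain ⟨E, hE⟩ := exists_E hA
  refine SuLoc.of_formal AlgEquiv.refl E ?_ (suLoc_P3 (l := l))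
  rw [hE]
  have e1 : MvPolynomial.aeval (![a * X 0, b * X 1, c * Z0] : Fin 3 → RR)
      (MvPolynomial.X 2 * (MvPolynomial.X 0 ^ 2 - MvPolynomial.C l *
        (MvPolynomial.X 0 * MvPolynomial.X 1 ^ 2) + MvPolynomial.X 1 * MvPolynomial.X 2)) =
      (c * Z0) * ((a * X 0) ^ 2 - C l * ((a * X 0) * (b * X 1) ^ 2) + (b * X 1) * (c * Z0)) := by
    simp only [map_mul, map_add, map_sub, map_pow, MvPolynomial.aeval_X, MvPolynomial.aeval_C,
      Matrix.cons_val_zero, Matrix.cons_val_one, Matrix.cons_val]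
    rfl
  rw [e1]
  have e2 : (((MvPolynomial.X 0 ^ 2 + MvPolynomial.X 1 * MvPolynomial.X 2) *
      (MvPolynomial.X 2 + (MvPolynomial.C l * (MvPolynomial.X 0 * MvPolynomial.X 1) +
        MvPolynomial.C k * MvPolynomial.X 0 ^ 2 + MvPolynomial.X 2 *
          (MvPolynomial.C u * MvPolynomial.X 0 + MvPolynomial.C v * MvPolynomial.X 1 +
            MvPolynomial.C t * MvPolynomial.X 2))) : MvPolynomial (Fin 3) ℂ) : RR) =
      (X 0 ^ 2 + X 1 * X 2) * (X 2 + (r + X 2 * (W - 1))) := by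
    rw [hr, hW]
    simp only [MvPolynomial.coe_mul, MvPolynomial.coe_add, MvPolynomial.coe_pow,
      MvPolynomial.coe_X, MvPolynomial.coe_C]
    ring
  refine Eq.trans e2 ?_
  have h7' : c * c' = 1 := hc'
  have w5 : W ^ 4 * V0 ^ 4 = 1 := by rw [← mul_pow, hV0, one_pow]
  have k1 : c * a ^ 2 = W * U := by
    rw [ha]
    have : c * (c ^ 3 * V0 ^ 2) ^ 2 = c ^ 7 * V0 ^ 4 := by ring
    rw [this, hc]
    linear_combination (W * U) * w5
  have k2 : b * c ^ 2 = W := by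
    rw [hb]
    linear_combination W * (c * c' + 1) * hc'
  have k3 : c * a * b ^ 2 = 1 := by
    rw [ha, hb]
    have h4 : c ^ 4 * c' ^ 4 = 1 := by rw [← mul_pow, hc', one_pow]
    have h2 : W ^ 2 * V0 ^ 2 = 1 := by rw [← mul_pow, hV0, one_pow]
    linear_combination (W ^ 2 * V0 ^ 2) * h4 + h2
  have e3 : W * Z0 * (U * X 0 ^ 2 - C l * V0 * X 0 * X 1 ^ 2 + X 1 * Z0) =
      (X 0 ^ 2 + X 1 * X 2) * (X 2 + (r + X 2 * (W - 1))) := by
    have h7 : W * Z0 = X 2 + (r + X 2 * (W - 1)) := by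
      rw [hZ0]
      linear_combination r * hV0
    have h8 : U * X 0 ^ 2 - C l * V0 * X 0 * X 1 ^ 2 + X 1 * Z0 = X 0 ^ 2 + X 1 * X 2 := by
      rw [hZ0, hU, hr]
      ring
    rw [h7, h8]
    ring
  rw [← e3]
  linear_combination (-(Z0 * X 0 ^ 2)) * k1 - (Z0 ^ 2 * X 1) * k2 +
    (C l * X 0 * X 1 ^ 2 * Z0) * k3 + (- C l * X 0 * X 1 ^ 2 * Z0) * hV0

end QV

end MPb07157
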