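import Pool.Agent.Lib.MP_b07157_agQV.SK

/-!
# Conic and tangent line: approximate solutions of `s = q(x, y, -s)`
-/

noncomputable section

namespace MPb07157

open MvPolynomial

namespace QV

namespace SZ

variable {a b l n m : ℕ} {r u s : MvPolynomial (Fin 3) ℂ} {t : ℂ}

/-- The map `s ↦ r - s (u - t s)`. -/
def Ts (r u : MvPolynomial (Fin 3) ℂ) (t : ℂ) (s : MvPolynomial (Fin 3) ℂ) :
    MvPolynomial (Fin 3) ℂ := r - s * u + C t * (s * s)

/-- Approximate fixed points. -/
theorem exists_fix {i : ℕ} (hb : 1 ≤ b) (hab : b ≤ a) (hr : ZW a b i 2 m r) (hu : ZW a b 0 1 b u)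
    (hm : b ≤ m) :
    ∀ N, 3 ≤ N → ∃ s : MvPolynomial (Fin 3) ℂ, ZW a b i 2 m s ∧ ZW a b i 3 (m + b) (s - r) ∧
      ZW a b i N (b * N) (Ts r u t s - s) := by
  intro N hN
  induction N, hN using Nat.le_induction with
  | base =>
    refine ⟨r, hr, by rw [sub_self]; exact ZW.zero, ?_⟩
    have h1 : Ts r u t r - r = C t * (r * r) - r * u := by
      unfold Ts
      ring
    rw [h1]
    have h2 : ZW a b i 3 0 (C t * (r * r) - r * u) := by
      refine ZW.sub ?_ ?_
      · exact ((ZW.c t).mul (hr.mul hr)).mono (by omega) (by omega) (by omega)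
      · exact (hr.mul hu).mono (by omega) (by omega) (by omega)
    intro v hv
    obtain ⟨e1, e2, e3, _⟩ := h2 v hv
    refine ⟨e1, e2, e3, ?_⟩
    calc b * 3 ≤ b * (v 0 + v 1) := Nat.mul_le_mul_left _ e3
      _ = b * v 0 + b * v 1 := Nat.mul_add _ _ _
      _ ≤ a * v 0 + b * v 1 := Nat.add_le_add_right (Nat.mul_le_mul_right _ hab) _
  | succ N hN ih =>
    obtain ⟨s, h1, h2, h3⟩ := ih
    have h4 : ZW a b i 3 (m + b) (Ts r u t s - r) := by
      have e1 : Ts r u t s - r = C t * (s * s) - s * u := by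
        unfold Ts
        ring
      rw [e1]
      refine ZW.sub ?_ ?_
      · exact ((ZW.c t).mul (h1.mul h1)).mono (by omega) (by omega) (by omega)
      · exact (h1.mul hu).mono (by omega) (by omega) (by omega)
    have h5 : ZW a b i 2 m (Ts r u t s) := by
      have := (h4.mono (le_refl _) (by omega : 2 ≤ 3) (by omega : m ≤ m + b)).add hr
      rwa [sub_add_cancel] at this
    refine ⟨Ts r u t s, h5, h4, ?_⟩
    set g := Ts r u t s - s with hg
    have e1 : Ts r u t (Ts r u t s) - Ts r u t s = -(g * u) + C t * (g * (Ts r u t s + s)) := by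
      have e2 : Ts r u t s = s + g := by rw [hg]; ring
      rw [e2]
      unfold Ts at e2 ⊢
      linear_combination e2
    rw [e1]
    have h6 : ZW a b i (N + 1) 0 (-(g * u) + C t * (g * (Ts r u t s + s))) := by
      refine ZW.add (ZW.neg ?_) ?_
      · exact (h3.mul hu).mono (by omega) (by omega) (by omega)
      · exact ((ZW.c t).mul (h3.mul (h5.add h1))).mono (by omega) (by omega) (by omega)
    intro v hv
    obtain ⟨e1, e2, e3, _⟩ := h6 v hv
    refine ⟨e1, e2, e3, ?_⟩
    calc b * (N + 1) ≤ b * (v 0 + v 1) := Nat.mul_le_mul_left _ e3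
      _ = b * v 0 + b * v 1 := Nat.mul_add _ _ _
      _ ≤ a * v 0 + b * v 1 := Nat.add_le_add_right (Nat.mul_le_mul_right _ hab) _

end SZ

end QV

end MPb07157
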