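import Pool.Agent.Lib.MP_b07157_agQV.SDefs

/-!
# Conic and tangent line: polynomials in two variables with order and weight
-/

noncomputable section

namespace MPb07157

open MvPolynomial

namespace QV

namespace SZ

/-- Polynomials in `x, y` all whose monomials have `x`-degree at least `l`, degree at least `n` and
weight at least `m` for the weights `a, b`. -/
def ZW (a b l n m : ℕ) (P : MvPolynomial (Fin 3) ℂ) : Prop :=
  ∀ v ∈ P.support, v 2 = 0 ∧ l ≤ v 0 ∧ n ≤ v 0 + v 1 ∧ m ≤ a * v 0 + b * v 1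

variable {a b l n m l' n' m' : ℕ} {P Q : MvPolynomial (Fin 3) ℂ}

theorem ZW.zero : ZW a b l n m 0 := by
  intro v hv
  simp at hv

theorem ZW.mono (h : ZW a b l n m P) (hl : l' ≤ l) (hn : n' ≤ n) (hm : m' ≤ m) :
    ZW a b l' n' m' P :=
  fun v hv => ⟨(h v hv).1, hl.trans (h v hv).2.1, hn.trans (h v hv).2.2.1,
    hm.trans (h v hv).2.2.2⟩

theorem ZW.add (h : ZW a b l n m P) (h' : ZW a b l n m Q) : ZW a b l n m (P + Q) := by
  classical
  intro v hv
  rcases Finset.mem_union.1 (support_add hv) with h1 | h1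
  · exact h v h1
  · exact h' v h1

theorem ZW.neg (h : ZW a b l n m P) : ZW a b l n m (-P) := by
  intro v hv
  exact h v (by rwa [MvPolynomial.support_neg] at hv)

theorem ZW.sub (h : ZW a b l n m P) (h' : ZW a b l n m Q) : ZW a b l n m (P - Q) := by
  rw [sub_eq_add_neg]
  exact h.add h'.neg

theorem ZW.mul (h : ZW a b l n m P) (h' : ZW a b l' n' m' Q) :
    ZW a b (l + l') (n + n') (m + m') (P * Q) := by
  classical
  intro v hv
  obtain ⟨v1, h1, v2, h2, rfl⟩ := Finset.mem_add.1 (support_mul P Q hv)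
  obtain ⟨e1, e2, e3, e4⟩ := h v1 h1
  obtain ⟨g1, g2, g3, g4⟩ := h' v2 h2
  simp only [Finsupp.add_apply]
  refine ⟨by omega, by omega, by omega, ?_⟩
  have h3 : a * (v1 0 + v2 0) + b * (v1 1 + v2 1) = (a * v1 0 + b * v1 1) + (a * v2 0 + b * v2 1) := by
    ring
  omega

theorem ZW.xy (i j : ℕ) (c : ℂ) : ZW a b i (i + j) (a * i + b * j) (C c * (X 0 ^ i * X 1 ^ j)) := by
  classical
  have h1 : C c * (X 0 ^ i * X 1 ^ j) = monomial (Finsupp.single (0 : Fin 3) i +
      Finsupp.single 1 j) c := by
    rw [X_pow_eq_monomial, X_pow_eq_monomial, monomial_mul, C_mul_monomial, one_mul, mul_one]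
  intro v hv
  rw [h1] at hv
  have h2 := Finset.mem_singleton.1 (support_monomial_subset hv)
  subst h2
  simp

theorem ZW.x (c : ℂ) : ZW a b 1 1 a (C c * X 0) := by
  have h := ZW.xy (a := a) (b := b) 1 0 c
  simpa using h

theorem ZW.y (c : ℂ) : ZW a b 0 1 b (C c * X 1) := by
  have h := ZW.xy (a := a) (b := b) 0 1 c
  simpa using h

theorem ZW.c (c : ℂ) : ZW a b 0 0 0 (C c : MvPolynomial (Fin 3) ℂ) := by
  have h := ZW.xy (a := a) (b := b) 0 0 c
  simpa using h

theorem ZW.y1 : ZW a b 0 1 b (X 1 : MvPolynomial (Fin 3) ℂ) := by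
  have h := ZW.xy (a := a) (b := b) 0 1 1
  simpa using h

theorem ZW.x1 : ZW a b 1 1 a (X 0 : MvPolynomial (Fin 3) ℂ) := by
  have h := ZW.xy (a := a) (b := b) 1 0 1
  simpa using h

/-- Division by a power of `x`. -/
theorem ZW.div (h : ZW a b l n m P) (k : ℕ) : ∃ g R : MvPolynomial (Fin 3) ℂ,
    P = X 0 ^ k * g + R ∧ ZW a b (l - k) (n - k) (m - a * k) g ∧ ZW a b l n m R ∧
      ∀ v ∈ R.support, v 0 < k := by
  classical
  have key : ∀ S : Finset (Fin 3 →₀ ℕ), (∀ v ∈ S, v 2 = 0 ∧ l ≤ v 0 ∧ n ≤ v 0 + v 1 ∧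
      m ≤ a * v 0 + b * v 1) → ∀ c : (Fin 3 →₀ ℕ) → ℂ, ∃ g R : MvPolynomial (Fin 3) ℂ,
    ∑ v ∈ S, monomial v (c v) = X 0 ^ k * g + R ∧ ZW a b (l - k) (n - k) (m - a * k) g ∧
      ZW a b l n m R ∧ ∀ v ∈ R.support, v 0 < k := by
    intro S
    induction S using Finset.induction_on with
    | empty =>
      intro _ c
      exact ⟨0, 0, by simp, ZW.zero, ZW.zero, by simp⟩
    | insert v S hv ih =>
      intro hS c
      obtain ⟨g, R, h1, h2, h3, h4⟩ := ih (fun u hu => hS u (Finset.mem_insert_of_mem hu)) c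
      obtain ⟨e1, e2, e3, e4⟩ := hS v (Finset.mem_insert_self _ _)
      by_cases hk : v 0 < k
      · refine ⟨g, monomial v (c v) + R, ?_, h2, ?_, ?_⟩
        · rw [Finset.sum_insert hv, h1]
          ring
        · refine ZW.add ?_ h3
          intro u hu
          have h5 := Finset.mem_singleton.1 (support_monomial_subset hu)
          subst h5
          exact ⟨e1, e2, e3, e4⟩
        · intro u hu
          rcases Finset.mem_union.1 (support_add hu) with h5 | h5
          · have h6 := Finset.mem_singleton.1 (support_monomial_subset h5)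
            subst h6
            exact hk
          · exact h4 u h5
      · push Not at hk
        have hle : Finsupp.single 0 k ≤ v := by
          rw [Finsupp.single_le_iff]
          exact hk
        refine ⟨monomial (v - Finsupp.single 0 k) (c v) + g, R, ?_, ?_, h3, h4⟩
        · rw [Finset.sum_insert hv, h1, mul_add, X_pow_eq_monomial, monomial_mul, one_mul,
            add_tsub_cancel_of_le hle]
          ring
        · refine ZW.add ?_ h2
          intro u hu
          have h5 := Finset.mem_singleton.1 (support_monomial_subset hu)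
          subst h5
          simp only [Finsupp.coe_tsub, Pi.sub_apply, Finsupp.single_eq_same]
          rw [Finsupp.single_eq_of_ne (by decide), Finsupp.single_eq_of_ne (by decide),
            Nat.sub_zero, Nat.sub_zero]
          refine ⟨by omega, by omega, by omega, ?_⟩
          have h6 : a * v 0 = a * (v 0 - k) + a * k := by
            rw [← mul_add, Nat.sub_add_cancel hk]
          omega
  obtain ⟨g, R, h1, h2⟩ := key P.support h fun v => coeff v P
  refine ⟨g, R, ?_, h2⟩
  rw [← h1]
  exact (P.as_sum)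

end SZ

end QV

end MPb07157
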