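import Pool.Agent.Lib.MP_b07157_agQV.SAll
import Pool.Agent.Lib.MP_b07157_agQV.SP

/-!
# Quartic polynomials with triple points, conic and tangent line: the polynomials divisible by the
conic
-/

noncomputable section

namespace MPb07157

open MvPolynomial

namespace QV

open QU

/-- `b_3 = e_2 ≠ 0`, divisible by `x^2 + y z`. -/
theorem nd_SC4_zero {b0 b1 b2 b3 a0 a1 a2 e0 e1 l0 l1 k : ℂ} (hb3 : b3 ≠ 0)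
    (hR : a2 - l1 = 0 ∧ b2 - e1 + k = 0 ∧ a1 - l0 = 0 ∧ b1 - e0 = 0 ∧ a0 = 0 ∧ b0 = 0) :
    SuLoc (cS + qf b0 b1 b2 b3 0 a0 a1 a2 0 e0 e1 b3 l0 l1 k) := by
  obtain ⟨h1, h2, h3, h4, rfl, rfl⟩ := hR
  obtain rfl : a2 = l1 := sub_eq_zero.1 h1
  obtain rfl : a1 = l0 := sub_eq_zero.1 h3
  obtain rfl : b1 = e0 := sub_eq_zero.1 h4
  obtain rfl : e1 = b2 + k := by linear_combination -h2
  have h := suLoc_SP4 (d := b3) (l := a2) (k := k) (u := a1) (v := b2) (t := b1) hb3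
  convert h using 1
  refine MvPolynomial.funext fun w => ?_
  simp [cS, qf]
  ring

/-- `b_3 = e_2 = 0`, divisible by `x^2 + y z`. -/
theorem nd_SD3_zero {b0 b1 b2 a0 a1 e0 e1 l0 l1 k : ℂ}
    (hR : b2 - e1 + k = 0 ∧ a1 - l0 = 0 ∧ b1 - e0 = 0 ∧ a0 = 0 ∧ b0 = 0) :
    SuLoc (cS + qf b0 b1 b2 0 0 a0 a1 l1 0 e0 e1 0 l0 l1 k) := by
  obtain ⟨h2, h3, h4, rfl, rfl⟩ := hR
  obtain rfl : a1 = l0 := sub_eq_zero.1 h3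
  obtain rfl : b1 = e0 := sub_eq_zero.1 h4
  obtain rfl : e1 = b2 + k := by linear_combination -h2
  have h := suLoc_SP3 (l := l1) (k := k) (u := a1) (v := b2) (t := b1)
  convert h using 1
  refine MvPolynomial.funext fun w => ?_
  simp [cS, qf]
  ring

/-- All cases, from the two last ones. -/
theorem suLoc_S_of'
    (hC4 : ∀ b0 b1 b2 b3 a0 a1 a2 e0 e1 l0 l1 k : ℂ, b3 ≠ 0 →
      ¬ (a2 - l1 = 0 ∧ b2 - e1 + k = 0 ∧ a1 - l0 = 0 ∧ b1 - e0 = 0 ∧ a0 = 0 ∧ b0 = 0) →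
      SuLoc (cS + qf b0 b1 b2 b3 0 a0 a1 a2 0 e0 e1 b3 l0 l1 k))
    (hD3 : ∀ b0 b1 b2 a0 a1 e0 e1 l0 l1 k : ℂ, l1 ≠ 0 →
      ¬ (b2 - e1 + k = 0 ∧ a1 - l0 = 0 ∧ b1 - e0 = 0 ∧ a0 = 0 ∧ b0 = 0) →
      SuLoc (cS + qf b0 b1 b2 0 0 a0 a1 l1 0 e0 e1 0 l0 l1 k))
    (b0 b1 b2 b3 b4 a0 a1 a2 a3 e0 e1 e2 l0 l1 k : ℂ) :
    SuLoc (cS + qf b0 b1 b2 b3 b4 a0 a1 a2 a3 e0 e1 e2 l0 l1 k) := by
  refine suLoc_S_of (fun b0 b1 b2 b3 a0 a1 a2 e0 e1 l0 l1 k hb3 => ?_)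
    (fun b0 b1 b2 a0 a1 e0 e1 l0 l1 k hl1 => ?_) b0 b1 b2 b3 b4 a0 a1 a2 a3 e0 e1 e2 l0 l1 k
  · by_cases hR : a2 - l1 = 0 ∧ b2 - e1 + k = 0 ∧ a1 - l0 = 0 ∧ b1 - e0 = 0 ∧ a0 = 0 ∧ b0 = 0
    · exact nd_SC4_zero hb3 hR
    · exact hC4 _ _ _ _ _ _ _ _ _ _ _ _ hb3 hR
  · by_cases hR : b2 - e1 + k = 0 ∧ a1 - l0 = 0 ∧ b1 - e0 = 0 ∧ a0 = 0 ∧ b0 = 0
    · exact nd_SD3_zero hR
    · exact hD3 _ _ _ _ _ _ _ _ _ _ hl1 hR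

end QV

end MPb07157
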