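import Pool.Agent.Lib.MP_b07157_agQV.Susp3U
import Pool.Agent.Lib.MP_b07157_agSY.Three

/-!
# Sums of polynomials of degree at most four in three variables and one-variable polynomials
-/

noncomputable section

namespace MPb07157

open MvPolynomial

namespace QV

open CV

/-- The cubic part of the translate does not see constants. -/
theorem hc_three_translate_add_C (g : MvPolynomial (Fin 3) ℂ) (p : Fin 3 → ℂ) (c : ℂ) :
    homogeneousComponent 3 (translate p (g + C c)) = homogeneousComponent 3 (translate p g) := by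
  have h1 : translate p (g + C c) = translate p g + C c := by
    unfold translate
    rw [map_add, aeval_C]
    rfl
  have h2 : homogeneousComponent 3 (C c : MvPolynomial (Fin 3) ℂ) = 0 := by
    rw [homogeneousComponent_of_mem ((mem_homogeneousSubmodule _ _).2 (isHomogeneous_C _ c)),
      if_neg (by norm_num)]
  rw [h1, map_add, h2, add_zero]

theorem smcLoc_sg_tri {r : ℕ} {G : MvPolynomial (Fin 3) ℂ} (hd : G.totalDegree ≤ 4)
    (h : (coeff 0 G = 0 ∧ (∀ i, coeff (Finsupp.single i 1) G = 0) ∧ YG.hessAt G 0 ≠ 0) ∨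
      TriCond (homogeneousComponent 3 G)) {e : Fin r → ℕ} (he : ∀ i, 0 < e i) :
    SmcLoc (SS.sg G e) := by
  refine SmcLoc.of_susp3' hd ?_ he
  rcases h with ⟨h0, h1, h2⟩ | h
  · refine Or.inl ⟨2, by norm_num, fun h3 => h2 ?_⟩
    ext i j
    have h4 : eval 0 (pderiv i (pderiv j G)) = coeff 0 (pderiv i (pderiv j G)) := by
      rw [coeff_zero_eq_eval]
    show eval 0 (pderiv i (pderiv j G)) = 0
    rw [h4, coeff_pderiv, coeff_pderiv]
    have h5 : coeff (0 + Finsupp.single i 1 + Finsupp.single j 1) G = 0 := by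
      have h6 := congrArg (coeff (0 + Finsupp.single i 1 + Finsupp.single j 1)) h3
      rw [coeff_homogeneousComponent, if_pos, coeff_zero] at h6
      · exact h6
      · rw [map_add, map_add, map_zero, Finsupp.degree_single, Finsupp.degree_single]
    rw [h5, zero_mul, zero_mul]
  · exact Or.inr h

end QV

open CV SS QV in
/-- **The strong monodromy conjecture, global version**, for the sums
`f = g(x_1, x_2, x_3) + ∑ h_i(z_i)`, where `g` has degree at most four, the `h_i` are nonconstant
polynomials in one variable, and for each critical zero `(p, z)` of `f` the Hessian matrix of `g` at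
`p` is not zero, or `p` is in a finite set and the part of degree three of `g(p + x)` satisfies
`TriCond`. -/
theorem SmcGlob.of_sum3q {r : ℕ} {g : MvPolynomial (Fin 3) ℂ} (hd : g.totalDegree ≤ 4)
    {h : Fin r → Polynomial ℂ} (hh : ∀ i, 0 < (h i).natDegree) (hne : SS.sh g h ≠ 0)
    (P : Finset (Fin 3 → ℂ))
    (hc : ∀ (p : Fin 3 → ℂ) (z : Fin r → ℂ), eval p g + ∑ i, (h i).eval (z i) = 0 →
      (∀ i, eval p (pderiv i g) = 0) → (∀ i, (Polynomial.derivative (h i)).eval (z i) = 0) →
      YG.hessAt g p ≠ 0 ∨ (p ∈ P ∧ TriCond (homogeneousComponent 3 (translate p g)))) :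
    SmcGlob (SS.sh g h) := by
  classical
  obtain ⟨S, hS⟩ : ∃ S : Set ((Fin 3 → ℂ) × (Fin r → ℂ)), S = {q | (q.1 ∈ P ∧
      TriCond (homogeneousComponent 3 (translate q.1 g))) ∧
      eval q.1 g + ∑ i, (h i).eval (q.2 i) = 0 ∧ (∀ i, eval q.1 (pderiv i g) = 0) ∧
      ∀ i, (Polynomial.derivative (h i)).eval (q.2 i) = 0} := ⟨_, rfl⟩
  have hSf : S.Finite := by
    refine Set.Finite.subset ((P.finite_toSet).prod (finite_crit hh)) ?_
    rintro ⟨p, z⟩ hq
    rw [hS] at hq
    exact ⟨hq.1.1, hq.2.2.2⟩
  refine SmcGlob.of_sumM (by norm_num) hh hne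
    (T := (fun q => ({(Fin.append q.1 q.2 : Fin (3 + r) → ℂ)} : Set (Fin (3 + r) → ℂ))) '' S)
    (hSf.image _) ?_ fun p z h1 h2 h3 => ?_
  · rintro _ ⟨⟨p, z⟩, hq, rfl⟩
    rw [hS] at hq
    obtain ⟨⟨-, h0⟩, h1, h2, h3⟩ := hq
    refine ⟨isConstr_point _, MonoAlong.of_point hne fun _ _ => ?_⟩
    refine smcLoc_sh hh hne h3 fun m hm _ => ?_
    refine smcLoc_sg_tri ?_ (Or.inr ?_) fun i => by have := hm i; omega
    · refine (D5.totalDegree_translate_le p _).trans ((totalDegree_add _ _).trans ?_)
      rw [totalDegree_C]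
      exact max_le hd (by norm_num)
    · rw [hc_three_translate_add_C]
      exact h0
  · rcases hc p z h1 h2 h3 with hr | hP
    · refine Or.inr ?_
      have := SE3.one_le_rank hr
      omega
    · exact Or.inl ⟨_, ⟨(p, z), by rw [hS]; exact ⟨hP, h1, h2, h3⟩, rfl⟩,
        Set.mem_singleton _⟩

open CV SS QV in
/-- **The strong monodromy conjecture, local version**, for the sums
`f = g(x_1, x_2, x_3) + ∑ h_i(z_i)`, `deg g ≤ 4`, where the first or the second derivatives of `g` do
not all vanish at the origin, or the part of degree three of `g` satisfies `TriCond`. -/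
theorem SmcLoc.of_sum3q {r : ℕ} {g : MvPolynomial (Fin 3) ℂ} (hd : g.totalDegree ≤ 4)
    {h : Fin r → Polynomial ℂ} (hh : ∀ i, 0 < (h i).natDegree) (hne : SS.sh g h ≠ 0)
    (h0 : coeff 0 (SS.sh g h) = 0)
    (hc : (∀ i, coeff 0 (pderiv i g) = 0) →
      YG.hessAt g 0 ≠ 0 ∨ TriCond (homogeneousComponent 3 g)) : SmcLoc (SS.sh g h) := by
  classical
  by_cases hsm : ∃ i, coeff (Finsupp.single i 1) (sh g h) ≠ 0
  · obtain ⟨i, hi⟩ := hsm
    exact SU.smcLoc_smooth h0 hi
  push Not at hsm
  have hPc : ∀ i, eval 0 (pderiv i (sh g h)) = 0 := fun i => by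
    rw [← coeff_single_eq_eval, hsm]
  have e0 : (Fin.append (0 : Fin 3 → ℂ) (0 : Fin r → ℂ)) = 0 := by
    funext j
    refine Fin.addCases (fun j => ?_) (fun i => ?_) j
    · rw [Fin.append_left]
      rfl
    · rw [Fin.append_right]
      rfl
  have hz : ∀ i, (Polynomial.derivative (h i)).eval ((0 : Fin r → ℂ) i) = 0 := fun i => by
    have := eval_pderiv_natAdd_sh g h 0 i
    rw [hPc] at this
    exact this.symm
  have hp : ∀ i, eval 0 (pderiv i g) = 0 := fun i => by
    have := eval_pderiv_castAdd_sh g h 0 i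
    rw [hPc] at this
    exact this.symm
  have h3 : eval 0 g + ∑ i, (h i).eval ((0 : Fin r → ℂ) i) = 0 := by
    rw [coeff_zero_eq_eval, eval_sh] at h0
    exact h0
  have key := smcLoc_sh hh hne hz (p := 0) fun m hm _ => by
    obtain ⟨G, hG⟩ : ∃ G, G = translate 0 (g + C (∑ i, (h i).eval ((0 : Fin r → ℂ) i))) :=
      ⟨_, rfl⟩
    rw [← hG]
    refine smcLoc_sg_tri ?_ ?_ fun i => by have := hm i; omega
    · rw [hG]
      refine (D5.totalDegree_translate_le 0 _).trans ((totalDegree_add _ _).trans ?_)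
      rw [totalDegree_C]
      exact max_le hd (by norm_num)
    · rcases hc fun i => by rw [coeff_zero_eq_eval]; exact hp i with hH | hT
      · refine Or.inl ⟨?_, fun i => ?_, ?_⟩
        · rw [hG, SE3.coeff_zero_tr, map_add, eval_C]
          exact h3
        · rw [hG, coeff_single_eq_eval, pderiv_translate, D5.eval_translate', zero_add,
            pderiv_add_C]
          exact hp i
        · rw [hG, SE3.hessAt_translate, zero_add, hessAt_add_C]
          exact hH
      · refine Or.inr ?_
        rw [hG, hc_three_translate_add_C, translate_zero']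
        exact hT
  rwa [e0, translate_zero] at key

end MPb07157
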