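import Pool.Agent.Lib.MP_b07157_agM.TDefs

/-!
# A condition on ternary cubic forms
-/

noncomputable section

namespace MPb07157

open MvPolynomial

/-- The ternary cubic form `c ≠ 0` is not squarefree (a multiple line), or has no critical point
outside the origin (a smooth curve), or is `x^3 + y z^2` in suitable linear coordinates (a cuspidal
curve), or its Hessian matrix vanishes at some point outside the origin (three lines through a point,
or multiple lines). -/
def TriCond (c : MvPolynomial (Fin 3) ℂ) : Prop :=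
  c ≠ 0 ∧ (¬ Squarefree c ∨ (∀ p : Fin 3 → ℂ, p ≠ 0 → ∃ i, eval p (pderiv i c) ≠ 0) ∨
    (∃ M : Matrix (Fin 3) (Fin 3) ℂ, M.det ≠ 0 ∧
      ∀ w : Fin 3 → ℂ, eval (M.mulVec w) c = w 0 ^ 3 + w 1 * w 2 ^ 2) ∨
    ∃ q : Fin 3 → ℂ, q ≠ 0 ∧ YG.hessAt c q = 0)

end MPb07157
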