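import Pool.Agent.Lib.MP_b07157_agQV.UMv
import Pool.Agent.Lib.MP_b07157_agQV.FU1
import Pool.Agent.Lib.MP_b07157_agQV.FU2
import Pool.Agent.Lib.MP_b07157_agQV.FU3a
import Pool.Agent.Lib.MP_b07157_agQV.FU3b
import Pool.Agent.Lib.MP_b07157_agQV.FU4a1
import Pool.Agent.Lib.MP_b07157_agQV.FU4a2
import Pool.Agent.Lib.MP_b07157_agQV.FU4a4
import Pool.Agent.Lib.MP_b07157_agQV.FU4b1
import Pool.Agent.Lib.MP_b07157_agQV.FU4b2
import Pool.Agent.Lib.MP_b07157_agQV.FU4b3
import Pool.Agent.Lib.MP_b07157_agQV.FU5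

/-!
# Quartic polynomials with triple points whose tangent cone is three concurrent lines
-/

noncomputable section

namespace MPb07157

open MvPolynomial

namespace QV

open QU

variable {c0 c1 c2 c3 b0 b1 b2 b3 b4 a0 a1 a2 a3 e0 e1 e2 l0 l1 k : ℂ}

theorem suLoc_r2 (hC : BC c0 c1 c2 c3) (ha2 : a2 ≠ 0) :
    SuLoc (cf c0 c1 c2 c3 + qf b0 b1 0 0 0 a0 a1 a2 0 e0 e1 0 l0 l1 k) := by
  by_cases h3 : c3 = 0
  · have hc2 : c2 ≠ 0 := hC.left h3
    by_cases h0 : c0 = 0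
    · have hc1 : c1 ≠ 0 := hC.right h0
      subst h3 h0
      exact nd_U4a4 hc2 hc1 ha2
    · subst h3
      have hC' : BC 0 c2 c1 c0 := hC.mv (p := 0) (q := 1) (r := 1) (s := 0) (by norm_num)
        (by ring) (by ring) (by ring) (by ring)
      refine mvG 0 1 1 0 (by norm_num) (c0' := 0) (c1' := c2) (c2' := c1) (c3' := c0) (b2' := 0)
        (b3' := 0) (a2' := a2) (a3' := 0) (e2' := 0) (by ring) (by ring) (by ring) (by ring)
        (by ring) (by ring) (by ring) (by ring) (by ring) fun _ _ _ _ _ _ _ _ _ => ?_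
      exact nd_U4a2 h0 hc2 ha2 hC'.nd3
  · by_cases h0 : c0 = 0
    · have hc1 : c1 ≠ 0 := hC.right h0
      subst h0
      exact nd_U4a2 h3 hc1 ha2 hC.nd3
    · exact nd_U4a1 h3 h0 ha2 hC.nd3

theorem suLoc_r1 (hC : BC c0 c1 c2 c3) (hb2 : b2 ≠ 0) :
    SuLoc (cf c0 c1 c2 c3 + qf b0 b1 b2 0 0 a0 a1 0 0 e0 e1 0 l0 l1 k) := by
  by_cases h3 : c3 = 0
  · have hc2 : c2 ≠ 0 := hC.left h3
    subst h3
    set t : ℂ := -c1 / (2 * c2) with ht
    have ht1 : c1 + 2 * c2 * t = 0 := by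
      rw [ht]
      field_simp
      ring
    have hC' : BC (c0 + c1 * t + c2 * t ^ 2) 0 c2 0 :=
      hC.mv (p := 1) (q := t) (r := 0) (s := 1) (by norm_num)
        (by ring) (by linear_combination -ht1) (by ring) (by ring)
    refine mvG 1 t 0 1 (by norm_num) (c0' := c0 + c1 * t + c2 * t ^ 2) (c1' := 0) (c2' := c2)
      (c3' := 0) (b2' := b2) (b3' := 0) (a2' := 0) (a3' := 0) (e2' := 0) (by ring)
      (by linear_combination -ht1) (by ring) (by ring)
      (by ring) (by ring) (by ring) (by ring) (by ring) fun _ _ _ _ _ _ _ _ _ => ?_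
    have h0 : c0 + c1 * t + c2 * t ^ 2 ≠ 0 := fun h => hC'.right h rfl
    exact nd_U4b2 hc2 h0 hb2
  · set t : ℂ := -c2 / (3 * c3) with ht
    have ht1 : c2 + 3 * c3 * t = 0 := by
      rw [ht]
      field_simp
      ring
    have hC' : BC (c0 + c1 * t + c2 * t ^ 2 + c3 * t ^ 3) (c1 + 2 * c2 * t + 3 * c3 * t ^ 2) 0 c3 :=
      hC.mv (p := 1) (q := t) (r := 0) (s := 1) (by norm_num)
        (by ring) (by ring) (by linear_combination -ht1) (by ring)
    refine mvG 1 t 0 1 (by norm_num) (c0' := c0 + c1 * t + c2 * t ^ 2 + c3 * t ^ 3)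
      (c1' := c1 + 2 * c2 * t + 3 * c3 * t ^ 2) (c2' := 0)
      (c3' := c3) (b2' := b2) (b3' := 0) (a2' := 0) (a3' := 0) (e2' := 0) (by ring)
      (by ring) (by linear_combination -ht1) (by ring)
      (by ring) (by ring) (by ring) (by ring) (by ring) fun b0' b1' _ _ _ _ _ _ _ => ?_
    refine mvY (-b1' / (2 * b2)) (b1' := 0) (a2' := 0) (by field_simp; ring) (by ring)
      fun _ _ _ _ _ _ => ?_
    by_cases h1 : c1 + 2 * c2 * t + 3 * c3 * t ^ 2 = 0
    · have h0 : c0 + c1 * t + c2 * t ^ 2 + c3 * t ^ 3 ≠ 0 := fun h => hC'.right h h1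
      rw [h1]
      exact nd_U4b3 h3 h0 hb2
    · exact nd_U4b1 h3 h1 hb2 hC'.nd3

theorem suLoc_Q (hC : BC c0 c1 c2 c3) (hQ : ¬(b2 = 0 ∧ a2 = 0 ∧ e2 = 0)) :
    SuLoc (cf c0 c1 c2 c3 + qf b0 b1 b2 0 0 a0 a1 a2 0 e0 e1 e2 l0 l1 k) := by
  by_cases he : e2 = 0
  · subst he
    by_cases ha : a2 = 0
    · subst ha
      exact suLoc_r1 hC fun h => hQ ⟨h, rfl, rfl⟩
    · refine mvG 1 (-b2) 0 a2 (by simpa using ha) (b2' := 0) (b3' := 0) (a2' := a2 ^ 2) (a3' := 0)
        (e2' := 0) rfl rfl rfl rfl (by ring) (by ring) (by ring) (by ring) (by ring)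
        fun _ _ _ _ _ _ _ _ _ => ?_
      exact suLoc_r2 (hC.mv (by simpa using ha) rfl rfl rfl rfl) (pow_ne_zero 2 ha)
  · by_cases hd : a2 ^ 2 = 4 * b2 * e2
    · have hdet : a2 * 0 - 1 * (-2 * e2) ≠ 0 := by
        intro h
        exact he (by linear_combination h / 2)
      refine mvG a2 1 (-2 * e2) 0 hdet (b2' := e2) (b3' := 0) (a2' := 0) (a3' := 0)
        (e2' := 0) rfl rfl rfl rfl (by ring) (by ring) (by ring) (by ring)
        (by linear_combination e2 * hd)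
        fun _ _ _ _ _ _ _ _ _ => ?_
      exact suLoc_r1 (hC.mv hdet rfl rfl rfl rfl) he
    · obtain ⟨t, ht⟩ := IsAlgClosed.exists_pow_nat_eq (a2 ^ 2 - 4 * b2 * e2) (n := 2) (by norm_num)
      have ht0 : t ≠ 0 := by
        rintro rfl
        exact hd (by linear_combination -ht)
      have hdet : (t - a2) * (2 * e2) - (-t - a2) * (2 * e2) ≠ 0 := by
        intro h
        exact mul_ne_zero ht0 he (by linear_combination h / 4)
      refine mvG (t - a2) (-t - a2) (2 * e2) (2 * e2) hdet (b2' := 0) (b3' := 0)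
        (a2' := -4 * e2 * t ^ 2) (a3' := 0)
        (e2' := 0) rfl rfl rfl rfl (by ring) (by ring) ?_ ?_ ?_
        fun _ _ _ _ _ _ _ _ _ => ?_
      · linear_combination (-e2) * ht
      · linear_combination (-2 * e2) * ht
      · linear_combination (-e2) * ht
      · refine suLoc_r2 (hC.mv hdet rfl rfl rfl rfl) ?_
        exact mul_ne_zero (mul_ne_zero (by norm_num) he) (pow_ne_zero 2 ht0)

theorem suLoc_U3 (hc3 : c3 ≠ 0) (hc1 : c1 ≠ 0) (ha3 : a3 ≠ 0) :
    SuLoc (cf 0 c1 0 c3 + qf b0 b1 b2 0 0 a0 a1 a2 a3 e0 e1 e2 l0 l1 k) := by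
  by_cases hb : b2 = 0
  · subst hb
    exact nd_U3b hc3 hc1 ha3
  · refine mvY (-b1 / (2 * b2)) (b1' := 0) (by field_simp; ring) rfl fun _ _ _ _ _ _ => ?_
    exact nd_U3a hc3 hc1 hb ha3

/-- Three concurrent lines. -/
theorem suLoc_U :
    SuLoc (cf 1 0 0 1 + qf b0 b1 b2 b3 b4 a0 a1 a2 a3 e0 e1 e2 l0 l1 k) := by
  by_cases h4 : b4 = 0
  swap
  · exact nd_U1 h4
  subst h4
  by_cases h3 : a3 = 0
  · subst h3
    by_cases hb : b3 = 0
    · subst hb
      by_cases hQ : b2 = 0 ∧ a2 = 0 ∧ e2 = 0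
      · obtain ⟨rfl, rfl, rfl⟩ := hQ
        exact nd_U5
      · refine suLoc_Q ?_ hQ
        intro u v h1 h2
        constructor
        · have h3 : u ^ 2 = 0 := by linear_combination h1 / 3
          exact pow_eq_zero_iff two_ne_zero |>.1 h3
        · have h3 : v ^ 2 = 0 := by linear_combination h2 / 3
          exact pow_eq_zero_iff two_ne_zero |>.1 h3
    · refine mvG 0 1 1 0 (by norm_num) (c0' := 1) (c1' := 0) (c2' := 0) (c3' := 1) (b2' := e2)
        (b3' := 0) (a2' := a2) (a3' := b3) (e2' := b2) (by ring) (by ring) (by ring) (by ring)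
        (by ring) (by ring) (by ring) (by ring) (by ring) fun _ _ _ _ _ _ _ _ _ => ?_
      exact nd_U2 hb fun h => pow_ne_zero 3 hb (by rw [h]; norm_num)
  · by_cases h : a3 ^ 3 = b3 ^ 3
    · have hb : b3 ≠ 0 := by
        rintro rfl
        exact pow_ne_zero 3 h3 (by rw [h]; norm_num)
      have hdet : a3 ^ 2 * -a3 - b3 * b3 ^ 2 ≠ 0 := by
        intro h5
        exact pow_ne_zero 3 h3 (by linear_combination (h - h5) / 2)
      refine mvG (a3 ^ 2) b3 (b3 ^ 2) (-a3) hdet (c0' := 0) (c1' := 6 * (a3 ^ 2 * b3 ^ 2))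
        (c2' := 0) (c3' := 2 * a3 ^ 6) (b3' := 0) (a3' := 2 * a3 ^ 3)
        ?_ ?_ ?_ ?_ ?_ ?_ rfl rfl rfl fun _ _ _ _ _ _ _ _ _ => ?_
      · linear_combination h
      · ring
      · linear_combination (-3 * a3 * b3) * h
      · linear_combination (a3 ^ 3 + b3 ^ 3) * h
      · ring
      · linear_combination h
      · exact suLoc_U3 (mul_ne_zero two_ne_zero (pow_ne_zero _ h3))
          (mul_ne_zero (by norm_num) (mul_ne_zero (pow_ne_zero _ h3) (pow_ne_zero _ hb)))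
          (mul_ne_zero two_ne_zero (pow_ne_zero _ h3))
    · exact nd_U2 h3 h

end QV

end MPb07157
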