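import Pool.Agent.Lib.MP_b07157_agQV.Susp3
import Pool.Agent.Lib.MP_b07157_agQV.UMain
import Pool.Agent.Lib.MP_b07157_agQV.FQ
import Pool.Agent.Lib.MP_b07157_agQV.TriDefs
import Pool.Agent.Lib.MP_b07157_agT3.Lin

/-!
# Sums of polynomials of degree at most four in three variables and powers of new variables:
cuspidal tangent cones and three concurrent lines
-/

noncomputable section

namespace MPb07157

open MvPolynomial

namespace QV

open QU

theorem eval_aeval_lin (L : Fin 3 → MvPolynomial (Fin 3) ℂ) (w : Fin 3 → ℂ)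
    (p : MvPolynomial (Fin 3) ℂ) :
    eval w (aeval L p) = eval (fun i => eval w (L i)) p := by
  induction p using MvPolynomial.induction_on with
  | C a => simp
  | add p q hp hq => rw [map_add, map_add, map_add, hp, hq]
  | mul_X p i hp => rw [map_mul, map_mul, map_mul, hp, aeval_X, eval_X]

theorem eval_lin (M : Matrix (Fin 3) (Fin 3) ℂ) (w : Fin 3 → ℂ) (p : MvPolynomial (Fin 3) ℂ) :
    eval w (aeval (fun i => ∑ j, C (M i j) * X j) p) = eval (M.mulVec w) p := by
  rw [eval_aeval_lin]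
  have h1 : (fun i => eval w (∑ j, C (M i j) * X j : MvPolynomial (Fin 3) ℂ)) = M.mulVec w := by
    funext i
    simp [Matrix.mulVec, dotProduct]
  rw [h1]

theorem isHomogeneous_lin' {M : Matrix (Fin 3) (Fin 3) ℂ} {p : MvPolynomial (Fin 3) ℂ} {d : ℕ}
    (hp : p.IsHomogeneous d) :
    (aeval (fun i => ∑ j, C (M i j) * X j) p : MvPolynomial (Fin 3) ℂ).IsHomogeneous d := by
  have hL : ∀ i, (∑ j, C (M i j) * X j : MvPolynomial (Fin 3) ℂ).IsHomogeneous 1 := by
    intro i
    refine IsHomogeneous.sum _ _ _ fun j _ => ?_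
    have := (isHomogeneous_C (Fin 3) (M i j)).mul (isHomogeneous_X ℂ j)
    rwa [zero_add] at this
  have := hp.aeval _ hL
  rwa [one_mul] at this

theorem eq_three_add_four {f : MvPolynomial (Fin 3) ℂ} (hd : f.totalDegree ≤ 4)
    (low : ∀ j < 3, homogeneousComponent j f = 0) :
    f = homogeneousComponent 3 f + homogeneousComponent 4 f := by
  conv_lhs => rw [← sum_homogeneousComponent f]
  have h4 : ∑ j ∈ Finset.range (f.totalDegree + 1), homogeneousComponent j f =
      ∑ j ∈ Finset.range 5, homogeneousComponent j f := by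
    refine Finset.sum_subset (fun j hj => ?_) fun j _ hj => ?_
    · rw [Finset.mem_range] at hj ⊢
      omega
    · rw [Finset.mem_range] at hj
      exact homogeneousComponent_eq_zero j f (by omega)
  rw [h4, Finset.sum_range_succ, Finset.sum_range_succ, Finset.sum_eq_zero fun j hj =>
    low j (Finset.mem_range.1 hj), zero_add]

/-- Reduction to a normal form of the cubic part. -/
theorem suLoc_of_cubic {g c : MvPolynomial (Fin 3) ℂ} (hd : g.totalDegree ≤ 4)
    (low : ∀ j < 3, homogeneousComponent j g = 0) {M : Matrix (Fin 3) (Fin 3) ℂ} (hM : M.det ≠ 0)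
    (hc : ∀ w, eval (M.mulVec w) (homogeneousComponent 3 g) = eval w c)
    (H : ∀ b0 b1 b2 b3 b4 a0 a1 a2 a3 e0 e1 e2 l0 l1 k : ℂ,
      SuLoc (c + qf b0 b1 b2 b3 b4 a0 a1 a2 a3 e0 e1 e2 l0 l1 k)) : SuLoc g := by
  have h1 := eq_three_add_four hd low
  obtain ⟨b0, b1, b2, b3, b4, a0, a1, a2, a3, e0, e1, e2, l0, l1, k, hq⟩ :=
    exists_qf (isHomogeneous_lin' (M := M) (homogeneousComponent_isHomogeneous 4 g))
  refine suLoc_of_linEq (CS.LinEq.of_matrix M hM fun w => ?_)
    (H b0 b1 b2 b3 b4 a0 a1 a2 a3 e0 e1 e2 l0 l1 k)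
  rw [← hq, map_add, eval_lin, ← hc, ← map_add, ← h1]

/-- Cuspidal tangent cones. -/
theorem suLoc_cusp {g : MvPolynomial (Fin 3) ℂ} (hd : g.totalDegree ≤ 4)
    (low : ∀ j < 3, homogeneousComponent j g = 0) {M : Matrix (Fin 3) (Fin 3) ℂ} (hM : M.det ≠ 0)
    (hc : ∀ w, eval (M.mulVec w) (homogeneousComponent 3 g) = w 0 ^ 3 + w 1 * w 2 ^ 2) :
    SuLoc g := by
  refine suLoc_of_cubic hd low (c := X 0 ^ 3 + X 1 * X 2 ^ 2) hM (fun w => ?_)
    fun _ _ _ _ _ _ _ _ _ _ _ _ _ _ _ => nd_Q
  rw [hc]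
  simp

/-- Three concurrent lines. -/
theorem suLoc_conc {g : MvPolynomial (Fin 3) ℂ} (hd : g.totalDegree ≤ 4)
    (low : ∀ j < 3, homogeneousComponent j g = 0) (hsq : Squarefree (homogeneousComponent 3 g))
    {q : Fin 3 → ℂ} (hq : q ≠ 0)
    (hqq : ∀ i j, eval q (pderiv i (pderiv j (homogeneousComponent 3 g))) = 0) : SuLoc g := by
  obtain ⟨M, hM, hMF⟩ := T3.exists_lin (homogeneousComponent_isHomogeneous 3 g) hsq hq hqq
  refine suLoc_of_cubic hd low (c := cf 1 0 0 1) (M := M * !![1, 0, 0; 0, 0, 1; 0, 1, 0]) ?_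
    (fun w => ?_) fun _ _ _ _ _ _ _ _ _ _ _ _ _ _ _ => suLoc_U
  · rw [Matrix.det_mul]
    refine mul_ne_zero hM ?_
    simp [Matrix.det_fin_three]
  · rw [← Matrix.mulVec_mulVec, ← eval_lin, hMF]
    simp [cf, dotProduct, Fin.sum_univ_three]
    try ring

/-- Germs of multiplicity three whose tangent cone satisfies `TriCond`. -/
theorem suLoc_tri {g : MvPolynomial (Fin 3) ℂ} (hd : g.totalDegree ≤ 4)
    (low : ∀ j < 3, homogeneousComponent j g = 0) (h : TriCond (homogeneousComponent 3 g)) :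
    SuLoc g := by
  obtain ⟨h3, hs | hs | ⟨M, hM, hc⟩ | ⟨q, hq, hqq⟩⟩ := h
  · exact suLoc_triple hd low h3 hs
  · exact suLoc_tc (by norm_num) low h3 hs
  · exact suLoc_cusp hd low hM hc
  · by_cases hs : Squarefree (homogeneousComponent 3 g)
    · exact suLoc_conc hd low hs hq fun i j => congrFun (congrFun hqq i) j
    · exact suLoc_triple hd low h3 hs

end QV

open CV QV

/-- **The strong monodromy conjecture, local version**, for the sums
`g(x, y, z) + u_1^{e_1} + ... + u_r^{e_r}` with a polynomial `g` of degree at most four, of multiplicity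
at most two at the origin, or of multiplicity three with a tangent cone `TriCond`; any number of new
variables, any positive exponents. -/
theorem SmcLoc.of_susp3' {r : ℕ} {g : MvPolynomial (Fin 3) ℂ} (hd : g.totalDegree ≤ 4)
    (hm : (∃ j < 3, homogeneousComponent j g ≠ 0) ∨ TriCond (homogeneousComponent 3 g))
    {e : Fin r → ℕ} (he : ∀ i, 0 < e i) : SmcLoc (SS.sg g e) := by
  classical
  have hg : g ≠ 0 := by
    rintro rfl
    rcases hm with ⟨j, _, hj⟩ | ⟨hj, _⟩
    · exact hj (map_zero _)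
    · exact hj (map_zero _)
  by_cases h0 : coeff 0 g = 0
  swap
  · exact smcLoc_of_coeff_ne (by rw [SS.coeff_zero_sg g he]; exact h0)
  by_cases hl : (∃ i, coeff (Finsupp.single i 1) g ≠ 0) ∨ ∃ i, e i = 1
  · exact smcLoc_sg_smooth he h0 hl
  push Not at hl
  obtain ⟨hl1, hl2⟩ := hl
  have he2 : ∀ i, 2 ≤ e i := fun i => by
    have h1 := he i
    have h2 := hl2 i
    omega
  have hev : eval 0 g = 0 := by rw [← coeff_zero_eq_eval, h0]
  have hcr : ∀ i, eval 0 (pderiv i g) = 0 := fun i => by rw [← coeff_single_eq_eval, hl1]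
  by_cases hH : YG.hessAt g 0 = 0
  · have low : ∀ j < 3, homogeneousComponent j g = 0 := by
      intro j hj
      refine SE4.low_of_derivatives h0 (fun i => ?_) (fun i k => ?_) j hj
      · rw [coeff_zero_eq_eval, hcr]
      · rw [coeff_zero_eq_eval]
        exact congrFun (congrFun hH i) k
    rcases hm with ⟨j, hj, hj'⟩ | h3
    · exact absurd (low j hj) hj'
    · exact (suLoc_tri hd low h3).smcLoc_sg he2
  · refine SS.smcLoc_susp (by omega) h0 hl1 ?_ he2 (sg_ne_zero he hg)
    have h2 := CK.hess_translate g 0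
    rw [translate_zero'] at h2
    have h3 := SE3.one_le_rank hH
    rw [h2]
    omega

end MPb07157
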