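import Pool.Agent.Lib.MP_b07157_agQV.TnF
import Pool.Agent.Lib.MP_b07157_agQV.NodDefs
import Pool.Agent.Lib.MP_b07157_agQV.Susp3U
import Pool.Agent.Lib.MP_b07157_agSS.C3

/-!
# Sums of polynomials in three variables with nodal tangent cubics and powers of new variables
-/

noncomputable section

namespace MPb07157

open MvPolynomial CV QV

namespace TN

theorem coeff_lin (M : Matrix (Fin 3) (Fin 3) ℂ) (g : MvPolynomial (Fin 3) ℂ) (v : Fin 3 →₀ ℕ) :
    coeff v (aeval (fun i => ∑ j, C (M i j) * X j) g : MvPolynomial (Fin 3) ℂ) =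
      coeff v (aeval (fun i => ∑ j, C (M i j) * X j) (homogeneousComponent v.degree g) :
        MvPolynomial (Fin 3) ℂ) := by
  classical
  have h : ∀ j, j ≠ v.degree → coeff v (aeval (fun i => ∑ j, C (M i j) * X j)
      (homogeneousComponent j g) : MvPolynomial (Fin 3) ℂ) = 0 := fun j hj =>
    (isHomogeneous_lin' (M := M) (homogeneousComponent_isHomogeneous j g)).coeff_eq_zero
      (Ne.symm hj)
  conv_lhs => rw [← sum_homogeneousComponent g]
  rw [map_sum, coeff_sum]
  by_cases hv : v.degree ∈ Finset.range (g.totalDegree + 1)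
  · rw [Finset.sum_eq_single v.degree (fun j _ hj => h j hj) fun h1 => absurd hv h1]
  · rw [Finset.mem_range, not_lt] at hv
    rw [homogeneousComponent_eq_zero _ g (by omega), map_zero, coeff_zero]
    refine Finset.sum_eq_zero fun j hj => h j ?_
    rw [Finset.mem_range] at hj
    omega

end TN

/-- **The strong monodromy conjecture, local version**, for the sums
`g(x, y, z) + u_1^{e_1} + ... + u_r^{e_r}` with a polynomial `g` of any degree of multiplicity three at
the origin whose tangent cone is a nodal cubic, a conic and a line that meet in two points, or three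
lines not through one point; any number of new variables, any positive exponents. -/
theorem SmcLoc.of_suspNod {r : ℕ} {g : MvPolynomial (Fin 3) ℂ}
    (low : ∀ j < 3, homogeneousComponent j g = 0) (hm : NodCond (homogeneousComponent 3 g))
    {e : Fin r → ℕ} (he : ∀ i, 0 < e i) : SmcLoc (SS.sg g e) := by
  classical
  by_cases h1 : ∃ i, e i = 1
  · refine smcLoc_sg_smooth he ?_ (Or.inr h1)
    have h2 := low 0 (by norm_num)
    rw [homogeneousComponent_zero, C_eq_zero] at h2
    exact h2
  push Not at h1
  have he2 : ∀ i, 2 ≤ e i := fun i => by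
    have h2 := he i
    have h3 := h1 i
    omega
  obtain ⟨M, α, β, hM, hc⟩ := hm
  set g' : MvPolynomial (Fin 3) ℂ := aeval (fun i => ∑ j, C (M i j) * X j) g with hg'
  have hlin : CS.LinEq g g' := CS.LinEq.of_matrix M hM fun w => by rw [hg', eval_lin]
  refine (SS.linEq_sg hlin e).smcLoc (TN.smcLoc_norm (α := α) (β := β) (fun v hv => ?_) he2)
  have h3 : (aeval (fun i => ∑ j, C (M i j) * X j) (homogeneousComponent 3 g) :
      MvPolynomial (Fin 3) ℂ) = X 0 * X 1 * X 2 + C α * X 0 ^ 3 + C β * X 1 ^ 3 := by
    refine MvPolynomial.funext fun w => ?_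
    rw [eval_lin, hc]
    simp
  have h4 : TN.c3 α β = ((X 0 * X 1 * X 2 + C α * X 0 ^ 3 + C β * X 1 ^ 3 :
      MvPolynomial (Fin 3) ℂ) : MvPowerSeries (Fin 3) ℂ) := by
    unfold TN.c3
    simp
  rw [map_sub, h4, MvPolynomial.coeff_coe, MvPolynomial.coeff_coe, hg', TN.coeff_lin, ← h3,
    TN.coeff_lin M (homogeneousComponent 3 g)]
  rcases Nat.lt_or_ge v.degree 3 with h5 | h5
  · rw [low _ h5, homogeneousComponent_of_mem (homogeneousComponent_mem 3 g), if_neg (by omega),
      map_zero, sub_self]
  · have h6 : v.degree = 3 := by omega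
    rw [h6, homogeneousComponent_of_mem (homogeneousComponent_mem 3 g), if_pos rfl, sub_self]

/-- Degree at most four: all tangent cubics except a conic and a tangent line. -/
theorem SmcLoc.of_susp3T {r : ℕ} {g : MvPolynomial (Fin 3) ℂ} (hd : g.totalDegree ≤ 4)
    (hm : (∃ j < 3, homogeneousComponent j g ≠ 0) ∨ TriCond (homogeneousComponent 3 g) ∨
      NodCond (homogeneousComponent 3 g))
    {e : Fin r → ℕ} (he : ∀ i, 0 < e i) : SmcLoc (SS.sg g e) := by
  by_cases h1 : (∃ j < 3, homogeneousComponent j g ≠ 0) ∨ TriCond (homogeneousComponent 3 g)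
  · exact SmcLoc.of_susp3' hd h1 he
  · push Not at h1
    rcases hm with h | h | h
    · obtain ⟨j, hj, hj'⟩ := h
      exact absurd (h1.1 j hj) hj'
    · exact absurd h h1.2
    · exact SmcLoc.of_suspNod h1.1 h he

end MPb07157
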