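import Pool.Agent.Lib.MP_b07157_agQV.Main
import Pool.Agent.Lib.MP_b07157_agQV.Sq
import Pool.Agent.Lib.MP_b07157_agCV.Main

/-!
# Sums of polynomials of degree at most four in three variables and powers of new variables
-/

noncomputable section

namespace MPb07157

open MvPolynomial

namespace QV

/-- The initial part for the weights `1`. -/
theorem initialPart_one {n d : ℕ} {g : MvPolynomial (Fin n) ℂ}
    (low : ∀ j < d, homogeneousComponent j g = 0) (hd : homogeneousComponent d g ≠ 0) :
    initialPart g (fun _ => 1) = homogeneousComponent d g := by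
  classical
  have hdeg : ∀ v : Fin n →₀ ℕ, ∑ j, 1 * v j = v.degree := by
    intro v
    rw [Finsupp.degree_eq_sum]
    exact Finset.sum_congr rfl fun j _ => one_mul _
  rw [initialPart_eq_Pw (fun _ => 1) (m := d)]
  · ext v
    rw [coeff_Pw, coeff_homogeneousComponent, hdeg]
  · intro v hv
    rw [hdeg]
    by_contra hc
    push Not at hc
    have h1 := congrArg (coeff v) (low _ hc)
    rw [coeff_homogeneousComponent, if_pos rfl, coeff_zero] at h1
    exact mem_support_iff.1 hv h1
  · obtain ⟨v, hv⟩ := ne_zero_iff.1 hd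
    rw [coeff_homogeneousComponent] at hv
    by_cases h1 : v.degree = d
    · rw [if_pos h1] at hv
      exact ⟨v, mem_support_iff.2 hv, by rw [hdeg, h1]⟩
    · rw [if_neg h1] at hv
      exact absurd rfl hv

/-- Germs whose tangent cone has an isolated singularity. -/
theorem suLoc_tc {n d : ℕ} {g : MvPolynomial (Fin n) ℂ} (hd0 : 0 < d)
    (low : ∀ j < d, homogeneousComponent j g = 0) (hd : homogeneousComponent d g ≠ 0)
    (h : ∀ p : Fin n → ℂ, p ≠ 0 → ∃ i, eval p (pderiv i (homogeneousComponent d g)) ≠ 0) :
    SuLoc g := by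
  refine SuLoc.of_sqh (w := fun _ => 1) (fun _ => one_pos) ?_ ?_ ?_
  · rw [initialPart_one low hd]
    exact h
  · rintro rfl
    exact hd (map_zero _)
  · have h1 := congrArg (coeff 0) (low 0 hd0)
    rw [coeff_homogeneousComponent, if_pos (map_zero _), coeff_zero] at h1
    exact h1

end QV

open CV QV

/-- **The strong monodromy conjecture, local version**, for the sums
`g(x, y, z) + u_1^{e_1} + ... + u_r^{e_r}` with a polynomial `g` of degree at most four, of multiplicity
at most two at the origin, or of multiplicity three with a tangent cone which is non-reduced or smooth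
outside the origin; any number of new variables, any positive exponents. -/
theorem SmcLoc.of_susp3 {r : ℕ} {g : MvPolynomial (Fin 3) ℂ} (hd : g.totalDegree ≤ 4)
    (hm : (∃ j < 3, homogeneousComponent j g ≠ 0) ∨ (homogeneousComponent 3 g ≠ 0 ∧
      (¬ Squarefree (homogeneousComponent 3 g) ∨
        ∀ p : Fin 3 → ℂ, p ≠ 0 → ∃ i, eval p (pderiv i (homogeneousComponent 3 g)) ≠ 0)))
    {e : Fin r → ℕ} (he : ∀ i, 0 < e i) : SmcLoc (SS.sg g e) := by
  classical
  have hg : g ≠ 0 := by
    rintro rfl
    rcases hm with ⟨j, _, hj⟩ | ⟨hj, _⟩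
    · exact hj (map_zero _)
    · exact hj (map_zero _)
  by_cases h0 : coeff 0 g = 0
  swap
  · exact smcLoc_of_coeff_ne (by rw [SS.coeff_zero_sg g he]; exact h0)
  by_cases hl : (∃ i, coeff (Finsupp.single i 1) g ≠ 0) ∨ ∃ i, e i = 1
  · exact smcLoc_sg_smooth he h0 hl
  push Not at hl
  obtain ⟨hl1, hl2⟩ := hl
  have he2 : ∀ i, 2 ≤ e i := fun i => by
    have h1 := he i
    have h2 := hl2 i
    omega
  have hev : eval 0 g = 0 := by rw [← coeff_zero_eq_eval, h0]
  have hcr : ∀ i, eval 0 (pderiv i g) = 0 := fun i => by rw [← coeff_single_eq_eval, hl1]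
  by_cases hH : YG.hessAt g 0 = 0
  · have low : ∀ j < 3, homogeneousComponent j g = 0 := by
      intro j hj
      refine SE4.low_of_derivatives h0 (fun i => ?_) (fun i k => ?_) j hj
      · rw [coeff_zero_eq_eval, hcr]
      · rw [coeff_zero_eq_eval]
        exact congrFun (congrFun hH i) k
    rcases hm with ⟨j, hj, hj'⟩ | ⟨h3, hs | hs⟩
    · exact absurd (low j hj) hj'
    · exact (suLoc_triple hd low h3 hs).smcLoc_sg he2
    · exact (suLoc_tc (by norm_num) low h3 hs).smcLoc_sg he2
  · refine SS.smcLoc_susp (by omega) h0 hl1 ?_ he2 (sg_ne_zero he hg)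
    have h2 := CK.hess_translate g 0
    rw [translate_zero'] at h2
    have h3 := SE3.one_le_rank hH
    rw [h2]
    omega

end MPb07157
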