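import Pool.Agent.Lib.MP_b07157_agQV.Sum3
import Pool.Agent.Lib.MP_b07157_agQV.TnG
import Pool.Agent.Lib.MP_b07157_agCS.Deg3
import Pool.Agent.Lib.MP_b07157_agSY.GlobT

/-!
# Sums of polynomials in three variables with nodal tangent cubics and one-variable polynomials
-/

noncomputable section

namespace MPb07157

open MvPolynomial

namespace QV

open CV SS

/-- At a critical zero where the Hessian matrix vanishes there are no terms of degree at most two. -/
theorem low_of_crit3 {g : MvPolynomial (Fin 3) ℂ} {p : Fin 3 → ℂ} {c : ℂ}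
    (h1 : eval p g + c = 0) (h2 : ∀ i, eval p (pderiv i g) = 0) (hH : YG.hessAt g p = 0) :
    ∀ j < 3, homogeneousComponent j (translate p (g + C c)) = 0 := by
  refine SE4.low_of_derivatives ?_ (fun i => ?_) fun i j => ?_
  · rw [SE3.coeff_zero_tr, map_add, eval_C]
    exact h1
  · rw [pderiv_translate, SE3.coeff_zero_tr, pderiv_add_C]
    exact h2 i
  · rw [pderiv_translate, pderiv_translate, SE3.coeff_zero_tr, pderiv_add_C]
    exact congrFun (congrFun hH i) j

theorem totalDegree_tr4 {g : MvPolynomial (Fin 3) ℂ} (hd : g.totalDegree ≤ 4) (p : Fin 3 → ℂ)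
    (c : ℂ) : (translate p (g + C c)).totalDegree ≤ 4 := by
  refine (D5.totalDegree_translate_le p _).trans ((totalDegree_add _ _).trans ?_)
  rw [totalDegree_C]
  exact max_le hd (by norm_num)

/-- The global version over a class `Q` of germs. -/
theorem smcGlob_sumNT {r : ℕ} {g : MvPolynomial (Fin 3) ℂ} {h : Fin r → Polynomial ℂ}
    (hh : ∀ i, 0 < (h i).natDegree) (hne : SS.sh g h ≠ 0) (P : Finset (Fin 3 → ℂ))
    {Q : MvPolynomial (Fin 3) ℂ → Prop}
    (hQ : ∀ G, Q G → ∀ e : Fin r → ℕ, (∀ i, 0 < e i) → SmcLoc (SS.sg G e))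
    (hc : ∀ (p : Fin 3 → ℂ) (z : Fin r → ℂ), eval p g + ∑ i, (h i).eval (z i) = 0 →
      (∀ i, eval p (pderiv i g) = 0) → (∀ i, (Polynomial.derivative (h i)).eval (z i) = 0) →
      YG.hessAt g p ≠ 0 ∨ (p ∈ P ∧ Q (translate p (g + C (∑ i, (h i).eval (z i)))))) :
    SmcGlob (SS.sh g h) := by
  classical
  obtain ⟨S, hS⟩ : ∃ S : Set ((Fin 3 → ℂ) × (Fin r → ℂ)), S = {q | (q.1 ∈ P ∧
      Q (translate q.1 (g + C (∑ i, (h i).eval (q.2 i))))) ∧
      eval q.1 g + ∑ i, (h i).eval (q.2 i) = 0 ∧ (∀ i, eval q.1 (pderiv i g) = 0) ∧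
      ∀ i, (Polynomial.derivative (h i)).eval (q.2 i) = 0} := ⟨_, rfl⟩
  have hSf : S.Finite := by
    refine Set.Finite.subset ((P.finite_toSet).prod (finite_crit hh)) ?_
    rintro ⟨p, z⟩ hq
    rw [hS] at hq
    exact ⟨hq.1.1, hq.2.2.2⟩
  refine SmcGlob.of_sumM (by norm_num) hh hne
    (T := (fun q => ({(Fin.append q.1 q.2 : Fin (3 + r) → ℂ)} : Set (Fin (3 + r) → ℂ))) '' S)
    (hSf.image _) ?_ fun p z h1 h2 h3 => ?_
  · rintro _ ⟨⟨p, z⟩, hq, rfl⟩
    rw [hS] at hq
    obtain ⟨⟨-, h0⟩, h1, h2, h3⟩ := hq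
    refine ⟨isConstr_point _, MonoAlong.of_point hne fun _ _ => ?_⟩
    exact smcLoc_sh hh hne h3 fun m hm _ => hQ _ h0 m fun i => by have := hm i; omega
  · rcases hc p z h1 h2 h3 with hr | hP
    · refine Or.inr ?_
      have := SE3.one_le_rank hr
      omega
    · exact Or.inl ⟨_, ⟨(p, z), by rw [hS]; exact ⟨hP, h1, h2, h3⟩, rfl⟩,
        Set.mem_singleton _⟩

/-- The local version over a class of germs. -/
theorem smcLoc_sumNT {r : ℕ} {g : MvPolynomial (Fin 3) ℂ} {h : Fin r → Polynomial ℂ}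
    (hh : ∀ i, 0 < (h i).natDegree) (hne : SS.sh g h ≠ 0) (h0 : coeff 0 (SS.sh g h) = 0)
    {Q : MvPolynomial (Fin 3) ℂ → Prop}
    (hQ : ∀ G, Q G → ∀ e : Fin r → ℕ, (∀ i, 0 < e i) → SmcLoc (SS.sg G e))
    (hc : ∀ c : ℂ, eval 0 g + c = 0 → (∀ i, eval 0 (pderiv i g) = 0) → YG.hessAt g 0 = 0 →
      Q (translate 0 (g + C c))) : SmcLoc (SS.sh g h) := by
  classical
  by_cases hH : YG.hessAt g 0 = 0
  swap
  · refine SmcLoc.of_sumG (by norm_num) hh hne h0 fun _ => ?_
    have := SE3.one_le_rank hH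
    omega
  by_cases hsm : ∃ i, coeff (Finsupp.single i 1) (sh g h) ≠ 0
  · obtain ⟨i, hi⟩ := hsm
    exact SU.smcLoc_smooth h0 hi
  push Not at hsm
  have hPc : ∀ i, eval 0 (pderiv i (sh g h)) = 0 := fun i => by
    rw [← coeff_single_eq_eval, hsm]
  have e0 : (Fin.append (0 : Fin 3 → ℂ) (0 : Fin r → ℂ)) = 0 := by
    funext j
    refine Fin.addCases (fun j => ?_) (fun i => ?_) j
    · rw [Fin.append_left]
      rfl
    · rw [Fin.append_right]
      rfl
  have hz : ∀ i, (Polynomial.derivative (h i)).eval ((0 : Fin r → ℂ) i) = 0 := fun i => by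
    have := eval_pderiv_natAdd_sh g h 0 i
    rw [hPc] at this
    exact this.symm
  have hp : ∀ i, eval 0 (pderiv i g) = 0 := fun i => by
    have := eval_pderiv_castAdd_sh g h 0 i
    rw [hPc] at this
    exact this.symm
  have h3 : eval 0 g + ∑ i, (h i).eval ((0 : Fin r → ℂ) i) = 0 := by
    rw [coeff_zero_eq_eval, eval_sh] at h0
    exact h0
  have key := smcLoc_sh hh hne hz (p := 0) fun m hm _ =>
    hQ _ (hc _ h3 hp hH) m fun i => by have := hm i; omega
  rwa [e0, translate_zero] at key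

/-- The germs for `SmcGlob.of_sumNT`. -/
theorem smcLoc_sg_nt {r : ℕ} (G : MvPolynomial (Fin 3) ℂ)
    (h : ((∀ j < 3, homogeneousComponent j G = 0) ∧ NodCond (homogeneousComponent 3 G)) ∨
      (G.totalDegree ≤ 4 ∧ TriCond (homogeneousComponent 3 G))) (e : Fin r → ℕ)
    (he : ∀ i, 0 < e i) : SmcLoc (SS.sg G e) := by
  rcases h with h | h
  · exact SmcLoc.of_suspNod h.1 h.2 he
  · exact SmcLoc.of_susp3' h.1 (Or.inr h.2) he

end QV

open CV SS QV in
/-- **The strong monodromy conjecture, global version**, for the sums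
`f = g(x_1, x_2, x_3) + ∑ h_i(z_i)`, where the `h_i` are nonconstant polynomials in one variable, and
for each critical zero `(p, z)` of `f` the Hessian matrix of `g` at `p` is not zero, or `p` is in a
finite set and the part of degree three of `g(p + x)` satisfies `NodCond`, or it satisfies `TriCond` or
`NodCond` and `g` has degree at most four. -/
theorem SmcGlob.of_sumNT {r : ℕ} {g : MvPolynomial (Fin 3) ℂ}
    {h : Fin r → Polynomial ℂ} (hh : ∀ i, 0 < (h i).natDegree) (hne : SS.sh g h ≠ 0)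
    (P : Finset (Fin 3 → ℂ))
    (hc : ∀ (p : Fin 3 → ℂ) (z : Fin r → ℂ), eval p g + ∑ i, (h i).eval (z i) = 0 →
      (∀ i, eval p (pderiv i g) = 0) → (∀ i, (Polynomial.derivative (h i)).eval (z i) = 0) →
      YG.hessAt g p ≠ 0 ∨ (p ∈ P ∧ NodCond (homogeneousComponent 3 (translate p g))) ∨
        (g.totalDegree ≤ 4 ∧ (TriCond (homogeneousComponent 3 (translate p g)) ∨
          NodCond (homogeneousComponent 3 (translate p g))))) :
    SmcGlob (SS.sh g h) := by
  by_cases hd : g.totalDegree ≤ 4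
  · refine SmcGlob.of_sum3u hh hne hd fun p z h1 h2 h3 => ?_
    rcases hc p z h1 h2 h3 with h | ⟨-, hN⟩ | ⟨-, hT⟩
    · exact Or.inl h
    · exact Or.inr (Or.inr hN)
    · exact Or.inr hT
  refine smcGlob_sumNT hh hne P (fun G hG e he => smcLoc_sg_nt G hG e he) fun p z h1 h2 h3 => ?_
  by_cases hH : YG.hessAt g p = 0
  · refine Or.inr ?_
    rcases hc p z h1 h2 h3 with h | ⟨hP, hN⟩ | ⟨hd', -⟩
    · exact absurd hH h
    · exact ⟨hP, Or.inl ⟨low_of_crit3 h1 h2 hH, by rw [hc_three_translate_add_C]; exact hN⟩⟩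
    · exact absurd hd' hd
  · exact Or.inl hH

open CV SS QV in
/-- **The strong monodromy conjecture, local version**, for the sums
`f = g(x_1, x_2, x_3) + ∑ h_i(z_i)`, where the first or the second derivatives of `g` do
not all vanish at the origin, or the part of degree three of `g` satisfies `NodCond`, or it satisfies
`TriCond` and `g` has degree at most four. -/
theorem SmcLoc.of_sumNT {r : ℕ} {g : MvPolynomial (Fin 3) ℂ}
    {h : Fin r → Polynomial ℂ} (hh : ∀ i, 0 < (h i).natDegree) (hne : SS.sh g h ≠ 0)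
    (h0 : coeff 0 (SS.sh g h) = 0)
    (hc : (∀ i, coeff 0 (pderiv i g) = 0) → YG.hessAt g 0 ≠ 0 ∨
      NodCond (homogeneousComponent 3 g) ∨
        (g.totalDegree ≤ 4 ∧ TriCond (homogeneousComponent 3 g))) : SmcLoc (SS.sh g h) := by
  refine smcLoc_sumNT hh hne h0 (fun G hG e he => smcLoc_sg_nt G hG e he) fun c h1 h2 hH => ?_
  rcases hc fun i => by rw [coeff_zero_eq_eval]; exact h2 i with h | hN | ⟨hd, hT⟩
  · exact absurd hH h
  · refine Or.inl ⟨low_of_crit3 h1 h2 hH, ?_⟩
    rw [hc_three_translate_add_C, translate_zero']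
    exact hN
  · refine Or.inr ⟨totalDegree_tr4 hd _ _, ?_⟩
    rw [hc_three_translate_add_C, translate_zero']
    exact hT

end MPb07157
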