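import Pool.Agent.Lib.MP_b07157_agQV.Nd

/-!
# The Jacobian ideal of `xyz + a x^3 + b y^3` in degrees at least four
-/

noncomputable section

namespace MPb07157

open MvPolynomial

namespace QV

theorem hom3 (c : ℂ) (i j l : ℕ) :
    (C c * X 0 ^ i * X 1 ^ j * X 2 ^ l : MvPolynomial (Fin 3) ℂ).IsHomogeneous (i + j + l) := by
  have h := (((isHomogeneous_C (Fin 3) c).mul ((isHomogeneous_X ℂ (0 : Fin 3)).pow i)).mul
    ((isHomogeneous_X ℂ (1 : Fin 3)).pow j)).mul ((isHomogeneous_X ℂ (2 : Fin 3)).pow l)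
  have e : 0 + 1 * i + 1 * j + 1 * l = i + j + l := by ring
  rw [e] at h
  exact h

theorem hom3' (c : ℂ) {i j l k : ℕ} (h : i + j + l = k) :
    (C c * X 0 ^ i * X 1 ^ j * X 2 ^ l : MvPolynomial (Fin 3) ℂ).IsHomogeneous k := by
  rw [← h]
  exact hom3 c i j l

/-- The decomposition of the forms of degree `k` modulo the Jacobian ideal. -/
def TDec (a b : ℂ) (k : ℕ) (R : MvPolynomial (Fin 3) ℂ) : Prop :=
  ∃ (R1 R2 R3 : MvPolynomial (Fin 3) ℂ) (α β γ : ℂ), R1.IsHomogeneous (k - 2) ∧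
    R2.IsHomogeneous (k - 2) ∧ R3.IsHomogeneous (k - 2) ∧
    R = (X 1 * X 2 + C (3 * a) * X 0 ^ 2) * R1 + (X 0 * X 2 + C (3 * b) * X 1 ^ 2) * R2 +
      X 0 * X 1 * R3 + C α * X 0 ^ k + C β * X 1 ^ k + C γ * X 2 ^ k

theorem TDec.zero (a b : ℂ) (k : ℕ) : TDec a b k 0 :=
  ⟨0, 0, 0, 0, 0, 0, isHomogeneous_zero _ _ _, isHomogeneous_zero _ _ _, isHomogeneous_zero _ _ _,
    by simp⟩

theorem TDec.add {a b : ℂ} {k : ℕ} {R S : MvPolynomial (Fin 3) ℂ} (hR : TDec a b k R)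
    (hS : TDec a b k S) : TDec a b k (R + S) := by
  obtain ⟨R1, R2, R3, α, β, γ, h1, h2, h3, rfl⟩ := hR
  obtain ⟨S1, S2, S3, α', β', γ', g1, g2, g3, rfl⟩ := hS
  refine ⟨R1 + S1, R2 + S2, R3 + S3, α + α', β + β', γ + γ', h1.add g1, h2.add g2, h3.add g3, ?_⟩
  rw [C_add, C_add, C_add]
  ring

theorem TDec.mon {a b : ℂ} {k : ℕ} (hk : 4 ≤ k) (c : ℂ) {i j l : ℕ} (h : i + j + l = k) :
    TDec a b k (C c * X 0 ^ i * X 1 ^ j * X 2 ^ l) := by
  have h0 : ∀ m, (0 : MvPolynomial (Fin 3) ℂ).IsHomogeneous m := isHomogeneous_zero _ _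
  rcases i with _ | i
  · rcases j with _ | j
    · refine ⟨0, 0, 0, 0, 0, c, h0 _, h0 _, h0 _, ?_⟩
      have e : l = k := by omega
      rw [e]
      simp
    · rcases l with _ | l
      · refine ⟨0, 0, 0, 0, c, 0, h0 _, h0 _, h0 _, ?_⟩
        have e : j + 1 = k := by omega
        rw [e]
        simp
      · rcases j with _ | j
        · obtain ⟨l, rfl⟩ : ∃ l', l = l' + 1 := ⟨l - 1, by omega⟩
          refine ⟨C c * X 0 ^ 0 * X 1 ^ 0 * X 2 ^ (l + 1),
            C (-(3 * a * c)) * X 0 ^ 1 * X 1 ^ 0 * X 2 ^ l,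
            C (3 * b * (3 * a * c)) * X 0 ^ 0 * X 1 ^ 1 * X 2 ^ l, 0, 0, 0,
            hom3' _ (by omega), hom3' _ (by omega), hom3' _ (by omega), ?_⟩
          simp only [map_mul, map_neg, C_0]
          ring
        · refine ⟨C c * X 0 ^ 0 * X 1 ^ (j + 1) * X 2 ^ l, 0,
            C (-(3 * a * c)) * X 0 ^ 1 * X 1 ^ j * X 2 ^ l, 0, 0, 0,
            hom3' _ (by omega), h0 _, hom3' _ (by omega), ?_⟩
          simp only [map_mul, map_neg, C_0]
          ring
  · rcases j with _ | j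
    · rcases l with _ | l
      · refine ⟨0, 0, 0, c, 0, 0, h0 _, h0 _, h0 _, ?_⟩
        have e : i + 1 = k := by omega
        rw [e]
        simp
      · rcases i with _ | i
        · obtain ⟨l, rfl⟩ : ∃ l', l = l' + 1 := ⟨l - 1, by omega⟩
          refine ⟨C (-(3 * b * c)) * X 0 ^ 0 * X 1 ^ 1 * X 2 ^ l,
            C c * X 0 ^ 0 * X 1 ^ 0 * X 2 ^ (l + 1),
            C (3 * a * (3 * b * c)) * X 0 ^ 1 * X 1 ^ 0 * X 2 ^ l, 0, 0, 0,
            hom3' _ (by omega), hom3' _ (by omega), hom3' _ (by omega), ?_⟩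
          simp only [map_mul, map_neg, C_0]
          ring
        · refine ⟨0, C c * X 0 ^ (i + 1) * X 1 ^ 0 * X 2 ^ l,
            C (-(3 * b * c)) * X 0 ^ i * X 1 ^ 1 * X 2 ^ l, 0, 0, 0,
            h0 _, hom3' _ (by omega), hom3' _ (by omega), ?_⟩
          simp only [map_mul, map_neg, C_0]
          ring
    · refine ⟨0, 0, C c * X 0 ^ i * X 1 ^ j * X 2 ^ l, 0, 0, 0, h0 _, h0 _,
        hom3' _ (by omega), ?_⟩
      simp only [C_0]
      ring

/-- Every form of degree `k ≥ 4` is, modulo the Jacobian ideal of `xyz + a x^3 + b y^3`, a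
combination of `x^k`, `y^k` and `z^k`. -/
theorem tdec_of_homog (a b : ℂ) {k : ℕ} (hk : 4 ≤ k) {R : MvPolynomial (Fin 3) ℂ}
    (hR : R.IsHomogeneous k) : TDec a b k R := by
  classical
  rw [R.as_sum]
  have key : ∀ S : Finset (Fin 3 →₀ ℕ), (∀ v ∈ S, v ∈ R.support) →
      TDec a b k (∑ v ∈ S, monomial v (coeff v R)) := by
    intro S
    induction S using Finset.induction_on with
    | empty => intro _; rw [Finset.sum_empty]; exact TDec.zero a b k
    | insert v S hv ih =>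
      intro h
      rw [Finset.sum_insert hv]
      refine TDec.add ?_ (ih fun w hw => h w (Finset.mem_insert_of_mem hw))
      have h1 := hR (mem_support_iff.1 (h v (Finset.mem_insert_self _ _)))
      rw [Finsupp.weight_apply, Finsupp.sum_fintype _ _ fun _ => by simp,
        Fin.sum_univ_three] at h1
      simp only [Pi.one_apply, smul_eq_mul, mul_one] at h1
      have h2 : monomial v (coeff v R) = C (coeff v R) * X 0 ^ v 0 * X 1 ^ v 1 * X 2 ^ v 2 := by
        rw [monomial_eq, Finsupp.prod_fintype _ _ (fun i => pow_zero _), Fin.prod_univ_three]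
        ring
      rw [h2]
      exact TDec.mon hk _ h1
  exact key _ fun v hv => hv

end QV

end MPb07157
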