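import Pool.Agent.Lib.MP_b07157_agQV.TTa
import Pool.Agent.Lib.MP_b07157_agM.IFT
import Pool.Agent.Lib.MP_b07157_agE.EA

/-!
# The formal normal form of the germs T_pqr
-/

noncomputable section

namespace MPb07157

open MvPolynomial

namespace QV

open IFT (Ge)

variable {n : ℕ}

/-! ### Orders -/

theorem ge_sub_mul {p q p' q' : MvPowerSeries (Fin n) ℂ} {d a b : ℕ} (hd : 1 ≤ d) (hp : Ge a p)
    (hq : Ge b q') (h1 : Ge (d + a - 1) (p' - p)) (h2 : Ge (d + b - 1) (q' - q)) :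
    Ge (d + (a + b) - 1) (p' * q' - p * q) := by
  have e : p' * q' - p * q = (p' - p) * q' + p * (q' - q) := by ring
  rw [e]
  exact ((h1.mul hq).mono (by omega)).add ((hp.mul h2).mono (by omega))

theorem ge_pow {h : MvPowerSeries (Fin n) ℂ} (h1 : Ge 1 h) (m : ℕ) : Ge m (h ^ m) := by
  induction m with
  | zero => exact IFT.ge_zero _
  | succ m ih =>
    rw [pow_succ]
    exact ih.mul h1

theorem ge_sub_pow {h h' : MvPowerSeries (Fin n) ℂ} (h1 : Ge 1 h) (h1' : Ge 1 h') {d : ℕ}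
    (hd : 1 ≤ d) (h2 : Ge d (h' - h)) (m : ℕ) : Ge (d + m - 1) (h' ^ m - h ^ m) := by
  induction m with
  | zero =>
    rw [pow_zero, pow_zero, sub_self]
    exact Ge.zero _
  | succ m ih =>
    rw [pow_succ, pow_succ]
    exact ge_sub_mul hd (ge_pow h1 m) h1' ih (h2.mono (by omega))

theorem ge_prod {h : Fin n → MvPowerSeries (Fin n) ℂ} (h1 : ∀ i, Ge 1 (h i)) (v : Fin n →₀ ℕ)
    (s : Finset (Fin n)) : Ge (∑ i ∈ s, v i) (∏ i ∈ s, h i ^ v i) := by
  classical
  induction s using Finset.induction_on with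
  | empty => exact IFT.ge_zero _
  | insert i s hi ih =>
    rw [Finset.sum_insert hi, Finset.prod_insert hi]
    exact (ge_pow (h1 i) _).mul ih

theorem ge_sub_prod {h h' : Fin n → MvPowerSeries (Fin n) ℂ} (h1 : ∀ i, Ge 1 (h i))
    (h1' : ∀ i, Ge 1 (h' i)) {d : ℕ} (hd : 1 ≤ d) (h2 : ∀ i, Ge d (h' i - h i))
    (v : Fin n →₀ ℕ) (s : Finset (Fin n)) :
    Ge (d + ∑ i ∈ s, v i - 1) (∏ i ∈ s, h' i ^ v i - ∏ i ∈ s, h i ^ v i) := by
  classical
  induction s using Finset.induction_on with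
  | empty =>
    rw [Finset.prod_empty, Finset.prod_empty, sub_self]
    exact Ge.zero _
  | insert i s hi ih =>
    rw [Finset.sum_insert hi, Finset.prod_insert hi, Finset.prod_insert hi]
    exact ge_sub_mul hd (ge_pow (h1 i) _) (ge_prod h1' v s) (ge_sub_pow (h1 i) (h1' i) hd (h2 i) _)
      ih

/-- The values of a polynomial of order at least `m` at close points. -/
theorem ge_sub_aeval {h h' : Fin n → MvPowerSeries (Fin n) ℂ} (h1 : ∀ i, Ge 1 (h i))
    (h1' : ∀ i, Ge 1 (h' i)) {d : ℕ} (hd : 1 ≤ d) (h2 : ∀ i, Ge d (h' i - h i))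
    {M : MvPolynomial (Fin n) ℂ} {m : ℕ} (hM : ∀ v ∈ M.support, m ≤ v.degree) :
    Ge (d + m - 1) (aeval h' M - aeval h M) := by
  rw [aeval_def, aeval_def, eval₂_eq', eval₂_eq', ← Finset.sum_sub_distrib]
  refine Ge.sum _ _ fun v hv => ?_
  rw [← mul_sub]
  refine Ge.C_mul _ ?_
  refine (ge_sub_prod h1 h1' hd h2 v Finset.univ).mono ?_
  have h3 := hM v hv
  rw [Finsupp.degree_eq_sum] at h3
  omega

theorem ge_aeval {h : Fin n → MvPowerSeries (Fin n) ℂ} (h1 : ∀ i, Ge 1 (h i))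
    {M : MvPolynomial (Fin n) ℂ} {m : ℕ} (hM : ∀ v ∈ M.support, m ≤ v.degree) :
    Ge m (aeval h M) := by
  rw [aeval_def, eval₂_eq']
  refine Ge.sum _ _ fun v hv => Ge.C_mul _ ?_
  refine (ge_prod h1 v Finset.univ).mono ?_
  have h3 := hM v hv
  rw [Finsupp.degree_eq_sum] at h3
  omega

theorem ge_coe_iff {M : MvPolynomial (Fin n) ℂ} {m : ℕ} :
    Ge m (M : MvPowerSeries (Fin n) ℂ) ↔ ∀ v ∈ M.support, m ≤ v.degree := by
  constructor
  · intro h v hv
    by_contra hcon
    push Not at hcon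
    have h1 := h v hcon
    rw [MvPolynomial.coeff_coe] at h1
    exact mem_support_iff.1 hv h1
  · intro h v hv
    rw [MvPolynomial.coeff_coe]
    by_contra hcon
    have := h v (mem_support_iff.2 hcon)
    omega

theorem ge_homog {M : MvPolynomial (Fin n) ℂ} {m : ℕ} (hM : M.IsHomogeneous m) :
    Ge m (M : MvPowerSeries (Fin n) ℂ) := by
  rw [ge_coe_iff]
  intro v hv
  have h1 := hM (mem_support_iff.1 hv)
  rw [Finsupp.weight_apply, Finsupp.sum_fintype _ _ fun _ => by simp] at h1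
  rw [Finsupp.degree_eq_sum]
  refine le_of_eq (h1.symm.trans (Finset.sum_congr rfl fun i _ => ?_))
  simp

theorem ge_X (i : Fin n) : Ge 1 (MvPowerSeries.X i : MvPowerSeries (Fin n) ℂ) :=
  IFT.ge_one_iff.2 (MvPowerSeries.constantCoeff_X i)

theorem ge_equiv (E : MvPowerSeries (Fin n) ℂ ≃ₐ[ℂ] MvPowerSeries (Fin n) ℂ) {m : ℕ}
    {h : MvPowerSeries (Fin n) ℂ} (hh : Ge m h) : Ge m (E h) := by
  rcases m with _ | m
  · exact IFT.ge_zero _
  · intro v hv
    refine coeff_equiv_eq_zero E m (fun v hv => hh v ?_) v ?_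
    · rw [Finsupp.degree_eq_sum]
      omega
    · rw [Finsupp.degree_eq_sum] at hv
      omega

/-- Limits. -/
theorem exists_lim {s : ℕ → MvPowerSeries (Fin n) ℂ} {c : ℕ}
    (h : ∀ j, Ge (j + c) (s (j + 1) - s j)) : ∃ L : MvPowerSeries (Fin n) ℂ,
      ∀ j, Ge (j + c) (L - s j) := by
  have h1 : ∀ i m, Ge (i + c) (s (i + m) - s i) := by
    intro i m
    induction m with
    | zero =>
      rw [add_zero, sub_self]
      exact Ge.zero _
    | succ m ih =>
      have e : s (i + (m + 1)) - s i = (s (i + m + 1) - s (i + m)) + (s (i + m) - s i) := by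
        rw [← add_assoc]
        ring
      rw [e]
      exact ((h (i + m)).mono (by omega)).add ih
  refine ⟨fun v => MvPowerSeries.coeff v (s (v.degree + 1)), fun j v hv => ?_⟩
  rw [map_sub]
  have e : MvPowerSeries.coeff v (fun v => MvPowerSeries.coeff v (s (v.degree + 1)) :
      MvPowerSeries (Fin n) ℂ) = MvPowerSeries.coeff v (s (v.degree + 1)) := rfl
  rw [e, sub_eq_zero]
  rcases le_total j (v.degree + 1) with hj | hj
  · obtain ⟨m, hm⟩ := Nat.exists_eq_add_of_le hj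
    have h2 := h1 j m v hv
    rw [← hm, map_sub, sub_eq_zero] at h2
    exact h2
  · obtain ⟨m, hm⟩ := Nat.exists_eq_add_of_le hj
    have h2 := h1 (v.degree + 1) m v (by omega)
    rw [← hm, map_sub, sub_eq_zero] at h2
    exact h2.symm

theorem coe_aeval {H : Fin n → MvPolynomial (Fin n) ℂ} (N : MvPolynomial (Fin n) ℂ) :
    ((aeval H N : MvPolynomial (Fin n) ℂ) : MvPowerSeries (Fin n) ℂ) =
      aeval (fun i => (H i : MvPowerSeries (Fin n) ℂ)) N := by
  have h : (MvPolynomial.coeToMvPowerSeries.algHom ℂ : MvPolynomial (Fin n) ℂ →ₐ[ℂ]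
      MvPowerSeries (Fin n) ℂ).comp (aeval H) =
      aeval (fun i => (H i : MvPowerSeries (Fin n) ℂ)) := by
    apply MvPolynomial.algHom_ext
    intro i
    rw [AlgHom.comp_apply, aeval_X, aeval_X]
    simp
  have h2 := congrArg (fun z => z N) h
  simpa using h2

end QV

end MPb07157
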