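import Pool.Agent.Lib.MP_b07157_agQV.TTb

/-!
# The formal normal form of the germs T_pqr, II
-/

noncomputable section

namespace MPb07157

open MvPolynomial

namespace QV

open IFT (Ge)

/-- The cubic form. -/
def tc (a b : ℂ) : MvPolynomial (Fin 3) ℂ := X 0 * X 1 * X 2 + C a * X 0 ^ 3 + C b * X 1 ^ 3

/-- A monomial in one variable. -/
def Ax (v : Fin 3 →₀ ℕ) : Prop := ∃ i, ∀ j, j ≠ i → v j = 0

/-- The approximations. -/
def TInv (G : MvPolynomial (Fin 3) ℂ) (a b : ℂ) (k : ℕ)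
    (s : (Fin 3 → MvPolynomial (Fin 3) ℂ) × MvPolynomial (Fin 3) ℂ) : Prop :=
  (∀ i, Ge 2 ((s.1 i : MvPowerSeries (Fin 3) ℂ) - MvPowerSeries.X i)) ∧
  (∀ v ∈ (s.2 - tc a b).support, 4 ≤ v.degree ∧ Ax v) ∧
  Ge k ((G - aeval s.1 s.2 : MvPolynomial (Fin 3) ℂ) : MvPowerSeries (Fin 3) ℂ)

theorem ax_single (i : Fin 3) (k : ℕ) : Ax (Finsupp.single i k) :=
  ⟨i, fun j hj => Finsupp.single_eq_of_ne hj⟩

theorem supp_cX {i : Fin 3} {k : ℕ} {c : ℂ} {v : Fin 3 →₀ ℕ}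
    (hv : v ∈ (C c * X i ^ k : MvPolynomial (Fin 3) ℂ).support) : v = Finsupp.single i k := by
  classical
  rw [mem_support_iff, coeff_C_mul, coeff_X_pow] at hv
  by_contra h
  rw [if_neg (Ne.symm h), mul_zero] at hv
  exact hv rfl

/-- One step. -/
theorem exists_tstep {G : MvPolynomial (Fin 3) ℂ} {a b : ℂ} {k : ℕ} (hk : 4 ≤ k)
    {s : (Fin 3 → MvPolynomial (Fin 3) ℂ) × MvPolynomial (Fin 3) ℂ} (hs : TInv G a b k s) :
    ∃ s' : (Fin 3 → MvPolynomial (Fin 3) ℂ) × MvPolynomial (Fin 3) ℂ, TInv G a b (k + 1) s' ∧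
      (∀ i, Ge (k - 2) ((s'.1 i : MvPowerSeries (Fin 3) ℂ) - (s.1 i : MvPowerSeries (Fin 3) ℂ))) ∧
      Ge k ((s'.2 : MvPowerSeries (Fin 3) ℂ) - (s.2 : MvPowerSeries (Fin 3) ℂ)) := by
  classical
  obtain ⟨H, N⟩ := s
  obtain ⟨hH, hN, hD⟩ := hs
  simp only at hH hN hD
  obtain ⟨D, hDd⟩ : ∃ D, D = G - aeval H N := ⟨_, rfl⟩
  rw [← hDd] at hD
  obtain ⟨R1, R2, R3, α, β, γ, h1, h2, h3, hR⟩ :=
    tdec_of_homog a b hk (homogeneousComponent_isHomogeneous k D)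
  obtain ⟨T, hT⟩ : ∃ T : MvPolynomial (Fin 3) ℂ, T = C α * X 0 ^ k + C β * X 1 ^ k + C γ * X 2 ^ k :=
    ⟨_, rfl⟩
  have hTs : ∀ v ∈ T.support, v.degree = k ∧ Ax v := by
    intro v hv
    rw [hT] at hv
    have hdeg : ∀ i : Fin 3, (Finsupp.single i k).degree = k := fun i => by
      rw [Finsupp.degree_single]
    rcases Finset.mem_union.1 (support_add hv) with hv | hv
    · rcases Finset.mem_union.1 (support_add hv) with hv | hv
      · rw [supp_cX hv]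
        exact ⟨hdeg _, ax_single _ _⟩
      · rw [supp_cX hv]
        exact ⟨hdeg _, ax_single _ _⟩
    · rw [supp_cX hv]
      exact ⟨hdeg _, ax_single _ _⟩
  obtain ⟨r, hr⟩ : ∃ r : Fin 3 → MvPolynomial (Fin 3) ℂ, r = ![R1, R2, R3] := ⟨_, rfl⟩
  have hr0 : r 0 = R1 := by rw [hr]; rfl
  have hr1 : r 1 = R2 := by rw [hr]; rfl
  have hr2 : r 2 = R3 := by rw [hr]; rfl
  have hrG : ∀ i, Ge (k - 2) (r i : MvPowerSeries (Fin 3) ℂ) := by
    intro i
    fin_cases i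
    · exact hr0 ▸ ge_homog h1
    · exact hr1 ▸ ge_homog h2
    · exact hr2 ▸ ge_homog h3
  -- the pieces in the power series ring
  have hHX : ∀ i, Ge 1 (H i : MvPowerSeries (Fin 3) ℂ) := fun i => by
    have e : (H i : MvPowerSeries (Fin 3) ℂ) = ((H i : MvPowerSeries (Fin 3) ℂ) -
      MvPowerSeries.X i) + MvPowerSeries.X i := by ring
    rw [e]
    exact ((hH i).mono (by norm_num)).add (ge_X i)
  obtain ⟨H', hH'⟩ : ∃ H' : Fin 3 → MvPolynomial (Fin 3) ℂ, H' = fun i => H i + r i := ⟨_, rfl⟩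
  have hco' : ∀ i, (H' i : MvPowerSeries (Fin 3) ℂ) = (H i : MvPowerSeries (Fin 3) ℂ) +
      (r i : MvPowerSeries (Fin 3) ℂ) := by
    intro i
    rw [hH', MvPolynomial.coe_add]
  have hdiff : ∀ i, Ge (k - 2) ((H' i : MvPowerSeries (Fin 3) ℂ) -
      (H i : MvPowerSeries (Fin 3) ℂ)) := by
    intro i
    rw [hco', add_sub_cancel_left]
    exact hrG i
  have hH'X : ∀ i, Ge 2 ((H' i : MvPowerSeries (Fin 3) ℂ) - MvPowerSeries.X i) := by
    intro i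
    have e : (H' i : MvPowerSeries (Fin 3) ℂ) - MvPowerSeries.X i =
      ((H i : MvPowerSeries (Fin 3) ℂ) - MvPowerSeries.X i) +
        (r i : MvPowerSeries (Fin 3) ℂ) := by
      rw [hco']
      ring
    rw [e]
    exact (hH i).add ((hrG i).mono (by omega))
  have hH'1 : ∀ i, Ge 1 (H' i : MvPowerSeries (Fin 3) ℂ) := fun i => by
    rw [hco']
    exact (hHX i).add ((hrG i).mono (by omega))
  refine ⟨(H', N + T), ⟨hH'X, ?_, ?_⟩, hdiff, ?_⟩
  · intro v hv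
    simp only at hv
    have e : N + T - tc a b = (N - tc a b) + T := by ring
    rw [e] at hv
    rcases Finset.mem_union.1 (support_add hv) with hv | hv
    · exact hN v hv
    · exact ⟨by rw [(hTs v hv).1]; exact hk, (hTs v hv).2⟩
  · simp only
    obtain ⟨M, hM⟩ : ∃ M, M = N - tc a b := ⟨_, rfl⟩
    have hNM : N = tc a b + M := by rw [hM]; ring
    have hMs : ∀ v ∈ M.support, 4 ≤ v.degree := fun v hv => (hN v (hM ▸ hv)).1
    -- the three differences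
    have d1 : Ge (k + 1) (aeval (fun i => (H' i : MvPowerSeries (Fin 3) ℂ)) M -
        aeval (fun i => (H i : MvPowerSeries (Fin 3) ℂ)) M) :=
      (ge_sub_aeval hHX hH'1 (by omega) hdiff hMs).mono (by omega)
    have d2 : Ge (k + 1) (aeval (fun i => (H' i : MvPowerSeries (Fin 3) ℂ)) T -
        aeval (fun i => (MvPowerSeries.X i : MvPowerSeries (Fin 3) ℂ)) T) :=
      (ge_sub_aeval ge_X hH'1 (by norm_num) hH'X (m := k)
        fun v hv => (hTs v hv).1.ge).mono (by omega)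
    have d3 : Ge (k + 1) ((D : MvPowerSeries (Fin 3) ℂ) -
        ((homogeneousComponent k D : MvPolynomial (Fin 3) ℂ) : MvPowerSeries (Fin 3) ℂ)) := by
      intro v hv
      rw [map_sub, MvPolynomial.coeff_coe, MvPolynomial.coeff_coe, coeff_homogeneousComponent]
      by_cases hvk : v.degree = k
      · rw [if_pos hvk, sub_self]
      · rw [if_neg hvk, sub_zero]
        have h4 := hD v (by omega)
        rwa [MvPolynomial.coeff_coe] at h4
    obtain ⟨x0, hx0⟩ : ∃ x : MvPowerSeries (Fin 3) ℂ, x = MvPowerSeries.X 0 := ⟨_, rfl⟩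
    obtain ⟨x1, hx1⟩ : ∃ x : MvPowerSeries (Fin 3) ℂ, x = MvPowerSeries.X 1 := ⟨_, rfl⟩
    obtain ⟨x2, hx2⟩ : ∃ x : MvPowerSeries (Fin 3) ℂ, x = MvPowerSeries.X 2 := ⟨_, rfl⟩
    obtain ⟨g0, hg0⟩ : ∃ x : MvPowerSeries (Fin 3) ℂ, x = (H 0 : MvPowerSeries (Fin 3) ℂ) :=
      ⟨_, rfl⟩
    obtain ⟨g1, hg1⟩ : ∃ x : MvPowerSeries (Fin 3) ℂ, x = (H 1 : MvPowerSeries (Fin 3) ℂ) :=
      ⟨_, rfl⟩
    obtain ⟨g2, hg2⟩ : ∃ x : MvPowerSeries (Fin 3) ℂ, x = (H 2 : MvPowerSeries (Fin 3) ℂ) :=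
      ⟨_, rfl⟩
    obtain ⟨r0, hr0'⟩ : ∃ x : MvPowerSeries (Fin 3) ℂ, x = (R1 : MvPowerSeries (Fin 3) ℂ) :=
      ⟨_, rfl⟩
    obtain ⟨r1, hr1'⟩ : ∃ x : MvPowerSeries (Fin 3) ℂ, x = (R2 : MvPowerSeries (Fin 3) ℂ) :=
      ⟨_, rfl⟩
    obtain ⟨r2, hr2'⟩ : ∃ x : MvPowerSeries (Fin 3) ℂ, x = (R3 : MvPowerSeries (Fin 3) ℂ) :=
      ⟨_, rfl⟩
    have k0 : Ge (k - 2) r0 := by rw [hr0', ← hr0]; exact hrG 0
    have k1 : Ge (k - 2) r1 := by rw [hr1', ← hr1]; exact hrG 1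
    have k2 : Ge (k - 2) r2 := by rw [hr2', ← hr2]; exact hrG 2
    have l0 : Ge 1 g0 := by rw [hg0]; exact hHX 0
    have l1 : Ge 1 g1 := by rw [hg1]; exact hHX 1
    have l2 : Ge 1 g2 := by rw [hg2]; exact hHX 2
    have m0 : Ge 2 (g0 - x0) := by rw [hg0, hx0]; exact hH 0
    have m1 : Ge 2 (g1 - x1) := by rw [hg1, hx1]; exact hH 1
    have m2 : Ge 2 (g2 - x2) := by rw [hg2, hx2]; exact hH 2
    have y0 : Ge 1 x0 := by rw [hx0]; exact ge_X 0
    have y1 : Ge 1 x1 := by rw [hx1]; exact ge_X 1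
    have y2 : Ge 1 x2 := by rw [hx2]; exact ge_X 2
    obtain ⟨A, hA⟩ : ∃ A : MvPowerSeries (Fin 3) ℂ, A = MvPowerSeries.C a := ⟨_, rfl⟩
    obtain ⟨B, hB⟩ : ∃ B : MvPowerSeries (Fin 3) ℂ, B = MvPowerSeries.C b := ⟨_, rfl⟩
    have zA : Ge 0 A := IFT.ge_zero _
    have zB : Ge 0 B := IFT.ge_zero _
    have z3 : Ge 0 (3 : MvPowerSeries (Fin 3) ℂ) := IFT.ge_zero _
    have tch : ∀ h : Fin 3 → MvPowerSeries (Fin 3) ℂ,
        aeval h (tc a b) = h 0 * h 1 * h 2 + A * h 0 ^ 3 + B * h 1 ^ 3 := by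
      intro h
      unfold tc
      simp only [map_add, map_mul, map_pow, aeval_X, algHom_C]
      rw [hA, hB]
      rfl
    have hTx : aeval (fun i => (MvPowerSeries.X i : MvPowerSeries (Fin 3) ℂ)) T =
        (T : MvPowerSeries (Fin 3) ℂ) := by
      have h5 := coe_aeval (H := X) T
      rw [aeval_X_left_apply] at h5
      rw [h5]
      simp only [MvPolynomial.coe_X]
    have hRc : ((homogeneousComponent k D : MvPolynomial (Fin 3) ℂ) : MvPowerSeries (Fin 3) ℂ) =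
        (x1 * x2 + 3 * A * x0 ^ 2) * r0 + (x0 * x2 + 3 * B * x1 ^ 2) * r1 + x0 * x1 * r2 +
          (T : MvPowerSeries (Fin 3) ℂ) := by
      rw [hR, hT]
      simp only [MvPolynomial.coe_add, MvPolynomial.coe_mul, MvPolynomial.coe_pow,
        MvPolynomial.coe_C, MvPolynomial.coe_X, map_mul]
      rw [← hx0, ← hx1, ← hx2, ← hr0', ← hr1', ← hr2', ← hA, ← hB]
      have h6 : (MvPowerSeries.C (3 : ℂ) : MvPowerSeries (Fin 3) ℂ) = 3 := by
        have := map_ofNat (MvPowerSeries.C : ℂ →+* MvPowerSeries (Fin 3) ℂ) 3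
        exact this
      rw [h6]
      ring
    -- the error
    have err : Ge (k + 1) (((g1 * g2 - x1 * x2) * r0 + 3 * A * ((g0 ^ 2 - x0 ^ 2) * r0)) +
        ((g0 * g2 - x0 * x2) * r1 + 3 * B * ((g1 ^ 2 - x1 ^ 2) * r1)) +
        (g0 * g1 - x0 * x1) * r2 +
        (g0 * (r1 * r2) + g1 * (r0 * r2) + g2 * (r0 * r1) + r0 * (r1 * r2)) +
        A * (3 * (g0 * (r0 * r0)) + r0 * (r0 * r0)) +
        B * (3 * (g1 * (r1 * r1)) + r1 * (r1 * r1))) := by
      have p3 : ∀ {p q p' q' : MvPowerSeries (Fin 3) ℂ}, Ge 1 p → Ge 1 q → Ge 1 p' → Ge 1 q' →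
          Ge 2 (p - p') → Ge 2 (q - q') → Ge 3 (p * q - p' * q') := by
        intro p q p' q' c1 c2 c3 c4 c5 c6
        exact ge_sub_mul (d := 2) (a := 1) (b := 1) (by norm_num) c3 c2 c5 c6
      have e12 := p3 l1 l2 y1 y2 m1 m2
      have e02 := p3 l0 l2 y0 y2 m0 m2
      have e01 := p3 l0 l1 y0 y1 m0 m1
      have e00 : Ge 3 (g0 ^ 2 - x0 ^ 2) := by
        rw [pow_two, pow_two]
        exact p3 l0 l0 y0 y0 m0 m0
      have e11 : Ge 3 (g1 ^ 2 - x1 ^ 2) := by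
        rw [pow_two, pow_two]
        exact p3 l1 l1 y1 y1 m1 m1
      have q1 : ∀ {p q : MvPowerSeries (Fin 3) ℂ}, Ge 3 p → Ge (k - 2) q → Ge (k + 1) (p * q) :=
        fun c1 c2 => (c1.mul c2).mono (by omega)
      have q2 : ∀ {p q t : MvPowerSeries (Fin 3) ℂ}, Ge 1 p → Ge (k - 2) q → Ge (k - 2) t →
          Ge (k + 1) (p * (q * t)) :=
        fun c1 c2 c3 => (c1.mul (c2.mul c3)).mono (by omega)
      have q3 : ∀ {p q t : MvPowerSeries (Fin 3) ℂ}, Ge (k - 2) p → Ge (k - 2) q → Ge (k - 2) t →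
          Ge (k + 1) (p * (q * t)) :=
        fun c1 c2 c3 => (c1.mul (c2.mul c3)).mono (by omega)
      have q4 : ∀ {u p : MvPowerSeries (Fin 3) ℂ}, Ge 0 u → Ge (k + 1) p → Ge (k + 1) (u * p) :=
        fun c1 c2 => (c1.mul c2).mono (by omega)
      have zA3 : Ge 0 (3 * A) := IFT.ge_zero _
      have zB3 : Ge 0 (3 * B) := IFT.ge_zero _
      exact (((((((q1 e12 k0).add (q4 zA3 (q1 e00 k0))).add
        ((q1 e02 k1).add (q4 zB3 (q1 e11 k1)))).add (q1 e01 k2)).add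
        ((((q2 l0 k1 k2).add (q2 l1 k0 k2)).add (q2 l2 k0 k1)).add (q3 k0 k1 k2))).add
        (q4 zA ((q4 z3 (q2 l0 k0 k0)).add (q3 k0 k0 k0)))).add
        (q4 zB ((q4 z3 (q2 l1 k1 k1)).add (q3 k1 k1 k1))))
    have hfin : ((G - aeval H' (N + T) : MvPolynomial (Fin 3) ℂ) : MvPowerSeries (Fin 3) ℂ) =
        ((D : MvPowerSeries (Fin 3) ℂ) -
          ((homogeneousComponent k D : MvPolynomial (Fin 3) ℂ) : MvPowerSeries (Fin 3) ℂ)) -
        (aeval (fun i => (H' i : MvPowerSeries (Fin 3) ℂ)) M -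
          aeval (fun i => (H i : MvPowerSeries (Fin 3) ℂ)) M) -
        (aeval (fun i => (H' i : MvPowerSeries (Fin 3) ℂ)) T -
          aeval (fun i => (MvPowerSeries.X i : MvPowerSeries (Fin 3) ℂ)) T) -
        (((g1 * g2 - x1 * x2) * r0 + 3 * A * ((g0 ^ 2 - x0 ^ 2) * r0)) +
        ((g0 * g2 - x0 * x2) * r1 + 3 * B * ((g1 ^ 2 - x1 ^ 2) * r1)) +
        (g0 * g1 - x0 * x1) * r2 +
        (g0 * (r1 * r2) + g1 * (r0 * r2) + g2 * (r0 * r1) + r0 * (r1 * r2)) +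
        A * (3 * (g0 * (r0 * r0)) + r0 * (r0 * r0)) +
        B * (3 * (g1 * (r1 * r1)) + r1 * (r1 * r1))) := by
      have hGD : (G : MvPowerSeries (Fin 3) ℂ) = (D : MvPowerSeries (Fin 3) ℂ) +
          aeval (fun i => (H i : MvPowerSeries (Fin 3) ℂ)) N := by
        have : G = D + aeval H N := by rw [hDd]; ring
        rw [this, MvPolynomial.coe_add, coe_aeval]
      have hsub : ((G - aeval H' (N + T) : MvPolynomial (Fin 3) ℂ) :
          MvPowerSeries (Fin 3) ℂ) = (G : MvPowerSeries (Fin 3) ℂ) -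
            aeval (fun i => (H' i : MvPowerSeries (Fin 3) ℂ)) (N + T) := by
        rw [← coe_aeval]
        exact map_sub (MvPolynomial.coeToMvPowerSeries.ringHom) _ _
      rw [hsub, hGD, map_add, hTx, hRc, hNM, map_add, map_add, tch, tch]
      have t0 : ((H' 0 : MvPolynomial (Fin 3) ℂ) : MvPowerSeries (Fin 3) ℂ) = g0 + r0 := by
        rw [hco', hr0, hg0, hr0']
      have t1 : ((H' 1 : MvPolynomial (Fin 3) ℂ) : MvPowerSeries (Fin 3) ℂ) = g1 + r1 := by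
        rw [hco', hr1, hg1, hr1']
      have t2 : ((H' 2 : MvPolynomial (Fin 3) ℂ) : MvPowerSeries (Fin 3) ℂ) = g2 + r2 := by
        rw [hco', hr2, hg2, hr2']
      rw [t0, t1, t2, ← hg0, ← hg1, ← hg2]
      ring
    rw [hfin]
    exact ((d3.sub d1).sub d2).sub err
  · simp only
    rw [MvPolynomial.coe_add, add_sub_cancel_left, ge_coe_iff]
    exact fun v hv => (hTs v hv).1.ge

end QV

end MPb07157
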