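import Pool.Agent.Lib.MP_b07157_agQV.Nd

/-!
# Non-degeneracy of the germs T_pqr
-/

noncomputable section

namespace MPb07157

open MvPolynomial

namespace QV

/-- Approximations of `xyz + A(x) + B(y) + C(z)` are Newton non-degenerate. -/
theorem nd_tpqr {F : MvPolynomial (Fin 3) ℂ} {p q r k : ℕ} (hp : 3 ≤ p) (hq : 3 ≤ q) (hr : 3 ≤ r)
    (hpk : p < k) (hqk : q < k) (hrk : r < k) (hpqr : ¬ (p = 3 ∧ q = 3 ∧ r = 3))
    (h1 : coeff (Finsupp.single 0 1 + Finsupp.single 1 1 + Finsupp.single 2 1) F ≠ 0)
    (ha : coeff (Finsupp.single 0 p) F ≠ 0) (hb : coeff (Finsupp.single 1 q) F ≠ 0)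
    (hc : coeff (Finsupp.single 2 r) F ≠ 0)
    (H : ∀ v ∈ F.support, v = Finsupp.single 0 1 + Finsupp.single 1 1 + Finsupp.single 2 1 ∨
      (v 1 = 0 ∧ v 2 = 0 ∧ p ≤ v 0) ∨ (v 0 = 0 ∧ v 2 = 0 ∧ q ≤ v 1) ∨
      (v 0 = 0 ∧ v 1 = 0 ∧ r ≤ v 2) ∨ k ≤ v 0 + v 1 + v 2) : ND F := by
  classical
  set E : Fin 3 →₀ ℕ := Finsupp.single 0 1 + Finsupp.single 1 1 + Finsupp.single 2 1 with hE
  have hE0 : E 0 = 1 := by simp [hE]
  have hE1 : E 1 = 1 := by simp [hE]
  have hE2 : E 2 = 1 := by simp [hE]
  obtain ⟨P, hP⟩ : ∃ P : Fin 3 →₀ ℕ, P = Finsupp.single 0 p := ⟨_, rfl⟩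
  obtain ⟨Q, hQ⟩ : ∃ Q : Fin 3 →₀ ℕ, Q = Finsupp.single 1 q := ⟨_, rfl⟩
  obtain ⟨R, hR⟩ : ∃ R : Fin 3 →₀ ℕ, R = Finsupp.single 2 r := ⟨_, rfl⟩
  have hP0 : P 0 = p := by simp [hP]
  have hP1 : P 1 = 0 := by simp [hP]
  have hP2 : P 2 = 0 := by simp [hP]
  have hQ0 : Q 0 = 0 := by simp [hQ]
  have hQ1 : Q 1 = q := by simp [hQ]
  have hQ2 : Q 2 = 0 := by simp [hQ]
  have hR0 : R 0 = 0 := by simp [hR]
  have hR1 : R 1 = 0 := by simp [hR]
  have hR2 : R 2 = r := by simp [hR]
  rw [← hP] at ha
  rw [← hQ] at hb
  rw [← hR] at hc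
  have hEP : E ≠ P := fun h => by
    have := hP1
    rw [← h, hE1] at this
    omega
  have hEQ : E ≠ Q := fun h => by
    have := hQ0
    rw [← h, hE0] at this
    omega
  have hER : E ≠ R := fun h => by
    have := hR0
    rw [← h, hE0] at this
    omega
  have hPQ : P ≠ Q := fun h => by
    have := hQ0
    rw [← h, hP0] at this
    omega
  have hPR : P ≠ R := fun h => by
    have := hR0
    rw [← h, hP0] at this
    omega
  have hQR : Q ≠ R := fun h => by
    have := hR1
    rw [← h, hQ1] at this
    omega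
  refine ⟨fun h0 => h1 (by rw [h0, coeff_zero]), ?_, fun w m u hw hu hm hex => ?_⟩
  · by_contra h0
    rcases H 0 (mem_support_iff.2 h0) with h | h | h | h | h
    · rw [← h] at hE0
      simp at hE0
    · simp at h
      omega
    · simp at h
      omega
    · simp at h
      omega
    · simp at h
      omega
  · by_contra hcon
    push Not at hcon
    have hmE := hm E (mem_support_iff.2 h1)
    have hmP := hm P (mem_support_iff.2 ha)
    have hmQ := hm Q (mem_support_iff.2 hb)
    have hmR := hm R (mem_support_iff.2 hc)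
    rw [Fin.sum_univ_three] at hmE hmP hmQ hmR
    rw [hE0, hE1, hE2] at hmE
    rw [hP0, hP1, hP2] at hmP
    rw [hQ0, hQ1, hQ2] at hmQ
    rw [hR0, hR1, hR2] at hmR
    have w0 := hw 0
    have w1 := hw 1
    have w2 := hw 2
    have hT : ∀ v ∈ F.support, v ∉ ({E, P, Q, R} : Finset (Fin 3 →₀ ℕ)) →
        ∑ j, w j * v j ≠ m := by
      intro v hv hvT hvm
      simp only [Finset.mem_insert, Finset.mem_singleton, not_or] at hvT
      obtain ⟨n1, n2, n3, n4⟩ := hvT
      rw [Fin.sum_univ_three] at hvm
      rcases H v hv with h | ⟨h, h', h''⟩ | ⟨h, h', h''⟩ | ⟨h, h', h''⟩ | h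
      · exact n1 h
      · have : p < v 0 := by
          rcases h''.lt_or_eq with h3 | h3
          · exact h3
          · exfalso
            apply n2
            ext i
            fin_cases i
            · exact h3.symm.trans hP0.symm
            · exact h.trans hP1.symm
            · exact h'.trans hP2.symm
        rw [h, h'] at hvm
        nlinarith
      · have : q < v 1 := by
          rcases h''.lt_or_eq with h3 | h3
          · exact h3
          · exfalso
            apply n3
            ext i
            fin_cases i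
            · exact h.trans hQ0.symm
            · exact h3.symm.trans hQ1.symm
            · exact h'.trans hQ2.symm
        rw [h, h'] at hvm
        nlinarith
      · have : r < v 2 := by
          rcases h''.lt_or_eq with h3 | h3
          · exact h3
          · exfalso
            apply n4
            ext i
            fin_cases i
            · exact h.trans hR0.symm
            · exact h'.trans hR1.symm
            · exact h3.symm.trans hR2.symm
        rw [h, h'] at hvm
        nlinarith
      · rcases le_total (w 0) (w 1) with h01 | h01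
        · rcases le_total (w 0) (w 2) with h02 | h02
          · have e1 : w 0 * (v 0 + v 1 + v 2) ≤ m := by nlinarith
            have e2 : w 0 * (p + 1) ≤ w 0 * (v 0 + v 1 + v 2) := Nat.mul_le_mul_left _ (by omega)
            nlinarith
          · have e1 : w 2 * (v 0 + v 1 + v 2) ≤ m := by nlinarith
            have e2 : w 2 * (r + 1) ≤ w 2 * (v 0 + v 1 + v 2) := Nat.mul_le_mul_left _ (by omega)
            nlinarith
        · rcases le_total (w 1) (w 2) with h02 | h02
          · have e1 : w 1 * (v 0 + v 1 + v 2) ≤ m := by nlinarith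
            have e2 : w 1 * (q + 1) ≤ w 1 * (v 0 + v 1 + v 2) := Nat.mul_le_mul_left _ (by omega)
            nlinarith
          · have e1 : w 2 * (v 0 + v 1 + v 2) ≤ m := by nlinarith
            have e2 : w 2 * (r + 1) ≤ w 2 * (v 0 + v 1 + v 2) := Nat.mul_le_mul_left _ (by omega)
            nlinarith
    have key : ∀ i, coeff E F * ph w m u i E + (coeff P F * ph w m u i P +
        (coeff Q F * ph w m u i Q + coeff R F * ph w m u i R)) = 0 := by
      intro i
      have h3 := hcon i
      rw [Lf_eq _ F (S := F.support ∪ {E, P, Q, R}) Finset.subset_union_left] at h3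
      rw [← Finset.sum_subset (s₁ := {E, P, Q, R}) Finset.subset_union_right] at h3
      · rw [Finset.sum_insert (by simp [hEP, hEQ, hER]), Finset.sum_insert (by simp [hPQ, hPR]),
          Finset.sum_insert (by simp [hQR]), Finset.sum_singleton] at h3
        exact h3
      · intro v hv hvT
        by_cases hvF : v ∈ F.support
        · have h4 := hT v hvF hvT
          unfold ph
          rw [if_neg h4, mul_zero]
        · rw [notMem_support_iff.1 hvF, zero_mul]
    have k0 := key 0
    have k1 := key 1
    have k2 := key 2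
    unfold ph at k0 k1 k2
    simp only [Fin.sum_univ_three, Fin.prod_univ_three, hE0, hE1, hE2, hP0, hP1, hP2, hQ0, hQ1,
      hQ2, hR0, hR1, hR2, mul_zero, mul_one, add_zero, zero_add, Nat.cast_zero, zero_mul,
      ite_self, pow_zero, one_mul, Nat.cast_one, pow_one] at k0 k1 k2
    have u0 := hu 0
    have u1 := hu 1
    have u2 := hu 2
    have hpC : (p : ℂ) ≠ 0 := by exact_mod_cast (by omega : p ≠ 0)
    have hqC : (q : ℂ) ≠ 0 := by exact_mod_cast (by omega : q ≠ 0)
    have hrC : (r : ℂ) ≠ 0 := by exact_mod_cast (by omega : r ≠ 0)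
    by_cases hw1 : w 0 + w 1 + w 2 = m
    · rw [if_pos hw1] at k0 k1 k2
      have n0 : w 0 * p = m := by
        by_contra h
        rw [if_neg h, mul_zero, add_zero] at k0
        exact mul_ne_zero h1 (mul_ne_zero (mul_ne_zero u0 u1) u2) k0
      have n1 : w 1 * q = m := by
        by_contra h
        rw [if_neg h, mul_zero, add_zero] at k1
        exact mul_ne_zero h1 (mul_ne_zero (mul_ne_zero u0 u1) u2) k1
      have n2 : w 2 * r = m := by
        by_contra h
        rw [if_neg h, mul_zero, add_zero] at k2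
        exact mul_ne_zero h1 (mul_ne_zero (mul_ne_zero u0 u1) u2) k2
      apply hpqr
      have a0 : w 0 * 3 ≤ m := by rw [← n0]; exact Nat.mul_le_mul_left _ hp
      have a1 : w 1 * 3 ≤ m := by rw [← n1]; exact Nat.mul_le_mul_left _ hq
      have a2 : w 2 * 3 ≤ m := by rw [← n2]; exact Nat.mul_le_mul_left _ hr
      have b0 : w 0 * 3 = m := by omega
      have b1 : w 1 * 3 = m := by omega
      have b2 : w 2 * 3 = m := by omega
      refine ⟨?_, ?_, ?_⟩
      · exact Nat.eq_of_mul_eq_mul_left w0 (n0.trans b0.symm)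
      · exact Nat.eq_of_mul_eq_mul_left w1 (n1.trans b1.symm)
      · exact Nat.eq_of_mul_eq_mul_left w2 (n2.trans b2.symm)
    · rw [if_neg hw1, mul_zero, zero_add] at k0 k1 k2
      have n0 : w 0 * p ≠ m := by
        intro h
        rw [if_pos h] at k0
        exact mul_ne_zero ha (mul_ne_zero hpC (pow_ne_zero _ u0)) k0
      have n1 : w 1 * q ≠ m := by
        intro h
        rw [if_pos h] at k1
        exact mul_ne_zero hb (mul_ne_zero hqC (pow_ne_zero _ u1)) k1
      have n2 : w 2 * r ≠ m := by
        intro h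
        rw [if_pos h] at k2
        exact mul_ne_zero hc (mul_ne_zero hrC (pow_ne_zero _ u2)) k2
      obtain ⟨v, hv, hvm⟩ := hex
      by_cases hvT : v ∈ ({E, P, Q, R} : Finset (Fin 3 →₀ ℕ))
      · simp only [Finset.mem_insert, Finset.mem_singleton] at hvT
        rw [Fin.sum_univ_three] at hvm
        rcases hvT with rfl | rfl | rfl | rfl
        · rw [hE0, hE1, hE2] at hvm
          omega
        · rw [hP0, hP1, hP2] at hvm
          omega
        · rw [hQ0, hQ1, hQ2] at hvm
          omega
        · rw [hR0, hR1, hR2] at hvm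
          omega
      · exact hT v hv hvT hvm

end QV

end MPb07157
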