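import Pool.Agent.Lib.MP_b07157_agM.IFT

/-!
# Nodal tangent cubics: decompositions and substitutions
-/

noncomputable section

namespace MPb07157

namespace TN

open MvPowerSeries IFT

abbrev RR : Type := MvPowerSeries (Fin 3) ℂ

theorem Ge.neg' {d : ℕ} {g : RR} (hg : Ge d g) : Ge d (-g) := by
  intro v hv
  rw [map_neg, hg v hv, neg_zero]

theorem Ge.mul_left' {d : ℕ} {g : RR} (h : RR) (hg : Ge d g) : Ge d (h * g) := by
  have := (ge_zero h).mul hg
  rwa [zero_add] at this

theorem Ge.mul_right' {d : ℕ} {g : RR} (h : RR) (hg : Ge d g) : Ge d (g * h) := by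
  rw [mul_comm]
  exact Ge.mul_left' h hg

theorem geX (i : Fin 3) : Ge 1 (X i : RR) := ge_one_iff.2 (constantCoeff_X i)

theorem ge_pow {g : RR} (hg : Ge 1 g) (n : ℕ) : Ge n (g ^ n) := by
  induction n with
  | zero => exact ge_zero _
  | succ n ih =>
    rw [pow_succ]
    exact ih.mul hg

theorem geM {k : ℕ} (a b c : ℕ) (h : k ≤ a + b + c) :
    Ge k ((X 0 : RR) ^ a * X 1 ^ b * X 2 ^ c) :=
  (((ge_pow (geX 0) a).mul (ge_pow (geX 1) b)).mul (ge_pow (geX 2) c)).mono h

/-- The monomials of degree `d`. -/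
theorem split_ge (d : ℕ) {H : RR} (hH : Ge d H) :
    Ge (d + 1) (H - ∑ v ∈ (Finset.univ : Finset (Fin 3)).finsuppAntidiag d,
      C (coeff v H) * monomial v (1 : ℂ)) := by
  classical
  intro u hu
  rw [map_sub, map_sum]
  simp only [coeff_C_mul, coeff_monomial, mul_ite, mul_one, mul_zero]
  rw [Finset.sum_ite_eq]
  have hmem : u ∈ (Finset.univ : Finset (Fin 3)).finsuppAntidiag d ↔ u.degree = d := by
    rw [Finset.mem_finsuppAntidiag]
    constructor
    · rintro ⟨h3, -⟩
      rw [← h3, Finsupp.degree_eq_sum]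
    · intro h3
      rw [Finsupp.degree_eq_sum] at h3
      exact ⟨h3, Finset.subset_univ _⟩
  split_ifs with h3
  · exact sub_self _
  · rw [sub_zero]
    apply hH
    have : u.degree ≠ d := fun h => h3 (hmem.2 h)
    omega

theorem mem_anti {d : ℕ} {u : Fin 3 →₀ ℕ}
    (h : u ∈ (Finset.univ : Finset (Fin 3)).finsuppAntidiag d) : u.degree = d := by
  rw [Finset.mem_finsuppAntidiag] at h
  rw [← h.1, Finsupp.degree_eq_sum]

theorem mono_eq (v : Fin 3 →₀ ℕ) :
    (monomial v (1 : ℂ) : RR) = X 0 ^ v 0 * X 1 ^ v 1 * X 2 ^ v 2 := by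
  have h1 : v = Finsupp.single 0 (v 0) + Finsupp.single 1 (v 1) + Finsupp.single 2 (v 2) := by
    ext i
    fin_cases i <;> simp
  conv_lhs => rw [h1]
  rw [X_pow_eq, X_pow_eq, X_pow_eq, monomial_mul_monomial, monomial_mul_monomial, one_mul, one_mul]

theorem deg_eq (v : Fin 3 →₀ ℕ) : v.degree = v 0 + v 1 + v 2 := by
  rw [Finsupp.degree_eq_sum, Fin.sum_univ_three]

/-- Sums of series in one variable. -/
def Pure (A : RR) : Prop := ∀ v : Fin 3 →₀ ℕ, (∀ i, v ≠ Finsupp.single i (v i)) → coeff v A = 0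

theorem Pure.add {A B : RR} (hA : Pure A) (hB : Pure B) : Pure (A + B) := fun v hv => by
  rw [map_add, hA v hv, hB v hv, add_zero]

theorem Pure.zero : Pure 0 := fun v _ => map_zero _

theorem Pure.sum {ι : Type*} (s : Finset ι) (g : ι → RR) (h : ∀ i ∈ s, Pure (g i)) :
    Pure (∑ i ∈ s, g i) := fun v hv => by
  rw [map_sum]
  exact Finset.sum_eq_zero fun i hi => h i hi v hv

theorem Pure.C_mul (c : ℂ) {A : RR} (hA : Pure A) : Pure (C c * A) := fun v hv => by
  rw [coeff_C_mul, hA v hv, mul_zero]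

theorem pure_mono (i : Fin 3) (n : ℕ) : Pure (monomial (Finsupp.single i n) (1 : ℂ)) := by
  classical
  intro v hv
  rw [coeff_monomial, if_neg]
  intro h
  apply hv i
  rw [h, Finsupp.single_eq_same]

/-- The cubic form. -/
def c3 (α β : ℂ) : RR := X 0 * X 1 * X 2 + C α * X 0 ^ 3 + C β * X 1 ^ 3

/-- The combination of the partial derivatives. -/
def jc (α β : ℂ) (h : Fin 3 → RR) : RR :=
  (X 1 * X 2 + 3 * C α * X 0 ^ 2) * h 0 + (X 0 * X 2 + 3 * C β * X 1 ^ 2) * h 1 + X 0 * X 1 * h 2

theorem dec_mono (α β : ℂ) {d : ℕ} (hd : 4 ≤ d) (v : Fin 3 →₀ ℕ) :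
    ∃ (h : Fin 3 → RR) (π : RR), v.degree = d → (∀ i, Ge (d - 2) (h i)) ∧ Pure π ∧ Ge d π ∧
      monomial v (1 : ℂ) = jc α β h + π := by
  by_cases hv : v.degree = d
  swap
  · exact ⟨0, 0, fun h => absurd h hv⟩
  have hv' := hv
  rw [deg_eq] at hv'
  rcases Nat.eq_zero_or_pos (v 0) with h0 | h0
  · rcases Nat.eq_zero_or_pos (v 1) with h1 | h1
    · -- pure in `z`
      have e : v = Finsupp.single 2 (v 2) := by
        ext i
        fin_cases i <;> simp [h0, h1]
      refine ⟨0, monomial v 1, fun _ => ⟨fun i => Ge.zero _, ?_, ?_, ?_⟩⟩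
      · rw [e]
        exact pure_mono _ _
      · rw [mono_eq]
        exact geM _ _ _ (by omega)
      · simp [jc]
    · rcases Nat.eq_zero_or_pos (v 2) with h2 | h2
      · have e : v = Finsupp.single 1 (v 1) := by
          ext i
          fin_cases i <;> simp [h0, h2]
        refine ⟨0, monomial v 1, fun _ => ⟨fun i => Ge.zero _, ?_, ?_, ?_⟩⟩
        · rw [e]
          exact pure_mono _ _
        · rw [mono_eq]
          exact geM _ _ _ (by omega)
        · simp [jc]
      · obtain ⟨c, hc⟩ : ∃ c, v 2 = c + 1 := ⟨v 2 - 1, by omega⟩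
        by_cases hb : v 1 = 1
        · obtain ⟨c', hc'⟩ : ∃ c', c = c' + 1 := ⟨c - 1, by omega⟩
          refine ⟨![X 2 ^ c, -3 * C α * (X 0 * X 2 ^ c'), 9 * C α * C β * (X 1 * X 2 ^ c')], 0,
            fun _ => ⟨fun i => ?_, Pure.zero, Ge.zero _, ?_⟩⟩
          · fin_cases i
            · have := geM (k := d - 2) 0 0 c (by omega)
              simpa using this
            · have := geM (k := d - 2) 1 0 c' (by omega)
              have h3 : Ge (d - 2) ((X 0 : RR) * X 2 ^ c') := by simpa using this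
              exact Ge.mul_left' _ h3
            · have := geM (k := d - 2) 0 1 c' (by omega)
              have h3 : Ge (d - 2) ((X 1 : RR) * X 2 ^ c') := by simpa using this
              exact Ge.mul_left' _ h3
          · rw [mono_eq, h0, hb, hc, hc']
            simp only [jc, Matrix.cons_val_zero, Matrix.cons_val_one, Matrix.cons_val]
            ring
        · obtain ⟨b, hb'⟩ : ∃ b, v 1 = b + 2 := ⟨v 1 - 2, by omega⟩
          refine ⟨![X 1 ^ (b + 1) * X 2 ^ c, 0, -3 * C α * (X 0 * X 1 ^ b * X 2 ^ c)], 0,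
            fun _ => ⟨fun i => ?_, Pure.zero, Ge.zero _, ?_⟩⟩
          · fin_cases i
            · have := geM (k := d - 2) 0 (b + 1) c (by omega)
              simpa using this
            · exact Ge.zero _
            · have := geM (k := d - 2) 1 b c (by omega)
              have h3 : Ge (d - 2) ((X 0 : RR) * X 1 ^ b * X 2 ^ c) := by simpa using this
              exact Ge.mul_left' _ h3
          · rw [mono_eq, h0, hb', hc]
            simp only [jc, Matrix.cons_val_zero, Matrix.cons_val_one, Matrix.cons_val]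
            ring
  · rcases Nat.eq_zero_or_pos (v 1) with h1 | h1
    · rcases Nat.eq_zero_or_pos (v 2) with h2 | h2
      · have e : v = Finsupp.single 0 (v 0) := by
          ext i
          fin_cases i <;> simp [h1, h2]
        refine ⟨0, monomial v 1, fun _ => ⟨fun i => Ge.zero _, ?_, ?_, ?_⟩⟩
        · rw [e]
          exact pure_mono _ _
        · rw [mono_eq]
          exact geM _ _ _ (by omega)
        · simp [jc]
      · obtain ⟨c, hc⟩ : ∃ c, v 2 = c + 1 := ⟨v 2 - 1, by omega⟩
        by_cases ha : v 0 = 1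
        · obtain ⟨c', hc'⟩ : ∃ c', c = c' + 1 := ⟨c - 1, by omega⟩
          refine ⟨![-3 * C β * (X 1 * X 2 ^ c'), X 2 ^ c, 9 * C α * C β * (X 0 * X 2 ^ c')], 0,
            fun _ => ⟨fun i => ?_, Pure.zero, Ge.zero _, ?_⟩⟩
          · fin_cases i
            · have := geM (k := d - 2) 0 1 c' (by omega)
              have h3 : Ge (d - 2) ((X 1 : RR) * X 2 ^ c') := by simpa using this
              exact Ge.mul_left' _ h3
            · have := geM (k := d - 2) 0 0 c (by omega)
              simpa using this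
            · have := geM (k := d - 2) 1 0 c' (by omega)
              have h3 : Ge (d - 2) ((X 0 : RR) * X 2 ^ c') := by simpa using this
              exact Ge.mul_left' _ h3
          · rw [mono_eq, h1, ha, hc, hc']
            simp only [jc, Matrix.cons_val_zero, Matrix.cons_val_one, Matrix.cons_val]
            ring
        · obtain ⟨a, ha'⟩ : ∃ a, v 0 = a + 2 := ⟨v 0 - 2, by omega⟩
          refine ⟨![0, X 0 ^ (a + 1) * X 2 ^ c, -3 * C β * (X 0 ^ a * X 1 * X 2 ^ c)], 0,
            fun _ => ⟨fun i => ?_, Pure.zero, Ge.zero _, ?_⟩⟩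
          · fin_cases i
            · exact Ge.zero _
            · have := geM (k := d - 2) (a + 1) 0 c (by omega)
              simpa using this
            · have := geM (k := d - 2) a 1 c (by omega)
              have h3 : Ge (d - 2) ((X 0 : RR) ^ a * X 1 * X 2 ^ c) := by simpa using this
              exact Ge.mul_left' _ h3
          · rw [mono_eq, h1, ha', hc]
            simp only [jc, Matrix.cons_val_zero, Matrix.cons_val_one, Matrix.cons_val]
            ring
    · obtain ⟨a, ha⟩ : ∃ a, v 0 = a + 1 := ⟨v 0 - 1, by omega⟩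
      obtain ⟨b, hb⟩ : ∃ b, v 1 = b + 1 := ⟨v 1 - 1, by omega⟩
      refine ⟨![0, 0, X 0 ^ a * X 1 ^ b * X 2 ^ v 2], 0,
        fun _ => ⟨fun i => ?_, Pure.zero, Ge.zero _, ?_⟩⟩
      · fin_cases i
        · exact Ge.zero _
        · exact Ge.zero _
        · exact geM (k := d - 2) a b (v 2) (by omega)
      · rw [mono_eq, ha, hb]
        simp only [jc, Matrix.cons_val_zero, Matrix.cons_val_one, Matrix.cons_val]
        ring

theorem dec (α β : ℂ) {d : ℕ} (hd : 4 ≤ d) {H : RR} (hH : Ge d H) :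
    ∃ (h : Fin 3 → RR) (π : RR), (∀ i, Ge (d - 2) (h i)) ∧ Pure π ∧ Ge d π ∧
      Ge (d + 1) (H - jc α β h - π) := by
  classical
  choose h π hp using dec_mono α β hd
  set s := (Finset.univ : Finset (Fin 3)).finsuppAntidiag d
  refine ⟨fun i => ∑ v ∈ s, C (coeff v H) * h v i, ∑ v ∈ s, C (coeff v H) * π v,
    fun i => Ge.sum _ _ fun v hv => ((hp v (mem_anti hv)).1 i).C_mul _,
    Pure.sum _ _ fun v hv => (hp v (mem_anti hv)).2.1.C_mul _,
    Ge.sum _ _ fun v hv => (hp v (mem_anti hv)).2.2.1.C_mul _, ?_⟩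
  have h1 := split_ge d hH
  have e : ∑ v ∈ s, C (coeff v H) * monomial v (1 : ℂ) =
      jc α β (fun i => ∑ v ∈ s, C (coeff v H) * h v i) + ∑ v ∈ s, C (coeff v H) * π v := by
    unfold jc
    simp only [Finset.mul_sum]
    rw [← Finset.sum_add_distrib, ← Finset.sum_add_distrib, ← Finset.sum_add_distrib]
    refine Finset.sum_congr rfl fun v hv => ?_
    rw [(hp v (mem_anti hv)).2.2.2]
    unfold jc
    ring
  rw [e] at h1
  rwa [sub_sub]

end TN

end MPb07157
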