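import Pool.Agent.Lib.MP_b07157_agQV.TnA

/-!
# Nodal tangent cubics: the normal form `xyz + A(x) + B(y) + C(z)`
-/

noncomputable section

namespace MPb07157

namespace TN

open MvPowerSeries IFT

section

variable {a : Fin 3 → RR} (ha : ∀ i, constantCoeff (a i) = 0)

theorem phi_X' (i : Fin 3) : phi ha (X i) = a i := by
  unfold phi
  rw [substAlgHom_X]

theorem phi_C' (c : ℂ) : phi ha (C c) = C c := by
  rw [c_eq_algebraMap, AlgHom.commutes]

theorem geMono (v : Fin 3 →₀ ℕ) : Ge v.degree (monomial v (1 : ℂ)) := by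
  rw [mono_eq, deg_eq]
  exact geM _ _ _ le_rfl

theorem sub_mono {e : ℕ} (hX : ∀ i, Ge e (a i - X i)) (v : Fin 3 →₀ ℕ) :
    Ge (v.degree - 1 + e) (phi ha (monomial v (1 : ℂ)) - monomial v 1) := by
  induction v using Finsupp.induction_linear with
  | zero =>
    have : (monomial (0 : Fin 3 →₀ ℕ) (1 : ℂ)) = 1 := rfl
    rw [this, map_one, sub_self]
    exact Ge.zero _
  | add v w hv hw =>
    have e1 : (monomial (v + w) (1 : ℂ) : RR) = monomial v 1 * monomial w 1 := by
      rw [monomial_mul_monomial, one_mul]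
    have e2 : phi ha (monomial (v + w) (1 : ℂ)) - monomial (v + w) 1 =
        (phi ha (monomial v 1) - monomial v 1) * phi ha (monomial w 1) +
          monomial v 1 * (phi ha (monomial w 1) - monomial w 1) := by
      rw [e1, map_mul]
      ring
    rw [e2, map_add]
    refine Ge.add ?_ ?_
    · refine (hv.mul ((geMono w).phi ha)).mono ?_
      omega
    · refine ((geMono v).mul hw).mono ?_
      omega
  | single j m =>
    rw [Finsupp.degree_single]
    induction m with
    | zero =>
      rw [Finsupp.single_zero]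
      have : (monomial (0 : Fin 3 →₀ ℕ) (1 : ℂ)) = 1 := rfl
      rw [this, map_one, sub_self]
      exact Ge.zero _
    | succ m ih =>
      have e1 : (monomial (Finsupp.single j (m + 1)) (1 : ℂ) : RR) =
          X j * monomial (Finsupp.single j m) 1 := by
        rw [X, monomial_mul_monomial, one_mul, ← Finsupp.single_add, add_comm 1 m]
      have e2 : phi ha (monomial (Finsupp.single j (m + 1)) (1 : ℂ)) -
          monomial (Finsupp.single j (m + 1)) 1 =
          (a j - X j) * phi ha (monomial (Finsupp.single j m) 1) +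
            X j * (phi ha (monomial (Finsupp.single j m) 1) - monomial (Finsupp.single j m) 1) := by
        rw [e1, map_mul, phi_X']
        ring
      rw [e2]
      refine Ge.add ?_ ?_
      · have h1 := geMono (Finsupp.single j m)
        rw [Finsupp.degree_single] at h1
        refine ((hX j).mul (h1.phi ha)).mono ?_
        omega
      · refine ((geX j).mul ih).mono ?_
        omega

theorem sub_ge_aux {e : ℕ} (hX : ∀ i, Ge e (a i - X i)) (K : ℕ) :
    ∀ j k : ℕ, k + j = K → ∀ H : RR, Ge k H → Ge (min K (k - 1 + e)) (phi ha H - H) := by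
  intro j
  induction j with
  | zero =>
    intro k hk H hH
    obtain rfl : k = K := by omega
    exact ((hH.phi ha).sub hH).mono (min_le_left _ _)
  | succ j ih =>
    intro k hk H hH
    have h1 := split_ge k hH
    set S : RR := ∑ v ∈ (Finset.univ : Finset (Fin 3)).finsuppAntidiag k,
      C (coeff v H) * monomial v (1 : ℂ) with hS
    have h2 := ih (k + 1) (by omega) _ h1
    have h3 : Ge (k - 1 + e) (phi ha S - S) := by
      rw [hS, map_sum, ← Finset.sum_sub_distrib]
      refine Ge.sum _ _ fun v hv => ?_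
      have h4 : phi ha (C (coeff v H) * monomial v (1 : ℂ)) - C (coeff v H) * monomial v 1 =
          C (coeff v H) * (phi ha (monomial v 1) - monomial v 1) := by
        rw [map_mul, phi_C']
        ring
      rw [h4]
      have h5 := sub_mono ha hX v
      rw [mem_anti hv] at h5
      exact h5.C_mul _
    have h4 : phi ha H - H = (phi ha (H - S) - (H - S)) + (phi ha S - S) := by
      rw [map_sub]
      ring
    rw [h4]
    refine Ge.add (h2.mono ?_) (h3.mono (min_le_right _ _))
    omega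

theorem sub_ge {e : ℕ} (hX : ∀ i, Ge e (a i - X i)) {k : ℕ} (hk : 1 ≤ k) {H : RR} (hH : Ge k H) :
    Ge (k - 1 + e) (phi ha H - H) := by
  rcases Nat.eq_zero_or_pos e with h0 | h0
  · have := (hH.phi ha).sub hH
    exact this.mono (by omega)
  · have := sub_ge_aux ha hX (k - 1 + e) (e - 1) k (by omega) H hH
    rwa [min_self] at this

end

/-- The Taylor expansion of the cubic form. -/
theorem taylor {α β : ℂ} {h : Fin 3 → RR} {d : ℕ} (hd : 4 ≤ d) (hh : ∀ i, Ge (d - 2) (h i))
    (ha : ∀ i, constantCoeff (X i - h i) = 0) :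
    Ge (d + 1) (phi ha (c3 α β) - c3 α β + jc α β h) := by
  have e : phi ha (c3 α β) - c3 α β + jc α β h =
      X 2 * (h 0 * h 1) + X 1 * (h 0 * h 2) + X 0 * (h 1 * h 2) - h 0 * (h 1 * h 2) +
      3 * C α * (X 0 * (h 0 * h 0)) - C α * (h 0 * (h 0 * h 0)) +
      3 * C β * (X 1 * (h 1 * h 1)) - C β * (h 1 * (h 1 * h 1)) := by
    unfold c3 jc
    simp only [map_add, map_mul, map_pow, phi_X', phi_C']
    ring
  have h2 : ∀ i j, Ge (2 * (d - 2)) (h i * h j) := fun i j => ((hh i).mul (hh j)).mono (by omega)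
  have h3 : ∀ l i j, Ge (d + 1) (X l * (h i * h j)) := fun l i j =>
    ((geX l).mul (h2 i j)).mono (by omega)
  have h4 : ∀ l i j, Ge (d + 1) (h l * (h i * h j)) := fun l i j =>
    ((hh l).mul (h2 i j)).mono (by omega)
  rw [e]
  refine Ge.sub (Ge.add (Ge.sub (Ge.add (Ge.sub (Ge.add (Ge.add ?_ ?_) ?_) ?_) ?_) ?_) ?_) ?_
  · exact h3 _ _ _
  · exact h3 _ _ _
  · exact h3 _ _ _
  · exact h4 _ _ _
  · exact Ge.mul_left' _ (h3 _ _ _)
  · exact Ge.mul_left' _ (h4 _ _ _)
  · exact Ge.mul_left' _ (h3 _ _ _)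
  · exact Ge.mul_left' _ (h4 _ _ _)

/-- The state after `n` steps. -/
def St (α β : ℂ) (g : MvPolynomial (Fin 3) ℂ) (n : ℕ) (q : Fin 3 → RR) : Prop :=
  (∀ i, Ge 2 (q i - X i)) ∧ ∃ A : RR, Pure A ∧ Ge 4 A ∧
    Ge (n + 4) (MvPolynomial.aeval q g - c3 α β - A)

theorem step {α β : ℂ} {g : MvPolynomial (Fin 3) ℂ} {n : ℕ} {q : Fin 3 → RR}
    (hq : St α β g n q) : ∃ q', St α β g (n + 1) q' ∧ ∀ i, Ge (n + 2) (q' i - q i) := by
  obtain ⟨hq2, A, hA, hA4, hR⟩ := hq
  obtain ⟨h, π, hh, hπ, hπ4, hd⟩ := dec α β (d := n + 4) (by omega) hR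
  have hh1 : ∀ i, Ge 1 (h i) := fun i => (hh i).mono (by omega)
  have ha : ∀ i, constantCoeff (X i - h i) = 0 := fun i => by
    rw [← ge_one_iff]
    exact (geX i).sub (hh1 i)
  have hX : ∀ i, Ge (n + 4 - 2) ((X i - h i) - X i) := fun i => by
    rw [sub_sub_cancel_left]
    exact Ge.neg' (hh i)
  have hq1 : ∀ i, Ge 1 (q i) := fun i => by
    have h1 := ((hq2 i).mono (show 1 ≤ 2 by omega)).add (geX i)
    rwa [sub_add_cancel] at h1
  have hqq : ∀ i, Ge (n + 2) (phi ha (q i) - q i) := fun i =>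
    (sub_ge ha hX le_rfl (hq1 i)).mono (by omega)
  refine ⟨fun i => phi ha (q i), ⟨fun i => ?_, A + π, hA.add hπ, hA4.add (hπ4.mono (by omega)), ?_⟩,
    hqq⟩
  · have h1 := ((hqq i).mono (show 2 ≤ n + 2 by omega)).add (hq2 i)
    rwa [sub_add_sub_cancel] at h1
  · have e1 : MvPolynomial.aeval (fun i => phi ha (q i)) g = phi ha (MvPolynomial.aeval q g) :=
      (MvPolynomial.comp_aeval_apply (f := q) (phi ha) g).symm
    rw [e1]
    set F := MvPolynomial.aeval q g with hF
    have h4 : Ge 4 (F - c3 α β) := by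
      have h5 := (hR.mono (show 4 ≤ n + 4 by omega)).add hA4
      rwa [sub_add_cancel] at h5
    have h5 := sub_ge ha hX (by norm_num) h4
    have h6 : Ge (n + 1 + 4) (phi ha (F - c3 α β) - (F - c3 α β)) := h5.mono (by omega)
    have h7 := taylor (α := α) (β := β) (d := n + 4) (by omega) hh ha
    have e2 : phi ha F - c3 α β - (A + π) =
        (phi ha (F - c3 α β) - (F - c3 α β)) + (phi ha (c3 α β) - c3 α β + jc α β h) +
          (F - c3 α β - A - jc α β h - π) := by
      rw [map_sub]
      ring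
    rw [e2]
    refine Ge.add (Ge.add h6 (h7.mono (by omega))) (hd.mono (by omega))

theorem aeval_ge {m : ℕ} {a b : Fin 3 → RR} (hab : ∀ i, Ge m (a i - b i))
    (g : MvPolynomial (Fin 3) ℂ) : Ge m (MvPolynomial.aeval a g - MvPolynomial.aeval b g) := by
  induction g using MvPolynomial.induction_on with
  | C c =>
    rw [MvPolynomial.aeval_C, MvPolynomial.aeval_C, sub_self]
    exact Ge.zero _
  | add p q hp hq =>
    rw [map_add, map_add, add_sub_add_comm]
    exact hp.add hq
  | mul_X p i hp =>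
    rw [map_mul, map_mul, MvPolynomial.aeval_X, MvPolynomial.aeval_X]
    have e : MvPolynomial.aeval a p * a i - MvPolynomial.aeval b p * b i =
        (MvPolynomial.aeval a p - MvPolynomial.aeval b p) * a i +
          MvPolynomial.aeval b p * (a i - b i) := by ring
    rw [e]
    exact (Ge.mul_right' _ hp).add (Ge.mul_left' _ (hab i))

/-- **The normal form.** -/
theorem normal_form {α β : ℂ} {g : MvPolynomial (Fin 3) ℂ}
    (hg : Ge 4 ((g : RR) - c3 α β)) :
    ∃ (a : Fin 3 → RR) (A : RR), (∀ i, Ge 2 (a i - X i)) ∧ Pure A ∧ Ge 4 A ∧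
      MvPolynomial.aeval a g = c3 α β + A := by
  have h0 : St α β g 0 X := by
    refine ⟨fun i => by rw [sub_self]; exact Ge.zero _, 0, Pure.zero, Ge.zero _, ?_⟩
    rw [sub_zero]
    have e : MvPolynomial.aeval (X : Fin 3 → RR) g = (g : RR) := by
      have h1 : (MvPolynomial.aeval (X : Fin 3 → RR) : MvPolynomial (Fin 3) ℂ →ₐ[ℂ] RR) =
          MvPolynomial.coeToMvPowerSeries.algHom ℂ := by
        apply MvPolynomial.algHom_ext
        intro i
        rw [MvPolynomial.aeval_X, MvPolynomial.coeToMvPowerSeries.algHom_apply]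
        simp
      rw [h1, MvPolynomial.coeToMvPowerSeries.algHom_apply]
      simp
    rw [e]
    exact hg
  choose nx hnx using fun (n : ℕ) (s : {q // St α β g n q}) => step s.2
  let sq : (n : ℕ) → {q // St α β g n q} := fun n =>
    Nat.rec ⟨X, h0⟩ (fun n s => ⟨nx n s, (hnx n s).1⟩) n
  have hs : ∀ n i, Ge (n + 2) ((sq (n + 1)).1 i - (sq n).1 i) := fun n => (hnx n (sq n)).2
  have hs2 : ∀ n j i, Ge (n + 2) ((sq (n + j)).1 i - (sq n).1 i) := by
    intro n j i
    induction j with
    | zero => rw [add_zero, sub_self]; exact Ge.zero _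
    | succ j ih =>
      have h1 := ((hs (n + j) i).mono (show n + 2 ≤ n + j + 2 by omega)).add ih
      rwa [sub_add_sub_cancel] at h1
  let a : Fin 3 → RR := fun i v => coeff v ((sq v.degree).1 i)
  have ha : ∀ n i, Ge (n + 2) (a i - (sq n).1 i) := by
    intro n i v hv
    rw [map_sub, sub_eq_zero]
    show coeff v ((sq v.degree).1 i) = _
    rcases Nat.lt_or_ge v.degree n with h1 | h1
    · have h2 := hs2 v.degree (n - v.degree) i v (by omega)
      rw [map_sub, sub_eq_zero, Nat.add_sub_cancel' h1.le] at h2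
      exact h2.symm
    · have h2 := hs2 n (v.degree - n) i v hv
      rw [map_sub, sub_eq_zero, Nat.add_sub_cancel' h1] at h2
      exact h2
  have hc : ∀ v : Fin 3 →₀ ℕ, ∃ A : RR, Pure A ∧ Ge 4 A ∧
      coeff v (MvPolynomial.aeval a g - c3 α β) = coeff v A := by
    intro v
    obtain ⟨-, A, hA, hA4, hR⟩ := (sq v.degree).2
    refine ⟨A, hA, hA4, ?_⟩
    have h1 := hR v (by omega)
    have h2 := aeval_ge (ha v.degree) g v (by omega)
    rw [map_sub, sub_eq_zero] at h1 h2
    rw [map_sub, h2, ← map_sub, h1]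
  refine ⟨a, MvPolynomial.aeval a g - c3 α β, fun i => ?_, fun v hv => ?_, fun v hv => ?_, ?_⟩
  · have h1 := (ha 0 i).add ((sq 0).2.1 i)
    rwa [sub_add_sub_cancel] at h1
  · obtain ⟨A, hA, -, h⟩ := hc v
    rw [h, hA v hv]
  · obtain ⟨A, -, hA, h⟩ := hc v
    rw [h, hA v hv]
  · ring

end TN

end MPb07157
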