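import Pool.Agent.Lib.MP_b07157_agQV.TnB
import Pool.Agent.Lib.MP_b07157_agSS.B
import Pool.Agent.Lib.MP_b07157_agCV.Sg

/-!
# Nodal tangent cubics: formal equivalences and powers of new variables
-/

noncomputable section

namespace MPb07157

namespace TN

open IFT

theorem smcLoc_of_formal {n r : ℕ} {g G : MvPolynomial (Fin n) ℂ}
    (E₁ E₂ : MvPowerSeries (Fin n) ℂ ≃ₐ[ℂ] MvPowerSeries (Fin n) ℂ)
    (h : E₁ (g : MvPowerSeries (Fin n) ℂ) = E₂ (G : MvPowerSeries (Fin n) ℂ)) {e : Fin r → ℕ}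
    (hG : SmcLoc (SS.sg G e)) : SmcLoc (SS.sg g e) := by
  obtain ⟨F₁, h1, h1'⟩ := SU.NdH.exists_ext r E₁
  obtain ⟨F₂, h2, h2'⟩ := SU.NdH.exists_ext r E₂
  have key : F₁ (SS.sg g e : MvPowerSeries (Fin (n + r)) ℂ) =
      F₂ (SS.sg G e : MvPowerSeries (Fin (n + r)) ℂ) := by
    rw [SS.coe_sg, SS.coe_sg, map_add, map_add, h1, h2, h, map_sum, map_sum]
    refine congrArg₂ _ rfl (Finset.sum_congr rfl fun i _ => ?_)
    rw [map_pow, map_pow, h1', h2']
  refine SmcLoc.of_formEquivPow one_pos ⟨F₂.trans F₁.symm, 1, ?_⟩ hG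
  rw [pow_one, Units.val_one, one_mul, AlgEquiv.trans_apply, ← key, AlgEquiv.symm_apply_apply]

theorem exists_E {a : Fin 3 → RR} (h : ∀ i, Ge 2 (a i - MvPowerSeries.X i)) :
    ∃ E : RR ≃ₐ[ℂ] RR, ∀ p : MvPolynomial (Fin 3) ℂ, E (p : RR) = MvPolynomial.aeval a p := by
  classical
  refine IFT.exists_equiv (fun i => ?_) ?_
  · rw [← ge_one_iff]
    have h1 := ((h i).mono (show 1 ≤ 2 by omega)).add (geX i)
    rwa [sub_add_cancel] at h1
  · have h1 : (Matrix.of fun i j => MvPowerSeries.coeff (Finsupp.single j 1) (a i)) =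
        (1 : Matrix (Fin 3) (Fin 3) ℂ) := by
      ext i j
      rw [Matrix.of_apply, Matrix.one_apply]
      have h2 := h i (Finsupp.single j 1) (by rw [Finsupp.degree_single]; omega)
      rw [map_sub, sub_eq_zero, MvPowerSeries.coeff_X] at h2
      rw [h2]
      refine if_congr ?_ rfl rfl
      constructor
      · intro h3
        exact (Finsupp.single_left_injective one_ne_zero h3).symm
      · rintro rfl
        rfl
    rw [h1, Matrix.det_one]
    exact one_ne_zero

theorem coe_aeval (b : Fin 3 → MvPolynomial (Fin 3) ℂ) (g : MvPolynomial (Fin 3) ℂ) :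
    MvPolynomial.aeval (fun i => (b i : RR)) g = ((MvPolynomial.aeval b g :
      MvPolynomial (Fin 3) ℂ) : RR) := by
  have h : (MvPolynomial.aeval (fun i => (b i : RR)) : MvPolynomial (Fin 3) ℂ →ₐ[ℂ] RR) =
      (MvPolynomial.coeToMvPowerSeries.algHom ℂ).comp (MvPolynomial.aeval b) := by
    apply MvPolynomial.algHom_ext
    intro i
    rw [AlgHom.comp_apply, MvPolynomial.aeval_X, MvPolynomial.aeval_X,
      MvPolynomial.coeToMvPowerSeries.algHom_apply]
    rfl
  rw [h, AlgHom.comp_apply, MvPolynomial.coeToMvPowerSeries.algHom_apply]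
  rfl

/-- Truncation. -/
theorem exists_trunc (N : ℕ) (φ : RR) : ∃ p : MvPolynomial (Fin 3) ℂ, Ge (N + 1) ((p : RR) - φ) := by
  classical
  set s : Finset (Fin 3 →₀ ℕ) :=
    (Finset.range (N + 1)).biUnion fun e => Finset.univ.finsuppAntidiag e with hs
  have hmem : ∀ u : Fin 3 →₀ ℕ, u ∈ s ↔ u.degree < N + 1 := by
    intro u
    rw [hs, Finset.mem_biUnion]
    constructor
    · rintro ⟨e, he, hu⟩
      rw [Finset.mem_finsuppAntidiag] at hu
      rw [Finset.mem_range] at he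
      rw [Finsupp.degree_eq_sum, hu.1]
      exact he
    · intro hu
      refine ⟨u.degree, Finset.mem_range.2 hu, ?_⟩
      rw [Finset.mem_finsuppAntidiag]
      exact ⟨(Finsupp.degree_eq_sum u).symm, Finset.subset_univ _⟩
  refine ⟨∑ v ∈ s, MvPolynomial.monomial v (MvPowerSeries.coeff v φ), fun u hu => ?_⟩
  rw [map_sub, sub_eq_zero, MvPolynomial.coeff_coe, MvPolynomial.coeff_sum]
  simp only [MvPolynomial.coeff_monomial]
  rw [Finset.sum_ite_eq' s u, if_pos ((hmem u).2 hu)]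

end TN

end MPb07157
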