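import Pool.Agent.Lib.MP_b07157_agQV.Nd

/-!
# Nodal tangent cubics: a criterion for Newton non-degeneracy
-/

noncomputable section

namespace MPb07157

namespace TN

open MvPolynomial QV

/-- The exponent of `xyz`. -/
def e111 : Fin 3 →₀ ℕ := Finsupp.single 0 1 + Finsupp.single 1 1 + Finsupp.single 2 1

theorem e111_apply (i : Fin 3) : e111 i = 1 := by
  fin_cases i <;> simp [e111]

theorem e111_ne (i : Fin 3) (n : ℕ) : e111 ≠ Finsupp.single i n := by
  intro h
  have h1 : e111 (i + 1) = Finsupp.single i n (i + 1) := by rw [h]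
  rw [e111_apply, Finsupp.single_eq_of_ne] at h1
  · exact one_ne_zero h1
  · fin_cases i <;> decide

theorem single_ne {i j : Fin 3} (h : i ≠ j) {m n : ℕ} (hm : 1 ≤ m) :
    (Finsupp.single i m : Fin 3 →₀ ℕ) ≠ Finsupp.single j n := by
  intro h1
  have h2 : (Finsupp.single i m : Fin 3 →₀ ℕ) i = Finsupp.single j n i := by rw [h1]
  rw [Finsupp.single_eq_same, Finsupp.single_eq_of_ne h] at h2
  omega

theorem nd_T {G : MvPolynomial (Fin 3) ℂ} (h111 : coeff e111 G = 1) {n : Fin 3 → ℕ}
    (hn : ∀ i, 1 ≤ n i) (h0 : coeff 0 G = 0)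
    (hk : ∀ (w : Fin 3 → ℕ) (m : ℕ), (∀ i, 0 < w i) →
      (∀ v ∈ G.support, m ≤ ∑ j, w j * v j) → ∀ v ∈ G.support, ∑ j, w j * v j = m →
      v = e111 ∨ ∃ i, v = Finsupp.single i (n i))
    (hT : ∀ (w : Fin 3 → ℕ) (m : ℕ), (∀ i, 0 < w i) →
      (∀ i, coeff (Finsupp.single i (n i)) G ≠ 0 ∧ w i * n i = m) → w 0 + w 1 + w 2 ≠ m) :
    ND G := by
  classical
  refine ⟨?_, h0, fun w m u hw hu hm hex => ?_⟩
  · rintro rfl
    rw [coeff_zero] at h111
    exact zero_ne_one h111
  by_contra hcon
  push Not at hcon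
  obtain ⟨v0, hv0, hv0m⟩ := hex
  -- the exponents
  set S : Finset (Fin 3 →₀ ℕ) :=
    insert e111 (Finset.univ.image fun j => Finsupp.single j (n j)) with hS
  have hnot : e111 ∉ Finset.univ.image fun j : Fin 3 => Finsupp.single j (n j) := by
    intro h
    rw [Finset.mem_image] at h
    obtain ⟨j, -, hj⟩ := h
    exact e111_ne j _ hj.symm
  have hinj : ∀ x ∈ (Finset.univ : Finset (Fin 3)), ∀ y ∈ (Finset.univ : Finset (Fin 3)),
      (Finsupp.single x (n x) : Fin 3 →₀ ℕ) = Finsupp.single y (n y) → x = y := by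
    intro x _ y _ hxy
    by_contra hne
    exact single_ne hne (hn x) hxy
  have hLf : ∀ i, Lf (ph w m u i) G = coeff e111 G * ph w m u i e111 +
      ∑ j, coeff (Finsupp.single j (n j)) G * ph w m u i (Finsupp.single j (n j)) := by
    intro i
    rw [Lf_eq (ph w m u i) G (Finset.subset_union_left (s₂ := S))]
    rw [← Finset.sum_subset (Finset.subset_union_right (s₁ := G.support) (s₂ := S))]
    · rw [hS, Finset.sum_insert hnot, Finset.sum_image hinj]
    · intro v hv hvS
      rw [Finset.mem_union] at hv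
      rcases hv with hv | hv
      · have h1 : ph w m u i v = 0 := by
          unfold ph
          rw [if_neg]
          intro h2
          rcases hk w m hw hm v hv h2 with h3 | ⟨j, h3⟩
          · exact hvS (by rw [hS, h3]; exact Finset.mem_insert_self _ _)
          · exact hvS (by
              rw [hS, h3]
              exact Finset.mem_insert_of_mem (Finset.mem_image.2 ⟨j, Finset.mem_univ _, rfl⟩))
        rw [h1, mul_zero]
      · exact absurd hv hvS
  have hLf2 : ∀ i, Lf (ph w m u i) G = ph w m u i e111 +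
      coeff (Finsupp.single i (n i)) G * ph w m u i (Finsupp.single i (n i)) := by
    intro i
    rw [hLf, h111, one_mul, Finset.sum_eq_single i]
    · intro j _ hj
      have h1 : ph w m u i (Finsupp.single j (n j)) = 0 := by
        unfold ph
        rw [Finsupp.single_eq_of_ne hj.symm]
        split_ifs
        · simp
        · rfl
      rw [h1, mul_zero]
    · intro h
      exact absurd (Finset.mem_univ i) h
  have hP : ∀ v : Fin 3 →₀ ℕ, ∏ j, u j ^ v j ≠ 0 := fun v =>
    Finset.prod_ne_zero_iff.2 fun j _ => pow_ne_zero _ (hu j)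
  have hws : ∀ i : Fin 3, ∑ j, w j * (Finsupp.single i (n i) : Fin 3 →₀ ℕ) j = w i * n i := by
    intro i
    rw [Finset.sum_eq_single i]
    · rw [Finsupp.single_eq_same]
    · intro j _ hj
      rw [Finsupp.single_eq_of_ne hj, mul_zero]
    · intro h
      exact absurd (Finset.mem_univ i) h
  have hw1 : ∑ j, w j * e111 j = w 0 + w 1 + w 2 := by
    rw [Fin.sum_univ_three, e111_apply, e111_apply, e111_apply, mul_one, mul_one, mul_one]
  by_cases hW : w 0 + w 1 + w 2 = m
  · refine hT w m hw (fun i => ?_) hW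
    have h1 := hcon i
    rw [hLf2] at h1
    have h2 : ph w m u i e111 ≠ 0 := by
      unfold ph
      rw [if_pos (hw1.trans hW), e111_apply, Nat.cast_one, one_mul]
      exact hP _
    have h3 : coeff (Finsupp.single i (n i)) G * ph w m u i (Finsupp.single i (n i)) ≠ 0 := by
      intro h4
      rw [h4, add_zero] at h1
      exact h2 h1
    refine ⟨left_ne_zero_of_mul h3, ?_⟩
    by_contra h4
    apply right_ne_zero_of_mul h3
    unfold ph
    rw [if_neg]
    rw [hws]
    exact h4
  · rcases hk w m hw hm v0 hv0 hv0m with h3 | ⟨i, h3⟩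
    · rw [h3, hw1] at hv0m
      exact hW hv0m
    · have h1 := hcon i
      rw [hLf2] at h1
      have h2 : ph w m u i e111 = 0 := by
        unfold ph
        rw [if_neg]
        rw [hw1]
        exact hW
      rw [h2, zero_add] at h1
      have h4 : coeff (Finsupp.single i (n i)) G ≠ 0 := by
        rw [← h3]
        exact mem_support_iff.1 hv0
      have h5 : ph w m u i (Finsupp.single i (n i)) ≠ 0 := by
        rw [h3] at hv0m
        unfold ph
        rw [if_pos hv0m, Finsupp.single_eq_same]
        refine mul_ne_zero ?_ (hP _)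
        have := hn i
        exact_mod_cast (show n i ≠ 0 by omega)
      exact mul_ne_zero h4 h5 h1

end TN

end MPb07157
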