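import Pool.Agent.Lib.MP_b07157_agQV.TnC
import Pool.Agent.Lib.MP_b07157_agQV.TnD

/-!
# Nodal tangent cubics: the normal forms in which all axes occur
-/

noncomputable section

namespace MPb07157

namespace TN

open MvPowerSeries IFT QV

theorem single_deg (i : Fin 3) (n : ℕ) : (Finsupp.single i n : Fin 3 →₀ ℕ).degree = n :=
  Finsupp.degree_single i n

theorem e111_deg : e111.degree = 3 := by
  rw [deg_eq, e111_apply, e111_apply, e111_apply]

/-- The normal forms. -/
structure NFS (F : RR) : Prop where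
  one : coeff e111 F = 1
  mix : ∀ v : Fin 3 →₀ ℕ, v ≠ e111 → (∀ i, v ≠ Finsupp.single i (v i)) → coeff v F = 0
  low : Ge 3 F
  z3 : coeff (Finsupp.single 2 3) F = 0

theorem c3_eq (α β : ℂ) : c3 α β = monomial e111 (1 : ℂ) +
    C α * monomial (Finsupp.single 0 3) (1 : ℂ) + C β * monomial (Finsupp.single 1 3) (1 : ℂ) := by
  unfold c3
  rw [mono_eq e111, mono_eq, mono_eq, e111_apply, e111_apply, e111_apply]
  simp

theorem coeff_c3 (α β : ℂ) (v : Fin 3 →₀ ℕ) :
    coeff v (c3 α β) = (if v = e111 then 1 else 0) + α * (if v = Finsupp.single 0 3 then 1 else 0) +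
      β * (if v = Finsupp.single 1 3 then 1 else 0) := by
  rw [c3_eq, map_add, map_add, coeff_C_mul, coeff_C_mul, coeff_monomial, coeff_monomial,
    coeff_monomial]

theorem nfs (α β : ℂ) {A : RR} (hA : Pure A) (h4 : Ge 4 A) : NFS (c3 α β + A) := by
  refine ⟨?_, fun v hv hv' => ?_, fun v hv => ?_, ?_⟩
  · rw [map_add, hA e111 fun i => e111_ne i _, coeff_c3, if_pos rfl, if_neg (e111_ne 0 3),
      if_neg (e111_ne 1 3)]
    simp
  · rw [map_add, hA v hv', coeff_c3, if_neg hv, if_neg, if_neg]
    · simp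
    · intro h
      apply hv' 1
      rw [h, Finsupp.single_eq_same]
    · intro h
      apply hv' 0
      rw [h, Finsupp.single_eq_same]
  · rw [map_add, h4 v (by omega), coeff_c3, if_neg, if_neg, if_neg]
    · simp
    · intro h
      rw [h, single_deg] at hv
      omega
    · intro h
      rw [h, single_deg] at hv
      omega
    · intro h
      rw [h, e111_deg] at hv
      omega
  · rw [map_add, h4 _ (by rw [single_deg]; omega), coeff_c3, if_neg (e111_ne 2 3).symm,
      if_neg (single_ne (by decide) (by norm_num)), if_neg (single_ne (by decide) (by norm_num))]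
    simp

theorem caseA {g : MvPolynomial (Fin 3) ℂ} {a : Fin 3 → RR} (ha : ∀ i, Ge 2 (a i - X i)) {F : RR}
    (hF : NFS F) (hg : MvPolynomial.aeval a g = F)
    (hne : ∀ i, ∃ n, coeff (Finsupp.single i n) F ≠ 0) {r : ℕ} {e : Fin r → ℕ}
    (he : ∀ i, 2 ≤ e i) : SmcLoc (SS.sg g e) := by
  classical
  set n : Fin 3 → ℕ := fun i => Nat.find (hne i) with hn
  have hn1 : ∀ i, coeff (Finsupp.single i (n i)) F ≠ 0 := fun i => Nat.find_spec (hne i)
  have hn2 : ∀ i m, coeff (Finsupp.single i m) F ≠ 0 → n i ≤ m := fun i m h =>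
    Nat.find_min' (hne i) h
  have hn3 : ∀ i, 3 ≤ n i := by
    intro i
    by_contra h
    exact hn1 i (hF.low _ (by rw [single_deg]; omega))
  have hn4 : 4 ≤ n 2 := by
    have h3 := hn3 2
    rcases Nat.eq_or_lt_of_le h3 with h | h
    · exfalso
      apply hn1 2
      rw [← h]
      exact hF.z3
    · exact h
  set K := n 0 + n 1 + n 2 with hK
  have hKi : ∀ i, n i ≤ K := by
    intro i
    have h := Finset.single_le_sum (f := n) (fun _ _ => Nat.zero_le _) (Finset.mem_univ i)
    rw [Fin.sum_univ_three] at h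
    exact h
  choose b hb using fun i => exists_trunc K (a i)
  have hb2 : ∀ i, Ge 2 ((b i : RR) - X i) := by
    intro i
    have h1 := ((hb i).mono (show 2 ≤ K + 1 by have := hn3 0; omega)).add (ha i)
    rwa [sub_add_sub_cancel] at h1
  obtain ⟨E, hE⟩ := exists_E hb2
  set G : MvPolynomial (Fin 3) ℂ := MvPolynomial.aeval b g with hG
  have hEg : E (g : RR) = AlgEquiv.refl (R := ℂ) (A₁ := RR) (G : RR) := by
    rw [hE, coe_aeval]
    rfl
  refine smcLoc_of_formal E _ hEg ?_
  have hGF : Ge (K + 1) ((G : RR) - F) := by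
    have h1 := aeval_ge hb g
    rw [coe_aeval, hg] at h1
    exact h1
  have hco : ∀ v : Fin 3 →₀ ℕ, v.degree ≤ K → MvPolynomial.coeff v G = coeff v F := by
    intro v hv
    have h1 := hGF v (by omega)
    rwa [map_sub, sub_eq_zero, MvPolynomial.coeff_coe] at h1
  have hs : ∀ i, MvPolynomial.coeff (Finsupp.single i (n i)) G ≠ 0 := by
    intro i
    rw [hco _ (by rw [single_deg]; exact hKi i)]
    exact hn1 i
  have hws : ∀ (w : Fin 3 → ℕ) (i : Fin 3) (m : ℕ),
      ∑ j, w j * (Finsupp.single i m : Fin 3 →₀ ℕ) j = w i * m := by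
    intro w i m
    rw [Finset.sum_eq_single i]
    · rw [Finsupp.single_eq_same]
    · intro j _ hj
      rw [Finsupp.single_eq_of_ne hj, mul_zero]
    · intro h
      exact absurd (Finset.mem_univ i) h
  have hG0 : MvPolynomial.coeff 0 G = 0 := by
    rw [hco 0 (by simp)]
    exact hF.low 0 (by simp)
  refine SuLoc.smcLoc_sg (ND.suLoc (nd_T (n := n) ?_ (fun i => by have := hn3 i; omega) hG0
    ?_ ?_)) he
  · rw [hco _ (by rw [e111_deg]; have := hn3 0; omega)]
    exact hF.one
  · intro w m hw hm v hv hvm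
    have hm1 : ∀ i, m ≤ w i * n i := by
      intro i
      have h1 := hm _ (MvPolynomial.mem_support_iff.2 (hs i))
      rwa [hws] at h1
    have hmK : ∀ i, m ≤ w i * K := fun i =>
      (hm1 i).trans (Nat.mul_le_mul_left _ (hKi i))
    have hv0 : v ≠ 0 := by
      rintro rfl
      exact MvPolynomial.mem_support_iff.1 hv hG0
    have hmpos : 0 < m := by
      obtain ⟨j, hj⟩ : ∃ j, v j ≠ 0 := by
        by_contra hcon
        push Not at hcon
        exact hv0 (Finsupp.ext hcon)
      rw [← hvm]
      refine lt_of_lt_of_le ?_ (Finset.single_le_sum (f := fun j => w j * v j)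
        (fun _ _ => Nat.zero_le _) (Finset.mem_univ j))
      exact Nat.mul_pos (hw j) (Nat.pos_of_ne_zero hj)
    have hdeg : v.degree ≤ K := by
      by_contra hcon
      push Not at hcon
      have h1 : m * v.degree ≤ K * m := by
        calc m * v.degree = ∑ j, m * v j := by rw [Finsupp.degree_eq_sum, Finset.mul_sum]
          _ ≤ ∑ j, K * (w j * v j) := Finset.sum_le_sum fun j _ => by
              have := Nat.mul_le_mul_right (v j) (hmK j)
              calc m * v j ≤ w j * K * v j := this
                _ = K * (w j * v j) := by ring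
          _ = K * m := by rw [← Finset.mul_sum, hvm]
      have h2 : m * (K + 1) ≤ m * v.degree := Nat.mul_le_mul_left _ hcon
      nlinarith
    by_cases hve : v = e111
    · exact Or.inl hve
    right
    have hvF : coeff v F ≠ 0 := by
      rw [← hco v hdeg]
      exact MvPolynomial.mem_support_iff.1 hv
    obtain ⟨i, hi⟩ : ∃ i, v = Finsupp.single i (v i) := by
      by_contra hcon
      push Not at hcon
      exact hvF (hF.mix v hve hcon)
    refine ⟨i, ?_⟩
    have h1 : n i ≤ v i := hn2 i _ (by rw [← hi]; exact hvF)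
    have h2 : w i * v i = m := by
      have h5 := hvm
      rw [hi, hws] at h5
      exact h5
    have h3 : v i ≤ n i := by
      have h4 := hm1 i
      rw [← h2] at h4
      exact Nat.le_of_mul_le_mul_left h4 (hw i)
    rw [hi]
    congr 1
    omega
  · intro w m hw hall hW
    have h0 := (hall 0).2
    have h1 := (hall 1).2
    have h2 := (hall 2).2
    have e0 : w 0 * 3 ≤ m := h0 ▸ Nat.mul_le_mul_left _ (hn3 0)
    have e1 : w 1 * 3 ≤ m := h1 ▸ Nat.mul_le_mul_left _ (hn3 1)
    have e2 : w 2 * 4 ≤ m := h2 ▸ Nat.mul_le_mul_left _ hn4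
    have e3 := hw 0
    omega

end TN

end MPb07157
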