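import Pool.Agent.Lib.MP_b07157_agQV.TnE
import Pool.Agent.Lib.MP_b07157_agR.Cor

/-!
# Nodal tangent cubics: the normal forms in which an axis does not occur
-/

noncomputable section

namespace MPb07157

namespace TN

open MvPowerSeries IFT QV

/-- The part of `F` on the axis `i`. -/
def ax (F : RR) (i : Fin 3) : RR := fun v => if v = Finsupp.single i (v i) then coeff v F else 0

theorem coeff_ax (F : RR) (i : Fin 3) (v : Fin 3 →₀ ℕ) :
    coeff v (ax F i) = if v = Finsupp.single i (v i) then coeff v F else 0 := rfl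

theorem coeff_ax_single (F : RR) (i : Fin 3) (n : ℕ) :
    coeff (Finsupp.single i n) (ax F i) = coeff (Finsupp.single i n) F := by
  rw [coeff_ax, if_pos]
  rw [Finsupp.single_eq_same]

theorem eq_sum_ax {F : RR} (hF : NFS F) : F = monomial e111 (1 : ℂ) + ∑ i, ax F i := by
  classical
  ext v
  rw [map_add, map_sum, coeff_monomial]
  simp only [coeff_ax]
  by_cases h1 : v = e111
  · rw [if_pos h1, Finset.sum_eq_zero, add_zero, h1, hF.one]
    intro i _
    rw [if_neg]
    rw [h1]
    exact e111_ne i _
  rw [if_neg h1, zero_add]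
  by_cases h2 : ∃ i, v = Finsupp.single i (v i)
  · obtain ⟨i, hi⟩ := h2
    rcases Nat.eq_zero_or_pos (v i) with h3 | h3
    · have h4 : v = 0 := by rw [hi, h3, Finsupp.single_zero]
      have h5 : coeff v F = 0 := hF.low v (by rw [h4]; simp)
      rw [h5]
      simp
    · rw [Finset.sum_eq_single i, if_pos hi]
      · intro j _ hj
        rw [if_neg]
        intro h4
        have h5 : v i = 0 := by
          rw [h4, Finsupp.single_eq_of_ne hj.symm]
        omega
      · intro h
        exact absurd (Finset.mem_univ i) h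
  · push Not at h2
    rw [hF.mix v h1 h2, Finset.sum_eq_zero]
    intro i _
    rw [if_neg (h2 i)]

theorem exists_axis {F : RR} (hF : NFS F) (i : Fin 3) :
    ∃ (n : ℕ) (ε : ℂ) (w : RR), 3 ≤ n ∧ constantCoeff w ≠ 0 ∧
      ((∀ m, coeff (Finsupp.single i m) F = 0) → ε = 0) ∧ C ε * (X i * w) ^ n = ax F i := by
  classical
  by_cases h : ∀ m, coeff (Finsupp.single i m) F = 0
  · refine ⟨3, 0, 1, le_rfl, ?_, fun _ => rfl, ?_⟩
    · rw [map_one]
      exact one_ne_zero
    · rw [map_zero, zero_mul]
      ext v
      rw [coeff_ax, map_zero]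
      split_ifs with h1
      · rw [h1, h]
      · rfl
  · push Not at h
    set n := Nat.find h with hn
    have hn1 : coeff (Finsupp.single i n) F ≠ 0 := Nat.find_spec h
    have hn2 : ∀ m < n, coeff (Finsupp.single i m) F = 0 := fun m hm => by
      by_contra hc
      exact Nat.find_min h hm hc
    have hn3 : 3 ≤ n := by
      by_contra hc
      exact hn1 (hF.low _ (by rw [single_deg]; omega))
    have hdvd : (X i : RR) ^ n ∣ ax F i := by
      rw [X_pow_dvd_iff]
      intro m hm
      rw [coeff_ax]
      split_ifs with h1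
      · rw [h1]
        exact hn2 _ hm
      · rfl
    obtain ⟨U, hU⟩ := hdvd
    have hU0 : constantCoeff U = coeff (Finsupp.single i n) F := by
      rw [← coeff_ax_single, hU, X_pow_eq, ← coeff_zero_eq_constantCoeff_apply]
      have h1 := coeff_add_monomial_mul (Finsupp.single i n) 0 U (1 : ℂ)
      rw [add_zero, one_mul] at h1
      exact h1.symm
    set u := constantCoeff U with hu
    have hu0 : u ≠ 0 := by rw [hU0]; exact hn1
    obtain ⟨H, hH1, hH2⟩ := ARL.exists_root (N := n) (by omega) (U := C u⁻¹ * U) (by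
      rw [map_mul, constantCoeff_C, ← hu, inv_mul_cancel₀ hu0])
    obtain ⟨c, hc⟩ := IsAlgClosed.exists_pow_nat_eq u (n := n) (by omega)
    have hc0 : c ≠ 0 := by
      rintro rfl
      rw [zero_pow (by omega)] at hc
      exact hu0 hc.symm
    refine ⟨n, 1, C c * H, hn3, ?_, fun h1 => absurd (h1 n) hn1, ?_⟩
    · rw [map_mul, constantCoeff_C, hH1, mul_one]
      exact hc0
    · rw [hU, map_one, one_mul, mul_pow, mul_pow, hH2, ← map_pow, hc, ← mul_assoc (C u), ← map_mul,
        mul_inv_cancel₀ hu0, map_one, one_mul]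

theorem caseB {g : MvPolynomial (Fin 3) ℂ} {a : Fin 3 → RR} (ha : ∀ i, Ge 2 (a i - X i)) {F : RR}
    (hF : NFS F) (hg : MvPolynomial.aeval a g = F) {i0 : Fin 3}
    (hz : ∀ n, coeff (Finsupp.single i0 n) F = 0) {r : ℕ} {e : Fin r → ℕ}
    (he : ∀ i, 2 ≤ e i) : SmcLoc (SS.sg g e) := by
  classical
  obtain ⟨E, hE⟩ := exists_E ha
  choose n ε w hn hw hε hax using exists_axis hF
  have hε0 : ε i0 = 0 := hε i0 hz
  set P : RR := ∏ j ∈ Finset.univ.erase i0, w j with hP
  have hP0 : constantCoeff P ≠ 0 := by
    rw [hP, map_prod]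
    exact Finset.prod_ne_zero_iff.2 fun j _ => hw j
  set W : Fin 3 → RR := fun i => if i = i0 then P⁻¹ else w i with hW
  have hW1 : ∏ i, W i = 1 := by
    rw [← Finset.mul_prod_erase Finset.univ W (Finset.mem_univ i0)]
    have h1 : ∏ j ∈ Finset.univ.erase i0, W j = P := by
      rw [hP]
      refine Finset.prod_congr rfl fun j hj => ?_
      rw [hW]
      simp only
      rw [if_neg (Finset.ne_of_mem_erase hj)]
    have h2 : W i0 = P⁻¹ := if_pos rfl
    rw [h1, h2, MvPowerSeries.inv_mul_cancel _ hP0]
  have hW0 : ∀ i, constantCoeff (W i) ≠ 0 := by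
    intro i h
    have h1 : constantCoeff (∏ i, W i) = 0 := by
      rw [map_prod]
      exact Finset.prod_eq_zero (Finset.mem_univ i) h
    rw [hW1, map_one] at h1
    exact one_ne_zero h1
  obtain ⟨E', hE'⟩ := IFT.exists_equiv (a := fun i => X i * W i) (fun i => by
      rw [map_mul, constantCoeff_X, zero_mul]) (by
    have h1 : (Matrix.of fun i j => coeff (Finsupp.single j 1) (X i * W i)) =
        Matrix.diagonal fun i => constantCoeff (W i) := by
      ext i j
      rw [Matrix.of_apply, X, coeff_monomial_mul, one_mul]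
      by_cases hij : i = j
      · subst hij
        rw [if_pos le_rfl, tsub_self, Matrix.diagonal_apply_eq, coeff_zero_eq_constantCoeff_apply]
      · rw [if_neg, Matrix.diagonal_apply_ne _ hij]
        intro h2
        have h3 := h2 i
        rw [Finsupp.single_eq_same, Finsupp.single_eq_of_ne hij] at h3
        omega
    rw [h1, Matrix.det_diagonal]
    exact Finset.prod_ne_zero_iff.2 fun i _ => hW0 i)
  set F0 : MvPolynomial (Fin 3) ℂ := MvPolynomial.monomial e111 1 +
    ∑ i, MvPolynomial.monomial (Finsupp.single i (n i)) (ε i) with hF0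
  have hEF : E' (F0 : RR) = F := by
    rw [hE', hF0, map_add, map_sum, MvPolynomial.aeval_monomial, map_one, one_mul,
      Finsupp.prod_fintype _ _ (fun i => pow_zero _)]
    simp only [e111_apply, pow_one]
    rw [Finset.prod_mul_distrib, hW1, mul_one]
    conv_rhs => rw [eq_sum_ax hF]
    refine congrArg₂ _ ?_ (Finset.sum_congr rfl fun i _ => ?_)
    · rw [mono_eq, e111_apply, e111_apply, e111_apply, Fin.prod_univ_three, pow_one, pow_one,
        pow_one]
    · rw [MvPolynomial.aeval_monomial, Finsupp.prod_single_index (h := fun i k => (X i * W i : RR) ^ k)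
        (pow_zero _), ← c_eq_algebraMap, ← hax i]
      by_cases hi : i = i0
      · rw [hi, hε0, map_zero, zero_mul, zero_mul]
      · have h2 : W i = w i := by
          rw [hW]
          simp only
          rw [if_neg hi]
        rw [h2]
  refine smcLoc_of_formal (G := F0) E E' (by rw [hE, hg, hEF]) ?_
  have hco : ∀ v, MvPolynomial.coeff v F0 = (if e111 = v then 1 else 0) +
      ∑ i, if Finsupp.single i (n i) = v then ε i else 0 := by
    intro v
    rw [hF0, MvPolynomial.coeff_add, MvPolynomial.coeff_sum, MvPolynomial.coeff_monomial]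
    simp only [MvPolynomial.coeff_monomial]
  refine SuLoc.smcLoc_sg (ND.suLoc (nd_T (n := n) ?_ (fun i => by have := hn i; omega) ?_
    ?_ ?_)) he
  · rw [hco, if_pos rfl, Finset.sum_eq_zero, add_zero]
    intro i _
    rw [if_neg (e111_ne i _).symm]
  · rw [hco, if_neg, Finset.sum_eq_zero, add_zero]
    · intro i _
      rw [if_neg]
      intro h
      have h1 := hn i
      rw [Finsupp.single_eq_zero] at h
      omega
    · intro h
      have h1 := e111_apply 0
      rw [h] at h1
      exact zero_ne_one h1
  · intro _ _ _ _ v hv _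
    by_contra hcon
    push Not at hcon
    refine MvPolynomial.mem_support_iff.1 hv ?_
    rw [hco, if_neg (Ne.symm hcon.1), Finset.sum_eq_zero, add_zero]
    intro i _
    rw [if_neg (Ne.symm (hcon.2 i))]
  · intro w' m _ hall _
    refine (hall i0).1 ?_
    rw [hco, if_neg (e111_ne i0 _), Finset.sum_eq_single i0, if_pos rfl, hε0, add_zero]
    · intro i _ hi
      rw [if_neg (single_ne hi (by have := hn i; omega))]
    · intro h
      exact absurd (Finset.mem_univ i0) h

/-- **Nodal tangent cubics**: normalised form. -/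
theorem smcLoc_norm {α β : ℂ} {g : MvPolynomial (Fin 3) ℂ} (hg : Ge 4 ((g : RR) - c3 α β)) {r : ℕ}
    {e : Fin r → ℕ} (he : ∀ i, 2 ≤ e i) : SmcLoc (SS.sg g e) := by
  obtain ⟨a, A, ha, hA, hA4, h⟩ := normal_form hg
  have hF := nfs α β hA hA4
  by_cases hne : ∀ i, ∃ n, coeff (Finsupp.single i n) (c3 α β + A) ≠ 0
  · exact caseA ha hF h hne he
  · push Not at hne
    obtain ⟨i0, hi0⟩ := hne
    exact caseB ha hF h hi0 he

end TN

end MPb07157
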