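import Pool.Agent.Lib.MP_b07157_agQV.Mv
import Pool.Agent.Lib.MP_b07157_agQV.UDefs

/-!
# Quartic polynomials with triple points, three concurrent lines: changes of coordinates
-/

noncomputable section

namespace MPb07157

open MvPolynomial

namespace QV

open QU

variable {c0 c1 c2 c3 b0 b1 b2 b3 b4 a0 a1 a2 a3 e0 e1 e2 l0 l1 k : ℂ}

set_option linter.unusedVariables false

/-- The change of coordinates `x → p x + q z`, `z → r x + s z`. -/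
theorem mvG (p q r s : ℂ) (hd : p * s - q * r ≠ 0) {c0' c1' c2' c3' b2' b3' a2' a3' e2' : ℂ}
    (hc0 : c0' = c0 * s ^ 3 + c1 * q * s ^ 2 + c2 * q ^ 2 * s + c3 * q ^ 3)
    (hc1 : c1' = 3 * c0 * r * s ^ 2 + 2 * c1 * q * r * s + c1 * p * s ^ 2 + c2 * q ^ 2 * r + 2 * c2 * p * q * s + 3 * c3 * p * q ^ 2)
    (hc2 : c2' = 3 * c0 * r ^ 2 * s + c1 * q * r ^ 2 + 2 * c1 * p * r * s + 2 * c2 * p * q * r + c2 * p ^ 2 * s + 3 * c3 * p ^ 2 * q)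
    (hc3 : c3' = c0 * r ^ 3 + c1 * p * r ^ 2 + c2 * p ^ 2 * r + c3 * p ^ 3)
    (hb3 : b3' = b3 * s + a3 * q)
    (ha3 : a3' = b3 * r + a3 * p)
    (hb2 : b2' = b2 * s ^ 2 + a2 * q * s + e2 * q ^ 2)
    (ha2 : a2' = 2 * b2 * r * s + a2 * q * r + a2 * p * s + 2 * e2 * p * q)
    (he2 : e2' = b2 * r ^ 2 + a2 * p * r + e2 * p ^ 2)
    (H : ∀ b0' b1' a0' a1' e0' e1' l0' l1' k' : ℂ, SuLoc (cf c0' c1' c2' c3' +
      qf b0' b1' b2' b3' b4 a0' a1' a2' a3' e0' e1' e2' l0' l1' k')) :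
    SuLoc (cf c0 c1 c2 c3 + qf b0 b1 b2 b3 b4 a0 a1 a2 a3 e0 e1 e2 l0 l1 k) := by
  refine suLoc_lin !![p, 0, q; 0, 1, 0; r, 0, s] ?_ ?_
    (H
      (b0 * s ^ 4 + a0 * q * s ^ 3 + e0 * q ^ 2 * s ^ 2 + l0 * q ^ 3 * s + k * q ^ 4)
      (b1 * s ^ 3 + a1 * q * s ^ 2 + e1 * q ^ 2 * s + l1 * q ^ 3)
      (4 * b0 * r * s ^ 3 + 3 * a0 * q * r * s ^ 2 + a0 * p * s ^ 3 + 2 * e0 * q ^ 2 * r * s + 2 * e0 * p * q * s ^ 2 + l0 * q ^ 3 * r + 3 * l0 * p * q ^ 2 * s + 4 * k * p * q ^ 3)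
      (3 * b1 * r * s ^ 2 + 2 * a1 * q * r * s + a1 * p * s ^ 2 + e1 * q ^ 2 * r + 2 * e1 * p * q * s + 3 * l1 * p * q ^ 2)
      (6 * b0 * r ^ 2 * s ^ 2 + 3 * a0 * q * r ^ 2 * s + 3 * a0 * p * r * s ^ 2 + e0 * q ^ 2 * r ^ 2 + 4 * e0 * p * q * r * s + e0 * p ^ 2 * s ^ 2 + 3 * l0 * p * q ^ 2 * r + 3 * l0 * p ^ 2 * q * s + 6 * k * p ^ 2 * q ^ 2)
      (3 * b1 * r ^ 2 * s + a1 * q * r ^ 2 + 2 * a1 * p * r * s + 2 * e1 * p * q * r + e1 * p ^ 2 * s + 3 * l1 * p ^ 2 * q)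
      (4 * b0 * r ^ 3 * s + a0 * q * r ^ 3 + 3 * a0 * p * r ^ 2 * s + 2 * e0 * p * q * r ^ 2 + 2 * e0 * p ^ 2 * r * s + 3 * l0 * p ^ 2 * q * r + l0 * p ^ 3 * s + 4 * k * p ^ 3 * q)
      (b1 * r ^ 3 + a1 * p * r ^ 2 + e1 * p ^ 2 * r + l1 * p ^ 3)
      (b0 * r ^ 4 + a0 * p * r ^ 3 + e0 * p ^ 2 * r ^ 2 + l0 * p ^ 3 * r + k * p ^ 4))
  · intro h
    apply hd
    rw [← h]
    simp [Matrix.det_fin_three]
  · intro x y z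
    subst hc0 hc1 hc2 hc3 hb3 ha3 hb2 ha2 he2
    simp [cf, qf]
    ring

/-- The change of coordinates `y → y + s z`. -/
theorem mvY (s : ℂ) {b1' a2' : ℂ} (hb1 : b1' = b1 + 2 * b2 * s) (ha2 : a2' = a2 + 3 * a3 * s)
    (H : ∀ b0' a0' a1' e0' e1' l0' : ℂ, SuLoc (cf c0 c1 c2 c3 +
      qf b0' b1' b2 0 0 a0' a1' a2' a3 e0' e1' e2 l0' l1 k)) :
    SuLoc (cf c0 c1 c2 c3 + qf b0 b1 b2 0 0 a0 a1 a2 a3 e0 e1 e2 l0 l1 k) := by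
  refine suLoc_lin !![1, 0, 0; 0, 1, s; 0, 0, 1] (by simp [Matrix.det_fin_three]) ?_
    (H (b0 + b1 * s + b2 * s ^ 2) (a0 + a1 * s + a2 * s ^ 2 + a3 * s ^ 3)
      (a1 + 2 * a2 * s + 3 * a3 * s ^ 2) (e0 + e1 * s + e2 * s ^ 2) (e1 + 2 * e2 * s)
      (l0 + l1 * s))
  intro x y z
  subst hb1 ha2
  simp [cf, qf]
  ring

theorem BC.mv {p q r s : ℂ} (hd : p * s - q * r ≠ 0) {c0' c1' c2' c3' : ℂ}
    (hc0 : c0' = c0 * s ^ 3 + c1 * q * s ^ 2 + c2 * q ^ 2 * s + c3 * q ^ 3)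
    (hc1 : c1' = 3 * c0 * r * s ^ 2 + 2 * c1 * q * r * s + c1 * p * s ^ 2 + c2 * q ^ 2 * r + 2 * c2 * p * q * s + 3 * c3 * p * q ^ 2)
    (hc2 : c2' = 3 * c0 * r ^ 2 * s + c1 * q * r ^ 2 + 2 * c1 * p * r * s + 2 * c2 * p * q * r + c2 * p ^ 2 * s + 3 * c3 * p ^ 2 * q)
    (hc3 : c3' = c0 * r ^ 3 + c1 * p * r ^ 2 + c2 * p ^ 2 * r + c3 * p ^ 3)
    (h : BC c0 c1 c2 c3) : BC c0' c1' c2' c3' := by
  subst hc0 hc1 hc2 hc3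
  intro u v h1 h2
  obtain ⟨hx, hz⟩ := h (p * u + q * v) (r * u + s * v)
    (mul_left_cancel₀ hd (by linear_combination s * h1 - r * h2))
    (mul_left_cancel₀ hd (by linear_combination p * h2 - q * h1))
  exact ⟨mul_left_cancel₀ hd (by linear_combination s * hx - q * hz),
    mul_left_cancel₀ hd (by linear_combination p * hz - r * hx)⟩

theorem BC.nd3 (h : BC c0 c1 c2 c3) : ND3 c0 c1 c2 c3 := by
  intro u v hu hv h1 h2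
  exact absurd (h u v (mul_left_cancel₀ hu (by linear_combination h1))
    (mul_left_cancel₀ hv (by linear_combination h2))).1 hu

theorem BC.left (h : BC c0 c1 c2 c3) (h3 : c3 = 0) : c2 ≠ 0 := by
  rintro rfl
  subst h3
  exact one_ne_zero (h 1 0 (by ring) (by ring)).1

theorem BC.right (h : BC c0 c1 c2 c3) (h0 : c0 = 0) : c1 ≠ 0 := by
  rintro rfl
  subst h0
  exact one_ne_zero (h 0 1 (by ring) (by ring)).2

end QV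

end MPb07157
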