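import Pool.Agent.Lib.MP_b07157_agQV.Fam5

/-!
# The exceptional types: five variables
-/

noncomputable section

namespace MPb07157

open MvPolynomial

namespace QV

open QU

set_option linter.unusedVariables false
set_option linter.unusedSimpArgs false
set_option linter.unusedTactic false

/-- The exceptional type for `c = x^2 y`. -/
theorem nd_XI {α β a3 e1 e2 l1 k0 : ℂ} (hα : α ≠ 0) (hβ : β ≠ 0) :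
    SuLoc (C (1) * (X 3 ^ 2) + C (1) * (X 4 ^ 2) + C (α) * (X 1 ^ 2 * X 3) + C (β) * (X 0 * X 2 * X 3) + C (1) * (X 0 ^ 2 * X 1) + C (a3) * (X 0 * X 1 ^ 3) + C (e1) * (X 0 ^ 2 * X 1 * X 2) + C (e2) * (X 0 ^ 2 * X 1 ^ 2) + C (l1) * (X 0 ^ 3 * X 1) + C (k0) * (X 0 ^ 4) : MvPolynomial (Fin 5) ℂ) := by
  refine suLoc_fam5 ![![0, 0, 0, 2, 0], ![0, 0, 0, 0, 2], ![0, 2, 0, 1, 0], ![1, 0, 1, 1, 0],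
      ![2, 1, 0, 0, 0], ![1, 3, 0, 0, 0], ![2, 1, 1, 0, 0], ![2, 2, 0, 0, 0], ![3, 1, 0, 0, 0],
      ![4, 0, 0, 0, 0]] (by decide)
    ![1, 1, α, β, 1, a3, e1, e2, l1, k0] ?_ ⟨0, one_ne_zero⟩ (by decide) ?_
  · simp [Fin.sum_univ_succ]
    try ring
  intro p q r s t m T pp pq pr ps pt hm hT hne f0 f1 f2 f3 f4
  have m0 : m ≤ p * 0 + q * 0 + r * 0 + s * 2 + t * 0 := hm 0 one_ne_zero
  have m1 : m ≤ p * 0 + q * 0 + r * 0 + s * 0 + t * 2 := hm 1 one_ne_zero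
  have m2 : m ≤ p * 0 + q * 2 + r * 0 + s * 1 + t * 0 := hm 2 hα
  have m3 : m ≤ p * 1 + q * 0 + r * 1 + s * 1 + t * 0 := hm 3 hβ
  have m4 : m ≤ p * 2 + q * 1 + r * 0 + s * 0 + t * 0 := hm 4 one_ne_zero
  have t0 : T 0 = 0 ∨ T 0 ≠ 0 ∧ (1 : ℂ) ≠ 0 ∧ p * 0 + q * 0 + r * 0 + s * 2 + t * 0 = m := hT 0
  have t1 : T 1 = 0 ∨ T 1 ≠ 0 ∧ (1 : ℂ) ≠ 0 ∧ p * 0 + q * 0 + r * 0 + s * 0 + t * 2 = m := hT 1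
  have t2 : T 2 = 0 ∨ T 2 ≠ 0 ∧ (α : ℂ) ≠ 0 ∧ p * 0 + q * 2 + r * 0 + s * 1 + t * 0 = m := hT 2
  have t3 : T 3 = 0 ∨ T 3 ≠ 0 ∧ (β : ℂ) ≠ 0 ∧ p * 1 + q * 0 + r * 1 + s * 1 + t * 0 = m := hT 3
  have t4 : T 4 = 0 ∨ T 4 ≠ 0 ∧ (1 : ℂ) ≠ 0 ∧ p * 2 + q * 1 + r * 0 + s * 0 + t * 0 = m := hT 4
  have t5 : T 5 = 0 ∨ T 5 ≠ 0 ∧ (a3 : ℂ) ≠ 0 ∧ p * 1 + q * 3 + r * 0 + s * 0 + t * 0 = m := hT 5
  have t6 : T 6 = 0 ∨ T 6 ≠ 0 ∧ (e1 : ℂ) ≠ 0 ∧ p * 2 + q * 1 + r * 1 + s * 0 + t * 0 = m := hT 6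
  have t7 : T 7 = 0 ∨ T 7 ≠ 0 ∧ (e2 : ℂ) ≠ 0 ∧ p * 2 + q * 2 + r * 0 + s * 0 + t * 0 = m := hT 7
  have t8 : T 8 = 0 ∨ T 8 ≠ 0 ∧ (l1 : ℂ) ≠ 0 ∧ p * 3 + q * 1 + r * 0 + s * 0 + t * 0 = m := hT 8
  have t9 : T 9 = 0 ∨ T 9 ≠ 0 ∧ (k0 : ℂ) ≠ 0 ∧ p * 4 + q * 0 + r * 0 + s * 0 + t * 0 = m := hT 9
  have hn : ¬ (T 0 = 0 ∧ T 1 = 0 ∧ T 2 = 0 ∧ T 3 = 0 ∧ T 4 = 0 ∧ T 5 = 0 ∧ T 6 = 0 ∧ T 7 = 0 ∧ T 8 = 0 ∧ T 9 = 0) := by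
    rintro ⟨_, _, _, _, _, _, _, _, _, _⟩
    obtain ⟨k, hk⟩ := hne
    fin_cases k <;> exact hk (by assumption)
  have g0 : (1 : ℂ) * T 3 + (2 : ℂ) * T 4 + (1 : ℂ) * T 5 + (2 : ℂ) * T 6 + (2 : ℂ) * T 7 + (3 : ℂ) * T 8 + (4 : ℂ) * T 9 = 0 := by
    simpa [Fin.sum_univ_succ, add_assoc] using f0
  have g1 : (2 : ℂ) * T 2 + (1 : ℂ) * T 4 + (3 : ℂ) * T 5 + (1 : ℂ) * T 6 + (2 : ℂ) * T 7 + (1 : ℂ) * T 8 = 0 := by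
    simpa [Fin.sum_univ_succ, add_assoc] using f1
  have g2 : (1 : ℂ) * T 3 + (1 : ℂ) * T 6 = 0 := by
    simpa [Fin.sum_univ_succ, add_assoc] using f2
  have g3 : (2 : ℂ) * T 0 + (1 : ℂ) * T 2 + (1 : ℂ) * T 3 = 0 := by
    simpa [Fin.sum_univ_succ, add_assoc] using f3
  have g4 : (2 : ℂ) * T 1 = 0 := by
    simpa [Fin.sum_univ_succ, add_assoc] using f4
  clear hm hT hne f0 f1 f2 f3 f4
  all_goals rcases t6 with t6 | ⟨n6, _, w6⟩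
  all_goals try omega
  all_goals rcases t7 with t7 | ⟨n7, _, w7⟩
  all_goals try omega
  all_goals rcases t8 with t8 | ⟨n8, _, w8⟩
  all_goals try omega
  all_goals rcases t0 with t0 | ⟨n0, _, w0⟩
  all_goals try omega
  all_goals rcases t1 with t1 | ⟨n1, _, w1⟩
  all_goals try omega
  all_goals rcases t2 with t2 | ⟨n2, _, w2⟩
  all_goals try omega
  all_goals rcases t3 with t3 | ⟨n3, _, w3⟩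
  all_goals try omega
  all_goals rcases t4 with t4 | ⟨n4, _, w4⟩
  all_goals try omega
  all_goals rcases t5 with t5 | ⟨n5, _, w5⟩
  all_goals try omega
  all_goals rcases t9 with t9 | ⟨n9, _, w9⟩
  all_goals try omega
  all_goals clear pp pq pr ps pt m0 m1 m2 m3 m4
  all_goals grind

/-- The exceptional type for `c = x^3`. -/
theorem nd_XII {α β e1 e2 l0 l1 k0 : ℂ} (hα : α ≠ 0) (hβ : β ≠ 0) :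
    SuLoc (C (1) * (X 3 ^ 2) + C (1) * (X 4 ^ 2) + C (α) * (X 1 ^ 2 * X 3) + C (β) * (X 0 * X 2 * X 3) + C (1) * (X 0 ^ 3) + C (e1) * (X 0 ^ 2 * X 1 * X 2) + C (e2) * (X 0 ^ 2 * X 1 ^ 2) + C (l0) * (X 0 ^ 3 * X 2) + C (l1) * (X 0 ^ 3 * X 1) + C (k0) * (X 0 ^ 4) : MvPolynomial (Fin 5) ℂ) := by
  refine suLoc_fam5 ![![0, 0, 0, 2, 0], ![0, 0, 0, 0, 2], ![0, 2, 0, 1, 0], ![1, 0, 1, 1, 0],
      ![3, 0, 0, 0, 0], ![2, 1, 1, 0, 0], ![2, 2, 0, 0, 0], ![3, 0, 1, 0, 0], ![3, 1, 0, 0, 0],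
      ![4, 0, 0, 0, 0]] (by decide)
    ![1, 1, α, β, 1, e1, e2, l0, l1, k0] ?_ ⟨0, one_ne_zero⟩ (by decide) ?_
  · simp [Fin.sum_univ_succ]
    try ring
  intro p q r s t m T pp pq pr ps pt hm hT hne f0 f1 f2 f3 f4
  have m0 : m ≤ p * 0 + q * 0 + r * 0 + s * 2 + t * 0 := hm 0 one_ne_zero
  have m1 : m ≤ p * 0 + q * 0 + r * 0 + s * 0 + t * 2 := hm 1 one_ne_zero
  have m2 : m ≤ p * 0 + q * 2 + r * 0 + s * 1 + t * 0 := hm 2 hα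
  have m3 : m ≤ p * 1 + q * 0 + r * 1 + s * 1 + t * 0 := hm 3 hβ
  have m4 : m ≤ p * 3 + q * 0 + r * 0 + s * 0 + t * 0 := hm 4 one_ne_zero
  have t0 : T 0 = 0 ∨ T 0 ≠ 0 ∧ (1 : ℂ) ≠ 0 ∧ p * 0 + q * 0 + r * 0 + s * 2 + t * 0 = m := hT 0
  have t1 : T 1 = 0 ∨ T 1 ≠ 0 ∧ (1 : ℂ) ≠ 0 ∧ p * 0 + q * 0 + r * 0 + s * 0 + t * 2 = m := hT 1
  have t2 : T 2 = 0 ∨ T 2 ≠ 0 ∧ (α : ℂ) ≠ 0 ∧ p * 0 + q * 2 + r * 0 + s * 1 + t * 0 = m := hT 2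
  have t3 : T 3 = 0 ∨ T 3 ≠ 0 ∧ (β : ℂ) ≠ 0 ∧ p * 1 + q * 0 + r * 1 + s * 1 + t * 0 = m := hT 3
  have t4 : T 4 = 0 ∨ T 4 ≠ 0 ∧ (1 : ℂ) ≠ 0 ∧ p * 3 + q * 0 + r * 0 + s * 0 + t * 0 = m := hT 4
  have t5 : T 5 = 0 ∨ T 5 ≠ 0 ∧ (e1 : ℂ) ≠ 0 ∧ p * 2 + q * 1 + r * 1 + s * 0 + t * 0 = m := hT 5
  have t6 : T 6 = 0 ∨ T 6 ≠ 0 ∧ (e2 : ℂ) ≠ 0 ∧ p * 2 + q * 2 + r * 0 + s * 0 + t * 0 = m := hT 6
  have t7 : T 7 = 0 ∨ T 7 ≠ 0 ∧ (l0 : ℂ) ≠ 0 ∧ p * 3 + q * 0 + r * 1 + s * 0 + t * 0 = m := hT 7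
  have t8 : T 8 = 0 ∨ T 8 ≠ 0 ∧ (l1 : ℂ) ≠ 0 ∧ p * 3 + q * 1 + r * 0 + s * 0 + t * 0 = m := hT 8
  have t9 : T 9 = 0 ∨ T 9 ≠ 0 ∧ (k0 : ℂ) ≠ 0 ∧ p * 4 + q * 0 + r * 0 + s * 0 + t * 0 = m := hT 9
  have hn : ¬ (T 0 = 0 ∧ T 1 = 0 ∧ T 2 = 0 ∧ T 3 = 0 ∧ T 4 = 0 ∧ T 5 = 0 ∧ T 6 = 0 ∧ T 7 = 0 ∧ T 8 = 0 ∧ T 9 = 0) := by
    rintro ⟨_, _, _, _, _, _, _, _, _, _⟩
    obtain ⟨k, hk⟩ := hne
    fin_cases k <;> exact hk (by assumption)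
  have g0 : (1 : ℂ) * T 3 + (3 : ℂ) * T 4 + (2 : ℂ) * T 5 + (2 : ℂ) * T 6 + (3 : ℂ) * T 7 + (3 : ℂ) * T 8 + (4 : ℂ) * T 9 = 0 := by
    simpa [Fin.sum_univ_succ, add_assoc] using f0
  have g1 : (2 : ℂ) * T 2 + (1 : ℂ) * T 5 + (2 : ℂ) * T 6 + (1 : ℂ) * T 8 = 0 := by
    simpa [Fin.sum_univ_succ, add_assoc] using f1
  have g2 : (1 : ℂ) * T 3 + (1 : ℂ) * T 5 + (1 : ℂ) * T 7 = 0 := by
    simpa [Fin.sum_univ_succ, add_assoc] using f2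
  have g3 : (2 : ℂ) * T 0 + (1 : ℂ) * T 2 + (1 : ℂ) * T 3 = 0 := by
    simpa [Fin.sum_univ_succ, add_assoc] using f3
  have g4 : (2 : ℂ) * T 1 = 0 := by
    simpa [Fin.sum_univ_succ, add_assoc] using f4
  clear hm hT hne f0 f1 f2 f3 f4
  all_goals rcases t7 with t7 | ⟨n7, _, w7⟩
  all_goals try omega
  all_goals rcases t8 with t8 | ⟨n8, _, w8⟩
  all_goals try omega
  all_goals rcases t9 with t9 | ⟨n9, _, w9⟩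
  all_goals try omega
  all_goals rcases t0 with t0 | ⟨n0, _, w0⟩
  all_goals try omega
  all_goals rcases t1 with t1 | ⟨n1, _, w1⟩
  all_goals try omega
  all_goals rcases t2 with t2 | ⟨n2, _, w2⟩
  all_goals try omega
  all_goals rcases t3 with t3 | ⟨n3, _, w3⟩
  all_goals try omega
  all_goals rcases t4 with t4 | ⟨n4, _, w4⟩
  all_goals try omega
  all_goals rcases t5 with t5 | ⟨n5, _, w5⟩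
  all_goals try omega
  all_goals rcases t6 with t6 | ⟨n6, _, w6⟩
  all_goals try omega
  all_goals clear pp pq pr ps pt m0 m1 m2 m3 m4
  all_goals grind

end QV

end MPb07157
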